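import Pool.Agent.Lib.MP_cb8a44_nt.SX.Spec

set_option autoImplicit false
set_option linter.unusedSectionVars false

open NumberField Module
open scoped nonZeroDivisors

namespace Pool.Agent.Lib.MPcb8a44.SX.GSMM

variable {K E : Type} [Field K] [NumberField K] [Field E] [NumberField E] [Algebra K E] {t : K}

theorem coe_s (q : QE K E t) (z : 𝓞 E) : ((q.s z : 𝓞 E) : E) = q.σ (z : E) := rfl

theorem coe_alg (x : 𝓞 K) : ((algebraMap (𝓞 K) (𝓞 E) x : 𝓞 E) : E) = algebraMap K E (x : K) := rfl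

theorem cmul {F : Type} [Field F] (a b : 𝓞 F) : ((a * b : 𝓞 F) : F) = a * b := rfl
theorem cadd {F : Type} [Field F] (a b : 𝓞 F) : ((a + b : 𝓞 F) : F) = a + b := rfl
theorem csub {F : Type} [Field F] (a b : 𝓞 F) : ((a - b : 𝓞 F) : F) = a - b := rfl
theorem cneg {F : Type} [Field F] (a : 𝓞 F) : ((-a : 𝓞 F) : F) = -a := rfl
theorem cnat {F : Type} [Field F] (a : ℕ) : ((a : 𝓞 F) : F) = a := rfl

theorem yB (q : QE K E t) {B : Ideal (𝓞 E)} {y : 𝓞 K}
    (hB : B * B.map q.s = Ideal.span {algebraMap (𝓞 K) (𝓞 E) y}) :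
    algebraMap (𝓞 K) (𝓞 E) y ∈ B := by
  have h : algebraMap (𝓞 K) (𝓞 E) y ∈ B * B.map q.s := by
    rw [hB]
    exact Ideal.mem_span_singleton_self _
  have h2 : B * B.map q.s ≤ B := Ideal.mul_le_left
  exact h2 h

theorem σσ (q : QE K E t) (z : E) : q.σ (q.σ z) = z := by
  obtain ⟨a, b, rfl⟩ := q.rep z
  simp [q.hσ]

theorem ss (q : QE K E t) (z : 𝓞 E) : q.s (q.s z) = z := by
  apply RingOfIntegers.ext
  rw [coe_s, coe_s, σσ]

/-- The degree is 2. -/
theorem finrank_two (q : QE K E t) (ht : t ≠ 0) : finrank K E = 2 := by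
  have hθ : q.θ ≠ 0 := by
    intro h
    have h1 := q.hθ
    rw [h] at h1
    have h2 : algebraMap K E t = 0 := by
      have h3 : (0 : E) ^ 2 = 0 := by norm_num
      rw [h3] at h1
      exact neg_eq_zero.mp h1.symm
    exact ht ((algebraMap K E).injective (by rw [h2, map_zero]))
  let f : (K × K) →ₗ[K] E :=
    { toFun := fun p => algebraMap K E p.1 + algebraMap K E p.2 * q.θ
      map_add' := by
        intro x y
        simp only [Prod.fst_add, Prod.snd_add, map_add]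
        ring
      map_smul' := by
        intro c x
        change algebraMap K E (c * x.1) + algebraMap K E (c * x.2) * q.θ =
          c • (algebraMap K E x.1 + algebraMap K E x.2 * q.θ)
        rw [Algebra.smul_def, map_mul, map_mul]
        ring }
  have hf : Function.Bijective f := by
    constructor
    · rw [← LinearMap.ker_eq_bot, LinearMap.ker_eq_bot']
      rintro ⟨a, b⟩ h
      have h1 : algebraMap K E a + algebraMap K E b * q.θ = 0 := h
      have h2 : algebraMap K E a - algebraMap K E b * q.θ = 0 := by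
        have h3 := congrArg q.σ h1
        simp only [map_add, map_mul, AlgEquiv.commutes, q.hσ, map_zero] at h3
        linear_combination h3
      have h4 : algebraMap K E a = 0 := by linear_combination (h1 + h2) / 2
      have h5 : algebraMap K E b * q.θ = 0 := by linear_combination h1 - h4
      have h6 : algebraMap K E b = 0 := by
        rcases mul_eq_zero.mp h5 with h | h
        · exact h
        · exact absurd h hθ
      rw [Prod.mk_eq_zero]
      exact ⟨(algebraMap K E).injective (by rw [h4, map_zero]),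
        (algebraMap K E).injective (by rw [h6, map_zero])⟩
    · intro z
      obtain ⟨a, b, hab⟩ := q.rep z
      exact ⟨(a, b), hab.symm⟩
  have h1 := (LinearEquiv.ofBijective f hf).finrank_eq
  rw [← h1]
  simp

theorem trace_int (z : 𝓞 E) : ∃ k : ℤ, Algebra.trace ℚ E (z : E) = k := by
  refine ⟨Algebra.trace ℤ (𝓞 E) z, ?_⟩
  rw [Algebra.coe_trace_int]

theorem trace_even (q : QE K E t) (ht : t ≠ 0) (z : 𝓞 K) :
    ∃ k : ℤ, Algebra.trace ℚ E (algebraMap K E (z : K)) = 2 * k := by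
  obtain ⟨k, hk⟩ := trace_int (E := K) z
  refine ⟨k, ?_⟩
  have h1 : Algebra.trace ℚ E (algebraMap K E (z : K)) =
      Algebra.trace ℚ K (Algebra.trace K E (algebraMap K E (z : K))) := by
    rw [Algebra.trace_trace]
  rw [h1, Algebra.trace_algebraMap, finrank_two q ht, map_nsmul, hk]
  simp

theorem mInt : ∃ m : ℕ, m ≠ 0 ∧ ∀ x : E,
    (∀ c : 𝓞 E, ∃ k : ℤ, Algebra.trace ℚ E ((c : E) * x) = k) → ∃ z : 𝓞 E, (z : E) = m * x := by
  refine ⟨(discr E).natAbs, Int.natAbs_ne_zero.mpr (discr_ne_zero E), ?_⟩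
  intro x hx
  have h1 : IsIntegral ℤ ((Algebra.discr ℚ (integralBasis E)) • (1 : E) * x) := by
    classical
    refine isIntegral_discr_mul_of_mem_traceDual (A := ℤ) (K := ℚ) (L := E) (B := 𝓞 E)
      (1 : Submodule (𝓞 E) E) (fun i => ?_) (Submodule.one_le.mp le_rfl) ?_
    · rw [integralBasis_apply]
      exact RingOfIntegers.isIntegral_coe _
    · rw [Submodule.mem_traceDual]
      intro a ha
      rw [Submodule.mem_one] at ha
      obtain ⟨c, rfl⟩ := ha
      obtain ⟨k, hk⟩ := hx c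
      refine ⟨k, ?_⟩
      rw [Algebra.traceForm_apply, mul_comm]
      exact hk.symm
  rw [← coe_discr] at h1
  have h2 : IsIntegral ℤ (((discr E).natAbs : E) * x) := by
    have h3 : (((discr E : ℤ) : ℚ) • (1 : E) * x) = ((discr E : ℤ) : E) * x := by
      rw [Algebra.smul_def]
      simp
    rw [h3] at h1
    rcases Int.natAbs_eq (discr E) with h | h
    · have h4 : (((discr E).natAbs : ℕ) : E) = ((discr E : ℤ) : E) := by
        conv_rhs => rw [h]
        simp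
      rw [h4]
      exact h1
    · have h4 : (((discr E).natAbs : ℕ) : E) = -((discr E : ℤ) : E) := by
        conv_rhs => rw [h]
        simp
      rw [h4, neg_mul]
      exact h1.neg
  exact ⟨⟨_, h2⟩, rfl⟩

theorem algMap_ne (y : 𝓞 K) (hy : y ≠ 0) : algebraMap K E (y : K) ≠ 0 := by
  intro h
  apply hy
  apply RingOfIntegers.ext
  exact (algebraMap K E).injective (by rw [h]; simp)

theorem mem_B {q : QE K E t} {m : ℕ} (hm : ∀ x : E,
    (∀ c : 𝓞 E, ∃ k : ℤ, Algebra.trace ℚ E ((c : E) * x) = k) → ∃ z : 𝓞 E, (z : E) = m * x)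
    {B : Ideal (𝓞 E)} {y : 𝓞 K} (hy : y ≠ 0)
    (hB : B * B.map q.s = Ideal.span {algebraMap (𝓞 K) (𝓞 E) y}) {w : E} (hw : w ∈ Dl q B y) :
    ∃ b ∈ B, (b : E) = m * w := by
  have hyE : algebraMap K E (y : K) ≠ 0 := algMap_ne y hy
  have hyB := yB q hB
  obtain ⟨v, hv⟩ := hm (q.σ w) (by
    intro c
    obtain ⟨k, hk⟩ := hw (c * algebraMap (𝓞 K) (𝓞 E) y) (B.mul_mem_left c hyB)
    refine ⟨k, ?_⟩
    rw [← hk]
    congr 1
    rw [cmul, coe_alg]
    field_simp)
  have h2 : B * Ideal.span {v} ≤ B * B.map q.s := by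
    rw [hB, Ideal.mul_le]
    intro b hb v' hv'
    obtain ⟨a', rfl⟩ := Ideal.mem_span_singleton'.mp hv'
    suffices h : b * v ∈ Ideal.span {algebraMap (𝓞 K) (𝓞 E) y} by
      have h' := Ideal.mul_mem_left _ a' h
      rwa [mul_left_comm] at h'
    obtain ⟨z, hz⟩ := hm ((b : E) * q.σ w / algebraMap K E (y : K)) (by
      intro c
      obtain ⟨k, hk⟩ := hw (c * b) (B.mul_mem_left c hb)
      refine ⟨k, ?_⟩
      rw [← hk]
      congr 1
      rw [cmul]
      ring)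
    rw [Ideal.mem_span_singleton]
    refine ⟨z, ?_⟩
    apply RingOfIntegers.ext
    rw [cmul, cmul, coe_alg, hv, hz]
    field_simp
  have hB0 : B ≠ ⊥ := by
    rintro rfl
    rw [Ideal.mem_bot] at hyB
    apply hyE
    rw [← coe_alg, hyB]
    simp
  have h3 : B.map q.s ∣ Ideal.span {v} := by
    rw [← mul_dvd_mul_iff_left hB0]
    exact Ideal.dvd_iff_le.mpr h2
  have h4 : v ∈ B.map q.s := (Ideal.dvd_iff_le.mp h3) (Ideal.mem_span_singleton_self _)
  have hs : Function.Surjective q.s := fun z => ⟨q.s z, ss q z⟩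
  obtain ⟨b, hb, hbv⟩ := (Ideal.mem_map_iff_of_surjective q.s hs).mp h4
  refine ⟨b, hb, ?_⟩
  apply q.σ.injective
  rw [← coe_s, hbv, hv, map_mul, map_natCast]

theorem phase {q : QE K E t} (ht : t ≠ 0) {m : ℕ} (hm : ∀ x : E,
    (∀ c : 𝓞 E, ∃ k : ℤ, Algebra.trace ℚ E ((c : E) * x) = k) → ∃ z : 𝓞 E, (z : E) = m * x)
    {B : Ideal (𝓞 E)} {y : 𝓞 K} (hy : y ≠ 0)
    (hB : B * B.map q.s = Ideal.span {algebraMap (𝓞 K) (𝓞 E) y})
    (hy1 : y - 1 ∈ Ideal.span {((m : 𝓞 K)) ^ 2}) {w : E} (hw : w ∈ Dl q B y) :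
    ∃ k : ℤ, Algebra.trace ℚ E (w * q.σ w / algebraMap K E (y : K)) =
      Algebra.trace ℚ E (w * q.σ w / algebraMap K E ((1 : 𝓞 K) : K)) + 2 * k := by
  have hyE : algebraMap K E (y : K) ≠ 0 := algMap_ne y hy
  obtain ⟨b, hb, hbw⟩ := mem_B hm hy hB hw
  have h1 : b * q.s b ∈ Ideal.span {algebraMap (𝓞 K) (𝓞 E) y} := by
    rw [← hB]
    exact Ideal.mul_mem_mul hb (Ideal.mem_map_of_mem _ hb)
  rw [Ideal.mem_span_singleton] at h1
  obtain ⟨z, hz⟩ := h1
  have hzE : (b : E) * q.σ (b : E) = algebraMap K E (y : K) * (z : E) := by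
    have := congrArg (fun x : 𝓞 E => (x : E)) hz
    simpa only [map_mul, coe_alg, coe_s] using this
  rw [Ideal.mem_span_singleton] at hy1
  obtain ⟨k', hk'⟩ := hy1
  have hkE : algebraMap K E (y : K) - 1 = (m : E) ^ 2 * algebraMap K E (k' : K) := by
    have := congrArg (fun x : 𝓞 K => algebraMap K E (x : K)) hk'
    simpa using this
  -- `z` is in `K`
  have hσz : q.σ (z : E) = z := by
    have h3 := congrArg q.σ hzE
    rw [map_mul, σσ, map_mul, AlgEquiv.commutes, mul_comm, hzE] at h3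
    exact (mul_left_cancel₀ hyE h3).symm
  obtain ⟨a, c, hac⟩ := q.rep (z : E)
  have hc : algebraMap K E c * q.θ = 0 := by
    rw [hac] at hσz
    simp only [map_add, map_mul, AlgEquiv.commutes, q.hσ] at hσz
    have h3 : (2 : E) * (algebraMap K E c * q.θ) = 0 := by linear_combination -hσz
    rcases mul_eq_zero.mp h3 with h | h
    · norm_num at h
    · exact h
  rw [hc, add_zero] at hac
  have ha : IsIntegral ℤ a := by
    have h5 : IsIntegral ℤ (algebraMap K E a) := hac ▸ z.isIntegral_coe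
    exact (isIntegral_algebraMap_iff (algebraMap K E).injective).mp h5
  obtain ⟨z', hz'⟩ : ∃ z' : 𝓞 K, (z' : K) = a := ⟨⟨a, ha⟩, rfl⟩
  obtain ⟨k, hk⟩ := trace_even q ht (-(k' * z'))
  refine ⟨k, ?_⟩
  rw [← hk, ← map_add]
  congr 1
  have h6 : algebraMap K E ((-(k' * z') : 𝓞 K) : K) =
      -(algebraMap K E (k' : K) * (z : E)) := by
    rw [hac, cneg, cmul, map_neg, map_mul, hz']
  rw [h6]
  have h7 : algebraMap K E ((1 : 𝓞 K) : K) = 1 := by simp
  rw [h7, div_one]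
  have h8 : (b : E) * q.σ (b : E) = (m : E) ^ 2 * (w * q.σ w) := by
    rw [hbw, map_mul, map_natCast]
    ring
  rw [div_eq_iff hyE]
  linear_combination (-(w * q.σ w)) * hkE + algebraMap K E (k' : K) * (h8 - hzE)

/-- Representatives. -/
theorem exists_reps {q : QE K E t} {m : ℕ} (hm0 : m ≠ 0) (hm : ∀ x : E,
    (∀ c : 𝓞 E, ∃ k : ℤ, Algebra.trace ℚ E ((c : E) * x) = k) → ∃ z : 𝓞 E, (z : E) = m * x)
    {B : Ideal (𝓞 E)} {y : 𝓞 K} (hy : y ≠ 0)
    (hB : B * B.map q.s = Ideal.span {algebraMap (𝓞 K) (𝓞 E) y}) :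
    ∃ R : Finset E, Rps (Dl q B y) B R := by
  classical
  have hB0 : B ≠ ⊥ := by
    rintro rfl
    have h1 : algebraMap (𝓞 K) (𝓞 E) y ∈ (⊥ : Ideal (𝓞 E)) := by
      rw [← Ideal.bot_mul ((⊥ : Ideal (𝓞 E)).map q.s), hB]
      exact Ideal.mem_span_singleton_self _
    rw [Ideal.mem_bot] at h1
    apply algMap_ne (E := E) y hy
    rw [← coe_alg, h1]
    simp
  have hmE : (m : E) ≠ 0 := by exact_mod_cast hm0
  have hmO : (m : 𝓞 E) ≠ 0 := by exact_mod_cast hm0
  choose! f hf hfe using fun (w : E) (hw : w ∈ Dl q B y) => mem_B hm hy hB hw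
  let I : Ideal (𝓞 E) := Ideal.span {(m : 𝓞 E)} * B
  have hI : I ≠ ⊥ := mul_ne_zero (by rwa [Ne, Ideal.zero_eq_bot, Ideal.span_singleton_eq_bot]) hB0
  have : Finite (𝓞 E ⧸ I) := Ideal.finiteQuotientOfFreeOfNeBot I hI
  let g : E → 𝓞 E ⧸ I := fun w => Ideal.Quotient.mk I (f w)
  have hfin : (g '' Dl q B y).Finite := Set.toFinite _
  have key : ∀ w ∈ Dl q B y, ∀ w' ∈ Dl q B y, (g w = g w' ↔ ∃ b ∈ B, w - w' = (b : E)) := by
    intro w hw w' hw'
    change Ideal.Quotient.mk I (f w) = Ideal.Quotient.mk I (f w') ↔ _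
    rw [Ideal.Quotient.eq, Ideal.mem_span_singleton_mul]
    constructor
    · rintro ⟨b, hb, hbe⟩
      refine ⟨b, hb, ?_⟩
      have h1 := congrArg (fun x : 𝓞 E => (x : E)) hbe
      simp only [cmul, csub, cnat, hfe w hw, hfe w' hw'] at h1
      apply mul_left_cancel₀ hmE
      linear_combination -h1
    · rintro ⟨b, hb, hbe⟩
      refine ⟨b, hb, ?_⟩
      apply RingOfIntegers.ext
      rw [cmul, csub, cnat, hfe w hw, hfe w' hw', ← hbe]
      ring
  choose! h hh hhe using fun (c : 𝓞 E ⧸ I) (hc : c ∈ g '' Dl q B y) => hc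
  refine ⟨hfin.toFinset.image h, ?_, ?_⟩
  · intro w hw
    rw [Finset.mem_image] at hw
    obtain ⟨c, hc, rfl⟩ := hw
    exact hh c (hfin.mem_toFinset.mp hc)
  · intro w hw
    have hgw : g w ∈ g '' Dl q B y := ⟨w, hw, rfl⟩
    refine ⟨h (g w), ⟨Finset.mem_image.mpr ⟨g w, hfin.mem_toFinset.mpr hgw, rfl⟩,
      (key w hw _ (hh _ hgw)).mp (hhe _ hgw).symm⟩, ?_⟩
    rintro r ⟨hr, hr'⟩
    rw [Finset.mem_image] at hr
    obtain ⟨c, hc, rfl⟩ := hr
    have hc' := hfin.mem_toFinset.mp hc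
    have h1 := (key w hw _ (hh c hc')).mpr hr'
    rw [hhe c hc'] at h1
    rw [h1]

end GSMM

theorem specGSM : SpecGSM := by
  intro K E _ _ _ _ _ t q ht
  obtain ⟨m, hm0, hm⟩ := GSMM.mInt (E := E)
  refine ⟨m, hm0, ?_⟩
  intro B y hy hB hBm hy1
  obtain ⟨R, hR, hR'⟩ := GSMM.exists_reps hm0 hm hy hB
  have hyE : algebraMap K E (y : K) ≠ 0 := GSMM.algMap_ne y hy
  have hyB := GSMM.yB q hB
  have h1K : algebraMap K E ((1 : 𝓞 K) : K) = 1 := by simp
  -- `Dl q B y ⊆ Dl q ⊤ 1`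
  have hsub : Dl q B y ⊆ Dl q ⊤ 1 := by
    intro w hw b _
    obtain ⟨k, hk⟩ := hw (b * algebraMap (𝓞 K) (𝓞 E) y) (B.mul_mem_left b hyB)
    refine ⟨k, ?_⟩
    rw [← hk, h1K, GSMM.cmul, GSMM.coe_alg]
    congr 1
    field_simp
  -- `1 = β + m c`
  have h1 : (1 : 𝓞 E) ∈ B ⊔ Ideal.span {(m : 𝓞 E)} := by
    rw [hBm]
    trivial
  obtain ⟨β, hβ, d, hd, hβd⟩ := Submodule.mem_sup.mp h1
  obtain ⟨c, rfl⟩ := Ideal.mem_span_singleton'.mp hd
  have hβE : (β : E) + (c : E) * (m : E) = 1 := by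
    have := congrArg (fun x : 𝓞 E => (x : E)) hβd
    simpa using this
  -- injectivity
  have hinj : ∀ w ∈ Dl q B y, ∀ w' ∈ Dl q B y, (∃ b : 𝓞 E, w - w' = (b : E)) →
      ∃ b ∈ B, w - w' = (b : E) := by
    rintro w hw w' hw' ⟨b, hb⟩
    obtain ⟨b1, hb1, hb1e⟩ := GSMM.mem_B hm hy hB hw
    obtain ⟨b2, hb2, hb2e⟩ := GSMM.mem_B hm hy hB hw'
    refine ⟨b * β + c * (b1 - b2), B.add_mem (B.mul_mem_left _ hβ)
      (B.mul_mem_left _ (B.sub_mem hb1 hb2)), ?_⟩
    rw [GSMM.cadd, GSMM.cmul, GSMM.cmul, GSMM.csub, hb1e, hb2e, ← hb]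
    linear_combination (-(w - w')) * hβE
  -- surjectivity
  have hsurj : ∀ w ∈ Dl q ⊤ 1, ∃ w' ∈ Dl q B y, ∃ b : 𝓞 E, w - w' = (b : E) := by
    intro w hw
    refine ⟨(β : E) * w, ?_, ?_⟩
    · intro b hb
      have h2 : b * q.s β ∈ Ideal.span {algebraMap (𝓞 K) (𝓞 E) y} := by
        rw [← hB]
        exact Ideal.mul_mem_mul hb (Ideal.mem_map_of_mem _ hβ)
      rw [Ideal.mem_span_singleton] at h2
      obtain ⟨z, hz⟩ := h2
      have hzE : (b : E) * q.σ (β : E) = algebraMap K E (y : K) * (z : E) := by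
        have := congrArg (fun x : 𝓞 E => (x : E)) hz
        simpa only [map_mul, GSMM.coe_alg, GSMM.coe_s] using this
      obtain ⟨k, hk⟩ := hw z trivial
      refine ⟨k, ?_⟩
      rw [← hk, h1K, map_mul, div_one]
      congr 1
      rw [div_eq_iff hyE]
      linear_combination q.σ w * hzE
    · obtain ⟨v, hv⟩ := hm (q.σ w) (by
        intro e
        obtain ⟨k, hk⟩ := hw e trivial
        refine ⟨k, ?_⟩
        rw [← hk, h1K, div_one])
      have h3 : ((q.s v : 𝓞 E) : E) = m * w := by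
        rw [GSMM.coe_s, hv, map_mul, map_natCast, GSMM.σσ]
      refine ⟨c * q.s v, ?_⟩
      rw [GSMM.cmul, h3]
      linear_combination (-w) * hβE
  refine ⟨R, R, ⟨hR, hR'⟩, ⟨fun w hw => hsub (hR w hw), ?_⟩, ?_⟩
  · intro w hw
    obtain ⟨w', hw', b', hb'⟩ := hsurj w hw
    obtain ⟨r, ⟨hr, b, hb, hbe⟩, -⟩ := hR' w' hw'
    refine ⟨r, ⟨hr, b' + b, trivial, by rw [GSMM.cadd, ← hb', ← hbe]; ring⟩, ?_⟩
    rintro r' ⟨hr1, b1, -, hb1⟩
    have h4 : ∃ b : 𝓞 E, r - r' = (b : E) := ⟨b1 - (b' + b), by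
      rw [GSMM.csub, GSMM.cadd, ← hb', ← hbe, ← hb1]; ring⟩
    obtain ⟨b2, hb2, hb2e⟩ := hinj r (hR r hr) r' (hR r' hr1) h4
    obtain ⟨r0, -, hun⟩ := hR' r (hR r hr)
    rw [hun r' ⟨hr1, b2, hb2, hb2e⟩, hun r ⟨hr, 0, B.zero_mem, by simp⟩]
  · unfold Gs
    apply Finset.sum_congr rfl
    intro w hw
    obtain ⟨k, hk⟩ := GSMM.phase ht hm hy hB hy1 (hR w hw)
    rw [hk, Complex.exp_eq_exp_iff_exists_int]
    refine ⟨-k, ?_⟩
    push_cast
    ring

end Pool.Agent.Lib.MPcb8a44.SX
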