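import Pool.Agent.Lib.MP_cb8a44_nt.SX.Spec

section
/-!
# Theorem X (MP_cb8a44_nt): module BAL

Balancing with squares of units (Dirichlet's unit theorem).
-/
set_option autoImplicit false
set_option linter.style.longLine false

open NumberField Module
open scoped nonZeroDivisors

namespace Pool.Agent.Lib.MPcb8a44.SX

namespace BALM

open NumberField.Units NumberField.Units.dirichletUnitTheorem

variable {K : Type} [Field K] [NumberField K]

/-- Every vector of the log space is within a bounded distance of the log vector of a unit. -/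
theorem exists_near (K : Type) [Field K] [NumberField K] : ∃ R : ℝ, 0 ≤ R ∧
    ∀ x : logSpace K, ∃ u : (𝓞 K)ˣ, ∀ w,
      |Units.logEmbedding K (Additive.ofMul u) w - x w| ≤ R := by
  classical
  let b : Basis (Fin (rank K)) ℝ (logSpace K) :=
    (basisUnitLattice K).ofZLatticeBasis ℝ (unitLattice K)
  refine ⟨∑ i, ‖b i‖, Finset.sum_nonneg fun i _ => norm_nonneg _, fun x => ?_⟩
  have h1 : ((ZSpan.floor b x : Submodule.span ℤ (Set.range b)) : logSpace K) ∈ unitLattice K := by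
    have h2 : Submodule.span ℤ (Set.range b) = unitLattice K :=
      Basis.ofZLatticeBasis_span ℝ (unitLattice K) (basisUnitLattice K)
    rw [← h2]
    exact (ZSpan.floor b x).2
  obtain ⟨v, -, hv⟩ := h1
  refine ⟨v.toMul, fun w => ?_⟩
  have h3 := ZSpan.norm_fract_le b x
  have h4 : ZSpan.fract b x w = x w - Units.logEmbedding K (Additive.ofMul v.toMul) w := by
    rw [ZSpan.fract_apply, Pi.sub_apply, ← hv]
    rfl
  have h5 := norm_le_pi_norm (ZSpan.fract b x) w
  rw [h4, Real.norm_eq_abs, abs_sub_comm] at h5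
  exact h5.trans h3

omit [NumberField K] in
theorem conj_eq (hK : TR K) (φ : K →+* ℂ) : ComplexEmbedding.conjugate φ = φ := by
  ext x
  rw [ComplexEmbedding.conjugate_coe_eq]
  exact Complex.conj_eq_iff_im.mpr (hK φ x)

theorem embedding_mk (hK : TR K) (φ : K →+* ℂ) : (InfinitePlace.mk φ).embedding = φ := by
  rcases InfinitePlace.embedding_mk_eq φ with h | h
  · exact h
  · rw [h, conj_eq hK]

theorem mult_eq (hK : TR K) (w : InfinitePlace K) : w.mult = 1 := by
  have h : w.IsReal := by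
    rw [InfinitePlace.isReal_iff]
    exact conj_eq hK w.embedding
  rw [InfinitePlace.mult, if_pos h]

omit [NumberField K] in
theorem abs_cj (hK : TR K) (φ : K →+* ℂ) (x : K) : |cj x φ| = InfinitePlace.mk φ x := by
  rw [InfinitePlace.apply, cj]
  conv_rhs => rw [← Complex.re_add_im (φ x), hK φ x]
  simp

end BALM

open BALM NumberField.Units NumberField.Units.dirichletUnitTheorem in
theorem specBAL : SpecBAL := by
  classical
  intro K _ _ hK
  obtain ⟨R, hR, hu⟩ := exists_near K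
  set n : ℝ := (Fintype.card {w : InfinitePlace K // w ≠ w₀} : ℝ) with hn
  have hn0 : 0 ≤ n := by positivity
  set R' : ℝ := (n + 1) * R with hR'
  have hR'0 : 0 ≤ R' := by positivity
  refine ⟨Real.exp (4 * R'), Real.one_le_exp (by positivity), fun z hz => ?_⟩
  set a : InfinitePlace K → ℝ := fun w => Real.log |z w.embedding| with ha
  set m : ℝ := (∑ w, a w) / (Fintype.card (InfinitePlace K) : ℝ) with hm
  have hc : (Fintype.card (InfinitePlace K) : ℝ) ≠ 0 := by
    have : 0 < Fintype.card (InfinitePlace K) := Fintype.card_pos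
    positivity
  obtain ⟨u, hu⟩ := hu (fun w => (m - a w) / 2)
  refine ⟨u, ?_⟩
  have hsum : ∑ w, (m - a w) / 2 = 0 := by
    rw [← Finset.sum_div, Finset.sum_sub_distrib]
    simp only [Finset.sum_const, Finset.card_univ, nsmul_eq_mul]
    rw [hm]
    field_simp
    ring
  have hlog : ∀ w : InfinitePlace K, |Real.log (w (u : K)) - (m - a w) / 2| ≤ R' := by
    intro w
    by_cases hw : w = w₀
    · have h1 := sum_logEmbedding_component u
      rw [mult_eq hK, Nat.cast_one, neg_one_mul] at h1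
      rw [Fintype.sum_eq_add_sum_subtype_ne _ w₀] at hsum
      have h2 : Real.log (w₀ (u : K)) - (m - a w₀) / 2 =
          ∑ w : {w : InfinitePlace K // w ≠ w₀}, ((m - a w) / 2 -
            Units.logEmbedding K (Additive.ofMul u) w) := by
        rw [Finset.sum_sub_distrib, h1]
        linarith
      rw [hw, h2]
      refine (Finset.abs_sum_le_sum_abs _ _).trans ?_
      refine (Finset.sum_le_sum (fun w _ => ?_) : _ ≤ ∑ _w : {w : InfinitePlace K // w ≠ w₀}, R).trans ?_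
      · rw [abs_sub_comm]
        exact hu w
      · rw [Finset.sum_const, Finset.card_univ, nsmul_eq_mul, ← hn, hR']
        nlinarith
    · have h1 := hu ⟨w, hw⟩
      rw [logEmbedding_component, mult_eq hK, Nat.cast_one, one_mul] at h1
      refine h1.trans ?_
      rw [hR']
      nlinarith
  have key : ∀ φ : K →+* ℂ, |cj ((u : 𝓞 K) : K) φ ^ 2 * z φ| =
      Real.exp (2 * (Real.log ((InfinitePlace.mk φ) (u : K)) - (m - a (InfinitePlace.mk φ)) / 2) + m) := by
    intro φ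
    have h1 : 0 < (InfinitePlace.mk φ) (u : K) := Units.pos_at_place u _
    have h2 : 0 < |z φ| := abs_pos.mpr (hz φ)
    rw [abs_mul, abs_pow, abs_cj hK]
    have h3 : a (InfinitePlace.mk φ) = Real.log |z φ| := by
      simp only [ha]
      rw [embedding_mk hK]
    rw [h3]
    have h4 : 2 * (Real.log ((InfinitePlace.mk φ) (u : K)) - (m - Real.log |z φ|) / 2) + m =
        Real.log ((InfinitePlace.mk φ) (u : K)) + Real.log ((InfinitePlace.mk φ) (u : K)) +
          Real.log |z φ| := by ring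
    rw [h4, Real.exp_add, Real.exp_add, Real.exp_log h1, Real.exp_log h2]
    ring
  intro φ ψ
  rw [key φ, key ψ, ← Real.exp_add]
  apply Real.exp_le_exp.mpr
  have h1 := abs_le.mp (hlog (InfinitePlace.mk φ))
  have h2 := abs_le.mp (hlog (InfinitePlace.mk ψ))
  linarith [h1.2, h2.1]

end Pool.Agent.Lib.MPcb8a44.SX
end

section
/-!
# BID: the ideal `B` with `B σ(B) = (Y)`
-/
set_option autoImplicit false

open NumberField Module
open scoped nonZeroDivisors

namespace Pool.Agent.Lib.MPcb8a44.SX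

namespace BIDM

variable {K E : Type} [Field K] [NumberField K] [Field E] [NumberField E] [Algebra K E] {t : K}

/-- `I` is the norm of an ideal of `E`. -/
def Gd (q : QE K E t) (I : Ideal (𝓞 K)) : Prop :=
  ∃ P : Ideal (𝓞 E), P * P.map q.s = I.map (algebraMap (𝓞 K) (𝓞 E))

theorem Gd.one (q : QE K E t) : Gd q 1 := by
  refine ⟨⊤, ?_⟩
  rw [Ideal.one_eq_top, Ideal.map_top, Ideal.map_top, Ideal.top_mul]

theorem Gd.mul {q : QE K E t} {I J : Ideal (𝓞 K)} (hI : Gd q I) (hJ : Gd q J) : Gd q (I * J) := by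
  obtain ⟨P, hP⟩ := hI
  obtain ⟨Q, hQ⟩ := hJ
  refine ⟨P * Q, ?_⟩
  rw [Ideal.map_mul, Ideal.map_mul, ← hP, ← hQ]
  ring

theorem Gd.pow {q : QE K E t} {I : Ideal (𝓞 K)} (hI : Gd q I) (n : ℕ) : Gd q (I ^ n) := by
  induction n with
  | zero =>
    rw [pow_zero]
    exact Gd.one q
  | succ n ih =>
    rw [pow_succ]
    exact ih.mul hI

theorem s_algebraMap (q : QE K E t) (x : 𝓞 K) :
    q.s (algebraMap (𝓞 K) (𝓞 E) x) = algebraMap (𝓞 K) (𝓞 E) x := by
  apply RingOfIntegers.ext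
  show q.σ (algebraMap K E (x : K)) = algebraMap K E (x : K)
  exact q.σ.commutes _

theorem Gd.sq (q : QE K E t) (I : Ideal (𝓞 K)) : Gd q (I * I) := by
  refine ⟨I.map (algebraMap (𝓞 K) (𝓞 E)), ?_⟩
  have h1 : (q.s).comp (algebraMap (𝓞 K) (𝓞 E)) = algebraMap (𝓞 K) (𝓞 E) := by
    ext x
    exact congrArg _ (s_algebraMap q x)
  rw [Ideal.map_map, h1, Ideal.map_mul]

end BIDM

open BIDM

theorem specBID : SpecBID := by
  intro K E _ _ _ _ _ t q Y hY hp
  classical
  have hI : Ideal.span {Y} ≠ (⊥ : Ideal (𝓞 K)) := by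
    rw [Ne, Ideal.span_singleton_eq_bot]
    exact hY
  have h1 : Gd q (Ideal.span {Y}) := by
    rw [← Ideal.prod_normalizedFactors_eq_self hI, Finset.prod_multiset_count]
    refine Finset.prod_induction _ (Gd q) (fun _ _ h h' => h.mul h') (Gd.one q) ?_
    intro p hpm
    rw [Multiset.mem_toFinset] at hpm
    have hpp := UniqueFactorizationMonoid.prime_of_normalized_factor p hpm
    have hprime : p.IsPrime := Ideal.isPrime_of_prime hpp
    rcases hp p hprime hpp.ne_zero with h | ⟨k, hk, hk1⟩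
    · exact Gd.pow h _
    · have h2 : Multiset.count p (UniqueFactorizationMonoid.normalizedFactors
          (Ideal.span {Y})) = 2 * k := by
        refine Ideal.count_normalizedFactors_eq ?_ ?_
        · rw [Ideal.span_singleton_le_iff_mem]
          exact hk
        · rw [Ideal.span_singleton_le_iff_mem]
          exact hk1
      rw [h2, two_mul, pow_add]
      exact Gd.sq q _
  obtain ⟨B, hB⟩ := h1
  refine ⟨B, ?_⟩
  rw [hB, Ideal.map_span, Set.image_singleton]

end Pool.Agent.Lib.MPcb8a44.SX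
end

section
/-!
# Theorem X (MP_cb8a44_nt), module CONT: analytic continuation by Mellin transforms
-/
set_option autoImplicit false

open MeasureTheory Set Filter Complex
open scoped Topology ContDiff

namespace Pool.Agent.Lib.MPcb8a44.SX.CONTM

lemma bounds {f : ℝ → ℝ} (hf : Tst f) :
    ∃ α β : ℝ, 0 < α ∧ α < β ∧ ∀ x, f x ≠ 0 → α ≤ x ∧ x ≤ β := by
  by_cases hK : (tsupport f).Nonempty
  · have hc : IsCompact (tsupport f) := hf.cpt
    obtain ⟨m, hm⟩ := hc.exists_isLeast hK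
    obtain ⟨M, hM⟩ := hc.exists_isGreatest hK
    refine ⟨m, M + 1, hf.pos hm.1, ?_, fun x hx => ?_⟩
    · have := hm.2 hM.1
      linarith
    · have hx' : x ∈ tsupport f := subset_tsupport f hx
      exact ⟨hm.2 hx', by have := hM.2 hx'; linarith⟩
  · refine ⟨1, 2, one_pos, one_lt_two, fun x hx => ?_⟩
    exact absurd ⟨x, subset_tsupport f hx⟩ hK

/-- The Mellin transform of a function which vanishes for large arguments and is small at `0`. -/
lemma entire {F : ℝ → ℂ} (h1 : LocallyIntegrableOn F (Ioi 0)) {R : ℝ} (h2 : ∀ t, R < t → F t = 0)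
    (h3 : ∀ b : ℝ, F =O[𝓝[>] 0] (fun t : ℝ => t ^ (-b))) :
    Differentiable ℂ (mellin F) ∧ ∀ s, MellinConvergent F s := by
  have htop : ∀ a : ℝ, F =O[atTop] (fun t : ℝ => t ^ (-a)) := by
    intro a
    have : F =ᶠ[atTop] fun _ => 0 := by
      filter_upwards [eventually_gt_atTop R] with t ht
      exact h2 t ht
    exact this.trans_isBigO (Asymptotics.isBigO_zero _ _)
  refine ⟨fun s => ?_, fun s => ?_⟩
  · exact mellin_differentiableAt_of_isBigO_rpow (a := s.re + 1) (b := s.re - 1) h1 (htop _)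
      (by linarith) (h3 _) (by linarith)
  · exact mellinConvergent_of_isBigO_rpow (a := s.re + 1) (b := s.re - 1) h1 (htop _)
      (by linarith) (h3 _) (by linarith)

lemma entire_tst {f : ℝ → ℝ} (hf : Tst f) :
    Differentiable ℂ (mellin fun x => (f x : ℂ)) ∧
      ∀ s, MellinConvergent (fun x => (f x : ℂ)) s := by
  obtain ⟨α, β, hα, hαβ, hb⟩ := bounds hf
  refine entire (R := β) ?_ ?_ ?_
  · exact (continuous_ofReal.comp hf.smooth.continuous).continuousOn.locallyIntegrableOn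
      measurableSet_Ioi
  · intro t ht
    by_contra h
    have : f t ≠ 0 := fun h' => h (by simp [h'])
    linarith [(hb t this).2]
  · intro b
    have : (fun x => (f x : ℂ)) =ᶠ[𝓝[>] 0] fun _ => 0 := by
      filter_upwards [Ioo_mem_nhdsGT hα] with t ht
      by_contra h
      have : f t ≠ 0 := fun h' => h (by simp [h'])
      linarith [(hb t this).1, ht.2]
    exact this.trans_isBigO (Asymptotics.isBigO_zero _ _)

/-- The Mellin transforms have no common zero. -/
lemma exists_ne (s : ℂ) : ∃ f : ℝ → ℝ, Tst f ∧ mellin (fun x => (f x : ℂ)) s ≠ 0 := by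
  by_contra hcon
  push Not at hcon
  have hcont : ContinuousOn (fun x : ℝ => (x : ℂ) ^ (s - 1)) (Ioi 0) := by
    intro x hx
    apply ContinuousAt.continuousWithinAt
    exact continuousAt_ofReal_cpow_const _ _ (Or.inr (ne_of_gt hx))
  have hae := IsOpen.ae_eq_zero_of_integral_contDiff_smul_eq_zero (μ := volume)
    (f := fun x : ℝ => (x : ℂ) ^ (s - 1)) (isOpen_Ioi (a := (0 : ℝ)))
    (hcont.locallyIntegrableOn measurableSet_Ioi) (by
      intro g hg1 hg2 hg3
      have h := hcon g ⟨hg1, hg2, hg3⟩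
      rw [mellin] at h
      rw [← h, ← integral_indicator measurableSet_Ioi]
      apply integral_congr_ae
      filter_upwards with x
      by_cases hx : x ∈ Ioi (0 : ℝ)
      · rw [indicator_of_mem hx]
        simp only [smul_eq_mul, real_smul]
        ring
      · rw [indicator_of_notMem hx]
        have : g x = 0 := by
          by_contra h0
          exact hx (hg3 (subset_tsupport g h0))
        simp [this])
  have h0 : volume (Ioi (0 : ℝ)) = 0 := by
    apply measure_mono_null _ hae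
    intro x hx
    simp only [mem_compl_iff, mem_ofPred_eq]
    intro h
    have := h hx
    rw [cpow_eq_zero_iff] at this
    exact (ne_of_gt hx) (by exact_mod_cast this.1)
  simp at h0

/-- Glueing. -/
lemma glue (L : ℂ → ℂ) (H : ∀ f, Tst f → ∃ G : ℂ → ℂ, Differentiable ℂ G ∧
    ∀ s, 1 < s.re → L s * mellin (fun x => (f x : ℂ)) s = G s) :
    ∃ F : ℂ → ℂ, Differentiable ℂ F ∧ ∀ s, 1 < s.re → F s = L s := by
  choose G hG hG' using H
  choose f hf hne using exists_ne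
  have cross : ∀ (g k : ℝ → ℝ) (hg : Tst g) (hk : Tst k) (s : ℂ),
      G g hg s * mellin (fun x => (k x : ℂ)) s = G k hk s * mellin (fun x => (g x : ℂ)) s := by
    intro g k hg hk s
    have h1 : Differentiable ℂ fun s => G g hg s * mellin (fun x => (k x : ℂ)) s :=
      (hG g hg).mul (entire_tst hk).1
    have h2 : Differentiable ℂ fun s => G k hk s * mellin (fun x => (g x : ℂ)) s :=
      (hG k hk).mul (entire_tst hg).1
    have h3 : (fun s => G g hg s * mellin (fun x => (k x : ℂ)) s) =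
        fun s => G k hk s * mellin (fun x => (g x : ℂ)) s := by
      refine AnalyticOnNhd.eq_of_eventuallyEq (𝕜 := ℂ) (z₀ := 2) (fun z _ => h1.analyticAt z)
        (fun z _ => h2.analyticAt z) ?_
      have : {z : ℂ | 1 < z.re} ∈ 𝓝 (2 : ℂ) :=
        (isOpen_lt continuous_const continuous_re).mem_nhds (by simp)
      filter_upwards [this] with z hz
      rw [← hG' g hg z hz, ← hG' k hk z hz]
      ring
    exact congrFun h3 s
  refine ⟨fun s => G (f s) (hf s) s / mellin (fun x => (f s x : ℂ)) s, fun s0 => ?_, fun s hs => ?_⟩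
  · have hM := (entire_tst (hf s0)).1
    have h1 : DifferentiableAt ℂ
        (fun s => G (f s0) (hf s0) s / mellin (fun x => (f s0 x : ℂ)) s) s0 :=
      (hG _ _ s0).div (hM s0) (hne s0)
    refine h1.congr_of_eventuallyEq ?_
    have : {z : ℂ | mellin (fun x => (f s0 x : ℂ)) z ≠ 0} ∈ 𝓝 s0 :=
      (isOpen_ne_fun hM.continuous continuous_const).mem_nhds (hne s0)
    filter_upwards [this] with z hz
    rw [div_eq_div_iff (hne z) hz]
    exact cross _ _ _ _ _
  · simp only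
    rw [← hG' (f s) (hf s) s hs, mul_div_assoc, div_self (hne s), mul_one]

/-! ## The smooth sum -/

section Sum

variable (a : ℕ → ℂ) {f : ℝ → ℝ}

/-- The smooth sum as a function of `t = 1 / Y`. -/
noncomputable def g (a : ℕ → ℂ) (f : ℝ → ℝ) (t : ℝ) : ℂ := ∑' n : ℕ, a n * (f (n * t) : ℂ)

lemma g_eventually (hf : Tst f) {t0 : ℝ} (ht0 : 0 < t0) : ∃ N : ℕ, ∀ t, t0 / 2 < t →
    g a f t = ∑ n ∈ Finset.range N, a n * (f (n * t) : ℂ) := by
  obtain ⟨α, β, hα, hαβ, hb⟩ := bounds hf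
  obtain ⟨N, hN⟩ := exists_nat_gt (2 * β / t0)
  refine ⟨N, fun t ht => ?_⟩
  rw [g]
  apply tsum_eq_sum
  intro n hn
  have hn' : N ≤ n := by simpa using hn
  have : f (n * t) = 0 := by
    by_contra h
    have h1 := (hb _ h).2
    have h2 : (N : ℝ) ≤ n := by exact_mod_cast hn'
    rw [div_lt_iff₀ ht0] at hN
    nlinarith
  rw [this]
  simp

lemma g_continuousOn (hf : Tst f) : ContinuousOn (g a f) (Ioi 0) := by
  intro t0 ht0
  apply ContinuousAt.continuousWithinAt
  obtain ⟨N, hN⟩ := g_eventually a hf (show 0 < t0 from ht0)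
  have h1 : ContinuousAt (fun t : ℝ => ∑ n ∈ Finset.range N, a n * (f (n * t) : ℂ)) t0 := by
    apply Continuous.continuousAt
    refine continuous_finsetSum _ fun n _ => continuous_const.mul ?_
    exact continuous_ofReal.comp (hf.smooth.continuous.comp (continuous_const.mul continuous_id))
  refine h1.congr ?_
  have : Ioi (t0 / 2) ∈ 𝓝 t0 := Ioi_mem_nhds (by have : 0 < t0 := ht0; linarith)
  filter_upwards [this] with t ht
  exact (hN t ht).symm

lemma g_large (hf : Tst f) : ∃ R : ℝ, 1 ≤ R ∧ ∀ t, R < t → g a f t = 0 := by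
  obtain ⟨α, β, hα, hαβ, hb⟩ := bounds hf
  refine ⟨max 1 β, le_max_left _ _, fun t ht => ?_⟩
  have ht1 : β < t := lt_of_le_of_lt (le_max_right _ _) ht
  rw [g]
  have : ∀ n : ℕ, a n * (f (n * t) : ℂ) = 0 := by
    intro n
    have h : f (n * t) = 0 := by
      by_contra h
      have h1 := hb _ h
      rcases Nat.eq_zero_or_pos n with hn | hn
      · rw [hn] at h1
        simp at h1
        linarith [h1.1]
      · have h2 : (1 : ℝ) ≤ n := by exact_mod_cast hn
        nlinarith [h1.2]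
    rw [h]
    simp
  simp [this]

lemma mellin_g (hf : Tst f) {s : ℂ} (hs : LSeriesSummable a s) :
    mellin (g a f) s = LSeries a s * mellin (fun x => (f x : ℂ)) s := by
  obtain ⟨α, β, hα, hαβ, hb⟩ := bounds hf
  have hf0 : f 0 = 0 := by
    by_contra h
    linarith [(hb 0 h).1]
  have hcv := (entire_tst hf).2 s
  obtain ⟨I, hI⟩ : ∃ I, I = ∫ t in Ioi (0 : ℝ), ‖(t : ℂ) ^ (s - 1) • (f t : ℂ)‖ := ⟨_, rfl⟩
  have hterm : ∀ n : ℕ, (∫ t in Ioi (0 : ℝ), (t : ℂ) ^ (s - 1) • (a n * (f (n * t) : ℂ))) =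
      LSeries.term a s n * mellin (fun x => (f x : ℂ)) s := by
    intro n
    rcases Nat.eq_zero_or_pos n with hn | hn
    · subst hn
      simp [hf0]
    · have h1 := mellin_comp_mul_left (fun x => (f x : ℂ)) s
        (show (0 : ℝ) < n by exact_mod_cast hn)
      rw [LSeries.term_of_ne_zero (by omega)]
      have h2 : (∫ t in Ioi (0 : ℝ), (t : ℂ) ^ (s - 1) • (a n * (f (n * t) : ℂ))) =
          a n * mellin (fun t : ℝ => ((f (n * t) : ℝ) : ℂ)) s := by
        rw [mellin, ← integral_const_mul]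
        congr 1
        funext t
        simp only [smul_eq_mul]
        ring
      rw [h2]
      rw [h1, cpow_neg, smul_eq_mul, ofReal_natCast, div_eq_mul_inv]
      ring
  have hint : ∀ n : ℕ, Integrable (fun t : ℝ => (t : ℂ) ^ (s - 1) • (a n * (f (n * t) : ℂ)))
      (volume.restrict (Ioi 0)) := by
    intro n
    rcases Nat.eq_zero_or_pos n with hn | hn
    · subst hn
      simp [hf0]
    · have h1 := (MellinConvergent.comp_mul_left (f := fun x => (f x : ℂ)) (s := s)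
        (show (0 : ℝ) < n by exact_mod_cast hn)).2 hcv
      have h2 := h1.const_smul (a n)
      simpa only [MellinConvergent, IntegrableOn, Pi.smul_apply, smul_eq_mul] using h2
  have hnorm : ∀ n : ℕ, (∫ t in Ioi (0 : ℝ), ‖(t : ℂ) ^ (s - 1) • (a n * (f (n * t) : ℂ))‖) =
      ‖LSeries.term a s n‖ * I := by
    intro n
    rcases Nat.eq_zero_or_pos n with hn | hn
    · subst hn
      simp [hf0]
    · have hnpos : (0 : ℝ) < n := by exact_mod_cast hn
      have h1 := integral_comp_mul_left_Ioi (fun t : ℝ => ‖(t : ℂ) ^ (s - 1) • (f t : ℂ)‖) 0 hnpos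
      rw [mul_zero, ← hI] at h1
      have h2 : (∫ t in Ioi (0 : ℝ), ‖(t : ℂ) ^ (s - 1) • (a n * (f (n * t) : ℂ))‖) =
          ‖a n‖ * (n : ℝ) ^ (1 - s.re) *
            ∫ t in Ioi (0 : ℝ), ‖((n * t : ℝ) : ℂ) ^ (s - 1) • (f (n * t) : ℂ)‖ := by
        rw [← integral_const_mul]
        apply setIntegral_congr_fun measurableSet_Ioi
        intro t ht
        have ht' : 0 < t := ht
        simp only [smul_eq_mul, norm_mul]
        rw [norm_cpow_eq_rpow_re_of_pos ht', norm_cpow_eq_rpow_re_of_pos (mul_pos hnpos ht'),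
          Real.mul_rpow hnpos.le ht'.le]
        simp only [sub_re, one_re]
        have h3 : (n : ℝ) ^ (1 - s.re) * (n : ℝ) ^ (s.re - 1) = 1 := by
          rw [← Real.rpow_add hnpos]
          simp
        calc t ^ (s.re - 1) * (‖a n‖ * ‖((f (n * t) : ℝ) : ℂ)‖)
            = ((n : ℝ) ^ (1 - s.re) * (n : ℝ) ^ (s.re - 1)) *
              (t ^ (s.re - 1) * (‖a n‖ * ‖((f (n * t) : ℝ) : ℂ)‖)) := by rw [h3, one_mul]
          _ = _ := by ring
      rw [h2]
      rw [h1, LSeries.norm_term_eq, if_neg (by omega)]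
      have h4 : (n : ℝ) ^ (1 - s.re) = n / (n : ℝ) ^ s.re := by
        rw [Real.rpow_sub hnpos, Real.rpow_one]
      rw [h4, smul_eq_mul]
      field_simp
  have hsum : Summable fun n : ℕ =>
      ∫ t in Ioi (0 : ℝ), ‖(t : ℂ) ^ (s - 1) • (a n * (f (n * t) : ℂ))‖ := by
    simp only [hnorm]
    exact hs.norm.mul_right I
  have h := hasSum_integral_of_summable_integral_norm hint hsum
  have h' : mellin (g a f) s = ∫ t in Ioi (0 : ℝ),
      ∑' n : ℕ, (t : ℂ) ^ (s - 1) • (a n * (f (n * t) : ℂ)) := by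
    rw [mellin]
    apply setIntegral_congr_fun measurableSet_Ioi
    intro t ht
    have ht' : 0 < t := ht
    simp only [g, smul_eq_mul]
    rw [tsum_mul_left]
  rw [h', ← h.tsum_eq]
  simp only [hterm]
  rw [tsum_mul_right, LSeries]

/-- The main identity. -/
lemma main (hf : Tst f) (κ : ℂ) (hκ : ∀ A : ℕ, ∃ C : ℝ, ∀ Y : ℝ, 1 ≤ Y →
      ‖∑' n : ℕ, a n * (f ((n : ℝ) / Y) : ℂ) - κ * Y‖ ≤ C / Y ^ A) :
    ∃ E : ℂ → ℂ, Differentiable ℂ E ∧ ∀ s : ℂ, 1 < s.re → LSeriesSummable a s →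
      LSeries a s * mellin (fun x => (f x : ℂ)) s = E s + κ / (s - 1) := by
  obtain ⟨R, hR1, hR⟩ := g_large a hf
  obtain ⟨ind, hind⟩ : ∃ ind : ℝ → ℂ, ind = indicator (Ioc (0 : ℝ) 1)
      (fun t : ℝ => (t : ℂ) ^ (-1 : ℂ)) := ⟨_, rfl⟩
  obtain ⟨h, hh⟩ : ∃ h : ℝ → ℂ, h = fun t => g a f t - κ * ind t := ⟨_, rfl⟩
  have hloc : LocallyIntegrableOn h (Ioi 0) := by
    have h1 : LocallyIntegrableOn (g a f) (Ioi 0) :=
      (g_continuousOn a hf).locallyIntegrableOn measurableSet_Ioi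
    have h2 : LocallyIntegrableOn ind (Ioi 0) := by
      have h3 : LocallyIntegrableOn (fun t : ℝ => (t : ℂ) ^ (-1 : ℂ)) (Ioi 0) := by
        refine ContinuousOn.locallyIntegrableOn ?_ measurableSet_Ioi
        intro x hx
        apply ContinuousAt.continuousWithinAt
        exact continuousAt_ofReal_cpow_const _ _ (Or.inr (ne_of_gt hx))
      rw [hind]
      refine h3.mono ?_ ?_
      · apply AEStronglyMeasurable.indicator _ measurableSet_Ioc
        exact ((measurable_ofReal.pow_const _).aestronglyMeasurable)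
      · filter_upwards with x
        exact norm_indicator_le_norm_self _ _
    rw [hh]
    exact h1.sub (h2.smul κ)
  have hbot : ∀ b : ℝ, h =O[𝓝[>] 0] (fun t : ℝ => t ^ (-b)) := by
    intro b
    obtain ⟨A, hA⟩ := exists_nat_ge (-b)
    obtain ⟨C, hC⟩ := hκ A
    refine Asymptotics.IsBigO.of_bound (max C 0) ?_
    filter_upwards [Ioo_mem_nhdsGT one_pos] with t ht
    have ht0 : 0 < t := ht.1
    have hY : 1 ≤ t⁻¹ := (one_le_inv₀ ht0).2 ht.2.le
    have h1 := hC t⁻¹ hY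
    have h2 : ∑' n : ℕ, a n * (f ((n : ℝ) / t⁻¹) : ℂ) = g a f t := by
      rw [g]
      simp only [div_inv_eq_mul]
    have h3 : κ * ((t⁻¹ : ℝ) : ℂ) = κ * ind t := by
      rw [hind, indicator_of_mem (show t ∈ Ioc (0 : ℝ) 1 from ⟨ht0, ht.2.le⟩), cpow_neg_one]
      push_cast
      ring
    rw [h2, h3] at h1
    have h4 : h t = g a f t - κ * ind t := by rw [hh]
    rw [h4]
    refine h1.trans ?_
    have h5 : C / t⁻¹ ^ A = C * t ^ A := by
      rw [inv_pow, div_inv_eq_mul]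
    rw [h5, Real.norm_of_nonneg (Real.rpow_nonneg ht0.le _)]
    have h6 : t ^ A ≤ t ^ (-b) := by
      rw [← Real.rpow_natCast]
      exact Real.rpow_le_rpow_of_exponent_ge ht0 ht.2.le hA
    calc C * t ^ A ≤ max C 0 * t ^ A :=
          mul_le_mul_of_nonneg_right (le_max_left _ _) (by positivity)
      _ ≤ max C 0 * t ^ (-b) := mul_le_mul_of_nonneg_left h6 (le_max_right _ _)
  have hlarge : ∀ t, R < t → h t = 0 := by
    intro t ht
    have h1 : h t = g a f t - κ * ind t := by rw [hh]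
    rw [h1, hR t ht, hind, indicator_of_notMem]
    · simp
    · intro h2
      linarith [h2.2]
  obtain ⟨hE, hcv⟩ := entire hloc hlarge hbot
  refine ⟨mellin h, hE, fun s hs hsum => ?_⟩
  rw [← mellin_g a hf hsum]
  have h1 := hasMellin_cpow_Ioc (-1) (s := s) (by simp; linarith)
  rw [← hind] at h1
  have h2 : g a f = fun t => h t + κ • ind t := by
    funext t
    rw [hh]
    simp
  have h3 := hasMellin_add (hcv s) (h1.1.const_smul κ)
  rw [h2, h3.2, mellin_const_smul, h1.2, smul_eq_mul]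
  rw [mul_one_div, ← sub_eq_add_neg]

end Sum

end Pool.Agent.Lib.MPcb8a44.SX.CONTM

namespace Pool.Agent.Lib.MPcb8a44.SX

open CONTM in
/-- Module CONT. -/
theorem specCONT : SpecCONT := by
  intro a ha κ hκ
  constructor
  · obtain ⟨F, hF, hF'⟩ := glue (fun s => (s - 1) * LSeries a s) (by
      intro f hf
      obtain ⟨E, hE, hE'⟩ := main a hf (κ f) (hκ f hf)
      refine ⟨fun s => (s - 1) * E s + κ f,
        ((differentiable_id.sub_const 1).mul hE).add_const _, fun s hs => ?_⟩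
      have h1 := hE' s hs (ha s hs)
      have h2 : s - 1 ≠ 0 := by
        intro h
        have : s = 1 := by linear_combination h
        rw [this] at hs
        simp at hs
      rw [mul_assoc, h1]
      field_simp)
    exact ⟨F, hF, hF'⟩
  · intro h0
    obtain ⟨F, hF, hF'⟩ := glue (fun s => LSeries a s) (by
      intro f hf
      obtain ⟨E, hE, hE'⟩ := main a hf (κ f) (hκ f hf)
      refine ⟨E, hE, fun s hs => ?_⟩
      have h1 := hE' s hs (ha s hs)
      rw [h1, h0 f hf]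
      simp)
    exact ⟨F, hF, hF'⟩

end Pool.Agent.Lib.MPcb8a44.SX
end

section
/-!
# Theorem X (MP_cb8a44_nt), module DS: Dirichlet series over ideals
-/
set_option autoImplicit false

open NumberField Module Filter Topology Ideal
open scoped nonZeroDivisors Real

namespace Pool.Agent.Lib.MPcb8a44.SX

namespace DSM

variable (K : Type) [Field K] [NumberField K]

theorem nn_ne_zero (I : ID K) : nn I ≠ 0 := by
  unfold nn
  rw [Ne, Ideal.absNorm_eq_zero_iff]
  exact nonZeroDivisors.ne_zero I.2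

theorem nn_pos (I : ID K) : (0 : ℝ) < (nn I : ℝ) :=
  Nat.cast_pos.2 (Nat.pos_of_ne_zero (nn_ne_zero K I))

theorem finite_le (n : ℕ) : {I : ID K | nn I ≤ n}.Finite :=
  Ideal.finite_setOfPred_absNorm_le₀ n

instance finite_fiber (n : ℕ) : Finite {I : ID K // nn I = n} :=
  ((finite_le K n).subset fun I (hI : nn I = n) => show nn I ≤ n from hI.le)

/-- The fibration of the nonzero ideals by the norm. -/
noncomputable def fib : (Σ n : ℕ, {I : ID K // nn I = n}) ≃ ID K :=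
  Equiv.sigmaFiberEquiv (nn : ID K → ℕ)

theorem fib_apply (n : ℕ) (I : {I : ID K // nn I = n}) : fib K ⟨n, I⟩ = I.1 := rfl

theorem card_eq {n : ℕ} (hn : n ≠ 0) :
    Nat.card {I : ID K // nn I = n} = Nat.card {I : Ideal (𝓞 K) // absNorm I = n} := by
  refine Nat.card_congr ⟨fun I => ⟨I.1.1, I.2⟩, fun I => ⟨⟨I.1, ?_⟩, I.2⟩, fun _ => rfl,
    fun _ => rfl⟩
  refine mem_nonZeroDivisors_of_ne_zero fun h => hn ?_
  rw [← I.2, h]
  exact Ideal.absNorm_bot

theorem tendsto_sum : Tendsto (fun n : ℕ => (∑ k ∈ Finset.Icc 1 n,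
    (Nat.card {I : Ideal (𝓞 K) // absNorm I = k} : ℝ)) / n) atTop
    (𝓝 (NumberField.dedekindZeta_residue K)) := by
  refine ((Ideal.tendsto_norm_le_div_atTop₀ K).comp tendsto_natCast_atTop_atTop).congr fun n ↦ ?_
  simp only [Function.comp_apply, Nat.cast_le, ← Nat.cast_sum]
  congr
  rw [← add_left_inj 1, ← card_norm_le_eq_card_norm_le_add_one,
    show Finset.Icc 1 n = Finset.Ioc 0 n from Finset.Icc_succ_left_eq_Ioc _ _,
    show 1 = Nat.card {I : Ideal (𝓞 K) // absNorm I = 0} by simp [Ideal.absNorm_eq_zero_iff],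
    Finset.sum_Ioc_add_eq_sum_Icc (n.zero_le),
    ← Finset.card_preimage_eq_sum_card_image_eq (fun k _ ↦ finite_setOfPred_absNorm_eq k)]
  simp [Set.coe_eq_subtype]

theorem summable_card {s : ℂ} (hs : 1 < s.re) :
    LSeriesSummable (fun n => ((Nat.card {I : Ideal (𝓞 K) // absNorm I = n} : ℝ) : ℂ)) s := by
  refine LSeriesSummable_of_sum_norm_bigO_and_nonneg (r := 1) ?_ (fun _ => Nat.cast_nonneg _)
    zero_le_one hs
  have h := (tendsto_sum K).isBigO_one ℝ
  have h2 := h.mul (Asymptotics.isBigO_refl (fun n : ℕ => (n : ℝ)) atTop)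
  refine (h2.congr' ?_ ?_)
  · filter_upwards [eventually_ne_atTop 0] with n hn
    have : (n : ℝ) ≠ 0 := Nat.cast_ne_zero.2 hn
    field_simp
  · filter_upwards with n
    simp

theorem term_bound (s : ℂ) (n : ℕ) :
    ‖LSeries.term (fun n => ((Nat.card {I : Ideal (𝓞 K) // absNorm I = n} : ℝ) : ℂ)) s n‖ =
      ∑' _ : {I : ID K // nn I = n}, (n : ℝ) ^ (-s.re) := by
  rcases eq_or_ne n 0 with rfl | hn
  · have : IsEmpty {I : ID K // nn I = 0} := ⟨fun I => nn_ne_zero K I.1 I.2⟩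
    simp [LSeries.term_zero]
  · have := Fintype.ofFinite {I : ID K // nn I = n}
    rw [LSeries.term_of_ne_zero hn, tsum_fintype, Finset.sum_const, nsmul_eq_mul, norm_div,
      Complex.norm_natCast_cpow_of_pos (Nat.pos_of_ne_zero hn), Finset.card_univ,
      ← Nat.card_eq_fintype_card, card_eq K hn, Real.rpow_neg (Nat.cast_nonneg n)]
    simp [div_eq_mul_inv]

theorem summable_real {σ : ℝ} (hσ : 1 < σ) : Summable fun I : ID K => (nn I : ℝ) ^ (-σ) := by
  rw [← (fib K).summable_iff]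
  refine (summable_sigma_of_nonneg (f := (fun I : ID K => (nn I : ℝ) ^ (-σ)) ∘ fib K)
    (fun x => Real.rpow_nonneg (Nat.cast_nonneg _) _)).2 ⟨fun n => Summable.of_finite, ?_⟩
  have hs : 1 < ((σ : ℝ) : ℂ).re := by simpa using hσ
  have h := (summable_card K hs).norm
  refine h.congr fun n => ?_
  rw [term_bound K]
  refine tsum_congr fun I => ?_
  have : nn (fib K ⟨n, I⟩) = n := I.2
  simp only [Function.comp, this, Complex.ofReal_re]

theorem norm_cpow (I : ID K) (s : ℂ) : ‖(nn I : ℂ) ^ (-s)‖ = (nn I : ℝ) ^ (-s.re) := by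
  rw [Complex.norm_natCast_cpow_of_pos (Nat.pos_of_ne_zero (nn_ne_zero K I))]
  simp

theorem summable_cpx (g : ID K → ℂ) (hg : ∀ I, ‖g I‖ ≤ 1) {s : ℂ} (hs : 1 < s.re) :
    Summable fun I : ID K => g I * (nn I : ℂ) ^ (-s) := by
  refine Summable.of_norm_bounded (summable_real K hs) fun I => ?_
  rw [norm_mul, norm_cpow]
  have := Real.rpow_nonneg (Nat.cast_nonneg (α := ℝ) (nn I)) (-s.re)
  nlinarith [hg I]

theorem term_eq (g : ID K → ℂ) (s : ℂ) (n : ℕ) :
    LSeries.term (cf g) s n = ∑' I : {I : ID K // nn I = n}, g I * (nn I.1 : ℂ) ^ (-s) := by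
  rcases eq_or_ne n 0 with rfl | hn
  · have : IsEmpty {I : ID K // nn I = 0} := ⟨fun I => nn_ne_zero K I.1 I.2⟩
    simp [LSeries.term_zero]
  · rw [LSeries.term_of_ne_zero hn, cf, div_eq_mul_inv, ← Complex.cpow_neg, ← tsum_mul_right]
    refine tsum_congr fun I => ?_
    rw [I.2]

theorem part2 (g : ID K → ℂ) (hg : ∀ I, ‖g I‖ ≤ 1) {s : ℂ} (hs : 1 < s.re) :
    LSeriesSummable (cf g) s ∧ LSeries (cf g) s = ∑' I : ID K, g I * (nn I : ℂ) ^ (-s) := by
  have h := summable_cpx K g hg hs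
  have h1 : Summable ((fun I : ID K => g I * (nn I : ℂ) ^ (-s)) ∘ fib K) :=
    (fib K).summable_iff.2 h
  have h2 : LSeriesSummable (cf g) s := by
    unfold LSeriesSummable
    refine h1.sigma.congr fun n => ?_
    rw [term_eq]
    rfl
  refine ⟨h2, ?_⟩
  have h3 : ∑' I : ID K, g I * (nn I : ℂ) ^ (-s) =
      ∑' n : ℕ, ∑' I : {I : ID K // nn I = n}, g I * (nn I.1 : ℂ) ^ (-s) :=
    ((fib K).tsum_eq (fun I : ID K => g I * (nn I : ℂ) ^ (-s))).symm.trans h1.tsum_sigma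
  rw [h3, LSeries]
  exact tsum_congr fun n => term_eq K g s n

theorem part3 (g : ID K → ℂ) (f : ℝ → ℝ) (hf : Tst f) {Y : ℝ} (hY : 0 < Y) :
    (Function.support fun I : ID K => f ((nn I : ℝ) / Y)).Finite ∧
    ∑' n : ℕ, cf g n * (f ((n : ℝ) / Y) : ℂ) = ∑' I : ID K, g I * (f ((nn I : ℝ) / Y) : ℂ) := by
  obtain ⟨R, hR⟩ := hf.cpt.isCompact.isBounded.subset_closedBall 0
  have hfin : (Function.support fun I : ID K => f ((nn I : ℝ) / Y)).Finite := by
    refine (finite_le K ⌊R * Y⌋₊).subset fun I hI => ?_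
    have h1 : (nn I : ℝ) / Y ∈ tsupport f := subset_tsupport _ hI
    have h2 := hR h1
    rw [Metric.mem_closedBall, dist_zero_right, Real.norm_eq_abs] at h2
    have h3 : (nn I : ℝ) / Y ≤ R := (le_abs_self _).trans h2
    rw [div_le_iff₀ hY] at h3
    exact Nat.le_floor h3
  refine ⟨hfin, ?_⟩
  have hs : Summable fun I : ID K => g I * (f ((nn I : ℝ) / Y) : ℂ) := by
    refine summable_of_hasFiniteSupport (hfin.subset fun I hI => ?_)
    simp only [Function.mem_support, ne_eq, mul_eq_zero, Complex.ofReal_eq_zero, not_or] at hI ⊢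
    exact hI.2
  have h1 : Summable ((fun I : ID K => g I * (f ((nn I : ℝ) / Y) : ℂ)) ∘ fib K) :=
    (fib K).summable_iff.2 hs
  have h3 : ∑' I : ID K, g I * (f ((nn I : ℝ) / Y) : ℂ) =
      ∑' n : ℕ, ∑' I : {I : ID K // nn I = n}, g I * (f ((nn I.1 : ℝ) / Y) : ℂ) :=
    ((fib K).tsum_eq (fun I : ID K => g I * (f ((nn I : ℝ) / Y) : ℂ))).symm.trans h1.tsum_sigma
  rw [h3]
  refine tsum_congr fun n => ?_
  rw [cf, ← tsum_mul_right]
  refine tsum_congr fun I => ?_
  rw [I.2]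

theorem cf_one {n : ℕ} (hn : n ≠ 0) :
    cf (fun _ : ID K => 1) n = ((Nat.card {I : Ideal (𝓞 K) // absNorm I = n} : ℕ) : ℂ) := by
  have := Fintype.ofFinite {I : ID K // nn I = n}
  rw [cf, tsum_fintype, Finset.sum_const, nsmul_eq_mul, mul_one, Finset.card_univ,
    ← Nat.card_eq_fintype_card, card_eq K hn]

end DSM

open DSM in
theorem specDS : SpecDS := by
  intro K _ _
  refine ⟨fun σ hσ => summable_real K hσ, fun g hg s hs => part2 K g hg hs,
    fun g f hf Y hY => part3 K g f hf hY, NumberField.dedekindZeta_residue K,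
    NumberField.dedekindZeta_residue_pos K, ?_⟩
  refine (NumberField.tendsto_sub_one_mul_dedekindZeta_nhdsGT K).congr fun s => ?_
  congr 1
  unfold NumberField.dedekindZeta
  exact LSeries_congr (fun {n} hn => (cf_one K hn).symm) _

end Pool.Agent.Lib.MPcb8a44.SX
end

section
/-!
# EIC: Eichler's argument

A vector `v` with `v.v = n` and all coordinates in `q`, `q² = (n)`: then `n` is a square.
-/
set_option autoImplicit false

open NumberField Module

namespace Pool.Agent.Lib.MPcb8a44.SX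

namespace EICM

/-- Over a totally real field the embeddings are real. -/
lemma re_eq {K : Type} [Field K] (h : TR K) (φ : K →+* ℂ) (x : K) :
    φ x = (((φ x).re : ℝ) : ℂ) := by
  apply Complex.ext
  · simp
  · simp [h φ x]

/-- A square has nonnegative real part at every place. -/
lemma re_sq {K : Type} [Field K] (h : TR K) (φ : K →+* ℂ) (x : K) :
    (φ (x * x)).re = (φ x).re * (φ x).re := by
  rw [map_mul, Complex.mul_re, h φ x]
  ring

lemma re_mul {K : Type} [Field K] (h : TR K) (φ : K →+* ℂ) (x y : K) :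
    (φ (x * y)).re = (φ x).re * (φ y).re := by
  rw [map_mul, Complex.mul_re, h φ x]
  ring

/-- An integer all of whose conjugates lie in `(0, 1]` is `1`. -/
lemma eq_one {K : Type} [Field K] [NumberField K] (h : TR K) (x : 𝓞 K)
    (h0 : ∀ φ : K →+* ℂ, 0 < (φ (x : K)).re) (h1 : ∀ φ : K →+* ℂ, (φ (x : K)).re ≤ 1) :
    x = 1 := by
  obtain ⟨φ⟩ : Nonempty (K →+* ℂ) := inferInstance
  have hx : (x : K) ≠ 0 := by
    intro hx
    have := h0 φ
    rw [hx] at this
    simp at this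
  obtain ⟨n, hn, hxn⟩ := NumberField.Embeddings.pow_eq_one_of_norm_le_one K ℂ hx
    x.isIntegral_coe (fun ψ => by
      rw [re_eq h ψ, Complex.norm_real, Real.norm_eq_abs, abs_of_pos (h0 ψ)]
      exact h1 ψ)
  have h2 : (φ (x : K)).re ^ n = 1 := by
    have h3 : (φ (x : K)) ^ n = 1 := by rw [← map_pow, hxn, map_one]
    rw [re_eq h φ] at h3
    exact_mod_cast h3
  have h4 : (φ (x : K)).re = 1 :=
    (pow_eq_one_iff_of_nonneg (h0 φ).le (by omega)).1 h2
  have h5 : φ (x : K) = φ 1 := by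
    rw [re_eq h φ, h4]
    simp
  have h6 := φ.injective h5
  exact_mod_cast h6

end EICM

open EICM in
/-- EIC. -/
theorem specEIC : SpecEIC := by
  intro K _ _ h n q hn hq v hv hvq
  have hj : ∃ j, v j ≠ 0 := by
    by_contra hc
    push Not at hc
    apply hn
    rw [← hv]
    simp [dt, hc]
  obtain ⟨j, hj⟩ := hj
  have hm : v j * v j ∈ Ideal.span {n} := by
    rw [← hq, pow_two]
    exact Ideal.mul_mem_mul (hvq j) (hvq j)
  obtain ⟨x, hx⟩ := Ideal.mem_span_singleton'.1 hm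
  have hnK : (n : K) ≠ 0 := by exact_mod_cast hn
  have hjK : (v j : K) ≠ 0 := by exact_mod_cast hj
  have key : ∀ φ : K →+* ℂ, (φ (v j : K)).re * (φ (v j : K)).re ≤ (φ (n : K)).re ∧
      0 < (φ (n : K)).re ∧ (φ (x : K)).re * (φ (n : K)).re =
        (φ (v j : K)).re * (φ (v j : K)).re ∧ 0 < (φ (v j : K)).re * (φ (v j : K)).re := by
    intro φ
    have e1 : (φ (n : K)).re = (φ (v 0 : K)).re * (φ (v 0 : K)).re +
        (φ (v 1 : K)).re * (φ (v 1 : K)).re + (φ (v 2 : K)).re * (φ (v 2 : K)).re := by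
      have : (n : K) = (v 0 : K) * (v 0 : K) + (v 1 : K) * (v 1 : K) + (v 2 : K) * (v 2 : K) := by
        rw [← hv, dt]
        simp
      rw [this, map_add, map_add, Complex.add_re, Complex.add_re, re_sq h, re_sq h, re_sq h]
    have e2 : (φ (x : K)).re * (φ (n : K)).re = (φ (v j : K)).re * (φ (v j : K)).re := by
      rw [← re_mul h, ← re_mul h]
      have : (x : K) * (n : K) = (v j : K) * (v j : K) := by
        have h7 := congrArg (fun z : 𝓞 K => (z : K)) hx
        simpa using h7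
      rw [this]
    have e3 : 0 < (φ (v j : K)).re * (φ (v j : K)).re := by
      have : (φ (v j : K)).re ≠ 0 := by
        intro h0
        have h1 : φ (v j : K) = φ 0 := by rw [re_eq h φ, h0]; simp
        exact hjK (φ.injective h1)
      exact mul_self_pos.2 this
    have e4 : (φ (v j : K)).re * (φ (v j : K)).re ≤ (φ (n : K)).re := by
      rw [e1]
      have s0 := mul_self_nonneg (φ (v 0 : K)).re
      have s1 := mul_self_nonneg (φ (v 1 : K)).re
      have s2 := mul_self_nonneg (φ (v 2 : K)).re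
      fin_cases j <;> simp <;> linarith
    exact ⟨e4, lt_of_lt_of_le e3 e4, e2, e3⟩
  have hx1 : x = 1 := by
    apply eq_one h
    · intro φ
      obtain ⟨k1, k2, k3, k4⟩ := key φ
      by_contra hc
      push Not at hc
      have h8 := mul_nonneg (neg_nonneg.2 hc) k2.le
      linarith
    · intro φ
      obtain ⟨k1, k2, k3, k4⟩ := key φ
      by_contra hc
      push Not at hc
      have h8 := mul_lt_mul_of_pos_right hc k2
      linarith
  refine ⟨v j, ?_⟩
  rw [hx1, one_mul] at hx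
  rw [hx, pow_two]

end Pool.Agent.Lib.MPcb8a44.SX
end

section
/-!
# Theorem X (MP_cb8a44_nt), module ENT

The continuation of `L(s, ψ)` for the characters of the class group modulo elements of positive
norm.
-/
set_option autoImplicit false

open NumberField Module
open scoped nonZeroDivisors

namespace Pool.Agent.Lib.MPcb8a44.SX

namespace ENTM

set_option linter.unusedSectionVars false

variable {K : Type} [Field K] [NumberField K] {G : Type} [CommGroup G]

theorem norm_psi [Finite G] (ψ : G →* ℂˣ) (g : G) : ‖(ψ g : ℂ)‖ = 1 := by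
  have h : (ψ g : ℂ) ^ Nat.card G = 1 := by
    rw [← Units.val_pow_eq_pow_val, ← map_pow, pow_card_eq_one', map_one, Units.val_one]
  exact Complex.norm_eq_one_of_pow_eq_one h Nat.card_pos.ne'

theorem cls_ne {j : Ideal (𝓞 K)} {a : Ideal (𝓞 K)} (ha : a ∈ Cls j) : a ≠ 0 := by
  obtain ⟨x, hx, h⟩ := ha
  rintro rfl
  rw [zero_mul] at h
  have : x = 0 := by
    have := (Ideal.span_singleton_eq_bot (x := x)).mp (by rw [← h]; rfl)
    exact this
  subst this
  rw [Algebra.norm_zero] at hx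
  exact lt_irrefl _ hx

theorem mem_cls {c : ID K →* G} (hc : IsCl c) {γ : G} {j : ID K} (hj : c j = γ⁻¹) (I : ID K) :
    c I = γ ↔ (I : Ideal (𝓞 K)) ∈ Cls (j : Ideal (𝓞 K)) := by
  constructor
  · intro h
    have h1 : c (I * j) = c 1 := by rw [map_mul, h, hj, mul_inv_cancel, map_one]
    obtain ⟨x, y, hx, hy, h2⟩ := (hc.2 _ _).mp h1
    push_cast at h2
    rw [mul_one] at h2
    have h3 : y ∈ Ideal.span {x} := by
      have h4 : y ∈ Ideal.span {x} * ((I : Ideal (𝓞 K)) * (j : Ideal (𝓞 K))) := by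
        rw [h2]
        exact Ideal.mem_span_singleton_self y
      exact Ideal.mul_le_left h4
    obtain ⟨z, rfl⟩ := Ideal.mem_span_singleton'.mp h3
    have hx0 : x ≠ 0 := by
      rintro rfl
      rw [Algebra.norm_zero] at hx
      exact lt_irrefl _ hx
    refine ⟨z, ?_, ?_⟩
    · rw [map_mul] at hy
      by_contra hz
      push Not at hz
      exact absurd hy (not_lt.mpr (mul_nonpos_of_nonpos_of_nonneg hz hx.le))
    · have hX : (Ideal.span {x} : Ideal (𝓞 K)) ≠ 0 := by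
        intro h0
        exact hx0 (Ideal.span_singleton_eq_bot.mp h0)
      apply mul_left_cancel₀ hX
      rw [h2, mul_comm z x, Ideal.span_singleton_mul_span_singleton]
  · rintro ⟨x, hx, h⟩
    have h1 : c (I * j) = c 1 := by
      rw [hc.2]
      refine ⟨1, x, by simp, hx, ?_⟩
      push_cast
      rw [h]
      simp
    rw [map_mul, hj, map_one] at h1
    exact mul_inv_eq_one.mp h1

/-- The ideals of the class `γ`. -/
def eqv {c : ID K →* G} (hc : IsCl c) {γ : G} {j : ID K} (hj : c j = γ⁻¹) :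
    {I : ID K // c I = γ} ≃ Cls (j : Ideal (𝓞 K)) where
  toFun I := ⟨(I.1 : Ideal (𝓞 K)), (mem_cls hc hj I.1).mp I.2⟩
  invFun a := ⟨⟨a.1, mem_nonZeroDivisors_of_ne_zero (cls_ne a.2)⟩,
    (mem_cls hc hj ⟨a.1, mem_nonZeroDivisors_of_ne_zero (cls_ne a.2)⟩).mpr a.2⟩
  left_inv _ := rfl
  right_inv _ := rfl

theorem tsum_cls {c : ID K →* G} (hc : IsCl c) {γ : G} {j : ID K} (hj : c j = γ⁻¹)
    (f : ℝ → ℝ) (Y : ℝ) :
    ∑' a : Cls (j : Ideal (𝓞 K)), f ((Ideal.absNorm (a : Ideal (𝓞 K)) : ℝ) / Y) =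
      ∑' I : {I : ID K // c I = γ}, f ((nn I.1 : ℝ) / Y) := by
  rw [← (eqv hc hj).tsum_eq]
  rfl

theorem sum_split [Fintype G] (c : ID K →* G) (ψ : G →* ℂˣ) (f : ℝ → ℝ) (Y : ℝ)
    (hfin : (Function.support fun I : ID K => f ((nn I : ℝ) / Y)).Finite) :
    ∑' I : ID K, chf c ψ I * (f ((nn I : ℝ) / Y) : ℂ) =
      ∑ γ : G, (ψ γ : ℂ) * ((∑' I : {I : ID K // c I = γ}, f ((nn I.1 : ℝ) / Y) : ℝ) : ℂ) := by
  have hs : Summable fun I : ID K => chf c ψ I * (f ((nn I : ℝ) / Y) : ℂ) := by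
    apply summable_of_hasFiniteSupport
    apply hfin.subset
    intro I hI
    rw [Function.mem_support] at hI ⊢
    intro h0
    apply hI
    rw [h0]
    simp
  rw [← (Equiv.sigmaFiberEquiv c).tsum_eq]
  have hs' : Summable fun x : (Σ y : G, {x : ID K // c x = y}) =>
      chf c ψ (Equiv.sigmaFiberEquiv c x) * (f ((nn (Equiv.sigmaFiberEquiv c x) : ℝ) / Y) : ℂ) :=
    (Equiv.sigmaFiberEquiv c).summable_iff.mpr hs
  rw [hs'.tsum_sigma, tsum_fintype]
  apply Finset.sum_congr rfl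
  intro γ _
  have h1 : ∀ I : {I : ID K // c I = γ},
      chf c ψ (Equiv.sigmaFiberEquiv c ⟨γ, I⟩) *
        (f ((nn (Equiv.sigmaFiberEquiv c ⟨γ, I⟩) : ℝ) / Y) : ℂ) =
      (ψ γ : ℂ) * ((f ((nn I.1 : ℝ) / Y) : ℝ) : ℂ) := by
    intro I
    have h2 : (Equiv.sigmaFiberEquiv c ⟨γ, I⟩) = I.1 := rfl
    rw [h2]
    unfold chf
    rw [I.2]
  rw [tsum_congr h1, tsum_mul_left, Complex.ofReal_tsum]

end ENTM

open ENTM in
theorem specENT (h1 : SpecKL) (h2 : SpecCONT) (h3 : SpecDS) : SpecENT := by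
  intro K _ _ hTR G _ _ c hc ψ
  classical
  have : Fintype G := Fintype.ofFinite G
  obtain ⟨-, hd2, hd3, -⟩ := h3 K
  have hg : ∀ I, ‖chf c ψ I‖ ≤ 1 := fun I => (norm_psi ψ (c I)).le
  have hsum : ∀ s : ℂ, 1 < s.re → LSeriesSummable (cf (chf c ψ)) s := fun s hs =>
    (hd2 _ hg s hs).1
  -- the constants
  let k : (ℝ → ℝ) → ℝ := fun f => if hf : Tst f then (h1 K hTR f hf).choose else 0
  have hk : ∀ f, Tst f → ∀ j : Ideal (𝓞 K), j ≠ ⊥ → ∀ A : ℕ, ∃ C : ℝ, ∀ Y : ℝ, 1 ≤ Y →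
      |∑' a : Cls j, f ((Ideal.absNorm (a : Ideal (𝓞 K)) : ℝ) / Y) - k f * Y| ≤ C / Y ^ A := by
    intro f hf
    have := (h1 K hTR f hf).choose_spec
    simp only [k, dif_pos hf]
    exact this
  -- representatives of the inverse classes
  have hj : ∀ γ : G, ∃ j : ID K, c j = γ⁻¹ := fun γ => hc.1 γ⁻¹
  choose j hj using hj
  have hest : ∀ f, Tst f → ∀ A : ℕ, ∃ C : ℝ, ∀ Y : ℝ, 1 ≤ Y →
      ‖∑' n : ℕ, cf (chf c ψ) n * (f ((n : ℝ) / Y) : ℂ) -
        ((k f : ℂ) * ∑ γ : G, (ψ γ : ℂ)) * Y‖ ≤ C / Y ^ A := by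
    intro f hf A
    have hC : ∀ γ : G, ∃ C : ℝ, ∀ Y : ℝ, 1 ≤ Y →
        |∑' I : {I : ID K // c I = γ}, f ((nn I.1 : ℝ) / Y) - k f * Y| ≤ C / Y ^ A := by
      intro γ
      obtain ⟨C, hC⟩ := hk f hf (j γ : Ideal (𝓞 K)) (nonZeroDivisors.coe_ne_zero _) A
      refine ⟨C, fun Y hY => ?_⟩
      rw [← tsum_cls hc (hj γ)]
      exact hC Y hY
    choose C hC using hC
    refine ⟨∑ γ : G, C γ, fun Y hY => ?_⟩
    obtain ⟨hfin, heq⟩ := hd3 (chf c ψ) f hf Y (by linarith)
    rw [heq, sum_split c ψ f Y hfin]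
    have h4 : ∑ γ : G, (ψ γ : ℂ) * ((∑' I : {I : ID K // c I = γ}, f ((nn I.1 : ℝ) / Y) : ℝ) : ℂ) -
        ((k f : ℂ) * ∑ γ : G, (ψ γ : ℂ)) * Y =
        ∑ γ : G, (ψ γ : ℂ) *
          ((∑' I : {I : ID K // c I = γ}, f ((nn I.1 : ℝ) / Y) - k f * Y : ℝ) : ℂ) := by
      rw [Finset.mul_sum, Finset.sum_mul, ← Finset.sum_sub_distrib]
      apply Finset.sum_congr rfl
      intro γ _
      push_cast
      ring
    rw [h4, Finset.sum_div]
    refine (norm_sum_le _ _).trans (Finset.sum_le_sum fun γ _ => ?_)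
    rw [norm_mul, norm_psi, one_mul, Complex.norm_real, Real.norm_eq_abs]
    exact hC γ Y hY
  obtain ⟨hA, hB⟩ := h2 (cf (chf c ψ)) hsum (fun f => (k f : ℂ) * ∑ γ : G, (ψ γ : ℂ)) hest
  refine ⟨hA, fun hψ => hB fun f hf => ?_⟩
  have h5 : ∑ γ : G, (ψ γ : ℂ) = 0 := by
    have h6 : ((Units.coeHom ℂ).comp ψ) ≠ 1 := by
      intro h7
      apply hψ
      ext γ
      have := DFunLike.congr_fun h7 γ
      simpa using this
    have := sum_hom_units_eq_zero ((Units.coeHom ℂ).comp ψ) h6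
    simpa using this
  simp [h5]

end Pool.Agent.Lib.MPcb8a44.SX
end

section
/-!
# Theorem X: module EXT
-/
set_option autoImplicit false

open NumberField Module Polynomial

namespace Pool.Agent.Lib.MPcb8a44.SX

namespace EXTM

theorem not_sq {K : Type} [Field K] [NumberField K] {t : K} (hK : TR K) (ht : TP t) :
    ∀ y : K, y ^ 2 ≠ -t := by
  intro y hy
  obtain ⟨φ⟩ : Nonempty (K →+* ℂ) := inferInstance
  have h1 := hK φ y
  have h2 := ht φ
  have h3 : φ y ^ 2 = -φ t := by rw [← map_pow, hy, map_neg]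
  have h4 := congrArg Complex.re h3
  rw [sq, Complex.mul_re, h1, Complex.neg_re] at h4
  nlinarith [mul_self_nonneg (φ y).re]

theorem irr {K : Type} [Field K] [NumberField K] {t : K} (hK : TR K) (ht : TP t) :
    Irreducible (X ^ 2 + C t : K[X]) := by
  have hd : (X ^ 2 + C t : K[X]).natDegree = 2 := natDegree_X_pow_add_C
  rw [irreducible_iff_roots_eq_zero_of_degree_le_three (by rw [hd]) (by rw [hd]; norm_num)]
  rw [Multiset.eq_zero_iff_forall_notMem]
  intro y hy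
  rw [mem_roots'] at hy
  have h1 := hy.2
  rw [IsRoot.def, eval_add, eval_pow, eval_X, eval_C] at h1
  exact not_sq hK ht y (eq_neg_of_add_eq_zero_left h1)

end EXTM

theorem specEXT : SpecEXT := by
  intro K _ _ t hK ht
  have hirr := EXTM.irr hK ht
  have : Fact (Irreducible (X ^ 2 + C t : K[X])) := ⟨hirr⟩
  have hmonic : (X ^ 2 + C t : K[X]).Monic := monic_X_pow_add_C t (by norm_num)
  have : Module.Finite K (AdjoinRoot (X ^ 2 + C t : K[X])) := hmonic.finite_adjoinRoot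
  have hroot : (AdjoinRoot.root (X ^ 2 + C t : K[X])) ^ 2 =
      -algebraMap K (AdjoinRoot (X ^ 2 + C t : K[X])) t := by
    have h1 := AdjoinRoot.aeval_eq (f := (X ^ 2 + C t : K[X])) (X ^ 2 + C t)
    rw [AdjoinRoot.mk_self, map_add, map_pow, aeval_X, aeval_C] at h1
    exact eq_neg_of_add_eq_zero_left h1
  have hneg : (X ^ 2 + C t : K[X]).eval₂ (Algebra.ofId K (AdjoinRoot (X ^ 2 + C t : K[X])))
      (-AdjoinRoot.root (X ^ 2 + C t : K[X])) = 0 := by
    rw [eval₂_add, eval₂_pow, eval₂_X, eval₂_C, neg_sq, hroot]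
    exact neg_add_cancel _
  let s : AdjoinRoot (X ^ 2 + C t : K[X]) →ₐ[K] AdjoinRoot (X ^ 2 + C t : K[X]) :=
    AdjoinRoot.liftAlgHom _ (Algebra.ofId K _) (-AdjoinRoot.root (X ^ 2 + C t : K[X])) hneg
  have hs : s (AdjoinRoot.root (X ^ 2 + C t : K[X])) = -AdjoinRoot.root (X ^ 2 + C t : K[X]) :=
    AdjoinRoot.liftAlgHom_root _ _ _ _
  have hss : s.comp s = AlgHom.id K _ := by
    apply AdjoinRoot.algHom_ext
    rw [AlgHom.comp_apply, hs, map_neg, hs, neg_neg]
    rfl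
  have hNF : NumberField (AdjoinRoot (X ^ 2 + C t : K[X])) := NumberField.of_module_finite K _
  refine ⟨AdjoinRoot (X ^ 2 + C t : K[X]), inferInstance, hNF, inferInstance, ⟨?_⟩⟩
  exact
    { θ := AdjoinRoot.root (X ^ 2 + C t : K[X])
      σ := AlgEquiv.ofAlgHom s s hss hss
      hθ := hroot
      hσ := hs
      rep := by
        intro z
        obtain ⟨g, rfl⟩ := AdjoinRoot.mk_surjective z
        have h1 : AdjoinRoot.mk (X ^ 2 + C t : K[X]) g =
            AdjoinRoot.mk (X ^ 2 + C t : K[X]) (g %ₘ (X ^ 2 + C t)) := by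
          rw [AdjoinRoot.mk_eq_mk]
          refine ⟨g /ₘ (X ^ 2 + C t), ?_⟩
          have := modByMonic_add_div g (X ^ 2 + C t : K[X])
          linear_combination -this
        have h2 : (g %ₘ (X ^ 2 + C t : K[X])).natDegree ≤ 1 := by
          have := natDegree_modByMonic_lt g hmonic (by
            intro h
            have h3 : (X ^ 2 + C t : K[X]).natDegree = 2 := natDegree_X_pow_add_C
            rw [h, natDegree_one] at h3
            omega)
          rw [natDegree_X_pow_add_C] at this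
          omega
        obtain ⟨a, b, hab⟩ := exists_eq_X_add_C_of_natDegree_le_one h2
        refine ⟨b, a, ?_⟩
        rw [h1, hab, map_add, map_mul, AdjoinRoot.mk_C, AdjoinRoot.mk_C, AdjoinRoot.mk_X]
        rw [AdjoinRoot.algebraMap_eq]
        ring }

end Pool.Agent.Lib.MPcb8a44.SX
end

section
/-!
# Theorem X (MP_cb8a44_nt): assembly
-/
set_option autoImplicit false
set_option linter.style.longLine false

open NumberField Module
open scoped nonZeroDivisors

namespace Pool.Agent.Lib.MPcb8a44.SX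

namespace FINM

set_option linter.unusedSectionVars false

variable {K : Type} [Field K] [NumberField K]

theorem card_emb : Fintype.card (K →+* ℂ) = finrank ℚ K := Embeddings.card K ℂ

theorem cj_eq (hK : TR K) (x : K) (φ : K →+* ℂ) : φ x = (cj x φ : ℂ) := by
  apply Complex.ext
  · simp [cj]
  · simpa using hK φ x

theorem cj_mul (hK : TR K) (x y : K) (φ : K →+* ℂ) : cj (x * y) φ = cj x φ * cj y φ := by
  have := cj_eq hK (x * y) φ
  rw [map_mul, cj_eq hK x, cj_eq hK y] at this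
  exact_mod_cast this.symm

theorem cj_pow (hK : TR K) (x : K) (k : ℕ) (φ : K →+* ℂ) : cj (x ^ k) φ = cj x φ ^ k := by
  have := cj_eq hK (x ^ k) φ
  rw [map_pow, cj_eq hK x] at this
  exact_mod_cast this.symm

theorem cj_nat (m : ℕ) (φ : K →+* ℂ) : cj (m : K) φ = m := by
  simp [cj]

theorem norm_prod (hK : TR K) (x : 𝓞 K) : (Algebra.norm ℤ x : ℝ) = ∏ φ : K →+* ℂ, cj (x : K) φ := by
  have h1 : (Algebra.norm ℤ x : ℚ) = Algebra.norm ℚ (x : K) := by
    exact Algebra.coe_norm_int x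
  have h2 : (algebraMap ℚ ℂ) (Algebra.norm ℚ (x : K)) = ∏ φ : K →+* ℂ, φ (x : K) := by
    rw [Algebra.norm_eq_prod_embeddings ℚ ℂ]
    exact (Fintype.prod_equiv (RingHom.equivRatAlgHom K ℂ) _ _ fun f => rfl).symm
  have h3 : ((Algebra.norm ℤ x : ℝ) : ℂ) = ((∏ φ : K →+* ℂ, cj (x : K) φ : ℝ) : ℂ) := by
    push_cast
    rw [← Finset.prod_congr rfl fun φ _ => cj_eq hK (x : K) φ, ← h2, ← h1]
    simp
  exact_mod_cast h3

theorem cj_ne (hK : TR K) {x : K} (hx : x ≠ 0) (φ : K →+* ℂ) : cj x φ ≠ 0 := by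
  intro h
  have := cj_eq hK x φ
  rw [h, Complex.ofReal_zero, map_eq_zero] at this
  exact hx this

theorem TP_ne {x : K} (h : TP x) : x ≠ 0 := by
  rintro rfl
  obtain ⟨φ⟩ : Nonempty (K →+* ℂ) := inferInstance
  simpa using h φ

/-- elements of `K` whose square is integral -/
theorem int_of_sq (z : K) (w : 𝓞 K) (h : z ^ 2 = (w : K)) : ∃ y : 𝓞 K, (y : K) = z := by
  have h1 : IsIntegral ℤ (z ^ 2) := by
    rw [h]
    exact w.isIntegral_coe
  have h2 : IsIntegral ℤ z := IsIntegral.of_pow two_pos h1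
  exact ⟨⟨z, h2⟩, rfl⟩

/-- a square in `K` -/
theorem sq_of (t : 𝓞 K) (z : K) (h : (t : K) = z ^ 2) : ∃ y : 𝓞 K, t = y ^ 2 := by
  obtain ⟨y, hy⟩ := int_of_sq z t h.symm
  refine ⟨y, ?_⟩
  apply RingOfIntegers.ext
  rw [h, ← hy]
  simp

/-- Balanced primes -/
theorem bal (hK : TR K) (hPET : SpecPET) {B : ℝ}
    (hBAL : ∀ z : (K →+* ℂ) → ℝ, (∀ φ, z φ ≠ 0) → ∃ u : (𝓞 K)ˣ, ∀ φ ψ,
      |cj ((u : 𝓞 K) : K) φ ^ 2 * z φ| ≤ B * |cj ((u : 𝓞 K) : K) ψ ^ 2 * z ψ|)
    (j : Ideal (𝓞 K)) (hj : j ≠ ⊥) (e : ℤ) (he : e = 1 ∨ e = -1) (N : ℕ) :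
    ∃ (q : Ideal (𝓞 K)) (x : 𝓞 K), q.IsPrime ∧ q ≠ ⊥ ∧ N < Ideal.absNorm q ∧
      q * j = Ideal.span {x} ∧ 0 < e * Algebra.norm ℤ x ∧ x ≠ 0 ∧
      ∀ φ ψ, |cj (x : K) φ| ≤ B * |cj (x : K) ψ| := by
  obtain ⟨q, x, hq, hq0, hN, hx, hs⟩ := hPET K hK j hj e he N
  have hx0 : x ≠ 0 := by
    rintro rfl
    simp at hs
  obtain ⟨u, hu⟩ := hBAL (fun φ => cj (x : K) φ) fun φ =>
    cj_ne hK (by simpa using hx0) φ
  refine ⟨q, (u : 𝓞 K) ^ 2 * x, hq, hq0, hN, ?_, ?_, ?_, fun φ ψ => ?_⟩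
  · rw [hx, eq_comm, Ideal.span_singleton_eq_span_singleton]
    exact ⟨u⁻¹ ^ 2, by
      rw [mul_comm ((u : 𝓞 K) ^ 2) x, mul_assoc]
      norm_cast
      simp⟩
  · rw [map_mul, map_pow]
    have : (Algebra.norm ℤ (u : 𝓞 K)) ^ 2 = 1 := by
      have h1 : IsUnit (Algebra.norm ℤ (u : 𝓞 K)) := u.isUnit.map _
      rcases Int.isUnit_iff.1 h1 with h | h <;> rw [h] <;> norm_num
    rw [this, one_mul]
    exact hs
  · exact mul_ne_zero (pow_ne_zero _ u.ne_zero) hx0
  · have h := hu φ ψ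
    have h2 : ∀ φ, cj (((u : 𝓞 K) ^ 2 * x : 𝓞 K) : K) φ = cj ((u : 𝓞 K) : K) φ ^ 2 * cj (x : K) φ := by
      intro φ
      rw [← cj_pow hK, ← cj_mul hK]
      simp
    rw [h2, h2]
    exact h

/-- `n = t x² / y²`, a sum of three squares, and a vector not in `q`. -/
theorem vec (hK : TR K) (hEIC : SpecEIC)
    (hP : ∀ x : 𝓞 K, (∃ (m : ℕ) (f : Fin m → 𝓞 K), x = ∑ i, f i ^ 2) →
      ∃ f : Fin 3 → 𝓞 K, x = ∑ i, f i ^ 2) {t s r : 𝓞 K} {a j : Ideal (𝓞 K)}
    (ht : TP (t : K)) (hsq : a ^ 2 = Ideal.span {t}) (hr : s ^ 2 + t = 8 * t * r)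
    (hns : ¬ ∃ y : 𝓞 K, t = y ^ 2) {y : ℕ} (hy0 : (y : 𝓞 K) ≠ 0)
    (hj : a * j = Ideal.span {(y : 𝓞 K)}) {C B M : ℝ} (hB : 1 ≤ B) (hC : 0 < C)
    (hSSQ : ∀ n x : 𝓞 K, x ^ 2 - n ∈ Ideal.span {(2 : 𝓞 K)} → TP (n : K) →
      (∀ φ ψ, C * Real.sqrt (cj (n : K) φ) ≤ cj (n : K) ψ) →
      ∃ (m : ℕ) (f : Fin m → 𝓞 K), n = ∑ i, f i ^ 2)
    (hM0 : 0 < M) (hM : ∀ φ ψ, cj (t : K) φ * B ^ 2 ≤ M * cj (t : K) ψ)
    {q : Ideal (𝓞 K)} {x : 𝓞 K} (_hq : q.IsPrime) (hq0 : q ≠ ⊥)
    (hN : (C ^ 2 * M ^ 2) ^ finrank ℚ K ≤ Ideal.absNorm q) (hx : q * j = Ideal.span {x}) (hx0 : x ≠ 0)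
    (hbal : ∀ φ ψ, |cj (x : K) φ| ≤ B * |cj (x : K) ψ|) :
    ∃ (n : 𝓞 K) (v : Fin 3 → 𝓞 K), (n : K) = (t : K) * ((x : K) / (y : K)) ^ 2 ∧
      q ^ 2 = Ideal.span {n} ∧ n ≠ 0 ∧ dt v v = n ∧ ∃ i, v i ∉ q := by
  have hy0' : (y : K) ≠ 0 := by
    intro h
    apply hy0
    apply RingOfIntegers.ext
    simpa using h
  have hy2 : ((y : 𝓞 K)) ^ 2 ≠ 0 := pow_ne_zero _ hy0
  -- n
  have hid : Ideal.span {t * x ^ 2} = Ideal.span {(y : 𝓞 K) ^ 2} * q ^ 2 := by
    rw [← Ideal.span_singleton_mul_span_singleton, ← Ideal.span_singleton_pow,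
      ← Ideal.span_singleton_pow, ← hsq, ← hx, ← hj]
    ring
  have hdv : (y : 𝓞 K) ^ 2 ∣ t * x ^ 2 := by
    rw [← Ideal.span_singleton_le_span_singleton, hid]
    exact Ideal.mul_le_left
  obtain ⟨n, hn⟩ := hdv
  have hqn : q ^ 2 = Ideal.span {n} := by
    rw [hn, ← Ideal.span_singleton_mul_span_singleton] at hid
    refine (mul_left_cancel₀ ?_ hid).symm
    rw [Ne, Ideal.zero_eq_bot, Ideal.span_singleton_eq_bot]
    exact hy2
  have ht0 : t ≠ 0 := by
    intro h
    apply TP_ne ht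
    rw [h]
    simp
  have hn0 : n ≠ 0 := by
    rintro rfl
    rw [mul_zero] at hn
    exact mul_ne_zero ht0 (pow_ne_zero _ hx0) hn
  have hnK : (n : K) = (t : K) * ((x : K) / (y : K)) ^ 2 := by
    have h1 := congrArg (fun z : 𝓞 K => (z : K)) hn
    simp only [map_mul, map_pow, map_natCast] at h1
    field_simp
    rw [h1]
    ring
  -- TP n
  have hncj : ∀ φ, cj (n : K) φ = cj (t : K) φ * (cj (x : K) φ / y) ^ 2 := by
    intro φ
    have h1 : (n : K) * (y : K) ^ 2 = (t : K) * (x : K) ^ 2 := by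
      rw [hnK]
      field_simp
    have h2 : cj (n : K) φ * (y : ℝ) ^ 2 = cj (t : K) φ * cj (x : K) φ ^ 2 := by
      rw [← cj_pow hK, ← cj_mul hK, ← h1, cj_mul hK, cj_pow hK, cj_nat]
    have h3 : (y : ℝ) ≠ 0 := by
      intro h
      apply hy0'
      have : y = 0 := by exact_mod_cast h
      rw [this]
      simp
    field_simp
    linarith
  have hxcj : ∀ φ, cj (x : K) φ ≠ 0 := fun φ => cj_ne hK (by simpa using hx0) φ
  have hyR : (0 : ℝ) < y := by
    have : y ≠ 0 := by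
      rintro rfl
      simp at hy0
    exact_mod_cast Nat.pos_of_ne_zero this
  have hnpos : ∀ φ, 0 < cj (n : K) φ := by
    intro φ
    rw [hncj]
    refine mul_pos (ht φ) ?_
    have := div_ne_zero (hxcj φ) hyR.ne'
    positivity
  have hTPn : TP (n : K) := hnpos
  -- ratio
  have hratio : ∀ φ ψ, cj (n : K) φ ≤ M * cj (n : K) ψ := by
    intro φ ψ
    rw [hncj, hncj]
    have h1 := hbal φ ψ
    have h2 := hM φ ψ
    have h3 : (cj (x : K) φ / y) ^ 2 ≤ B ^ 2 * (cj (x : K) ψ / y) ^ 2 := by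
      rw [← mul_pow, sq_le_sq, abs_mul, abs_div, abs_div, abs_of_pos (by linarith : 0 < B),
        abs_of_pos hyR, mul_div_assoc']
      gcongr
    calc cj (t : K) φ * (cj (x : K) φ / y) ^ 2 ≤ cj (t : K) φ * (B ^ 2 * (cj (x : K) ψ / y) ^ 2) :=
          mul_le_mul_of_nonneg_left h3 (ht φ).le
      _ = cj (t : K) φ * B ^ 2 * (cj (x : K) ψ / y) ^ 2 := by ring
      _ ≤ M * cj (t : K) ψ * (cj (x : K) ψ / y) ^ 2 := by gcongr
      _ = _ := by ring
  -- size
  have hnorm : (Ideal.absNorm q : ℝ) ^ 2 = ∏ φ : K →+* ℂ, cj (n : K) φ := by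
    rw [← norm_prod hK]
    have h1 : Ideal.absNorm q ^ 2 = (Algebra.norm ℤ n).natAbs := by
      rw [← Ideal.absNorm_span_singleton, ← hqn, map_pow]
    have h2 : 0 < (Algebra.norm ℤ n : ℝ) := by
      rw [norm_prod hK]
      exact Finset.prod_pos fun φ _ => hnpos φ
    have h3 : 0 < Algebra.norm ℤ n := by exact_mod_cast h2
    have h4 : ((Ideal.absNorm q ^ 2 : ℕ) : ℤ) = Algebra.norm ℤ n := by
      rw [h1]
      exact Int.natAbs_of_nonneg h3.le
    exact_mod_cast h4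
  have hbig : ∀ ψ, C ^ 2 * M ≤ cj (n : K) ψ := by
    intro ψ
    have h1 : (C ^ 2 * M ^ 2) ^ finrank ℚ K ≤ (M * cj (n : K) ψ) ^ finrank ℚ K := by
      calc (C ^ 2 * M ^ 2) ^ finrank ℚ K ≤ (Ideal.absNorm q : ℝ) := hN
        _ ≤ (Ideal.absNorm q : ℝ) ^ 2 := by
          have : (1 : ℝ) ≤ Ideal.absNorm q := by
            have : 0 < Ideal.absNorm q := Nat.pos_of_ne_zero (by
              rw [Ne, Ideal.absNorm_eq_zero_iff]
              exact hq0)
            exact_mod_cast this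
          nlinarith
        _ = ∏ φ : K →+* ℂ, cj (n : K) φ := hnorm
        _ ≤ ∏ _φ : K →+* ℂ, (M * cj (n : K) ψ) :=
          Finset.prod_le_prod (fun φ _ => (hnpos φ).le) fun φ _ => hratio φ ψ
        _ = (M * cj (n : K) ψ) ^ finrank ℚ K := by
          rw [Finset.prod_const, Finset.card_univ, card_emb]
    have h2 : C ^ 2 * M ^ 2 ≤ M * cj (n : K) ψ :=
      le_of_pow_le_pow_left₀ (Module.finrank_pos (R := ℚ) (M := K)).ne'
        (mul_pos hM0 (hnpos ψ)).le h1
    have h3 : M * (C ^ 2 * M) ≤ M * cj (n : K) ψ := by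
      calc M * (C ^ 2 * M) = C ^ 2 * M ^ 2 := by ring
        _ ≤ _ := h2
    exact le_of_mul_le_mul_left h3 hM0
  have hcond : ∀ φ ψ, C * Real.sqrt (cj (n : K) φ) ≤ cj (n : K) ψ := by
    intro φ ψ
    have h1 : C * Real.sqrt (cj (n : K) φ) ≤ C * Real.sqrt (M * cj (n : K) ψ) := by
      gcongr
      exact hratio φ ψ
    refine h1.trans ?_
    refine abs_le_of_sq_le_sq' ?_ (hnpos ψ).le |>.2
    rw [mul_pow, Real.sq_sqrt (mul_pos hM0 (hnpos ψ)).le]
    have := hbig ψ
    have h4 := hnpos ψ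
    nlinarith
  -- square mod 2
  have hsx : ((s : K) * (x : K) / (y : K)) ^ 2 = (((8 * r - 1) * n : 𝓞 K) : K) := by
    have h1 : (s : K) ^ 2 + (t : K) = 8 * (t : K) * (r : K) := by
      have h8 : ((8 : 𝓞 K) : K) = 8 := map_ofNat (algebraMap (𝓞 K) K) 8
      have := congrArg (fun z : 𝓞 K => (z : K)) hr
      simp only [map_mul, map_pow, map_add, h8] at this
      exact this
    have h2 : (s : K) ^ 2 = (8 * (r : K) - 1) * (t : K) := by linear_combination h1
    have h8 : ((8 : 𝓞 K) : K) = 8 := map_ofNat (algebraMap (𝓞 K) K) 8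
    have h3 : (((8 * r - 1) * n : 𝓞 K) : K) = (8 * (r : K) - 1) * (n : K) := by
      simp only [map_mul, map_sub, map_one, h8]
    rw [h3, hnK, div_pow, mul_pow, h2]
    ring
  obtain ⟨x0, hx0'⟩ := int_of_sq _ _ hsx
  have hmod : x0 ^ 2 - n ∈ Ideal.span {(2 : 𝓞 K)} := by
    have h1 : x0 ^ 2 = (8 * r - 1) * n := by
      apply RingOfIntegers.ext
      rw [← hsx, ← hx0']
      simp
    rw [h1, Ideal.mem_span_singleton]
    exact ⟨(4 * r - 1) * n, by ring⟩
  obtain ⟨v, hv⟩ := hP n (hSSQ n x0 hmod hTPn hcond)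
  have hdt : dt v v = n := by
    rw [hv, Fin.sum_univ_three]
    simp only [dt]
    ring
  refine ⟨n, v, hnK, hqn, hn0, hdt, ?_⟩
  by_contra hcon
  push Not at hcon
  obtain ⟨b, hb⟩ := hEIC K hK n q hn0 hqn v hdt hcon
  apply hns
  apply sq_of t ((b : K) * (y : K) / (x : K))
  have hxK : (x : K) ≠ 0 := by simpa using hx0
  have h1 := congrArg (fun z : 𝓞 K => (z : K)) hb
  simp only [map_pow] at h1
  rw [hnK] at h1
  field_simp at h1 ⊢
  rw [h1]

end FINM

open FINM in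
theorem specFIN (hPET : SpecPET) (hBAL : SpecBAL) (hSSQ : SpecSSQ) (hEIC : SpecEIC)
    (hLOC : SpecLOC) (hNPL : SpecNPL) (hNRP : SpecNRP) (hREC : SpecREC) (hEXT : SpecEXT) :
    SpecFIN := by
  intro K _ _ hK hP t s a ht hsq hdvd
  by_contra hns
  obtain ⟨r, hr⟩ := hdvd
  have ht0 : t ≠ 0 := by
    intro h
    apply TP_ne ht
    rw [h]
    simp
  have ha0 : a ≠ ⊥ := by
    rintro rfl
    rw [← Ideal.zero_eq_bot, zero_pow two_ne_zero, Ideal.zero_eq_bot, eq_comm,
      Ideal.span_singleton_eq_bot] at hsq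
    exact ht0 hsq
  have hy : Ideal.absNorm a ≠ 0 := by
    rw [Ne, Ideal.absNorm_eq_zero_iff]
    exact ha0
  have hy0 : ((Ideal.absNorm a : ℕ) : 𝓞 K) ≠ 0 := by exact_mod_cast hy
  obtain ⟨j, hj⟩ : a ∣ Ideal.span {((Ideal.absNorm a : ℕ) : 𝓞 K)} := by
    rw [Ideal.dvd_iff_le, Ideal.span_singleton_le_iff_mem]
    exact Ideal.absNorm_mem a
  have hj0 : j ≠ ⊥ := by
    rintro rfl
    rw [Ideal.mul_bot, Ideal.span_singleton_eq_bot] at hj
    exact hy0 hj
  obtain ⟨B, hB1, hB⟩ := hBAL K hK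
  obtain ⟨C, hC, hS⟩ := hSSQ K hK
  obtain ⟨M, hM0, hM⟩ : ∃ M : ℝ, 0 < M ∧ ∀ φ ψ, cj (t : K) φ * B ^ 2 ≤ M * cj (t : K) ψ := by
    have hp : ∀ ψ : K →+* ℂ, 0 < cj (t : K) ψ := ht
    refine ⟨∑ φ : K →+* ℂ, ∑ ψ : K →+* ℂ, cj (t : K) φ * B ^ 2 / cj (t : K) ψ, ?_, ?_⟩
    · refine Finset.sum_pos (fun φ _ => Finset.sum_pos (fun ψ _ => ?_) Finset.univ_nonempty)
        Finset.univ_nonempty
      have h1 := hp φ
      have h2 := hp ψ
      positivity
    · intro φ ψ
      have h1 : cj (t : K) φ * B ^ 2 / cj (t : K) ψ ≤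
          ∑ φ : K →+* ℂ, ∑ ψ : K →+* ℂ, cj (t : K) φ * B ^ 2 / cj (t : K) ψ := by
        have h2 : cj (t : K) φ * B ^ 2 / cj (t : K) ψ ≤
            ∑ ψ : K →+* ℂ, cj (t : K) φ * B ^ 2 / cj (t : K) ψ :=
          Finset.single_le_sum (f := fun ψ : K →+* ℂ => cj (t : K) φ * B ^ 2 / cj (t : K) ψ)
            (fun i _ => by
              have h1 := hp φ
              have h2 := hp i
              positivity) (Finset.mem_univ ψ)
        refine h2.trans ?_
        exact Finset.single_le_sum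
          (f := fun φ : K →+* ℂ => ∑ ψ : K →+* ℂ, cj (t : K) φ * B ^ 2 / cj (t : K) ψ)
          (fun i _ => Finset.sum_nonneg fun k _ => by
            have h1 := hp i
            have h2 := hp k
            positivity) (Finset.mem_univ φ)
      rwa [div_le_iff₀ (hp ψ)] at h1
  obtain ⟨N, hN⟩ := exists_nat_ge ((C ^ 2 * M ^ 2) ^ finrank ℚ K)
  obtain ⟨q, x, hq, hq0, hqN, hx, hxs, hx0, hxb⟩ := bal hK hPET hB j hj0 1 (Or.inl rfl) N
  obtain ⟨q', x', hq', hq0', hqN', hx', hxs', hx0', hxb'⟩ :=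
    bal hK hPET hB j hj0 (-1) (Or.inr rfl) (max N (Ideal.absNorm q))
  obtain ⟨n, v, hn, hqn, hn0, hv, hvi⟩ := vec hK hEIC hP ht hsq hr hns hy0 hj.symm hB1 hC hS hM0 hM hq
    hq0 (hN.trans (by exact_mod_cast hqN.le)) hx hx0 hxb
  obtain ⟨n', w, hn', hqn', hn0', hw, hwi⟩ := vec hK hEIC hP ht hsq hr hns hy0 hj.symm hB1 hC hS hM0 hM
    hq' hq0' (hN.trans (by exact_mod_cast (le_max_left _ _).trans hqN'.le)) hx' hx0' hxb'
  have hqq : q ≠ q' := by
    rintro rfl
    have := (le_max_right N (Ideal.absNorm q)).trans_lt hqN'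
    exact lt_irrefl _ this
  have hyK : ((Ideal.absNorm a : ℕ) : K) ≠ 0 := by exact_mod_cast hy
  -- epsilon
  obtain ⟨ε, hε⟩ := int_of_sq
    ((t : K) * (x : K) * (x' : K) / ((Ideal.absNorm a : ℕ) : K) ^ 2) (n * n') (by
      have h3 : ((n * n' : 𝓞 K) : K) = (n : K) * (n' : K) := by simp
      rw [h3, hn, hn']
      field_simp)
  have hε2 : ε ^ 2 = n * n' := by
    apply RingOfIntegers.ext
    have h3 : ((n * n' : 𝓞 K) : K) = (n : K) * (n' : K) := by simp
    have h4 : ((ε ^ 2 : 𝓞 K) : K) = (ε : K) ^ 2 := by simp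
    rw [h4, h3, hε, hn, hn']
    field_simp
  have hεn : (Algebra.norm ℤ ε).sign = -1 := by
    have h1 : ε * ((Ideal.absNorm a : ℕ) : 𝓞 K) ^ 2 = t * x * x' := by
      apply RingOfIntegers.ext
      have h3 : ((ε * ((Ideal.absNorm a : ℕ) : 𝓞 K) ^ 2 : 𝓞 K) : K) =
          (ε : K) * ((Ideal.absNorm a : ℕ) : K) ^ 2 := by simp
      have h4 : ((t * x * x' : 𝓞 K) : K) = (t : K) * (x : K) * (x' : K) := by simp
      rw [h3, h4, hε]
      field_simp
    have h2 := congrArg (Algebra.norm ℤ) h1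
    rw [map_mul, map_pow, map_mul, map_mul] at h2
    have h3 : 0 < Algebra.norm ℤ t := by
      have h4 : (0 : ℝ) < (Algebra.norm ℤ t : ℝ) := by
        rw [norm_prod hK]
        exact Finset.prod_pos fun φ _ => ht φ
      exact_mod_cast h4
    have h5 : 0 < Algebra.norm ℤ x := by simpa using hxs
    have h6 : Algebra.norm ℤ x' < 0 := by linarith
    have h7 : 0 < Algebra.norm ℤ ((Ideal.absNorm a : ℕ) : 𝓞 K) ^ 2 := by
      have : Algebra.norm ℤ ((Ideal.absNorm a : ℕ) : 𝓞 K) ≠ 0 := by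
        rw [Ne, Algebra.norm_eq_zero_iff]
        exact hy0
      positivity
    have h8 : Algebra.norm ℤ t * Algebra.norm ℤ x * Algebra.norm ℤ x' < 0 :=
      mul_neg_of_pos_of_neg (mul_pos h3 h5) h6
    rw [Int.sign_eq_neg_one_iff_neg]
    by_contra hcon
    push Not at hcon
    have := mul_nonneg hcon h7.le
    omega
  obtain ⟨hY0, hYs⟩ := hNPL K hK v w n n' ε q q' hq hq' hq0 hq0' hqq hqn hqn' hn0 hn0' hv hw hε2 hvi
  obtain ⟨E, _, _, _, ⟨Q⟩⟩ := hEXT K (t : K) hK ht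
  have hUR : UR t s r a := ⟨ht0, hsq, hr⟩
  have hfin := hREC K E t s r a Q hK ht hUR (2 * (ε + dt v w)) hY0 fun p hp hp0 => by
    by_cases h2 : (2 : 𝓞 K) ∈ p
    · exact Or.inl ((hNRP K E t s r a Q hUR p hp hp0).1 h2)
    have hnr := (hNRP K E t s r a Q hUR p hp hp0).2
    have hloc1 := hLOC K p hp hp0 h2 v w n n' ε hv hw hε2
    have hloc2 := hLOC K p hp hp0 h2 w v n' n ε hw hv (by rw [hε2]; ring)
    have hmem : ∀ {m : 𝓞 K} {l : Ideal (𝓞 K)}, l ^ 2 = Ideal.span {m} → l ≠ ⊥ → l.IsPrime → m ∈ p → p = l := by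
      intro m l h1 h2 h3 h4
      have h5 : l ^ 2 ≤ p := by
        rw [h1, Ideal.span_singleton_le_iff_mem]
        exact h4
      have h6 : l ≤ p := by
        have := hp.le_of_pow_le h5
        exact this
      have h7 : l.IsMaximal := h3.isMaximal h2
      exact (h7.eq_of_le hp.ne_top h6).symm
    have hY0' : ε + dt v w ≠ 0 := by
      intro h
      rw [h, mul_zero] at hY0
      exact hY0 rfl
    by_cases h3 : n ∈ p
    · have h4 : p = q := hmem hqn hq0 hq h3
      have h5 : n' ∉ p := by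
        intro h
        exact hqq (h4.symm.trans (hmem hqn' hq0' hq' h))
      by_cases h6 : ∃ b, b ^ 2 + n' ∈ p
      · obtain ⟨b, hb⟩ := h6
        exact Or.inl (hnr n' b _ h2 hn' h5 hb)
      · push Not at h6
        refine Or.inr (hloc1.2 h3 ?_ h5 h6)
        rw [h4]
        exact hvi
    · by_cases h4 : n' ∈ p
      · have h5 : p = q' := hmem hqn' hq0' hq' h4
        by_cases h6 : ∃ b, b ^ 2 + n ∈ p
        · obtain ⟨b, hb⟩ := h6
          exact Or.inl (hnr n b _ h2 hn h3 hb)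
        · push Not at h6
          refine Or.inr ?_
          have h7 := hloc2.2 h4 (by rw [h5]; exact hwi) h3 h6
          have h8 : dt w v = dt v w := by
            simp only [dt]
            ring
          rwa [h8] at h7
      · by_cases h6 : ∃ b, b ^ 2 + n ∈ p
        · obtain ⟨b, hb⟩ := h6
          exact Or.inl (hnr n b _ h2 hn h3 hb)
        · push Not at h6
          exact Or.inr (hloc1.1 h3 h4 h6 hY0')
  rw [hεn, Int.sign_eq_neg_one_iff_neg] at hYs
  exact lt_asymm hfin hYs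

end Pool.Agent.Lib.MPcb8a44.SX
end

section
/-!
# Theorem X (MP_cb8a44_nt), module GRP

The group of nonzero ideals modulo the `(x)` with `Norm x > 0` is a finite group.
-/
set_option autoImplicit false

open NumberField Module
open scoped nonZeroDivisors

namespace Pool.Agent.Lib.MPcb8a44.SX

namespace GRPM

set_option linter.unusedSectionVars false

variable (K : Type) [Field K] [NumberField K]

/-- The relation. -/
def rel (I J : ID K) : Prop := ∃ x y : 𝓞 K, 0 < Algebra.norm ℤ x ∧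
    0 < Algebra.norm ℤ y ∧ Ideal.span {x} * (I : Ideal (𝓞 K)) = Ideal.span {y} * (J : Ideal (𝓞 K))

theorem rel_refl (I : ID K) : rel K I I := ⟨1, 1, by simp, by simp, rfl⟩

theorem rel_symm {I J : ID K} (h : rel K I J) : rel K J I := by
  obtain ⟨x, y, hx, hy, h⟩ := h
  exact ⟨y, x, hy, hx, h.symm⟩

theorem norm_mul_pos {x y : 𝓞 K} (hx : 0 < Algebra.norm ℤ x) (hy : 0 < Algebra.norm ℤ y) :
    0 < Algebra.norm ℤ (x * y) := by
  rw [map_mul]; exact mul_pos hx hy

theorem span_mul (x y : 𝓞 K) : Ideal.span {x * y} = Ideal.span {x} * Ideal.span {y} :=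
  (Ideal.span_singleton_mul_span_singleton x y).symm

theorem rel_trans {I J L : ID K} (h : rel K I J) (h' : rel K J L) : rel K I L := by
  obtain ⟨x, y, hx, hy, h⟩ := h
  obtain ⟨z, w, hz, hw, h'⟩ := h'
  refine ⟨x * z, y * w, norm_mul_pos K hx hz, norm_mul_pos K hy hw, ?_⟩
  rw [span_mul, span_mul, mul_right_comm, h, mul_right_comm, mul_assoc (Ideal.span {y}), h']
  ring

theorem rel_mul {I J I' J' : ID K} (h : rel K I J) (h' : rel K I' J') :
    rel K (I * I') (J * J') := by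
  obtain ⟨x, y, hx, hy, h⟩ := h
  obtain ⟨z, w, hz, hw, h'⟩ := h'
  refine ⟨x * z, y * w, norm_mul_pos K hx hz, norm_mul_pos K hy hw, ?_⟩
  rw [span_mul, span_mul]
  push_cast
  rw [mul_mul_mul_comm, h, h', mul_mul_mul_comm]

/-- The congruence. -/
def C : Con (ID K) where
  r := rel K
  iseqv := ⟨rel_refl K, rel_symm K, rel_trans K⟩
  mul' := rel_mul K

theorem norm_ne {x : 𝓞 K} (hx : x ≠ 0) : Algebra.norm ℤ x ≠ 0 :=
  Algebra.norm_ne_zero_iff.mpr hx

theorem norm_sq_pos {x : 𝓞 K} (hx : x ≠ 0) : 0 < Algebra.norm ℤ (x * x) := by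
  rw [map_mul]
  exact mul_self_pos.mpr (norm_ne K hx)

theorem exists_inv (I : ID K) : ∃ J : ID K, rel K (I * J) 1 := by
  classical
  have hc : 0 < Fintype.card (ClassGroup (𝓞 K)) := Fintype.card_pos
  set h := Fintype.card (ClassGroup (𝓞 K)) with hh
  have h1 : ClassGroup.mk0 (I ^ h) = 1 := by
    rw [map_pow, hh, pow_card_eq_one]
  have h2 : ((I ^ h : ID K) : Ideal (𝓞 K)).IsPrincipal := by
    exact (ClassGroup.mk0_eq_one_iff (I := ((I ^ h : ID K) : Ideal (𝓞 K))) (I ^ h : ID K).2).mp h1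
  obtain ⟨x, hx⟩ := h2
  rw [Ideal.submodule_span_eq] at hx
  have hx0 : x ≠ 0 := by
    rintro rfl
    have : ((I ^ h : ID K) : Ideal (𝓞 K)) = 0 := by rw [hx]; simp
    exact nonZeroDivisors.coe_ne_zero _ this
  refine ⟨I ^ (2 * h - 1), 1, x * x, by simp, norm_sq_pos K hx0, ?_⟩
  have h3 : I * I ^ (2 * h - 1) = I ^ h * I ^ h := by
    rw [← pow_succ', ← pow_add]
    congr 1
    omega
  rw [h3]
  push_cast at hx ⊢
  rw [hx, span_mul]
  simp

/-- A representative of the inverse class. -/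
noncomputable def rp (c : ClassGroup (𝓞 K)) : ID K := (ClassGroup.mk0_surjective c⁻¹).choose

theorem rp_spec (c : ClassGroup (𝓞 K)) : ClassGroup.mk0 (rp K c) = c⁻¹ :=
  (ClassGroup.mk0_surjective c⁻¹).choose_spec

theorem gen (I : ID K) : ∃ x : 𝓞 K, x ≠ 0 ∧
    (I : Ideal (𝓞 K)) * (rp K (ClassGroup.mk0 I) : Ideal (𝓞 K)) = Ideal.span {x} := by
  have h1 : ClassGroup.mk0 (I * rp K (ClassGroup.mk0 I)) = 1 := by
    rw [map_mul, rp_spec, mul_inv_cancel]
  have h2 := (ClassGroup.mk0_eq_one_iff (I := ((I * rp K (ClassGroup.mk0 I) : ID K) :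
    Ideal (𝓞 K))) (I * rp K (ClassGroup.mk0 I) : ID K).2).mp h1
  obtain ⟨x, hx⟩ := h2
  rw [Ideal.submodule_span_eq] at hx
  refine ⟨x, ?_, by push_cast at hx; exact hx⟩
  rintro rfl
  have : ((I * rp K (ClassGroup.mk0 I) : ID K) : Ideal (𝓞 K)) = 0 := by rw [hx]; simp
  exact nonZeroDivisors.coe_ne_zero _ this

/-- The generator. -/
noncomputable def gn (I : ID K) : 𝓞 K := (gen K I).choose

theorem gn_ne (I : ID K) : gn K I ≠ 0 := (gen K I).choose_spec.1

theorem gn_eq (I : ID K) : (I : Ideal (𝓞 K)) * (rp K (ClassGroup.mk0 I) : Ideal (𝓞 K)) =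
    Ideal.span {gn K I} := (gen K I).choose_spec.2

/-- The invariant. -/
noncomputable def inv (I : ID K) : ClassGroup (𝓞 K) × Prop :=
  (ClassGroup.mk0 I, 0 < Algebra.norm ℤ (gn K I))

theorem rel_of_inv {I J : ID K} (h : inv K I = inv K J) : rel K I J := by
  unfold inv at h
  rw [Prod.mk.injEq] at h
  obtain ⟨h1, h2⟩ := h
  have hI := gn_eq K I
  have hJ := gn_eq K J
  rw [← h1] at hJ
  have h3 : 0 < Algebra.norm ℤ (gn K J * gn K I) := by
    rw [map_mul]
    have a := norm_ne K (gn_ne K I)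
    have b := norm_ne K (gn_ne K J)
    by_cases hp : 0 < Algebra.norm ℤ (gn K I)
    · have hq : 0 < Algebra.norm ℤ (gn K J) := by rwa [← h2]
      exact mul_pos hq hp
    · have hq : ¬ 0 < Algebra.norm ℤ (gn K J) := by rwa [← h2]
      exact mul_pos_of_neg_of_neg (by omega) (by omega)
  refine ⟨gn K J * gn K I, gn K I * gn K I, h3, norm_sq_pos K (gn_ne K I), ?_⟩
  have hR : (rp K (ClassGroup.mk0 I) : Ideal (𝓞 K)) ≠ 0 := nonZeroDivisors.coe_ne_zero _
  apply mul_right_cancel₀ hR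
  rw [mul_assoc, hI, mul_assoc, hJ, span_mul, span_mul]
  ring

end GRPM

open GRPM in
theorem specGRP : SpecGRP := by
  intro K _ _
  have hu : ∀ a : (C K).Quotient, IsUnit a := by
    intro a
    obtain ⟨I, rfl⟩ := Con.mk'_surjective a
    obtain ⟨J, hJ⟩ := exists_inv K I
    have h1 : (C K).mk' I * (C K).mk' J = 1 := by
      rw [← map_mul, ← map_one (C K).mk']
      exact (C K).eq.mpr hJ
    exact IsUnit.of_mul_eq_one _ h1
  have hf : Finite (C K).Quotient := by
    have : Function.Injective (fun a : (C K).Quotient => inv K (Quotient.out a)) := by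
      intro a b hab
      have h1 := rel_of_inv K hab
      have h2 : (C K).mk' (Quotient.out a) = (C K).mk' (Quotient.out b) := (C K).eq.mpr h1
      have h3 : (C K).mk' (Quotient.out a) = a := Quotient.out_eq a
      have h4 : (C K).mk' (Quotient.out b) = b := Quotient.out_eq b
      rw [← h3, ← h4, h2]
    exact Finite.of_injective _ this
  refine ⟨(C K).Quotient, commGroupOfIsUnit hu, hf, (C K).mk', ?_, ?_⟩
  · exact Con.mk'_surjective
  · intro I J
    exact (C K).eq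

end Pool.Agent.Lib.MPcb8a44.SX
end

section
set_option autoImplicit false
set_option linter.unusedSectionVars false

open NumberField Module
open scoped nonZeroDivisors

namespace Pool.Agent.Lib.MPcb8a44.SX.HHM

variable {K E : Type} [Field K] [NumberField K] [Field E] [NumberField E] [Algebra K E] {t : K}

theorem coe_s (q : QE K E t) (z : 𝓞 E) : ((q.s z : 𝓞 E) : E) = q.σ (z : E) := rfl

theorem coe_alg (x : 𝓞 K) : ((algebraMap (𝓞 K) (𝓞 E) x : 𝓞 E) : E) = algebraMap K E (x : K) := rfl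

theorem σσ (q : QE K E t) (z : E) : q.σ (q.σ z) = z := by
  obtain ⟨a, b, rfl⟩ := q.rep z
  simp [q.hσ]

theorem ss (q : QE K E t) (z : 𝓞 E) : q.s (q.s z) = z := by
  apply RingOfIntegers.ext
  rw [coe_s, coe_s, σσ]

theorem fix (q : QE K E t) (w : 𝓞 E) (hw : q.s w = w) :
    ∃ y : 𝓞 K, w = algebraMap (𝓞 K) (𝓞 E) y := by
  have h1 : q.σ (w : E) = w := by
    rw [← coe_s, hw]
  obtain ⟨a, b, hab⟩ := q.rep (w : E)
  have h2 : algebraMap K E b * q.θ = 0 := by
    rw [hab] at h1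
    simp only [map_add, map_mul, AlgEquiv.commutes, q.hσ] at h1
    have h3 : (2 : E) * (algebraMap K E b * q.θ) = 0 := by linear_combination -h1
    rcases mul_eq_zero.mp h3 with h | h
    · norm_num at h
    · exact h
  rw [h2, add_zero] at hab
  have h4 : IsIntegral ℤ a := by
    have h5 : IsIntegral ℤ (algebraMap K E a) := hab ▸ w.isIntegral_coe
    exact (isIntegral_algebraMap_iff (algebraMap K E).injective).mp h5
  refine ⟨⟨a, h4⟩, ?_⟩
  apply RingOfIntegers.ext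
  rw [hab]
  rfl

theorem s_alg (q : QE K E t) (x : 𝓞 K) :
    q.s (algebraMap (𝓞 K) (𝓞 E) x) = algebraMap (𝓞 K) (𝓞 E) x := by
  apply RingOfIntegers.ext
  rw [coe_s, coe_alg, AlgEquiv.commutes]

theorem map_s_span (q : QE K E t) (x : 𝓞 E) :
    (Ideal.span {x}).map q.s = Ideal.span {q.s x} := by
  rw [Ideal.map_span, Set.image_singleton]

/-- a nonzero ideal has a nonzero multiple `(b)` with cofactor coprime to `M` -/
theorem cof (B M : Ideal (𝓞 E)) (hB : B ≠ ⊥) (hM : M ≠ ⊥) (hM1 : M ≠ ⊤) :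
    ∃ (b : 𝓞 E) (C : Ideal (𝓞 E)), b ≠ 0 ∧ Ideal.span {b} = B * C ∧ C ⊔ M = ⊤ := by
  obtain ⟨b, hb⟩ := IsDedekindDomain.exists_sup_span_eq (I := B * M) (J := B) Ideal.mul_le_left
    (mul_ne_zero hB hM)
  have hbB : b ∈ B := by
    rw [← hb]
    exact Ideal.mem_sup_right (Ideal.mem_span_singleton_self b)
  obtain ⟨C, hC⟩ := Ideal.dvd_iff_le.mpr ((Ideal.span_singleton_le_iff_mem B).mpr hbB)
  have h1 : B * (M ⊔ C) = B * ⊤ := by
    rw [Ideal.mul_sup, ← hC, hb, Ideal.mul_top]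
  have h2 : M ⊔ C = ⊤ := mul_left_cancel₀ hB h1
  refine ⟨b, C, ?_, hC, by rw [sup_comm, h2]⟩
  rintro rfl
  have h3 : B * C = ⊥ := by
    rw [← hC]
    simp
  have h4 : C = ⊥ := by
    rcases mul_eq_zero.mp h3 with h | h
    · exact absurd h hB
    · exact h
  rw [h4, sup_bot_eq] at h2
  exact hM1 h2


theorem span_nat_ne_top (m : ℕ) (hm : 2 ≤ m) : Ideal.span {(m : 𝓞 E)} ≠ ⊤ := by
  intro h
  rw [Ideal.span_singleton_eq_top] at h
  have h1 : IsUnit (Algebra.norm ℤ (m : 𝓞 E)) := h.map _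
  have h2 : (m : 𝓞 E) = algebraMap ℤ (𝓞 E) (m : ℤ) := by simp
  rw [h2, Algebra.norm_algebraMap, isUnit_pow_iff (Module.finrank_pos).ne', Int.isUnit_iff] at h1
  omega

theorem span_nat_ne_bot (m : ℕ) (hm : m ≠ 0) : Ideal.span {(m : 𝓞 E)} ≠ ⊥ := by
  rw [Ne, Ideal.span_singleton_eq_bot]
  exact_mod_cast hm

theorem core (q : QE K E t) (hns : ∀ m : Ideal (𝓞 K), m ≠ ⊥ → ∀ x : 𝓞 K,
    Ideal.span {x} ⊔ m = ⊤ → ∃ (u : 𝓞 E) (y : 𝓞 K),
    u * q.s u = algebraMap (𝓞 K) (𝓞 E) y ∧ y - x ∈ m) (Y : 𝓞 K) (hY : Y ≠ 0) (B : Ideal (𝓞 E))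
    (hB : B * B.map q.s = Ideal.span {algebraMap (𝓞 K) (𝓞 E) Y}) (m : ℕ) (hm : 2 ≤ m) :
    ∃ (h : E) (B1 : Ideal (𝓞 E)) (y : 𝓞 K), h ≠ 0 ∧ B1 ⊔ Ideal.span {(m : 𝓞 E)} = ⊤ ∧
    B1 * B1.map q.s = Ideal.span {algebraMap (𝓞 K) (𝓞 E) y} ∧
    algebraMap K E (y : K) = algebraMap K E (Y : K) * (h * q.σ h) ∧
    y - 1 ∈ Ideal.span {((m : 𝓞 K)) ^ 2} := by
  have hYE : algebraMap (𝓞 K) (𝓞 E) Y ≠ 0 := by
    rw [Ne, FaithfulSMul.algebraMap_eq_zero_iff]
    exact hY
  have hB0 : B ≠ ⊥ := by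
    rintro rfl
    rw [Ideal.bot_mul] at hB
    exact hYE (Ideal.span_singleton_eq_bot.mp hB.symm)
  set M : Ideal (𝓞 E) := Ideal.span {(m : 𝓞 E)} with hM
  have hM0 : M ≠ ⊥ := span_nat_ne_bot m (by omega)
  have hM1 : M ≠ ⊤ := span_nat_ne_top m hm
  have hMs : M.map q.s = M := by
    rw [hM, map_s_span, map_natCast]
  obtain ⟨b, C, hb, hbC, hCM⟩ := cof B M hB0 hM0 hM1
  have hC0 : C ≠ ⊥ := by
    rintro rfl
    rw [sup_comm, sup_bot_eq] at hCM
    exact hM1 hCM
  obtain ⟨c, D, hc, hcD, hDM⟩ := cof C M hC0 hM0 hM1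
  -- `b D = c B`
  have h1 : Ideal.span {b} * D = Ideal.span {c} * B := by
    rw [hbC, hcD]
    ring
  have h1s : Ideal.span {q.s b} * D.map q.s = Ideal.span {q.s c} * B.map q.s := by
    have := congrArg (fun I : Ideal (𝓞 E) => I.map q.s) h1
    simpa only [Ideal.map_mul, map_s_span] using this
  have h2 : Ideal.span {b * q.s b} * (D * D.map q.s) =
      Ideal.span {c * q.s c * algebraMap (𝓞 K) (𝓞 E) Y} := by
    have h3 : Ideal.span {b * q.s b} * (D * D.map q.s) =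
        (Ideal.span {b} * D) * (Ideal.span {q.s b} * D.map q.s) := by
      rw [← Ideal.span_singleton_mul_span_singleton]
      ring
    rw [h3, h1, h1s, ← Ideal.span_singleton_mul_span_singleton,
      ← Ideal.span_singleton_mul_span_singleton, ← hB]
    ring
  have hsb : q.s b ≠ 0 := by
    intro h
    apply hb
    rw [← ss q b, h, map_zero]
  have hsc : q.s c ≠ 0 := by
    intro h
    apply hc
    rw [← ss q c, h, map_zero]
  have hbb : b * q.s b ≠ 0 := mul_ne_zero hb hsb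
  have h3 : c * q.s c * algebraMap (𝓞 K) (𝓞 E) Y ∈ Ideal.span {b * q.s b} := by
    have : c * q.s c * algebraMap (𝓞 K) (𝓞 E) Y ∈ Ideal.span {b * q.s b} * (D * D.map q.s) := by
      rw [h2]
      exact Ideal.mem_span_singleton_self _
    exact Ideal.mul_le_left this
  obtain ⟨w, hw⟩ := Ideal.mem_span_singleton.mp h3
  have hws : q.s w = w := by
    have h4 := congrArg q.s hw
    simp only [map_mul, ss, s_alg] at h4
    apply mul_left_cancel₀ hbb
    rw [← hw]
    linear_combination -h4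
  obtain ⟨y1, hy1⟩ := fix q w hws
  have hDw : D * D.map q.s = Ideal.span {algebraMap (𝓞 K) (𝓞 E) y1} := by
    apply mul_left_cancel₀ (a := Ideal.span {b * q.s b})
    · rw [Ne, Ideal.zero_eq_bot, Ideal.span_singleton_eq_bot]
      exact hbb
    · rw [h2, hw, hy1, Ideal.span_singleton_mul_span_singleton]
  -- `y1` is coprime to `m`
  have h5 : D * D.map q.s ⊔ M = ⊤ := by
    have h5a : D.map q.s ⊔ M = ⊤ := by
      have := congrArg (fun I : Ideal (𝓞 E) => I.map q.s) hDM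
      simpa only [Ideal.map_sup, hMs, Ideal.map_top] using this
    rw [← Ideal.isCoprime_iff_sup_eq] at h5a hDM ⊢
    exact hDM.mul_left h5a
  have h6 : Ideal.span {y1} ⊔ Ideal.span {(m : 𝓞 K)} = ⊤ := by
    rw [← Ideal.map_eq_top_iff (algebraMap (𝓞 K) (𝓞 E)) (FaithfulSMul.algebraMap_injective _ _)
      (algebraMap_isIntegral_iff.mpr inferInstance), Ideal.map_sup, Ideal.map_span, Ideal.map_span,
      Set.image_singleton, Set.image_singleton, map_natCast, ← hDw]
    exact h5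
  have h7 : Ideal.span {y1} ⊔ Ideal.span {((m : 𝓞 K)) ^ 2} = ⊤ := by
    rw [← Ideal.span_singleton_pow]
    exact Ideal.sup_pow_eq_top h6
  -- the inverse
  obtain ⟨x, hx⟩ : ∃ x : 𝓞 K, y1 * x - 1 ∈ Ideal.span {((m : 𝓞 K)) ^ 2} := by
    have h8 : (1 : 𝓞 K) ∈ Ideal.span {y1} ⊔ Ideal.span {((m : 𝓞 K)) ^ 2} := by
      rw [h7]; trivial
    obtain ⟨u, hu, v, hv, huv⟩ := Submodule.mem_sup.mp h8
    obtain ⟨x, rfl⟩ := Ideal.mem_span_singleton.mp hu
    refine ⟨x, ?_⟩
    rw [← huv]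
    have : y1 * x - (y1 * x + v) = -v := by ring
    rw [this]
    exact neg_mem hv
  have hmK : Ideal.span {((m : 𝓞 K)) ^ 2} ≠ ⊥ := by
    rw [Ne, Ideal.span_singleton_eq_bot]
    exact pow_ne_zero 2 (by exact_mod_cast (by omega : m ≠ 0))
  obtain ⟨u, y2, hu, hy2⟩ := hns (Ideal.span {((m : 𝓞 K)) ^ 2}) hmK x (by
    rw [Ideal.eq_top_iff_one]
    have : (1 : 𝓞 K) = y1 * x + -(y1 * x - 1) := by ring
    rw [this]
    exact add_mem (Ideal.mem_sup_left (Ideal.mul_mem_left _ _ (Ideal.mem_span_singleton_self x)))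
      (Ideal.mem_sup_right (neg_mem hx)))
  have hy : y1 * y2 - 1 ∈ Ideal.span {((m : 𝓞 K)) ^ 2} := by
    have : y1 * y2 - 1 = y1 * (y2 - x) + (y1 * x - 1) := by ring
    rw [this]
    exact add_mem (Ideal.mul_mem_left _ _ hy2) hx
  have hu0 : u ≠ 0 := by
    rintro rfl
    rw [zero_mul] at hu
    have h9 : y2 = 0 := by
      rw [← FaithfulSMul.algebraMap_eq_zero_iff (𝓞 K) (𝓞 E)]
      exact hu.symm
    rw [h9, mul_zero, zero_sub, neg_mem_iff] at hy
    have h10 := span_nat_ne_top (E := K) m hm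
    apply h10
    rw [Ideal.eq_top_iff_one]
    obtain ⟨z, hz⟩ := Ideal.mem_span_singleton.mp hy
    rw [hz]
    rw [Ideal.mem_span_singleton]
    exact ⟨m * z, by ring⟩
  have hbE : (b : E) ≠ 0 := by exact_mod_cast hb
  have hcE : (c : E) ≠ 0 := by exact_mod_cast hc
  have huE : (u : E) ≠ 0 := by exact_mod_cast hu0
  have hsbE : q.σ (b : E) ≠ 0 := by
    rw [← coe_s]
    exact_mod_cast hsb
  have hB1 : Ideal.span {u} * D * (Ideal.span {u} * D).map q.s =
      Ideal.span {algebraMap (𝓞 K) (𝓞 E) (y1 * y2)} := by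
    rw [Ideal.map_mul, map_s_span]
    have : Ideal.span {u} * D * (Ideal.span {q.s u} * D.map q.s) =
        (Ideal.span {u} * Ideal.span {q.s u}) * (D * D.map q.s) := by ring
    rw [this, hDw, Ideal.span_singleton_mul_span_singleton, Ideal.span_singleton_mul_span_singleton,
      hu, ← map_mul, mul_comm y2 y1]
  refine ⟨(u : E) * ((c : E) / (b : E)), Ideal.span {u} * D, y1 * y2,
    mul_ne_zero huE (div_ne_zero hcE hbE), ?_, hB1, ?_, hy⟩
  · -- coprime
    rw [Ideal.eq_top_iff_one]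
    have h13 : (1 : 𝓞 E) = algebraMap (𝓞 K) (𝓞 E) (y1 * y2) -
        algebraMap (𝓞 K) (𝓞 E) (y1 * y2 - 1) := by
      rw [map_sub, map_one]
      ring
    rw [h13]
    apply sub_mem
    · apply Ideal.mem_sup_left
      have : algebraMap (𝓞 K) (𝓞 E) (y1 * y2) ∈
          Ideal.span {u} * D * (Ideal.span {u} * D).map q.s := by
        rw [hB1]
        exact Ideal.mem_span_singleton_self _
      exact Ideal.mul_le_left this
    · apply Ideal.mem_sup_right
      obtain ⟨z, hz⟩ := Ideal.mem_span_singleton.mp hy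
      rw [hz, hM, Ideal.mem_span_singleton]
      exact ⟨m * algebraMap (𝓞 K) (𝓞 E) z, by rw [map_mul, map_pow, map_natCast]; ring⟩
  · have h11 : (c : E) * q.σ c * algebraMap K E (Y : K) =
        (b : E) * q.σ b * algebraMap K E (y1 : K) := by
      have := congrArg (fun z : 𝓞 E => (z : E)) (hw.trans (by rw [hy1]))
      simpa only [map_mul, coe_s, coe_alg] using this
    have h12 : (u : E) * q.σ u = algebraMap K E (y2 : K) := by
      have := congrArg (fun z : 𝓞 E => (z : E)) hu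
      simpa only [map_mul, coe_s, coe_alg] using this
    have h14 : ((y1 * y2 : 𝓞 K) : K) = (y1 : K) * (y2 : K) := rfl
    rw [h14, map_mul, map_mul, map_div₀, ← h12]
    field_simp
    linear_combination (-q.σ (u : E)) * h11

end Pool.Agent.Lib.MPcb8a44.SX.HHM

namespace Pool.Agent.Lib.MPcb8a44.SX

theorem specHH (h : SpecNS) : SpecHH := by
  intro K E _ _ _ _ _ t s r a q hur Y hY B hB m hm
  obtain ⟨h, B1, y, h0, h1, h2, h3, h4⟩ := HHM.core q (fun m hm x hx => h K E t s r a q hur m hm x hx)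
    Y hY B hB (2 * m) (by omega)
  refine ⟨h, B1, y, h0, ?_, h2, h3, ?_⟩
  · rw [eq_top_iff, ← h1]
    apply sup_le_sup_left
    rw [Ideal.span_singleton_le_span_singleton]
    exact ⟨2, by push_cast; ring⟩
  · have : Ideal.span {((2 * m : ℕ) : 𝓞 K) ^ 2} ≤ Ideal.span {(m : 𝓞 K) ^ 2} := by
      rw [Ideal.span_singleton_le_span_singleton]
      exact ⟨4, by push_cast; ring⟩
    exact this h4

end Pool.Agent.Lib.MPcb8a44.SX
end

section
/-!
# Theorem X (MP_cb8a44_nt): module KL, the smooth count of the ideals in a class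
-/
set_option autoImplicit false
set_option linter.unusedSectionVars false

open NumberField Module MeasureTheory
open scoped nonZeroDivisors

namespace Pool.Agent.Lib.MPcb8a44.SX

namespace KLM

variable {K : Type} [Field K] [NumberField K]

lemma cj_eq (h : TR K) (x : K) (φ : K →+* ℂ) : ((cj x φ : ℝ) : ℂ) = φ x := by
  apply Complex.ext
  · simp [cj]
  · simp [h φ x]

lemma cj_mul (h : TR K) (x y : K) (φ : K →+* ℂ) : cj (x * y) φ = cj x φ * cj y φ := by
  simp [cj, Complex.mul_re, h φ x, h φ y]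

lemma cj_ne (h : TR K) {x : K} (hx : x ≠ 0) (φ : K →+* ℂ) : cj x φ ≠ 0 := by
  intro h0
  have h1 := cj_eq h x φ
  rw [h0] at h1
  have h2 : φ x = 0 := by simpa using h1.symm
  exact hx ((map_eq_zero φ).mp h2)

lemma cj_abs (h : TR K) (x : K) (φ : K →+* ℂ) : ‖φ x‖ = |cj x φ| := by
  rw [← cj_eq h x φ, Complex.norm_real, Real.norm_eq_abs]

lemma cj_prod (h : TR K) (x : 𝓞 K) :
    ∏ φ : K →+* ℂ, cj (x : K) φ = ((Algebra.norm ℤ x : ℤ) : ℝ) := by
  have h1 := Algebra.norm_eq_prod_embeddings ℚ ℂ (x : K)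
  have h2 : (∏ σ : K →ₐ[ℚ] ℂ, σ (x : K)) = ∏ φ : K →+* ℂ, φ (x : K) :=
    (Fintype.prod_equiv (RingHom.equivRatAlgHom K ℂ) _ _ (fun σ => rfl)).symm
  have h3 : ((Algebra.norm ℤ x : ℤ) : ℚ) = Algebra.norm ℚ (x : K) := Algebra.coe_norm_int x
  have h4 : (((∏ φ : K →+* ℂ, cj (x : K) φ : ℝ)) : ℂ) = (((Algebra.norm ℤ x : ℤ) : ℝ) : ℂ) := by
    rw [Complex.ofReal_prod]
    simp_rw [cj_eq h]
    rw [← h2, ← h1, ← h3]
    simp
  exact_mod_cast h4

/-- The ideals `a` such that `a * j` has a generator whose norm has the sign `ε`. -/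
def Clse (ε : ℤ) (j : Ideal (𝓞 K)) : Set (Ideal (𝓞 K)) :=
  {a | ∃ x : 𝓞 K, 0 < ε * Algebra.norm ℤ x ∧ a * j = Ideal.span {x}}

lemma clse_one (j : Ideal (𝓞 K)) : Clse 1 j = Cls j := by
  ext a
  simp [Clse, Cls]

lemma norm_ne_zero_of {ε : ℤ} {x : 𝓞 K} (h : 0 < ε * Algebra.norm ℤ x) : x ≠ 0 := by
  rintro rfl
  rw [Algebra.norm_zero] at h
  simp at h

lemma norm_unit {ε : ℤ} (u : (𝓞 K)ˣ) {x y : 𝓞 K}
    (hx : 0 < ε * Algebra.norm ℤ x) (hy : 0 < ε * Algebra.norm ℤ y) (h : y = u * x) :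
    u ∈ U1 K := by
  have h1 : IsUnit (Algebra.norm ℤ (u : 𝓞 K)) := u.isUnit.map (Algebra.norm ℤ)
  have h2 : Algebra.norm ℤ y = Algebra.norm ℤ (u : 𝓞 K) * Algebra.norm ℤ x := by
    rw [h, map_mul]
  rcases Int.isUnit_iff.mp h1 with h3 | h3
  · exact h3
  · exfalso
    rw [h2, h3] at hy
    nlinarith

/-- The chosen generator. -/
noncomputable def gen {ε : ℤ} {j : Ideal (𝓞 K)} (a : Clse ε j) : 𝓞 K := a.2.choose

lemma gen_pos {ε : ℤ} {j : Ideal (𝓞 K)} (a : Clse ε j) : 0 < ε * Algebra.norm ℤ (gen a) :=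
  a.2.choose_spec.1

lemma gen_span {ε : ℤ} {j : Ideal (𝓞 K)} (a : Clse ε j) :
    (a : Ideal (𝓞 K)) * j = Ideal.span {gen a} :=
  a.2.choose_spec.2

lemma gen_mem {ε : ℤ} {j : Ideal (𝓞 K)} (a : Clse ε j) : gen a ∈ j := by
  have h1 : gen a ∈ (a : Ideal (𝓞 K)) * j := by
    rw [gen_span a]
    exact Ideal.mem_span_singleton_self _
  exact Ideal.mul_le_right h1

/-- The parametrisation of the elements of `j` with norm of sign `ε`. -/
noncomputable def par (ε : ℤ) (j : Ideal (𝓞 K)) (p : Clse ε j × U1 K) : j :=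
  ⟨((p.2 : (𝓞 K)ˣ) : 𝓞 K) * gen p.1, j.mul_mem_left _ (gen_mem p.1)⟩

lemma par_inj {ε : ℤ} {j : Ideal (𝓞 K)} (hj : j ≠ ⊥) : Function.Injective (par ε j) := by
  rintro ⟨a, u⟩ ⟨b, v⟩ h
  have h1 : ((u : (𝓞 K)ˣ) : 𝓞 K) * gen a = ((v : (𝓞 K)ˣ) : 𝓞 K) * gen b :=
    congrArg Subtype.val h
  have h2 : Ideal.span {gen a} = Ideal.span {gen b} := by
    rw [Ideal.span_singleton_eq_span_singleton]
    refine ⟨(u : (𝓞 K)ˣ) * (v : (𝓞 K)ˣ)⁻¹, ?_⟩
    rw [Units.val_mul]
    calc gen a * (((u : (𝓞 K)ˣ) : 𝓞 K) * ((((v : (𝓞 K)ˣ))⁻¹ : (𝓞 K)ˣ) : 𝓞 K))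
        = (((u : (𝓞 K)ˣ) : 𝓞 K) * gen a) * ((((v : (𝓞 K)ˣ))⁻¹ : (𝓞 K)ˣ) : 𝓞 K) := by ring
      _ = gen b * (((v : (𝓞 K)ˣ) : 𝓞 K) * ((((v : (𝓞 K)ˣ))⁻¹ : (𝓞 K)ˣ) : 𝓞 K)) := by
          rw [h1]; ring
      _ = gen b := by rw [Units.mul_inv, mul_one]
  have h3 : (a : Ideal (𝓞 K)) = b := by
    have h4 : (a : Ideal (𝓞 K)) * j = b * j := by rw [gen_span a, gen_span b, h2]
    exact mul_right_cancel₀ hj h4
  have h5 : a = b := Subtype.ext h3
  subst h5
  have h6 : ((u : (𝓞 K)ˣ) : 𝓞 K) = ((v : (𝓞 K)ˣ) : 𝓞 K) :=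
    mul_right_cancel₀ (norm_ne_zero_of (gen_pos a)) h1
  have h7 : u = v := Subtype.ext (Units.ext h6)
  rw [h7]

lemma par_range {ε : ℤ} {j : Ideal (𝓞 K)} (x : j)
    (hx : 0 < ε * Algebra.norm ℤ (x : 𝓞 K)) : x ∈ Set.range (par ε j) := by
  have h1 : j ∣ Ideal.span {(x : 𝓞 K)} := by
    rw [Ideal.dvd_iff_le, Ideal.span_singleton_le_iff_mem]
    exact x.2
  obtain ⟨b, hb⟩ := h1
  have hb' : b * j = Ideal.span {(x : 𝓞 K)} := by rw [hb, mul_comm]
  let a : Clse ε j := ⟨b, ⟨x, hx, hb'⟩⟩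
  have h2 : Ideal.span {gen a} = Ideal.span {(x : 𝓞 K)} := by
    rw [← gen_span a]
    exact hb'
  obtain ⟨u, hu⟩ := Ideal.span_singleton_eq_span_singleton.mp h2
  have hu' : (x : 𝓞 K) = (u : 𝓞 K) * gen a := by rw [← hu, mul_comm]
  have h3 : u ∈ U1 K := norm_unit u (gen_pos a) hx hu'
  refine ⟨(a, ⟨u, h3⟩), ?_⟩
  apply Subtype.ext
  exact hu'.symm

/-- Regrouping of a sum over the elements with norm of sign `ε`. -/
lemma regroup {ε : ℤ} {j : Ideal (𝓞 K)} (hj : j ≠ ⊥) (F : j → ℝ)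
    (hF : (Function.support F).Finite) :
    ∑' x : j, (if 0 < ε * Algebra.norm ℤ (x : 𝓞 K) then F x else 0) =
      ∑' a : Clse ε j, ∑' u : U1 K, F (par ε j (a, u)) := by
  have h1 : Function.support (fun x : j => if 0 < ε * Algebra.norm ℤ (x : 𝓞 K) then F x else 0) ⊆
      Set.range (par ε j) := by
    intro x hx
    apply par_range x
    by_contra h
    exact hx (if_neg h)
  rw [← (par_inj hj).tsum_eq h1]
  have h2 : ∀ p : Clse ε j × U1 K,
      (if 0 < ε * Algebra.norm ℤ (par ε j p : 𝓞 K) then F (par ε j p) else 0) = F (par ε j p) := by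
    intro p
    apply if_pos
    have h3 : Algebra.norm ℤ (par ε j p : 𝓞 K) = Algebra.norm ℤ (gen p.1) := by
      have h4 : Algebra.norm ℤ ((p.2 : (𝓞 K)ˣ) : 𝓞 K) = 1 := p.2.2
      change Algebra.norm ℤ (((p.2 : (𝓞 K)ˣ) : 𝓞 K) * gen p.1) = _
      rw [map_mul, h4, one_mul]
    rw [h3]
    exact gen_pos p.1
  rw [tsum_congr h2]
  have h5 : Summable fun p : Clse ε j × U1 K => F (par ε j p) := by
    apply summable_of_hasFiniteSupport
    exact hF.preimage (par_inj hj).injOn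
  exact h5.tsum_prod

lemma norm_finite (h : TR K) (j : Ideal (𝓞 K)) (R : ℝ) :
    {x : j | ∀ φ, |cj ((x : 𝓞 K) : K) φ| ≤ R}.Finite := by
  have h1 := NumberField.Embeddings.finite_of_norm_le K ℂ R
  have h2 : Function.Injective fun x : j => ((x : 𝓞 K) : K) :=
    RingOfIntegers.coe_injective.comp Subtype.val_injective
  refine (h1.preimage h2.injOn).subset ?_
  intro x hx
  refine ⟨(x : 𝓞 K).isIntegral_coe, ?_⟩
  intro φ
  rw [cj_abs h]
  exact hx φ

lemma main (h : TR K) (f : ℝ → ℝ) (Φ : ((K →+* ℂ) → ℝ) → ℝ) (hcpt : HasCompactSupport Φ)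
    (hzero : ∀ z : (K →+* ℂ) → ℝ, (∃ φ, z φ = 0) → Φ z = 0)
    (hsum : ∀ z : (K →+* ℂ) → ℝ, (∀ φ, z φ ≠ 0) →
      ∑' u : U1 K, Φ (fun φ => cj (((u : (𝓞 K)ˣ) : 𝓞 K) : K) φ * z φ) =
        if 0 < ∏ φ, z φ then f (∏ φ, z φ) else 0)
    (j : Ideal (𝓞 K)) (hj : j ≠ ⊥) (Y T : ℝ) (hY : 0 < Y) (hT : 0 < T)
    (hTY : T ^ (finrank ℚ K) = Ideal.absNorm j * Y) :
    ∑' x : j, Φ (fun φ => cj ((x : 𝓞 K) : K) φ / T) =
      ∑' a : Cls j, f ((Ideal.absNorm (a : Ideal (𝓞 K)) : ℝ) / Y) := by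
  classical
  set F : j → ℝ := fun x => Φ (fun φ => cj ((x : 𝓞 K) : K) φ / T) with hF
  have hne : Nonempty (K →+* ℂ) := inferInstance
  have hfin : (Function.support F).Finite := by
    obtain ⟨R, hR⟩ := hcpt.isCompact.isBounded.exists_norm_le
    refine (norm_finite h j (R * T)).subset ?_
    intro x hx φ
    have h1 := hR _ (subset_tsupport Φ hx)
    have h2 := (norm_le_pi_norm (fun φ => cj ((x : 𝓞 K) : K) φ / T) φ).trans h1
    rw [Real.norm_eq_abs, abs_div, abs_of_pos hT, div_le_iff₀ hT] at h2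
    exact h2
  have hNj : 0 < (Ideal.absNorm j : ℝ) := by
    have : Ideal.absNorm j ≠ 0 := by
      rw [Ne, Ideal.absNorm_eq_zero_iff]
      exact hj
    exact_mod_cast Nat.pos_of_ne_zero this
  -- the inner sum
  have inner : ∀ (ε : ℤ) (a : Clse ε j), ∑' u : U1 K, F (par ε j (a, u)) =
      if 0 < ((Algebra.norm ℤ (gen a) : ℤ) : ℝ) / (Ideal.absNorm j * Y) then
        f (((Algebra.norm ℤ (gen a) : ℤ) : ℝ) / (Ideal.absNorm j * Y)) else 0 := by
    intro ε a
    have hx : ((gen a : 𝓞 K) : K) ≠ 0 := by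
      have := norm_ne_zero_of (gen_pos a)
      simpa using this
    have h1 := hsum (fun φ => cj ((gen a : 𝓞 K) : K) φ / T)
      (fun φ => div_ne_zero (cj_ne h hx φ) hT.ne')
    have h2 : ∏ φ : K →+* ℂ, cj ((gen a : 𝓞 K) : K) φ / T =
        ((Algebra.norm ℤ (gen a) : ℤ) : ℝ) / (Ideal.absNorm j * Y) := by
      rw [Finset.prod_div_distrib, cj_prod h, Finset.prod_const, Finset.card_univ,
        NumberField.Embeddings.card K ℂ, hTY]
    rw [h2] at h1
    rw [← h1]
    apply tsum_congr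
    intro u
    change Φ _ = Φ _
    congr 1
    funext φ
    change cj (((((u : (𝓞 K)ˣ) : 𝓞 K) * gen a : 𝓞 K)) : K) φ / T = _
    have h6 : ((((u : (𝓞 K)ˣ) : 𝓞 K) * gen a : 𝓞 K) : K) =
        (((u : (𝓞 K)ˣ) : 𝓞 K) : K) * ((gen a : 𝓞 K) : K) := map_mul (algebraMap (𝓞 K) K) _ _
    rw [h6, cj_mul h, mul_div_assoc]
  have split : ∀ x : j, F x = (if 0 < (1 : ℤ) * Algebra.norm ℤ (x : 𝓞 K) then F x else 0) +
      (if 0 < (-1 : ℤ) * Algebra.norm ℤ (x : 𝓞 K) then F x else 0) := by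
    intro x
    rcases lt_trichotomy (Algebra.norm ℤ (x : 𝓞 K)) 0 with h1 | h1 | h1
    · rw [if_neg (by linarith), if_pos (by linarith), zero_add]
    · have hx : (x : 𝓞 K) = 0 := Algebra.norm_eq_zero_iff.mp h1
      have h2 : F x = 0 := by
        obtain ⟨φ⟩ := hne
        apply hzero
        refine ⟨φ, ?_⟩
        simp [hx, cj]
      rw [h2]
      simp
    · rw [if_pos (by linarith), if_neg (by linarith), add_zero]
  have s1 : Summable fun x : j => (if 0 < (1 : ℤ) * Algebra.norm ℤ (x : 𝓞 K) then F x else 0) := by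
    apply summable_of_hasFiniteSupport
    refine hfin.subset ?_
    intro x hx hx0
    apply hx
    simp [hx0]
  have s2 : Summable fun x : j => (if 0 < (-1 : ℤ) * Algebra.norm ℤ (x : 𝓞 K) then F x else 0) := by
    apply summable_of_hasFiniteSupport
    refine hfin.subset ?_
    intro x hx hx0
    apply hx
    simp [hx0]
  rw [tsum_congr split, s1.tsum_add s2, regroup hj F hfin, regroup hj F hfin]
  have e2 : ∑' a : Clse (-1) j, ∑' u : U1 K, F (par (-1) j (a, u)) = 0 := by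
    rw [← tsum_zero (α := ℝ) (β := Clse (-1 : ℤ) j)]
    apply tsum_congr
    intro a
    rw [inner]
    apply if_neg
    have h1 := gen_pos a
    have h2 : ((Algebra.norm ℤ (gen a) : ℤ) : ℝ) < 0 := by
      have : Algebra.norm ℤ (gen a) < 0 := by linarith
      exact_mod_cast this
    have h3 : 0 < (Ideal.absNorm j : ℝ) * Y := mul_pos hNj hY
    exact not_lt.mpr (div_nonpos_of_nonpos_of_nonneg h2.le h3.le)
  rw [e2, add_zero]
  have e1 : ∀ a : Clse 1 j, ∑' u : U1 K, F (par 1 j (a, u)) =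
      f ((Ideal.absNorm (a : Ideal (𝓞 K)) : ℝ) / Y) := by
    intro a
    rw [inner]
    have h1 : 0 < Algebra.norm ℤ (gen a) := by
      have := gen_pos a
      linarith
    have h2 : Ideal.absNorm (a : Ideal (𝓞 K)) * Ideal.absNorm j =
        (Algebra.norm ℤ (gen a)).natAbs := by
      rw [← map_mul, gen_span a, Ideal.absNorm_span_singleton]
    have h3 : ((Algebra.norm ℤ (gen a) : ℤ) : ℝ) =
        (Ideal.absNorm (a : Ideal (𝓞 K)) : ℝ) * Ideal.absNorm j := by
      have h4 : ((Algebra.norm ℤ (gen a)).natAbs : ℤ) = Algebra.norm ℤ (gen a) :=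
        Int.natAbs_of_nonneg h1.le
      rw [← h4, ← h2]
      push_cast
      rfl
    have h5 : ((Algebra.norm ℤ (gen a) : ℤ) : ℝ) / (Ideal.absNorm j * Y) =
        (Ideal.absNorm (a : Ideal (𝓞 K)) : ℝ) / Y := by
      rw [h3]
      field_simp
    rw [if_pos, h5]
    exact div_pos (by exact_mod_cast h1) (mul_pos hNj hY)
  rw [tsum_congr e1, clse_one]

end KLM

open KLM

/-- Ideals in a class with a smooth cut-off. -/
theorem specKL (h1 : SpecPART) (h2 : SpecLAT) : SpecKL := by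
  intro K _ _ hK f hf
  obtain ⟨Φ, hsm, hcpt, hzero, hsum⟩ := h1 K hK f hf
  obtain ⟨V, hV, hlat⟩ := h2 K hK
  refine ⟨(∫ z, Φ z) / V, ?_⟩
  intro j hj A
  obtain ⟨C, hC⟩ := hlat Φ hsm hcpt j hj (finrank ℚ K * A)
  refine ⟨|C|, ?_⟩
  intro Y hY
  have hY0 : 0 < Y := by linarith
  have hNj1 : (1 : ℝ) ≤ (Ideal.absNorm j : ℝ) := by
    have : Ideal.absNorm j ≠ 0 := by
      rw [Ne, Ideal.absNorm_eq_zero_iff]
      exact hj
    exact_mod_cast Nat.pos_of_ne_zero this
  have hd : finrank ℚ K ≠ 0 := (finrank_pos (R := ℚ) (M := K)).ne'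
  have hNY : 1 ≤ (Ideal.absNorm j : ℝ) * Y := by nlinarith
  set T : ℝ := ((Ideal.absNorm j : ℝ) * Y) ^ ((finrank ℚ K : ℝ)⁻¹) with hTdef
  have hT1 : 1 ≤ T := Real.one_le_rpow hNY (by positivity)
  have hT0 : 0 < T := by linarith
  have hTY : T ^ (finrank ℚ K) = Ideal.absNorm j * Y :=
    Real.rpow_inv_natCast_pow (by linarith) hd
  have h3 := hC T hT1
  rw [main hK f Φ hcpt hzero (fun z hz => (hsum z hz).2) j hj Y T hY0 hT0 hTY] at h3
  have h4 : T ^ (finrank ℚ K) / (Ideal.absNorm j * V) * ∫ z, Φ z = (∫ z, Φ z) / V * Y := by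
    rw [hTY]
    field_simp
  rw [h4] at h3
  refine h3.trans ?_
  have h5 : Y ^ A ≤ T ^ (finrank ℚ K * A) := by
    rw [pow_mul, hTY]
    apply pow_le_pow_left₀ hY0.le
    nlinarith
  calc C / T ^ (finrank ℚ K * A) ≤ |C| / T ^ (finrank ℚ K * A) := by
        apply div_le_div_of_nonneg_right (le_abs_self C) (by positivity)
    _ ≤ |C| / Y ^ A := by
        apply div_le_div_of_nonneg_left (abs_nonneg C) (by positivity) h5

end Pool.Agent.Lib.MPcb8a44.SX
end

section
/-!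
# Theorem X (MP_cb8a44_nt): Landau's lemma

Module `LAND` of `SX/Spec.lean`. A Dirichlet series with nonnegative coefficients which converges
for `Re s > 1` and has an entire continuation converges at every real point: for each `N` the entire
function `F - ∑_(1 ≤ n ≤ N) a n n^(-s) + 1` is positive on the real axis, which bounds the partial
sums.
-/
set_option autoImplicit false

namespace Pool.Agent.Lib.MPcb8a44.SX

namespace LANDM

open Complex

/-- The coefficients with the terms in `T` removed, and `1` added at `n = 1`. -/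
noncomputable def cut (a : ℕ → ℝ) (T : Finset ℕ) : ℕ → ℂ :=
  fun n => (if n ∈ T then 0 else (a n : ℂ)) + (if n = 1 then 1 else 0)

theorem term_cut (a : ℕ → ℝ) (N : ℕ) (s : ℂ) (n : ℕ) :
    LSeries.term (cut a (Finset.Icc 1 N)) s n =
      LSeries.term (fun n => (a n : ℂ)) s n -
        (if n ∈ Finset.Icc 1 N then (a n : ℂ) * (n : ℂ) ^ (-s) else 0) +
        (if n = 1 then 1 else 0) := by
  rcases eq_or_ne n 0 with rfl | hn
  · simp [LSeries.term]
  · rw [LSeries.term_of_ne_zero hn, LSeries.term_of_ne_zero hn, Complex.cpow_neg]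
    by_cases h1 : n = 1
    · subst h1
      by_cases hT : (1 : ℕ) ∈ Finset.Icc 1 N
      · simp [cut, hT]
      · simp [cut, hT]
    · by_cases hT : n ∈ Finset.Icc 1 N
      · simp [cut, hT, h1, div_eq_mul_inv]
      · simp [cut, hT, h1, div_eq_mul_inv]

theorem hasSum_cut {a : ℕ → ℝ} {s : ℂ} (hs : LSeriesSummable (fun n => (a n : ℂ)) s) (N : ℕ) :
    HasSum (LSeries.term (cut a (Finset.Icc 1 N)) s)
      (LSeries (fun n => (a n : ℂ)) s - ∑ n ∈ Finset.Icc 1 N, (a n : ℂ) * (n : ℂ) ^ (-s) + 1) := by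
  have h1 : HasSum (LSeries.term (fun n => (a n : ℂ)) s) (LSeries (fun n => (a n : ℂ)) s) :=
    hs.hasSum
  have h2 : HasSum (fun n => if n ∈ Finset.Icc 1 N then (a n : ℂ) * (n : ℂ) ^ (-s) else 0)
      (∑ n ∈ Finset.Icc 1 N, (a n : ℂ) * (n : ℂ) ^ (-s)) := by
    have h : HasSum (fun n => if n ∈ Finset.Icc 1 N then (a n : ℂ) * (n : ℂ) ^ (-s) else 0)
        (∑ n ∈ Finset.Icc 1 N,
          (if n ∈ Finset.Icc 1 N then (a n : ℂ) * (n : ℂ) ^ (-s) else 0)) :=
      hasSum_sum_of_ne_finset_zero fun n hn => by simp only [if_neg hn]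
    have he : ∑ n ∈ Finset.Icc 1 N,
        (if n ∈ Finset.Icc 1 N then (a n : ℂ) * (n : ℂ) ^ (-s) else 0) =
        ∑ n ∈ Finset.Icc 1 N, (a n : ℂ) * (n : ℂ) ^ (-s) :=
      Finset.sum_congr rfl fun n hn => by rw [if_pos hn]
    rwa [he] at h
  have h3 : HasSum (fun n : ℕ => if n = 1 then (1 : ℂ) else 0) 1 := hasSum_ite_eq 1 1
  have h := (h1.sub h2).add h3
  have he : (LSeries.term (cut a (Finset.Icc 1 N)) s) = fun n =>
      LSeries.term (fun n => (a n : ℂ)) s n -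
        (if n ∈ Finset.Icc 1 N then (a n : ℂ) * (n : ℂ) ^ (-s) else 0) +
        (if n = 1 then 1 else 0) := funext (term_cut a N s)
  rw [he]
  exact h

open scoped ComplexOrder in
theorem bound {a : ℕ → ℝ} (ha : ∀ n, 0 ≤ a n)
    (hs : ∀ s : ℂ, 1 < s.re → LSeriesSummable (fun n => (a n : ℂ)) s) {F : ℂ → ℂ}
    (hF : Differentiable ℂ F) (hFL : ∀ s : ℂ, 1 < s.re → F s = LSeries (fun n => (a n : ℂ)) s)
    (x : ℝ) (N : ℕ) :
    ∑ n ∈ Finset.Icc 1 N, a n * (n : ℝ) ^ (-x) ≤ (F x).re + 1 := by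
  have ha0 : (0 : ℕ → ℂ) ≤ cut a (Finset.Icc 1 N) := by
    intro n
    have h1 : (0 : ℂ) ≤ (if n ∈ Finset.Icc 1 N then 0 else (a n : ℂ)) := by
      split
      · exact le_rfl
      · exact_mod_cast ha n
    have h2 : (0 : ℂ) ≤ (if n = 1 then 1 else 0) := by
      split
      · exact zero_le_one
      · exact le_rfl
    exact add_nonneg h1 h2
  have ha1 : 0 < cut a (Finset.Icc 1 N) 1 := by
    have h1 : (0 : ℂ) ≤ (if (1 : ℕ) ∈ Finset.Icc 1 N then 0 else (a 1 : ℂ)) := by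
      split
      · exact le_rfl
      · exact_mod_cast ha 1
    have h2 : (0 : ℂ) < (if (1 : ℕ) = 1 then 1 else 0) := by simp
    exact add_pos_of_nonneg_of_pos h1 h2
  let G : ℂ → ℂ := fun s => F s - ∑ n ∈ Finset.Icc 1 N, (a n : ℂ) * (n : ℂ) ^ (-s) + 1
  have hG : Differentiable ℂ G := by
    refine (hF.sub ?_).add_const 1
    refine Differentiable.fun_sum fun n hn => ?_
    have hn0 : (n : ℂ) ≠ 0 := by
      have := (Finset.mem_Icc.1 hn).1
      exact_mod_cast (by omega : n ≠ 0)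
    exact (differentiable_id.neg.const_cpow (Or.inl hn0)).const_mul _
  have hab : LSeries.abscissaOfAbsConv (cut a (Finset.Icc 1 N)) ≤ ((1 : ℝ) : EReal) := by
    refine LSeries.abscissaOfAbsConv_le_of_forall_lt_LSeriesSummable fun y hy => ?_
    exact (hasSum_cut (hs (y : ℂ) (by simpa using hy)) N).summable
  have heq : {s : ℂ | (1 : ℝ) < s.re}.EqOn G (LSeries (cut a (Finset.Icc 1 N))) := by
    intro s hs1
    have h := (hasSum_cut (hs s hs1) N).tsum_eq
    show F s - ∑ n ∈ Finset.Icc 1 N, (a n : ℂ) * (n : ℂ) ^ (-s) + 1 = _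
    rw [hFL s hs1]
    exact h.symm
  have hpos := LSeries.positive_of_differentiable_of_eqOn ha0 ha1 hG hab heq x
  have hre : 0 < (G x).re := (Complex.pos_iff.1 hpos).1
  have hsum : (∑ n ∈ Finset.Icc 1 N, (a n : ℂ) * (n : ℂ) ^ (-(x : ℂ))).re =
      ∑ n ∈ Finset.Icc 1 N, a n * (n : ℝ) ^ (-x) := by
    rw [Complex.re_sum]
    refine Finset.sum_congr rfl fun n _ => ?_
    have h1 : (n : ℂ) ^ (-(x : ℂ)) = (((n : ℝ) ^ (-x) : ℝ) : ℂ) := by
      rw [Complex.ofReal_cpow (Nat.cast_nonneg n)]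
      push_cast
      rfl
    rw [h1, ← Complex.ofReal_mul, Complex.ofReal_re]
  have hG2 : (G x).re = (F x).re - ∑ n ∈ Finset.Icc 1 N, a n * (n : ℝ) ^ (-x) + 1 := by
    show (F x - ∑ n ∈ Finset.Icc 1 N, (a n : ℂ) * (n : ℂ) ^ (-(x : ℂ)) + 1).re = _
    rw [Complex.add_re, Complex.sub_re, hsum, Complex.one_re]
  linarith

end LANDM

open LANDM in
/-- Landau's lemma. -/
theorem specLAND : SpecLAND := by
  intro a ha hs F hF hFL x
  refine summable_of_sum_range_le (c := (F x).re + 1)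
    (fun n => mul_nonneg (ha _) (Real.rpow_nonneg (Nat.cast_nonneg _) _)) fun N => ?_
  have h := bound ha hs hF hFL x N
  have he : ∑ i ∈ Finset.range N, a (i + 1) * (((i + 1 : ℕ) : ℝ)) ^ (-x) =
      ∑ n ∈ Finset.Icc 1 N, a n * (n : ℝ) ^ (-x) := by
    rw [Finset.range_eq_Ico, Finset.sum_Ico_add' (fun n : ℕ => a n * (n : ℝ) ^ (-x)) 0 N 1]
    refine Finset.sum_congr ?_ fun n _ => rfl
    ext n
    simp only [Finset.mem_Ico, Finset.mem_Icc]
    omega
  rw [he]
  exact h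

end Pool.Agent.Lib.MPcb8a44.SX
end
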