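import Pool.Agent.Lib.MP_cb8a44_nt.SX.Defs

/-!
# Theorem X (MP_cb8a44_nt): the statements of the modules

Text: /team-store/MP_cb8a44_nt_X_h58.md. Module `M` proves `theorem specM (hyps) : SpecM` where the
hypotheses are the `Spec` of the modules it uses.
-/

set_option autoImplicit false
set_option linter.style.longLine false

open NumberField Module MeasureTheory
open scoped nonZeroDivisors

namespace Pool.Agent.Lib.MPcb8a44.SX

/-! ## Part A: primes in classes -/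

/-- SMS (150, from Poisson summation: `Pool/Agent/Lib/MP_a8dae7_an/CV/POI.lean`, theorem
`POIM.poisson`). Smooth sums over `ℤⁿ`.
Proof: Poisson summation for `x ↦ Φ(x/T)` gives `Tⁿ ∑_k Φ^(T k)`, and `|Φ^(ξ)| ≤ C (1+|ξ|)^(-N)`
for all `N` (integrate by parts `N` times: or Mathlib: `Φ` is a Schwartz function and the Fourier
transform of a Schwartz function is Schwartz; or apply the one-variable integration by parts in the
variable `i` with `|ξ_i|` maximal). -/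
def SpecSMS : Prop := ∀ (n : ℕ) (Φ : (Fin n → ℝ) → ℝ), ContDiff ℝ (⊤ : ℕ∞) Φ → HasCompactSupport Φ →
  ∀ A : ℕ, ∃ C : ℝ, ∀ T : ℝ, 1 ≤ T →
    |∑' m : Fin n → ℤ, Φ (fun i => (m i : ℝ) / T) - T ^ n * ∫ x, Φ x| ≤ C / T ^ A

/-- LAT (150, from SMS). The lattice `cj '' j` has a `ℤ`-basis (`basisOfFractionalIdeal` or
`Ideal.selfBasis`), its matrix `M` of conjugates is invertible with `|det M| = N(j) |det M_O|`
(`Ideal.absNorm` is the absolute value of the determinant of the change of basis: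
`Ideal.natAbs_det_basis_change`, and similar); put `V = |det M_O|`, apply SMS to `Φ ∘ M` and change
variables. (`K` is totally real: `φ x = cj x φ`; `det ≠ 0` because the square of the determinant is
the discriminant `Algebra.discr_not_zero_of_basis`.) -/
def SpecLAT : Prop := ∀ (K : Type) [Field K] [NumberField K], TR K → ∃ V : ℝ, 0 < V ∧
  ∀ Φ : ((K →+* ℂ) → ℝ) → ℝ, ContDiff ℝ (⊤ : ℕ∞) Φ → HasCompactSupport Φ →
  ∀ j : Ideal (𝓞 K), j ≠ ⊥ → ∀ A : ℕ, ∃ C : ℝ, ∀ T : ℝ, 1 ≤ T →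
    |∑' x : j, Φ (fun φ => cj ((x : 𝓞 K) : K) φ / T) -
      T ^ (finrank ℚ K) / (Ideal.absNorm j * V) * ∫ z, Φ z| ≤ C / T ^ A

/-- BAL (120). Dirichlet's unit theorem, balancing with squares of units. The log embedding of the
units is a full lattice in the hyperplane `sum = 0` (Mathlib: `NumberField.Units.logSpace`,
`Units.unitLattice_span_eq_top`, `dirichletUnitTheorem`), so every vector of the hyperplane is
within a bounded distance of `2 log |u|`. (Totally real: all places are real, embeddings and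
infinite places correspond.) -/
def SpecBAL : Prop := ∀ (K : Type) [Field K] [NumberField K], TR K → ∃ B : ℝ, 1 ≤ B ∧
  ∀ z : (K →+* ℂ) → ℝ, (∀ φ, z φ ≠ 0) → ∃ u : (𝓞 K)ˣ, ∀ φ ψ,
    |cj ((u : 𝓞 K) : K) φ ^ 2 * z φ| ≤ B * |cj ((u : 𝓞 K) : K) ψ ^ 2 * z ψ|

/-- PART (250, from BAL). A smooth partition of unity for the units of norm 1.
Proof: let `f` be supported in `[α, β]`. The set `S = {z | ∏ z ∈ [α, β], |z φ| ≤ B |z ψ|}` is compact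
and all coordinates are `≠ 0` on it. Choose `η ≥ 0` smooth, compactly supported in `{∏ z > 0}`,
positive on `S`. `H z = ∑ (u : U1) η (u z)` is locally finite on `{∏ z > 0}` (the units with all
`|u φ|` bounded are finitely many: Northcott, `NumberField.Embeddings.finite_of_norm_le`), smooth,
invariant and positive if `∏ z ∈ [α, β]` (BAL: `u²` has norm 1).
`Φ z = f (∏ z) η z / H z` for `∏ z > 0` and `∏ z` in the support of `f`, and `0` otherwise. -/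
def SpecPART : Prop := ∀ (K : Type) [Field K] [NumberField K], TR K → ∀ f : ℝ → ℝ, Tst f →
  ∃ Φ : ((K →+* ℂ) → ℝ) → ℝ, ContDiff ℝ (⊤ : ℕ∞) Φ ∧ HasCompactSupport Φ ∧
    (∀ z, (∃ φ, z φ = 0) → Φ z = 0) ∧
    ∀ z : (K →+* ℂ) → ℝ, (∀ φ, z φ ≠ 0) →
      {u : (𝓞 K)ˣ | u ∈ U1 K ∧ Φ (fun φ => cj ((u : 𝓞 K) : K) φ * z φ) ≠ 0}.Finite ∧
      ∑' u : U1 K, Φ (fun φ => cj (((u : (𝓞 K)ˣ) : 𝓞 K) : K) φ * z φ) =
        if 0 < ∏ φ, z φ then f (∏ φ, z φ) else 0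

/-- KL (250, from PART LAT). Ideals in a class with a smooth cut-off. `a * j = (x)`,
`Norm x > 0`, `x ∈ j` unique up to units of norm 1; `N a = Norm x / N j`; the sum is
`∑ (x : j) Φ (cj x / T)` with `T = (N j * Y)^(1/d)`, `Φ` from PART; `κ = (∫ Φ)/V`. (If
`N j * Y ≥ 1`: true. The sum over `a` is finite: finitely many ideals of bounded norm,
`Ideal.finite_setOf_absNorm_le`.) -/
def SpecKL : Prop := ∀ (K : Type) [Field K] [NumberField K], TR K → ∀ f : ℝ → ℝ, Tst f →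
  ∃ κ : ℝ, ∀ j : Ideal (𝓞 K), j ≠ ⊥ → ∀ A : ℕ, ∃ C : ℝ, ∀ Y : ℝ, 1 ≤ Y →
    |∑' a : Cls j, f ((Ideal.absNorm (a : Ideal (𝓞 K)) : ℝ) / Y) - κ * Y| ≤ C / Y ^ A

/-- CONT (200). Analytic continuation by Mellin transforms.
Proof: for `f` with `Tst f` put `S Y = ∑ a n f (n/Y)` (zero for small `Y > 0`), `M s = ∫_0^∞ f x
x^(s-1) dx` (entire). For `Re s > 1`: `∫_0^∞ S Y Y^(-s-1) dY = LSeries a s * M s`. With the
hypothesis `∫_0^∞ (S Y - κ Y 1_(Y ≥ 1)) Y^(-s-1) dY` is entire, so `LSeries a s * M s =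
E s + κ/(s-1)` with `E` entire. For every `s0` there is `f` with `M s0 ≠ 0` (an `f` concentrated
near `1`, or `f = Re` or `Im` type weights); glue: `G_f M_g = G_g M_f` on `ℂ` by the identity
theorem, `F s = G_f s / M_f s` for any `f` with `M_f s ≠ 0`. -/
def SpecCONT : Prop := ∀ a : ℕ → ℂ, (∀ s : ℂ, 1 < s.re → LSeriesSummable a s) →
  ∀ κ : (ℝ → ℝ) → ℂ, (∀ f, Tst f → ∀ A : ℕ, ∃ C : ℝ, ∀ Y : ℝ, 1 ≤ Y →
    ‖∑' n : ℕ, a n * (f ((n : ℝ) / Y) : ℂ) - κ f * Y‖ ≤ C / Y ^ A) →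
  (∃ F : ℂ → ℂ, Differentiable ℂ F ∧ ∀ s : ℂ, 1 < s.re → F s = (s - 1) * LSeries a s) ∧
  ((∀ f, Tst f → κ f = 0) →
    ∃ F : ℂ → ℂ, Differentiable ℂ F ∧ ∀ s : ℂ, 1 < s.re → F s = LSeries a s)

/-- GRP (150). The class group modulo elements of positive norm: finite.
`I ~ J` iff `x I = y J` with `Norm x, Norm y > 0`: a congruence on the monoid of nonzero ideals; the
quotient is a group (`I^h = (x)`, so `I^(2h) = (x²) ~ 1`) and finite (choose for each class of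
`ClassGroup` an ideal `J` of the inverse class; `I J = (x)`; the class of `I` and the sign of the
norm of the chosen `x` determine `I` up to `~`). -/
def SpecGRP : Prop := ∀ (K : Type) [Field K] [NumberField K],
  ∃ (G : Type) (_ : CommGroup G) (_ : Finite G) (c : ID K →* G), IsCl c

/-- DS (150). Basic facts on Dirichlet series over ideals. (1) absolute convergence for `σ > 1`
(from the Dedekind zeta function of Mathlib, `NumberField.dedekindZeta`, its coefficients are the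
numbers of ideals of norm `n`); (2) the regrouping; (3) the same for smooth sums; (4) the residue of
the zeta function is positive (`NumberField.tendsto_sub_one_mul_dedekindZeta_nhdsGT`,
`NumberField.dedekindZeta_residue_pos`). -/
def SpecDS : Prop := ∀ (K : Type) [Field K] [NumberField K],
  (∀ σ : ℝ, 1 < σ → Summable fun I : ID K => (nn I : ℝ) ^ (-σ)) ∧
  (∀ g : ID K → ℂ, (∀ I, ‖g I‖ ≤ 1) → ∀ s : ℂ, 1 < s.re →
    LSeriesSummable (cf g) s ∧ LSeries (cf g) s = ∑' I : ID K, g I * (nn I : ℂ) ^ (-s)) ∧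
  (∀ g : ID K → ℂ, ∀ f : ℝ → ℝ, Tst f → ∀ Y : ℝ, 0 < Y →
    (Function.support fun I : ID K => f ((nn I : ℝ) / Y)).Finite ∧
    ∑' n : ℕ, cf g n * (f ((n : ℝ) / Y) : ℂ) = ∑' I : ID K, g I * (f ((nn I : ℝ) / Y) : ℂ)) ∧
  ∃ κ : ℝ, 0 < κ ∧ Filter.Tendsto (fun s : ℝ => ((s : ℂ) - 1) * LSeries (cf fun _ : ID K => 1) s)
    (nhdsWithin 1 (Set.Ioi 1)) (nhds (κ : ℂ))

/-- ENT (100, from KL CONT DS). The continuation of `L(s, ψ)`. For `γ : G` choose `j` with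
`c j = γ⁻¹`: `{I | c I = γ}` is `Cls j`; so the smooth sum is `κ Y ∑ ψ(γ) + O(Y^(-A))`. -/
def SpecENT : Prop := ∀ (K : Type) [Field K] [NumberField K], TR K → ∀ (G : Type) [CommGroup G]
  [Finite G] (c : ID K →* G), IsCl c → ∀ ψ : G →* ℂˣ,
  (∃ F : ℂ → ℂ, Differentiable ℂ F ∧ ∀ s : ℂ, 1 < s.re → F s = (s - 1) * LSeries (cf (chf c ψ)) s) ∧
  (ψ ≠ 1 → ∃ F : ℂ → ℂ, Differentiable ℂ F ∧ ∀ s : ℂ, 1 < s.re → F s = LSeries (cf (chf c ψ)) s)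

/-- LD (150, from DS). `-L' = L * D` by unique factorisation of ideals: `∑_(p^k ∣ J, k ≥ 1) log N p =
log N J`. -/
def SpecLD : Prop := ∀ (K : Type) [Field K] [NumberField K], ∀ g : ID K → ℂ,
  (∀ I J, g (I * J) = g I * g J) → g 1 = 1 → (∀ I, ‖g I‖ ≤ 1) → ∀ s : ℂ, 1 < s.re →
  (Summable fun x : PR K × ℕ => g x.1.1 ^ (x.2 + 1) * (Real.log (nn x.1.1) : ℂ) *
    (nn x.1.1 : ℂ) ^ (-(((x.2 + 1 : ℕ) : ℂ) * s))) ∧
  HasDerivAt (LSeries (cf g)) (-(LSeries (cf g) s * Dt g s)) s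

/-- LAND (80). Landau's lemma, from Mathlib's `LSeries.positive_of_differentiable_of_eqOn` applied to
`a + δ_1` with the terms `2 ≤ n ≤ N` removed: the partial sums are bounded. -/
def SpecLAND : Prop := ∀ a : ℕ → ℝ, (∀ n, 0 ≤ a n) →
  (∀ s : ℂ, 1 < s.re → LSeriesSummable (fun n => (a n : ℂ)) s) → ∀ F : ℂ → ℂ, Differentiable ℂ F →
  (∀ s : ℂ, 1 < s.re → F s = LSeries (fun n => (a n : ℂ)) s) →
  ∀ x : ℝ, Summable fun n : ℕ => a (n + 1) * (((n + 1 : ℕ) : ℝ)) ^ (-x)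

/-- NVR (150, from LAND DS ENT). Real characters: if `F 1 = 0` then `(s-1)ζ_K(s) * F s/(s-1)` is
entire and equal to `LSeries` of `a = cf 1 * cf ψ = cf (I ↦ ∑_(J ∣ I) ψ(J))`, `a ≥ 0`, and
`a (m^(2d)) ≥ 1` (the ideal `(m)²`); LAND with `x = 1/(2d)` gives that `∑ 1/m` converges. -/
def SpecNVR : Prop := ∀ (K : Type) [Field K] [NumberField K], TR K → ∀ (G : Type) [CommGroup G]
  [Finite G] (c : ID K →* G), IsCl c → ∀ ψ : G →* ℂˣ, ψ ≠ 1 → ψ ^ 2 = 1 → ∀ F : ℂ → ℂ,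
  Differentiable ℂ F → (∀ s : ℂ, 1 < s.re → F s = LSeries (cf (chf c ψ)) s) → F 1 ≠ 0

/-- NVC (120, from LD DS ENT). Complex characters: `3 Dt 1 σ + 4 Re Dt ψ σ + Re Dt ψ² σ ≥ 0` for real
`σ > 1` (`3 + 4 cos x + cos 2x ≥ 0`); near `1` the three are `1/(σ-1)`, `-m/(σ-1)` with `m ≥ 1` the
order of the zero, and `≤ O(1)`. -/
def SpecNVC : Prop := ∀ (K : Type) [Field K] [NumberField K], TR K → ∀ (G : Type) [CommGroup G]
  [Finite G] (c : ID K →* G), IsCl c → ∀ ψ : G →* ℂˣ, ψ ^ 2 ≠ 1 → ∀ F : ℂ → ℂ,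
  Differentiable ℂ F → (∀ s : ℂ, 1 < s.re → F s = LSeries (cf (chf c ψ)) s) → F 1 ≠ 0

/-- NEG (60). An integer of negative norm: `α` a primitive element, `r` rational strictly between
its two largest conjugates (`-1` if the degree is 1): `r - α` times a natural number. -/
def SpecNEG : Prop := ∀ (K : Type) [Field K] [NumberField K], TR K → ∃ x : 𝓞 K,
  Algebra.norm ℤ x < 0

/-- PET (150, from GRP ENT NVR NVC LD NEG DS). Primes in classes with prescribed sign. By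
orthogonality of characters `∑_ψ conj(ψ γ) Dt ψ σ → ∞` as `σ → 1+` (the term `ψ = 1` is
`~ 1/(σ-1)`, the others are bounded), so infinitely many primes have class `γ` (the terms `k ≥ 2`
are bounded). `e = -1`: multiply `j` by an element of negative norm. -/
def SpecPET : Prop := ∀ (K : Type) [Field K] [NumberField K], TR K → ∀ j : Ideal (𝓞 K), j ≠ ⊥ →
  ∀ e : ℤ, (e = 1 ∨ e = -1) → ∀ B : ℕ, ∃ (q : Ideal (𝓞 K)) (x : 𝓞 K), q.IsPrime ∧ q ≠ ⊥ ∧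
    B < Ideal.absNorm q ∧ q * j = Ideal.span {x} ∧ 0 < e * Algebra.norm ℤ x

/-! ## Part B: reciprocity -/

/-- The dual of the lattice `ℤ b` for the form `∑ s_j T_j T_j`. -/
def Du {V ι κ : Type} [AddCommGroup V] [Module ℚ V] [Fintype κ] (b : Basis ι ℚ V)
    (T : V →ₗ[ℚ] (κ → ℝ)) (s : κ → ℝ) : Set V :=
  {w | ∀ i, ∃ k : ℤ, ∑ j, s j * T (b i) j * T w j = k}

/-- MIL (300, from Poisson summation `POIM.poisson`, file `Pool/Agent/Lib/MP_a8dae7_an/CV/POI.lean`).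
Gauss-Milgram. Proof: for `ε > 0`, `α_j = ε + i s_j`, `T'(ε) = ∑_(w ∈ L') exp(-π ∑ α_j T_j(w)²) =
∑_(r ∈ R) exp(-π i b(r,r)) ∑_(z ∈ L) exp(-π ε |T(r+z)|²)` (the phase is periodic, `L` is even).
`ε^(n/2)` times it tends to `G / covol L` (Poisson). Poisson on `L'`: `T'(ε) = (1/covol L') ∏ α_j^(-1/2)
∑_(z ∈ L) exp(-π (ε - i s_j)/(1+ε²) T_j(z)²)`, the phase `exp(π i b(z,z)/(1+ε²))` differs from `1` by
at most `π ε² |T z|²`, so `ε^(n/2)` times it tends to `(1/covol L') ∏ exp(-π i s_j/4) / covol L`. -/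
def SpecMIL : Prop := ∀ (V ι κ : Type) [AddCommGroup V] [Module ℚ V] [Fintype ι] [Fintype κ]
  (b : Basis ι ℚ V) (T : V →ₗ[ℚ] (κ → ℝ)) (s : κ → ℝ), (∀ j, s j = 1 ∨ s j = -1) →
  Fintype.card ι = Fintype.card κ → LinearIndependent ℝ (fun i => T (b i)) →
  (∀ z ∈ Submodule.span ℤ (Set.range b), ∃ k : ℤ, ∑ j, s j * T z j ^ 2 = 2 * k) →
  ∀ R : Finset V, (∀ w ∈ R, w ∈ Du b T s) →
  (∀ w ∈ Du b T s, ∃! r : V, r ∈ R ∧ w - r ∈ Submodule.span ℤ (Set.range b)) →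
  ∃ c : ℝ, 0 < c ∧ ∑ w ∈ R, Complex.exp (-(Real.pi * Complex.I *
    ((∑ j, s j * T w j ^ 2 : ℝ) : ℂ))) =
      c * ∏ j, Complex.exp (-(Real.pi * Complex.I * (s j : ℂ) / 4))

/-- MIE (120, from MIL). The Gauss sum of the ideal `B` with `B σ(B) = (Y)`: `T z = √(2/|Y_φ|)
(Re, Im) of Φ z` for an extension `Φ` of each embedding `φ` of `K`; the basis is a `ℤ`-basis of `B`;
even: `z σ(z)/Y ∈ O_K` and `Tr_(E/ℚ) = 2 Tr_(K/ℚ)` on `K`. -/
def SpecMIE : Prop := ∀ (K E : Type) [Field K] [NumberField K] [Field E] [NumberField E]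
  [Algebra K E] (t : K) (q : QE K E t), TR K → TP t → ∀ (Y : 𝓞 K), Y ≠ 0 → ∀ B : Ideal (𝓞 E),
  B * B.map q.s = Ideal.span {algebraMap (𝓞 K) (𝓞 E) Y} → ∀ R : Finset E, Rps (Dl q B Y) B R →
  ∃ c : ℝ, 0 < c ∧ Gs q Y R =
    c * (-Complex.I) ^ finrank ℚ K * (((Algebra.norm ℤ Y).sign : ℤ) : ℂ)

/-- NS (150). Norms modulo an ideal. Proof: modulo a prime `p` of `K` dividing `m`: `p ∣ 2`: a square;
`p` odd: `a² + τ b²` takes every value mod `p`, `τ = c² t`, `c a ⊂ O`, `c a ⊄ p`; CRT; lifting from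
`m` to `m²`: `u (1 + k e)` with `e ∈ O_E`, `e + σ e = 1` (`e = c(s+θ)/2 + 4 r`, `c = -s/t`, helper99),
`k = x/N(u) - 1` modulo `m²`, `k ∈ m`. -/
def SpecNS : Prop := ∀ (K E : Type) [Field K] [NumberField K] [Field E] [NumberField E]
  [Algebra K E] (t s r : 𝓞 K) (a : Ideal (𝓞 K)) (q : QE K E (t : K)), UR t s r a →
  ∀ m : Ideal (𝓞 K), m ≠ ⊥ → ∀ x : 𝓞 K, Ideal.span {x} ⊔ m = ⊤ → ∃ (u : 𝓞 E) (y : 𝓞 K),
    u * q.s u = algebraMap (𝓞 K) (𝓞 E) y ∧ y - x ∈ m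

/-- HH (200, from NS). Making `B` coprime to `m` and `Y` congruent to 1. Proof: `h1 ∈ B⁻¹` not in
`P B⁻¹` for the primes `P ∣ m` (CRT), `h1 B` is integral and coprime to `m`; `Y N(h1) ∈ O_K` is
coprime to `m`; NS with its inverse modulo `m²` gives `u`; `h = u h1`, `B1 = h B`. -/
def SpecHH : Prop := ∀ (K E : Type) [Field K] [NumberField K] [Field E] [NumberField E]
  [Algebra K E] (t s r : 𝓞 K) (a : Ideal (𝓞 K)) (q : QE K E (t : K)), UR t s r a →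
  ∀ (Y : 𝓞 K), Y ≠ 0 → ∀ B : Ideal (𝓞 E),
  B * B.map q.s = Ideal.span {algebraMap (𝓞 K) (𝓞 E) Y} → ∀ m : ℕ, m ≠ 0 →
  ∃ (h : E) (B1 : Ideal (𝓞 E)) (y : 𝓞 K), h ≠ 0 ∧ B1 ⊔ Ideal.span {(m : 𝓞 E)} = ⊤ ∧
    B1 * B1.map q.s = Ideal.span {algebraMap (𝓞 K) (𝓞 E) y} ∧
    algebraMap K E (y : K) = algebraMap K E (Y : K) * (h * q.σ h) ∧
    y - 1 ∈ Ideal.span {((m : 𝓞 K)) ^ 2}

/-- EXT (100). The extension `E = K(√-t)`. -/
def SpecEXT : Prop := ∀ (K : Type) [Field K] [NumberField K] (t : K), TR K → TP t →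
  ∃ (E : Type) (_ : Field E) (_ : NumberField E) (_ : Algebra K E), Nonempty (QE K E t)

/-- NRP (150). Primes which are norms. Common lemma: if `ω ∈ O_E`, `ω σ(ω) ∈ p` and
`ω + σ(ω) ∈ O_K ∖ p` then `P = (p, ω)` has `P σ(P) = p O_E`. `p ∣ 2`: `ω = c (s + θ)/2`, `c a ⊂ O`,
`c a ⊄ p`: `ω + σ ω = c s`, `ω σ ω = 2 c² t r`. `p` odd: `ω = b - g θ`. -/
def SpecNRP : Prop := ∀ (K E : Type) [Field K] [NumberField K] [Field E] [NumberField E]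
  [Algebra K E] (t s r : 𝓞 K) (a : Ideal (𝓞 K)) (q : QE K E (t : K)), UR t s r a →
  ∀ p : Ideal (𝓞 K), p.IsPrime → p ≠ ⊥ →
  ((2 : 𝓞 K) ∈ p → NP q p) ∧
  (∀ (n b : 𝓞 K) (g : K), (2 : 𝓞 K) ∉ p → (n : K) = (t : K) * g ^ 2 → n ∉ p → b ^ 2 + n ∈ p →
    NP q p)

/-- BID (100). The ideal `B`: product over the primes of `Y`. -/
def SpecBID : Prop := ∀ (K E : Type) [Field K] [NumberField K] [Field E] [NumberField E]
  [Algebra K E] (t : K) (q : QE K E t) (Y : 𝓞 K), Y ≠ 0 →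
  (∀ p : Ideal (𝓞 K), p.IsPrime → p ≠ ⊥ → NP q p ∨ Evn p Y) →
  ∃ B : Ideal (𝓞 E), B * B.map q.s = Ideal.span {algebraMap (𝓞 K) (𝓞 E) Y}

/-- GSM (250). Equality of Gauss sums. `D⁻¹ = Dl q ⊤ 1` is the dual of `O_E` for the trace
(`FractionalIdeal.dual ℤ ℚ 1`), `σ`-stable; `m D⁻¹ ⊂ O_E`. `Dl q B y = B D⁻¹` (since `(y) = B σ(B)`).
The inclusion `B D⁻¹ → D⁻¹` induces a bijection `B D⁻¹/B → D⁻¹/O_E` as `B` is coprime to `m`, and
`N(w)/y - N(w) = (1-y) N(w)/y ∈ O_K` for `w ∈ B D⁻¹`, so the phases agree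
(`Tr_(E/ℚ) = 2 Tr_(K/ℚ)` on `K`); for `w - w' ∈ O_E`, `w, w' ∈ D⁻¹`: the phases of `w`, `w'` agree. -/
def SpecGSM : Prop := ∀ (K E : Type) [Field K] [NumberField K] [Field E] [NumberField E]
  [Algebra K E] (t : K) (q : QE K E t), t ≠ 0 → ∃ m : ℕ, m ≠ 0 ∧
  ∀ (B : Ideal (𝓞 E)) (y : 𝓞 K), y ≠ 0 →
  B * B.map q.s = Ideal.span {algebraMap (𝓞 K) (𝓞 E) y} → B ⊔ Ideal.span {(m : 𝓞 E)} = ⊤ →
  y - 1 ∈ Ideal.span {((m : 𝓞 K)) ^ 2} → ∃ R R1 : Finset E, Rps (Dl q B y) B R ∧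
    Rps (Dl q ⊤ 1) ⊤ R1 ∧ Gs q y R = Gs q 1 R1

/-- REC (120, from MIE HH BID GSM). Reciprocity. `B` from BID, `h, B1, y` from HH with the `m` of GSM;
MIE for `(B1, y)` and for `(⊤, 1)`: `sign Norm y = 1`; `Norm y = Norm Y * (positive)` as
`h σ(h)` is totally positive. -/
def SpecREC : Prop := ∀ (K E : Type) [Field K] [NumberField K] [Field E] [NumberField E]
  [Algebra K E] (t s r : 𝓞 K) (a : Ideal (𝓞 K)) (q : QE K E (t : K)), TR K → TP (t : K) →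
  UR t s r a → ∀ Y : 𝓞 K, Y ≠ 0 → (∀ p : Ideal (𝓞 K), p.IsPrime → p ≠ ⊥ → NP q p ∨ Evn p Y) →
  0 < Algebra.norm ℤ Y

/-! ## Part C: the vectors -/

/-- LOC (150). Local parity. Isotropy lemma (helper12): `k` field, `a.a = c`, `b ≠ 0`, `b.b = 0`,
`a.b = 0` imply that `-c` is a square (`a × b = l b`, `l² = -c`). (1) `(ε + v.w)(ε - v.w) = |v × w|²`;
if `ε + v.w ∈ p` then `ε - v.w ∉ p`; `u = v × w`, `d u = π^k u'` with `d ∉ p`, `u' ∉ p^3`;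
`|u'|² ∉ p` by the isotropy lemma. -/
def SpecLOC : Prop := ∀ (K : Type) [Field K] [NumberField K] (p : Ideal (𝓞 K)), p.IsPrime → p ≠ ⊥ →
  (2 : 𝓞 K) ∉ p → ∀ (v w : Fin 3 → 𝓞 K) (n n' ε : 𝓞 K), dt v v = n → dt w w = n' →
  ε ^ 2 = n * n' →
  ((n ∉ p → n' ∉ p → (∀ b, b ^ 2 + n ∉ p) → ε + dt v w ≠ 0 → Evn p (2 * (ε + dt v w))) ∧
   (n ∈ p → (∃ i, v i ∉ p) → n' ∉ p → (∀ b, b ^ 2 + n' ∉ p) → Evn p (2 * (ε + dt v w))))

/-- EIC (60). Eichler: some `v_j ≠ 0`, `x = v_j²/n ∈ O`, `0 < x ≤ 1` at every place, so `x = 1`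
(the norm of `x` is an integer `≥ 1`). -/
def SpecEIC : Prop := ∀ (K : Type) [Field K] [NumberField K], TR K → ∀ (n : 𝓞 K) (q : Ideal (𝓞 K)),
  n ≠ 0 → q ^ 2 = Ideal.span {n} → ∀ v : Fin 3 → 𝓞 K, dt v v = n → (∀ i, v i ∈ q) →
  ∃ b : 𝓞 K, n = b ^ 2

/-- SSQ (150). Sums of squares. Proof: `b_j` a `ℤ`-basis of `O`, `β = ∑ (1 + b_j²)`; if
`z = ∑ c_j b_j`, `|c_j| ≤ k`, then `2 z + k β = ∑ |c_j| (1 ± b_j)² + ∑ (k - |c_j|)(1 + b_j²)` is a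
sum of squares. Given `n`: `k` even, `k ~ C1 √(max n)`; `e ≡ x0` mod 2 with `e_φ = √(n_φ - k β_φ)
+ O(1)` at every place; `n - k β - e² = 2 z` with `|z_φ| ≤ C2 √(max n)`, so `|c_j| ≤ k`. -/
def SpecSSQ : Prop := ∀ (K : Type) [Field K] [NumberField K], TR K → ∃ C : ℝ, 0 < C ∧
  ∀ n x : 𝓞 K, x ^ 2 - n ∈ Ideal.span {(2 : 𝓞 K)} → TP (n : K) →
  (∀ φ ψ, C * Real.sqrt (cj (n : K) φ) ≤ cj (n : K) ψ) →
  ∃ (m : ℕ) (f : Fin m → 𝓞 K), n = ∑ i, f i ^ 2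

/-- NPL (120). Sign of `Y` at the places, and `Y ≠ 0`. If `|v.w| ≥ |ε|` at a place then `v × w = 0`,
`w = c v`, `q' = c q`, `v_i q' ⊂ q`, so `v_i ∈ q` for all `i`. -/
def SpecNPL : Prop := ∀ (K : Type) [Field K] [NumberField K], TR K → ∀ (v w : Fin 3 → 𝓞 K)
  (n n' ε : 𝓞 K) (q q' : Ideal (𝓞 K)), q.IsPrime → q'.IsPrime → q ≠ ⊥ → q' ≠ ⊥ → q ≠ q' →
  q ^ 2 = Ideal.span {n} → q' ^ 2 = Ideal.span {n'} → n ≠ 0 → n' ≠ 0 → dt v v = n → dt w w = n' →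
  ε ^ 2 = n * n' → (∃ i, v i ∉ q) →
  2 * (ε + dt v w) ≠ 0 ∧ (Algebra.norm ℤ (2 * (ε + dt v w))).sign = (Algebra.norm ℤ ε).sign

/-- FIN (200, from PET BAL SSQ EIC LOC NPL NRP REC EXT): the theorem. `j` with `a j = (y)`, `y` the
norm of `a` (a natural number), `q j = (x)`: `g = x/y`, `q = a g`; balanced by BAL. -/
def SpecFIN : Prop := ∀ (K : Type) [Field K] [NumberField K], TR K →
  (∀ x : 𝓞 K, (∃ (m : ℕ) (f : Fin m → 𝓞 K), x = ∑ i, f i ^ 2) →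
    ∃ f : Fin 3 → 𝓞 K, x = ∑ i, f i ^ 2) →
  ∀ (t s : 𝓞 K) (a : Ideal (𝓞 K)), TP (t : K) → a ^ 2 = Ideal.span {t} → 8 * t ∣ s ^ 2 + t →
  ∃ y : 𝓞 K, t = y ^ 2

end Pool.Agent.Lib.MPcb8a44.SX
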