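import Pool.Agent.Lib.MP_cb8a44_nt.RC.ZIX
import Pool.Agent.Lib.MP_cb8a44_nt.SX.Spec

section
/-!
# Poisson summation for complex Gaussians in several variables
-/
set_option autoImplicit false

open MeasureTheory Finset

namespace Pool.Agent.Lib.MPcb8a44.SX.MILM

open Pool.Agent.Lib.MPcb8a44.RC
open Pool.Agent.Lib.MPcb8a44.RC.POIM

variable {n : ℕ}

/-- the sum of squares of the coordinates of `M x` -/
noncomputable def nq (M : Matrix (Fin n) (Fin n) ℝ) (x : Fin n → ℝ) : ℝ := ∑ j, (M.mulVec x j) ^ 2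

/-- the complex Gaussian -/
noncomputable def gq (M : Matrix (Fin n) (Fin n) ℝ) (a : Fin n → ℂ) (x : Fin n → ℝ) : ℂ :=
  Complex.exp (-∑ j, (Real.pi * a j) * ((M.mulVec x j : ℝ) : ℂ) ^ 2)

theorem nq_nonneg (M : Matrix (Fin n) (Fin n) ℝ) (x : Fin n → ℝ) : 0 ≤ nq M x :=
  sum_nonneg fun _ _ => sq_nonneg _

theorem nq_pos {M : Matrix (Fin n) (Fin n) ℝ} (hM : M.det ≠ 0) {x : Fin n → ℝ} (hx : x ≠ 0) :
    0 < nq M x := by
  refine lt_of_le_of_ne (nq_nonneg M x) fun h => hx ?_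
  have h1 : M.mulVec x = 0 := by
    funext j
    have h2 := (sum_eq_zero_iff_of_nonneg (fun j _ => sq_nonneg (M.mulVec x j))).1 h.symm j
      (mem_univ j)
    exact pow_eq_zero_iff (two_ne_zero) |>.1 h2
  exact Matrix.eq_zero_of_mulVec_eq_zero hM h1

/-- the columns of `M` -/
noncomputable def cl (M : Matrix (Fin n) (Fin n) ℝ) (i : Fin n) : EuclideanSpace ℝ (Fin n) :=
  WithLp.toLp 2 (fun j => M j i)

theorem sum_cl (M : Matrix (Fin n) (Fin n) ℝ) (t : Fin n → ℝ) :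
    ∑ i, t i • cl M i = WithLp.toLp 2 (M.mulVec t) := by
  ext j
  simp [cl, Matrix.mulVec, dotProduct, mul_comm]

theorem norm_cl (M : Matrix (Fin n) (Fin n) ℝ) (t : Fin n → ℝ) :
    ‖∑ i, t i • cl M i‖ ^ 2 = nq M t := by
  rw [sum_cl, EuclideanSpace.norm_sq_eq]
  simp [nq]

theorem cl_indep {M : Matrix (Fin n) (Fin n) ℝ} (hM : M.det ≠ 0) : LinearIndependent ℝ (cl M) := by
  rw [Fintype.linearIndependent_iff]
  intro a ha i
  have h1 : nq M a = 0 := by
    rw [← norm_cl, ha]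
    simp
  by_contra hcon
  have h2 : a ≠ 0 := fun h => hcon (congrFun h i)
  have := nq_pos hM h2
  linarith

theorem zc_cl (M : Matrix (Fin n) (Fin n) ℝ) (z : Fin n → ℤ) :
    zc (cl M) z = ∑ i, (ix z) i • cl M i := rfl

theorem sum_nq {M : Matrix (Fin n) (Fin n) ℝ} (hM : M.det ≠ 0) {κ : ℝ} (hκ : 0 < κ)
    (t : Fin n → ℝ) : Summable fun z : Fin n → ℤ => Real.exp (-(κ * nq M (t + ix z))) := by
  have h := specGSM (EuclideanSpace ℝ (Fin n)) n (cl M) κ (∑ i, t i • cl M i) (cl_indep hM) hκ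
  refine h.congr fun z => ?_
  rw [zc_cl, ← sum_add_distrib, ← norm_cl]
  simp only [Pi.add_apply, add_smul]

theorem loc_nq {M : Matrix (Fin n) (Fin n) ℝ} (hM : M.det ≠ 0) {κ : ℝ} (hκ : 0 < κ) (R : ℝ) :
    ∃ u : (Fin n → ℤ) → ℝ, Summable u ∧
      ∀ (x : Fin n → ℤ) (t : Fin n → ℝ), ‖t‖ ≤ R → Real.exp (-(κ * nq M (t + ix x))) ≤ u x := by
  obtain ⟨C, hC⟩ : ∃ C : ℝ, ∀ s : Fin n → ℝ, ‖s‖ ≤ R → ‖∑ i, s i • cl M i‖ ≤ C := by
    refine ⟨R * ∑ i, ‖cl M i‖, fun s hs => ?_⟩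
    refine (norm_sum_le _ _).trans ?_
    rw [Finset.mul_sum]
    refine Finset.sum_le_sum fun i _ => ?_
    rw [norm_smul]
    exact mul_le_mul_of_nonneg_right ((norm_le_pi_norm s i).trans hs) (norm_nonneg _)
  refine ⟨fun x => Real.exp (κ * C ^ 2) * Real.exp (-(κ / 2 * nq M (0 + ix x))),
    (sum_nq hM (half_pos hκ) 0).mul_left _, fun x s hs => ?_⟩
  dsimp only
  rw [← Real.exp_add, Real.exp_le_exp, zero_add]
  have h1 := half_bound (∑ i, s i • cl M i) (∑ i, (ix x) i • cl M i)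
  have h2 : ‖∑ i, s i • cl M i‖ ^ 2 ≤ C ^ 2 := by
    have := hC s hs
    gcongr
  have h3 : ∑ i, s i • cl M i + ∑ i, (ix x) i • cl M i = ∑ i, (s + ix x) i • cl M i := by
    rw [← sum_add_distrib]
    simp only [Pi.add_apply, add_smul]
  rw [h3, norm_cl, norm_cl, norm_cl] at h1
  rw [norm_cl] at h2
  nlinarith [mul_le_mul_of_nonneg_left h1 hκ.le, mul_le_mul_of_nonneg_left h2 hκ.le]

theorem norm_gq (M : Matrix (Fin n) (Fin n) ℝ) (a : Fin n → ℂ) (x : Fin n → ℝ) :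
    ‖gq M a x‖ = Real.exp (-∑ j, Real.pi * (a j).re * (M.mulVec x j) ^ 2) := by
  rw [gq, Complex.norm_exp]
  congr 1
  rw [Complex.neg_re, Complex.re_sum]
  congr 1
  refine sum_congr rfl fun j _ => ?_
  rw [← Complex.ofReal_pow, Complex.re_mul_ofReal, Complex.re_ofReal_mul]

theorem norm_gq_le {M : Matrix (Fin n) (Fin n) ℝ} {a : Fin n → ℂ} {α : ℝ}
    (ha : ∀ j, α ≤ (a j).re) (x : Fin n → ℝ) :
    ‖gq M a x‖ ≤ Real.exp (-((Real.pi * α) * nq M x)) := by
  rw [norm_gq, Real.exp_le_exp, neg_le_neg_iff, nq, mul_sum]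
  refine sum_le_sum fun j _ => ?_
  have := Real.pi_pos
  have h1 := ha j
  gcongr

theorem exists_min {a : Fin n → ℂ} (ha : ∀ j, 0 < (a j).re) : ∃ α : ℝ, 0 < α ∧ ∀ j, α ≤ (a j).re := by
  rcases isEmpty_or_nonempty (Fin n) with h | h
  · exact ⟨1, one_pos, fun j => (h.false j).elim⟩
  · obtain ⟨i, hi⟩ := Finite.exists_min (fun j => (a j).re)
    exact ⟨(a i).re, ha i, hi⟩

theorem cont_gq (M : Matrix (Fin n) (Fin n) ℝ) (a : Fin n → ℂ) : Continuous (gq M a) := by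
  unfold gq
  have h : ∀ j, Continuous fun x : Fin n → ℝ => M.mulVec x j := by
    intro j
    unfold Matrix.mulVec dotProduct
    fun_prop
  refine Complex.continuous_exp.comp (Continuous.neg ?_)
  refine continuous_finsetSum _ fun j _ => continuous_const.mul ?_
  exact (Complex.continuous_ofReal.comp (h j)).pow 2

/-- the dual matrix -/
noncomputable def dm (M : Matrix (Fin n) (Fin n) ℝ) : Matrix (Fin n) (Fin n) ℝ := (M⁻¹).transpose

theorem dm_det {M : Matrix (Fin n) (Fin n) ℝ} (hM : M.det ≠ 0) : (dm M).det ≠ 0 := by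
  rw [dm, Matrix.det_transpose, Matrix.det_nonsing_inv, Ring.inverse_eq_inv']
  exact inv_ne_zero hM

theorem dm_dot {M : Matrix (Fin n) (Fin n) ℝ} (hM : M.det ≠ 0) (k x : Fin n → ℝ) :
    ∑ j, (dm M).mulVec k j * M.mulVec x j = ∑ j, k j * x j := by
  have h : IsUnit M.det := isUnit_iff_ne_zero.2 hM
  show (dm M).mulVec k ⬝ᵥ M.mulVec x = k ⬝ᵥ x
  rw [Matrix.dotProduct_mulVec, dm, ← Matrix.vecMul_transpose, Matrix.transpose_transpose,
    Matrix.vecMul_vecMul, Matrix.nonsing_inv_mul _ h, Matrix.vecMul_one]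

/-- change of variables -/
theorem int_comp {M : Matrix (Fin n) (Fin n) ℝ} (hM : M.det ≠ 0) (F : (Fin n → ℝ) → ℂ)
    (hF : Continuous F) : ∫ x, F (M.mulVec x) = ((|M.det|⁻¹ : ℝ) : ℂ) * ∫ y, F y := by
  have h1 := Real.map_matrix_volume_pi_eq_smul_volume_pi hM
  have h2 : ∫ x, F (Matrix.toLin' M x) = ∫ y, F y ∂(Measure.map (Matrix.toLin' M) volume) := by
    rw [integral_map]
    · exact (LinearMap.continuous_of_finiteDimensional _).aemeasurable
    · exact hF.aestronglyMeasurable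
  rw [h1, integral_smul_measure] at h2
  have h3 : ∀ x, Matrix.toLin' M x = M.mulVec x := fun x => Matrix.toLin'_apply M x
  simp only [h3] at h2
  rw [h2, ENNReal.toReal_ofReal (abs_nonneg _), abs_inv, Complex.real_smul]

theorem int_gq {M : Matrix (Fin n) (Fin n) ℝ} (hM : M.det ≠ 0) {a : Fin n → ℂ}
    (ha : ∀ j, 0 < (a j).re) (k : Fin n → ℤ) :
    ∫ x, gq M a x * ek k x = ((|M.det|⁻¹ : ℝ) : ℂ) * ((∏ j, (1 / a j) ^ (1 / 2 : ℂ)) *
      gq (dm M) (fun j => 1 / a j) (ix k)) := by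
  set c := (dm M).mulVec (ix k) with hc
  set F : (Fin n → ℝ) → ℂ := fun y =>
    Complex.exp (-∑ j, (Real.pi * a j) * ((y j : ℝ) : ℂ) ^ 2 +
      ∑ j, (-(2 * Real.pi * Complex.I * c j)) * ((y j : ℝ) : ℂ)) with hF
  have h1 : ∀ x, gq M a x * ek k x = F (M.mulVec x) := by
    intro x
    rw [hF]
    simp only
    rw [gq, ek, ← Complex.exp_add]
    congr 2
    have h2 := dm_dot hM (ix k) x
    have h3 : (∑ j, (k j : ℂ) * (x j : ℂ)) = ∑ j, (c j : ℂ) * (M.mulVec x j : ℂ) := by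
      rw [← hc] at h2
      have h4 : ((∑ j, c j * M.mulVec x j : ℝ) : ℂ) = ((∑ j, ix k j * x j : ℝ) : ℂ) := by
        rw [h2]
      push_cast at h4
      rw [h4]
      simp [ix]
    rw [h3, mul_sum, ← sum_neg_distrib]
    refine sum_congr rfl fun j _ => ?_
    ring
  have hFc : Continuous F := by
    rw [hF]
    fun_prop
  simp only [h1]
  rw [int_comp hM F hFc]
  congr 1
  have hpi : ∀ j, 0 < (Real.pi * a j).re := by
    intro j
    rw [Complex.re_ofReal_mul]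
    exact mul_pos Real.pi_pos (ha j)
  rw [hF]
  rw [GaussianFourier.integral_cexp_neg_sum_mul_add hpi, prod_mul_distrib]
  congr 1
  · refine prod_congr rfl fun j _ => ?_
    congr 1
    have hpi' : (Real.pi : ℂ) ≠ 0 := Complex.ofReal_ne_zero.2 Real.pi_ne_zero
    rw [div_mul_eq_div_div, div_self hpi']
  · rw [← Complex.exp_sum, gq]
    congr 1
    rw [← sum_neg_distrib]
    refine sum_congr rfl fun j _ => ?_
    have hpi' : (Real.pi : ℂ) ≠ 0 := Complex.ofReal_ne_zero.2 Real.pi_ne_zero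
    have haj : a j ≠ 0 := by
      intro h
      have := ha j
      rw [h] at this
      simp at this
    rw [← hc]
    field_simp
    ring_nf
    rw [Complex.I_sq]
    ring

theorem re_inv_pos {z : ℂ} (hz : 0 < z.re) : 0 < (1 / z).re := by
  rw [one_div, Complex.inv_re]
  have : z ≠ 0 := by
    rintro rfl
    simp at hz
  exact div_pos hz (Complex.normSq_pos.2 this)

/-- Poisson summation for complex Gaussians. -/
theorem gauss_poisson {M : Matrix (Fin n) (Fin n) ℝ} (hM : M.det ≠ 0) {a : Fin n → ℂ}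
    (ha : ∀ j, 0 < (a j).re) (t : Fin n → ℝ) :
    ∑' z : Fin n → ℤ, gq M a (t + ix z) = ((|M.det|⁻¹ : ℝ) : ℂ) * (∏ j, (1 / a j) ^ (1 / 2 : ℂ)) *
      ∑' k : Fin n → ℤ, gq (dm M) (fun j => 1 / a j) (ix k) * ek (-k) t := by
  obtain ⟨α, hα, hα'⟩ := exists_min ha
  obtain ⟨β, hβ, hβ'⟩ := exists_min (a := fun j => 1 / a j) fun j => re_inv_pos (ha j)
  have hloc : ∀ R : ℝ, ∃ u : (Fin n → ℤ) → ℝ, Summable u ∧
      ∀ x t, ‖t‖ ≤ R → ‖gq M a (t + ix x)‖ ≤ u x := by
    intro R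
    obtain ⟨u, hu, hu'⟩ := loc_nq hM (mul_pos Real.pi_pos hα) R
    exact ⟨u, hu, fun x t ht => (norm_gq_le hα' _).trans (hu' x t ht)⟩
  have hint : Integrable (gq M a) := by
    by_contra hni
    have h1 := int_gq hM ha 0
    have h2 : (fun s => gq M a s * ek (0 : Fin n → ℤ) s) = gq M a := by
      funext s
      simp [ek]
    rw [h2, integral_undef hni] at h1
    have h3 : gq (dm M) (fun j => 1 / a j) (ix (0 : Fin n → ℤ)) ≠ 0 := Complex.exp_ne_zero _
    have h4 : (∏ j, (1 / a j) ^ (1 / 2 : ℂ)) ≠ 0 := by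
      rw [prod_ne_zero_iff]
      intro j _
      rw [Ne, Complex.cpow_eq_zero_iff, not_and_or]
      left
      have : a j ≠ 0 := by
        intro h
        have := ha j
        rw [h] at this
        simp at this
      exact one_div_ne_zero this
    have h5 : ((|M.det|⁻¹ : ℝ) : ℂ) ≠ 0 := by
      rw [Complex.ofReal_ne_zero]
      exact inv_ne_zero (abs_ne_zero.2 hM)
    exact (mul_ne_zero h5 (mul_ne_zero h4 h3)) h1.symm
  have hdual : Summable fun k : Fin n → ℤ => gq (dm M) (fun j => 1 / a j) (ix k) := by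
    refine Summable.of_norm_bounded (g := fun k : Fin n → ℤ =>
      Real.exp (-((Real.pi * β) * nq (dm M) (0 + ix k)))) (sum_nq (dm_det hM)
        (mul_pos Real.pi_pos hβ) 0) fun k => ?_
    rw [zero_add]
    exact norm_gq_le hβ' _
  have hsum : Summable fun k : Fin n → ℤ => ∫ s, gq M a s * ek k s := by
    simp only [int_gq hM ha]
    exact (hdual.mul_left _).mul_left _
  have hP := poisson (gq M a) (cont_gq M a) hint hloc hsum t
  have h1 : per (gq M a) t = ∑' z : Fin n → ℤ, gq M a (t + ix z) := rfl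
  rw [← h1, ← hP.tsum_eq, ← tsum_mul_left]
  refine tsum_congr fun k => ?_
  rw [int_gq hM ha]
  ring

end Pool.Agent.Lib.MPcb8a44.SX.MILM
end

section
/-!
# The theta function near zero
-/
set_option autoImplicit false

open MeasureTheory Finset Filter Topology

namespace Pool.Agent.Lib.MPcb8a44.SX.MILM

open Pool.Agent.Lib.MPcb8a44.RC
open Pool.Agent.Lib.MPcb8a44.RC.POIM

variable {n : ℕ}

/-- the theta function -/
noncomputable def Th (M : Matrix (Fin n) (Fin n) ℝ) (δ : ℝ) (t : Fin n → ℝ) : ℝ :=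
  ∑' z : Fin n → ℤ, Real.exp (-(Real.pi * δ * nq M (t + ix z)))

theorem cpow_half {δ : ℝ} (hδ : 0 < δ) : (1 / (δ : ℂ)) ^ (1 / 2 : ℂ) = (((Real.sqrt δ)⁻¹ : ℝ) : ℂ) := by
  have h1 : (1 / (δ : ℂ)) = ((1 / δ : ℝ) : ℂ) := by push_cast; rfl
  have h2 : (1 / 2 : ℂ) = ((1 / 2 : ℝ) : ℂ) := by push_cast; rfl
  rw [h1, h2, ← Complex.ofReal_cpow (by positivity), ← Real.sqrt_eq_rpow, one_div, Real.sqrt_inv]

theorem gq_real (M : Matrix (Fin n) (Fin n) ℝ) (δ : ℝ) (x : Fin n → ℝ) :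
    gq M (fun _ => (δ : ℂ)) x = ((Real.exp (-(Real.pi * δ * nq M x)) : ℝ) : ℂ) := by
  rw [gq, Complex.ofReal_exp]
  congr 1
  rw [nq]
  push_cast
  rw [mul_sum]

theorem ix_zero : ix (0 : Fin n → ℤ) = 0 := by
  funext i
  simp [ix]

theorem ix_ne {k : Fin n → ℤ} (hk : k ≠ 0) : ix k ≠ 0 := by
  intro h
  apply hk
  funext i
  have := congrFun h i
  simpa [ix] using this

theorem th_poisson {M : Matrix (Fin n) (Fin n) ℝ} (hM : M.det ≠ 0) {δ : ℝ} (hδ : 0 < δ)
    (t : Fin n → ℝ) : (((Real.sqrt δ) ^ n * Th M δ t : ℝ) : ℂ) = ((|M.det|⁻¹ : ℝ) : ℂ) *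
      ∑' k : Fin n → ℤ, ((Real.exp (-(Real.pi * δ⁻¹ * nq (dm M) (ix k))) : ℝ) : ℂ) * ek (-k) t := by
  have h1 := gauss_poisson hM (a := fun _ => (δ : ℂ)) (fun _ => by simpa using hδ) t
  have h2 : ∑' z : Fin n → ℤ, gq M (fun _ => (δ : ℂ)) (t + ix z) = ((Th M δ t : ℝ) : ℂ) := by
    rw [Th, Complex.ofReal_tsum]
    exact tsum_congr fun z => gq_real M δ _
  have h3 : (∏ _j : Fin n, (1 / (δ : ℂ)) ^ (1 / 2 : ℂ)) = (((Real.sqrt δ)⁻¹ ^ n : ℝ) : ℂ) := by
    rw [prod_const, card_univ, Fintype.card_fin, cpow_half hδ]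
    push_cast
    rfl
  have h4 : ∀ k : Fin n → ℤ, gq (dm M) (fun _ => 1 / (δ : ℂ)) (ix k) =
      ((Real.exp (-(Real.pi * δ⁻¹ * nq (dm M) (ix k))) : ℝ) : ℂ) := by
    intro k
    have : (fun _ : Fin n => 1 / (δ : ℂ)) = fun _ => ((δ⁻¹ : ℝ) : ℂ) := by
      funext _
      push_cast
      rw [one_div]
    rw [this, gq_real]
  rw [h2, h3] at h1
  simp only [h4] at h1
  have hs : 0 < Real.sqrt δ := Real.sqrt_pos.2 hδ
  push_cast at h1 ⊢
  rw [h1]
  have hs' : ((Real.sqrt δ : ℝ) : ℂ) ≠ 0 := Complex.ofReal_ne_zero.2 hs.ne'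
  have h5 : ((Real.sqrt δ : ℝ) : ℂ) ^ n * (((Real.sqrt δ : ℝ) : ℂ)⁻¹) ^ n = 1 := by
    rw [← mul_pow, mul_inv_cancel₀ hs', one_pow]
  rw [← mul_assoc, mul_left_comm, h5, mul_one]

theorem th_lim {M : Matrix (Fin n) (Fin n) ℝ} (hM : M.det ≠ 0) (t : Fin n → ℝ) :
    Tendsto (fun δ : ℝ => (Real.sqrt δ) ^ n * Th M δ t) (𝓝[>] 0) (𝓝 |M.det|⁻¹) := by
  have key : Tendsto (fun δ : ℝ => (((Real.sqrt δ) ^ n * Th M δ t : ℝ) : ℂ)) (𝓝[>] 0)
      (𝓝 (((|M.det|⁻¹ : ℝ) : ℂ) * ∑' k : Fin n → ℤ, (if k = 0 then (1 : ℂ) else 0))) := by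
    have h0 : Tendsto (fun δ : ℝ => ((|M.det|⁻¹ : ℝ) : ℂ) *
        ∑' k : Fin n → ℤ, ((Real.exp (-(Real.pi * δ⁻¹ * nq (dm M) (ix k))) : ℝ) : ℂ) * ek (-k) t)
        (𝓝[>] 0) (𝓝 (((|M.det|⁻¹ : ℝ) : ℂ) * ∑' k : Fin n → ℤ, (if k = 0 then (1 : ℂ) else 0))) := by
      refine Tendsto.const_mul _ ?_
      refine tendsto_tsum_of_dominated_convergence
        (bound := fun k : Fin n → ℤ => Real.exp (-(Real.pi * nq (dm M) (0 + ix k))))
        (sum_nq (dm_det hM) Real.pi_pos 0) (fun k => ?_) ?_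
      · by_cases hk : k = 0
        · subst hk
          rw [if_pos rfl]
          have : (fun δ : ℝ => ((Real.exp (-(Real.pi * δ⁻¹ * nq (dm M) (ix (0 : Fin n → ℤ)))) : ℝ) :
              ℂ) * ek (-(0 : Fin n → ℤ)) t) = fun _ => 1 := by
            funext δ
            have h1 : nq (dm M) (ix (0 : Fin n → ℤ)) = 0 := by
              rw [ix_zero, nq]
              simp
            rw [h1]
            simp [ek]
          rw [this]
          exact tendsto_const_nhds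
        · rw [if_neg hk]
          have hpos := nq_pos (dm_det hM) (ix_ne hk)
          rw [tendsto_zero_iff_norm_tendsto_zero]
          have h1 : ∀ δ : ℝ, ‖((Real.exp (-(Real.pi * δ⁻¹ * nq (dm M) (ix k))) : ℝ) : ℂ) *
              ek (-k) t‖ = Real.exp (-(Real.pi * nq (dm M) (ix k) * δ⁻¹)) := by
            intro δ
            rw [norm_mul, ek_norm, mul_one, Complex.norm_real, Real.norm_eq_abs, Real.abs_exp]
            congr 2
            ring
          simp only [h1]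
          refine Real.tendsto_exp_neg_atTop_nhds_zero.comp ?_
          exact (tendsto_inv_nhdsGT_zero (𝕜 := ℝ)).const_mul_atTop (mul_pos Real.pi_pos hpos)
      · filter_upwards [Ioo_mem_nhdsGT (zero_lt_one (α := ℝ))] with δ hδ k
        rw [norm_mul, ek_norm, mul_one, Complex.norm_real, Real.norm_eq_abs, Real.abs_exp,
          Real.exp_le_exp, zero_add, neg_le_neg_iff]
        have h1 : 1 ≤ δ⁻¹ := (one_le_inv₀ hδ.1).2 hδ.2.le
        have h2 := nq_nonneg (dm M) (ix k)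
        have h3 := Real.pi_pos
        nlinarith [mul_nonneg h3.le h2, mul_nonneg (sub_nonneg.2 h1) (mul_nonneg h3.le h2)]
    refine h0.congr' ?_
    filter_upwards [self_mem_nhdsWithin] with δ hδ
    exact (th_poisson hM hδ t).symm
  rw [tsum_ite_eq, mul_one] at key
  exact (Complex.continuous_re.tendsto _).comp key

/-- summability -/
theorem th_sum {M : Matrix (Fin n) (Fin n) ℝ} (hM : M.det ≠ 0) {δ : ℝ} (hδ : 0 < δ)
    (t : Fin n → ℝ) : Summable fun z : Fin n → ℤ => Real.exp (-(Real.pi * δ * nq M (t + ix z))) :=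
  sum_nq hM (mul_pos Real.pi_pos hδ) t

theorem th_nonneg (M : Matrix (Fin n) (Fin n) ℝ) (δ : ℝ) (t : Fin n → ℝ) : 0 ≤ Th M δ t :=
  tsum_nonneg fun _ => (Real.exp_pos _).le

end Pool.Agent.Lib.MPcb8a44.SX.MILM
end

section
/-!
# The Gauss-Milgram formula in coordinates
-/
set_option autoImplicit false

open MeasureTheory Finset Filter Topology

namespace Pool.Agent.Lib.MPcb8a44.SX.MILM

open Pool.Agent.Lib.MPcb8a44.RC
open Pool.Agent.Lib.MPcb8a44.RC.POIM

variable {n : ℕ}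

/-- the indefinite form -/
noncomputable def bq (M : Matrix (Fin n) (Fin n) ℝ) (s : Fin n → ℝ) (x : Fin n → ℝ) : ℝ :=
  ∑ j, s j * (M.mulVec x j) ^ 2

theorem bq_abs (M : Matrix (Fin n) (Fin n) ℝ) {s : Fin n → ℝ} (hs : ∀ j, s j = 1 ∨ s j = -1)
    (x : Fin n → ℝ) : |bq M s x| ≤ nq M x := by
  rw [bq, nq]
  refine (abs_sum_le_sum_abs _ _).trans (sum_le_sum fun j _ => ?_)
  rw [abs_mul, abs_of_nonneg (sq_nonneg (M.mulVec x j))]
  have : |s j| = 1 := by
    rcases hs j with h | h <;> rw [h] <;> simp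
  rw [this, one_mul]

/-- the phase -/
noncomputable def ph (y : ℝ) : ℂ := Complex.exp (-(Real.pi * Complex.I * (y : ℂ)))

theorem ph_norm (y : ℝ) : ‖ph y‖ = 1 := by
  have h : -(Real.pi * Complex.I * (y : ℂ)) = ((-(Real.pi * y) : ℝ) : ℂ) * Complex.I := by
    push_cast
    ring
  rw [ph, h, Complex.norm_exp_ofReal_mul_I]

/-- the summand on the dual side -/
theorem gq_dual (M : Matrix (Fin n) (Fin n) ℝ) {s : Fin n → ℝ} (hs : ∀ j, s j = 1 ∨ s j = -1)
    (ε : ℝ) {k : Fin n → ℝ} {w : Fin n → ℝ}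
    (hkw : ∀ j, (dm M).mulVec k j = s j * M.mulVec w j) :
    gq (dm M) (fun j => 1 / ((ε : ℂ) - Complex.I * (s j : ℂ))) k =
      ((Real.exp (-(Real.pi * (ε / (1 + ε ^ 2)) * nq M w)) : ℝ) : ℂ) *
        ph (bq M s w / (1 + ε ^ 2)) := by
  have h1 : (0 : ℝ) < 1 + ε ^ 2 := by positivity
  have h1' : (1 + (ε : ℂ) ^ 2) ≠ 0 := by
    have : ((1 + ε ^ 2 : ℝ) : ℂ) ≠ 0 := Complex.ofReal_ne_zero.2 h1.ne'
    push_cast at this
    exact this
  rw [gq, ph, Complex.ofReal_exp, ← Complex.exp_add]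
  congr 1
  rw [nq, bq]
  push_cast
  rw [sum_div, mul_sum, mul_sum, ← sum_neg_distrib, ← sum_neg_distrib, ← sum_neg_distrib,
    ← sum_add_distrib]
  refine sum_congr rfl fun j _ => ?_
  rw [hkw j]
  have h2 : ((s j : ℝ) : ℂ) ^ 2 = 1 := by
    rcases hs j with h | h <;> rw [h] <;> norm_num
  have h3 : (ε : ℂ) - Complex.I * (s j : ℂ) ≠ 0 := by
    intro h
    have h4 : ((ε : ℂ) - Complex.I * (s j : ℂ)) * ((ε : ℂ) + Complex.I * (s j : ℂ)) =
        1 + (ε : ℂ) ^ 2 := by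
      linear_combination (-(s j : ℂ) ^ 2) * Complex.I_sq + h2
    rw [h, zero_mul] at h4
    exact h1' h4.symm
  have h5 : 1 / ((ε : ℂ) - Complex.I * (s j : ℂ)) =
      ((ε : ℂ) + Complex.I * (s j : ℂ)) / (1 + (ε : ℂ) ^ 2) := by
    rw [div_eq_div_iff h3 h1']
    linear_combination (-(-(s j : ℂ) ^ 2) * Complex.I_sq - h2)
  rw [h5]
  push_cast
  field_simp
  linear_combination (-((ε : ℂ) + Complex.I * (s j : ℂ)) * (M.mulVec w j : ℂ) ^ 2) * h2

/-- the summand on the first side -/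
theorem gq_first (M : Matrix (Fin n) (Fin n) ℝ) (s : Fin n → ℝ) (ε : ℝ) (x : Fin n → ℝ) :
    gq M (fun j => (ε : ℂ) - Complex.I * (s j : ℂ)) x =
      ((Real.exp (-(Real.pi * ε * nq M x)) : ℝ) : ℂ) * ph (-bq M s x) := by
  rw [gq, ph, Complex.ofReal_exp, ← Complex.exp_add]
  congr 1
  rw [nq, bq]
  push_cast
  rw [← sum_neg_distrib, ← sum_neg_distrib, mul_sum, mul_sum, ← sum_neg_distrib, ← sum_neg_distrib,
    ← sum_add_distrib]
  refine sum_congr rfl fun j _ => ?_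
  ring

theorem ph_even (m : ℤ) : ph (2 * m) = 1 := by
  have h : -(Real.pi * Complex.I * ((2 * m : ℝ) : ℂ)) = ((-m : ℤ) : ℂ) * (2 * Real.pi * Complex.I) := by
    push_cast
    ring
  rw [ph, h, Complex.exp_int_mul_two_pi_mul_I]

theorem exp_half {x : ℝ} : x * Real.exp (-x) ≤ Real.exp (-(x / 2)) := by
  have h1 : x ≤ Real.exp (x / 2) := by
    rcases le_total x 0 with h | h
    · exact h.trans (Real.exp_pos _).le
    · have := Real.quadratic_le_exp_of_nonneg (show 0 ≤ x / 2 by linarith)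
      nlinarith [sq_nonneg (x - 2)]
  have h2 : Real.exp (x / 2) * Real.exp (-x) = Real.exp (-(x / 2)) := by
    rw [← Real.exp_add]
    congr 1
    ring
  calc x * Real.exp (-x) ≤ Real.exp (x / 2) * Real.exp (-x) := by
        gcongr
    _ = _ := h2

/-- comparison of the phases -/
theorem phase_cmp (M : Matrix (Fin n) (Fin n) ℝ) {s : Fin n → ℝ} (hs : ∀ j, s j = 1 ∨ s j = -1)
    {ε : ℝ} (hε : 0 < ε) (w : Fin n → ℝ) :
    ‖((Real.exp (-(Real.pi * (ε / (1 + ε ^ 2)) * nq M w)) : ℝ) : ℂ) * ph (bq M s w / (1 + ε ^ 2)) -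
      ((Real.exp (-(Real.pi * (ε / (1 + ε ^ 2)) * nq M w)) : ℝ) : ℂ) * ph (bq M s w)‖ ≤
      ε * Real.exp (-(Real.pi * (ε / (1 + ε ^ 2) / 2) * nq M w)) := by
  have h1 : (0 : ℝ) < 1 + ε ^ 2 := by positivity
  set δ := ε / (1 + ε ^ 2) with hδ
  have hδ0 : 0 < δ := by positivity
  rw [← mul_sub, norm_mul, Complex.norm_real, Real.norm_eq_abs, Real.abs_exp]
  have h2 : ph (bq M s w / (1 + ε ^ 2)) =
      ph (bq M s w) * Complex.exp (Complex.I * ((Real.pi * bq M s w * (δ * ε) : ℝ) : ℂ)) := by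
    rw [ph, ph, ← Complex.exp_add]
    congr 1
    have h3 : bq M s w / (1 + ε ^ 2) = bq M s w - bq M s w * (δ * ε) := by
      rw [hδ]
      field_simp
      ring
    rw [h3]
    push_cast
    ring
  have h4 : ‖ph (bq M s w / (1 + ε ^ 2)) - ph (bq M s w)‖ ≤ Real.pi * nq M w * (δ * ε) := by
    rw [h2]
    have h5 : ph (bq M s w) * Complex.exp (Complex.I * ((Real.pi * bq M s w * (δ * ε) : ℝ) : ℂ)) -
        ph (bq M s w) = ph (bq M s w) *
        (Complex.exp (Complex.I * ((Real.pi * bq M s w * (δ * ε) : ℝ) : ℂ)) - 1) := by ring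
    rw [h5, norm_mul, ph_norm, one_mul]
    refine Real.norm_exp_I_mul_ofReal_sub_one_le.trans ?_
    rw [Real.norm_eq_abs, abs_mul, abs_mul, abs_of_pos Real.pi_pos,
      abs_of_pos (mul_pos hδ0 hε)]
    have := bq_abs M hs w
    have := Real.pi_pos
    gcongr
  calc Real.exp (-(Real.pi * δ * nq M w)) * ‖ph (bq M s w / (1 + ε ^ 2)) - ph (bq M s w)‖ ≤
      Real.exp (-(Real.pi * δ * nq M w)) * (Real.pi * nq M w * (δ * ε)) := by gcongr
    _ = ε * ((Real.pi * δ * nq M w) * Real.exp (-(Real.pi * δ * nq M w))) := by ring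
    _ ≤ ε * Real.exp (-((Real.pi * δ * nq M w) / 2)) := by
        gcongr
        exact exp_half
    _ = ε * Real.exp (-(Real.pi * (δ / 2) * nq M w)) := by
        congr 3
        ring

end Pool.Agent.Lib.MPcb8a44.SX.MILM
end

section
/-!
# The Gauss-Milgram formula in coordinates: the limit
-/
set_option autoImplicit false

open MeasureTheory Finset Filter Topology

namespace Pool.Agent.Lib.MPcb8a44.SX.MILM

open Pool.Agent.Lib.MPcb8a44.RC
open Pool.Agent.Lib.MPcb8a44.RC.POIM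

variable {n : ℕ}

theorem root_lim {s : ℝ} (hs : s = 1 ∨ s = -1) :
    Tendsto (fun ε : ℝ => (1 / ((ε : ℂ) - Complex.I * (s : ℂ))) ^ (1 / 2 : ℂ)) (𝓝[>] 0)
      (𝓝 (Complex.exp (Real.pi * Complex.I * (s : ℂ) / 4))) := by
  have h1 : Tendsto (fun ε : ℝ => 1 / ((ε : ℂ) - Complex.I * (s : ℂ))) (𝓝[>] 0)
      (𝓝 (1 / (((0 : ℝ) : ℂ) - Complex.I * (s : ℂ)))) := by
    have hc : ContinuousAt (fun ε : ℝ => 1 / ((ε : ℂ) - Complex.I * (s : ℂ))) 0 := by
      refine ContinuousAt.div continuousAt_const ?_ ?_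
      · fun_prop
      · rw [Complex.ofReal_zero, zero_sub, neg_ne_zero]
        rcases hs with h | h <;> rw [h] <;> simp
    exact hc.tendsto.mono_left nhdsWithin_le_nhds
  have h2 : 1 / (((0 : ℝ) : ℂ) - Complex.I * (s : ℂ)) = Complex.I * (s : ℂ) := by
    rcases hs with h | h <;> rw [h] <;> simp
  rw [h2] at h1
  have h3 : Complex.I * (s : ℂ) ∈ Complex.slitPlane := by
    rw [Complex.mem_slitPlane_iff]
    right
    rcases hs with h | h <;> rw [h] <;> simp
  have h4 := h1.cpow (tendsto_const_nhds (x := (1 / 2 : ℂ))) h3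
  have h5 : (Complex.I * (s : ℂ)) ^ (1 / 2 : ℂ) =
      Complex.exp (Real.pi * Complex.I * (s : ℂ) / 4) := by
    rcases hs with h | h
    · rw [h, Complex.ofReal_one, mul_one, mul_one, Complex.cpow_def_of_ne_zero Complex.I_ne_zero,
        Complex.log_I]
      congr 1
      ring
    · rw [h, Complex.ofReal_neg, Complex.ofReal_one, mul_neg, mul_one,
        Complex.cpow_def_of_ne_zero (neg_ne_zero.2 Complex.I_ne_zero), Complex.log_neg_I]
      congr 1
      ring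
  rw [h5] at h4
  exact h4

/-- the first sum over one class -/
noncomputable def Dc (M : Matrix (Fin n) (Fin n) ℝ) (s : Fin n → ℝ) (ε : ℝ) (t : Fin n → ℝ) : ℂ :=
  ∑' z : Fin n → ℤ, ((Real.exp (-(Real.pi * (ε / (1 + ε ^ 2)) * nq M (t + ix z))) : ℝ) : ℂ) *
    ph (bq M s (t + ix z) / (1 + ε ^ 2))

theorem del_lim : Tendsto (fun ε : ℝ => ε / (1 + ε ^ 2)) (𝓝[>] 0) (𝓝[>] 0) := by
  rw [tendsto_nhdsWithin_iff]
  constructor
  · have hc : ContinuousAt (fun ε : ℝ => ε / (1 + ε ^ 2)) 0 := by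
      refine ContinuousAt.div continuousAt_id (by fun_prop) (by norm_num)
    have h := hc.tendsto
    simp only [zero_div] at h
    exact h.mono_left nhdsWithin_le_nhds
  · filter_upwards [self_mem_nhdsWithin] with ε hε
    have : (0 : ℝ) < ε := hε
    exact div_pos this (by positivity)

theorem half_lim : Tendsto (fun ε : ℝ => ε / (1 + ε ^ 2) / 2) (𝓝[>] 0) (𝓝[>] 0) := by
  have h := del_lim
  rw [tendsto_nhdsWithin_iff] at h ⊢
  constructor
  · have := h.1.div_const 2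
    rwa [zero_div] at this
  · filter_upwards [h.2] with ε hε
    exact Set.mem_Ioi.2 (half_pos (Set.mem_Ioi.1 hε))

theorem sqrt_lim : Tendsto (fun ε : ℝ => (Real.sqrt (1 + ε ^ 2)) ^ n) (𝓝[>] 0) (𝓝 1) := by
  have hc : ContinuousAt (fun ε : ℝ => (Real.sqrt (1 + ε ^ 2)) ^ n) 0 := by fun_prop
  have h := hc.tendsto
  simp only [ne_eq, OfNat.ofNat_ne_zero, not_false_eq_true, zero_pow, add_zero, Real.sqrt_one,
    one_pow] at h
  exact h.mono_left nhdsWithin_le_nhds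

/-- **the main term over one class** -/
theorem class_lim {M : Matrix (Fin n) (Fin n) ℝ} (hM : M.det ≠ 0) {s : Fin n → ℝ}
    (hs : ∀ j, s j = 1 ∨ s j = -1) (t : Fin n → ℝ)
    (hph : ∀ z : Fin n → ℤ, ph (bq M s (t + ix z)) = ph (bq M s t)) :
    Tendsto (fun ε : ℝ => (((Real.sqrt ε) ^ n : ℝ) : ℂ) * Dc M s ε t) (𝓝[>] 0)
      (𝓝 (ph (bq M s t) * ((|M.det|⁻¹ : ℝ) : ℂ))) := by
  -- comparison
  have hcmp : ∀ ε : ℝ, 0 < ε → ‖Dc M s ε t - ph (bq M s t) * ((Th M (ε / (1 + ε ^ 2)) t : ℝ) : ℂ)‖ ≤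
      ε * Th M (ε / (1 + ε ^ 2) / 2) t := by
    intro ε hε
    have h1 : (0 : ℝ) < 1 + ε ^ 2 := by positivity
    set δ := ε / (1 + ε ^ 2) with hδ
    have hδ0 : 0 < δ := by positivity
    have hs1 : Summable fun z : Fin n → ℤ =>
        ((Real.exp (-(Real.pi * δ * nq M (t + ix z))) : ℝ) : ℂ) *
          ph (bq M s (t + ix z) / (1 + ε ^ 2)) := by
      refine Summable.of_norm_bounded (th_sum hM hδ0 t) fun z => ?_
      rw [norm_mul, ph_norm, mul_one, Complex.norm_real, Real.norm_eq_abs, Real.abs_exp]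
    have hs2 : Summable fun z : Fin n → ℤ =>
        ((Real.exp (-(Real.pi * δ * nq M (t + ix z))) : ℝ) : ℂ) * ph (bq M s (t + ix z)) := by
      refine Summable.of_norm_bounded (th_sum hM hδ0 t) fun z => ?_
      rw [norm_mul, ph_norm, mul_one, Complex.norm_real, Real.norm_eq_abs, Real.abs_exp]
    have h2 : ph (bq M s t) * ((Th M δ t : ℝ) : ℂ) = ∑' z : Fin n → ℤ,
        ((Real.exp (-(Real.pi * δ * nq M (t + ix z))) : ℝ) : ℂ) * ph (bq M s (t + ix z)) := by
      simp only [hph]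
      rw [tsum_mul_right, ← Complex.ofReal_tsum, mul_comm]
      rfl
    rw [h2, Dc, ← hs1.tsum_sub hs2]
    refine (tsum_of_norm_bounded (g := fun z : Fin n → ℤ =>
      ε * Real.exp (-(Real.pi * (δ / 2) * nq M (t + ix z)))) ?_ fun z => phase_cmp M hs hε _)
    exact (th_sum hM (half_pos hδ0) t).hasSum.mul_left ε
  -- main term
  have hmain : Tendsto (fun ε : ℝ => (((Real.sqrt ε) ^ n : ℝ) : ℂ) *
      (ph (bq M s t) * ((Th M (ε / (1 + ε ^ 2)) t : ℝ) : ℂ))) (𝓝[>] 0)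
      (𝓝 (ph (bq M s t) * ((|M.det|⁻¹ : ℝ) : ℂ))) := by
    have h1 : Tendsto (fun ε : ℝ => (Real.sqrt (1 + ε ^ 2)) ^ n *
        ((Real.sqrt (ε / (1 + ε ^ 2))) ^ n * Th M (ε / (1 + ε ^ 2)) t)) (𝓝[>] 0)
        (𝓝 (1 * |M.det|⁻¹)) := sqrt_lim.mul ((th_lim hM t).comp del_lim)
    rw [one_mul] at h1
    have h2 : Tendsto (fun ε : ℝ => ph (bq M s t) * (((Real.sqrt (1 + ε ^ 2)) ^ n *
        ((Real.sqrt (ε / (1 + ε ^ 2))) ^ n * Th M (ε / (1 + ε ^ 2)) t) : ℝ) : ℂ)) (𝓝[>] 0)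
        (𝓝 (ph (bq M s t) * ((|M.det|⁻¹ : ℝ) : ℂ))) :=
      ((Complex.continuous_ofReal.tendsto _).comp h1).const_mul _
    refine h2.congr' ?_
    filter_upwards [self_mem_nhdsWithin] with ε hε
    have hε0 : (0 : ℝ) < ε := hε
    have h3 : (Real.sqrt (1 + ε ^ 2)) ^ n * (Real.sqrt (ε / (1 + ε ^ 2))) ^ n =
        (Real.sqrt ε) ^ n := by
      rw [← mul_pow, ← Real.sqrt_mul (by positivity)]
      congr 2
      field_simp
    rw [← mul_assoc, h3]
    push_cast
    ring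
  -- error term
  have herr : Tendsto (fun ε : ℝ => (Real.sqrt ε) ^ n * (ε * Th M (ε / (1 + ε ^ 2) / 2) t))
      (𝓝[>] 0) (𝓝 0) := by
    have h1 : Tendsto (fun ε : ℝ => (ε * ((Real.sqrt 2) ^ n * (Real.sqrt (1 + ε ^ 2)) ^ n)) *
        ((Real.sqrt (ε / (1 + ε ^ 2) / 2)) ^ n * Th M (ε / (1 + ε ^ 2) / 2) t)) (𝓝[>] 0)
        (𝓝 ((0 * ((Real.sqrt 2) ^ n * 1)) * |M.det|⁻¹)) := by
      refine Tendsto.mul (Tendsto.mul ?_ (sqrt_lim.const_mul _)) ((th_lim hM t).comp half_lim)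
      exact tendsto_id.mono_left nhdsWithin_le_nhds
    rw [zero_mul, zero_mul] at h1
    refine h1.congr' ?_
    filter_upwards [self_mem_nhdsWithin] with ε hε
    have hε0 : (0 : ℝ) < ε := hε
    have h3 : ((Real.sqrt 2) ^ n * (Real.sqrt (1 + ε ^ 2)) ^ n) *
        (Real.sqrt (ε / (1 + ε ^ 2) / 2)) ^ n = (Real.sqrt ε) ^ n := by
      rw [← mul_pow, ← mul_pow, ← Real.sqrt_mul (by positivity), ← Real.sqrt_mul (by positivity)]
      congr 2
      field_simp
    rw [← h3]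
    ring
  have hdiff : Tendsto (fun ε : ℝ => (((Real.sqrt ε) ^ n : ℝ) : ℂ) *
      (Dc M s ε t - ph (bq M s t) * ((Th M (ε / (1 + ε ^ 2)) t : ℝ) : ℂ))) (𝓝[>] 0) (𝓝 0) := by
    rw [tendsto_zero_iff_norm_tendsto_zero]
    refine squeeze_zero' (Eventually.of_forall fun _ => norm_nonneg _) ?_ herr
    filter_upwards [self_mem_nhdsWithin] with ε hε
    have hε0 : (0 : ℝ) < ε := hε
    rw [norm_mul, Complex.norm_real, Real.norm_eq_abs, abs_of_nonneg (by positivity)]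
    have := hcmp ε hε0
    gcongr
  have h := hdiff.add hmain
  rw [zero_add] at h
  refine h.congr fun ε => ?_
  ring

/-- summability on the dual side -/
theorem gq_dual_sum {M : Matrix (Fin n) (Fin n) ℝ} (hM : M.det ≠ 0) {a : Fin n → ℂ}
    (ha : ∀ j, 0 < (a j).re) : Summable fun k : Fin n → ℤ => gq (dm M) (fun j => 1 / a j) (ix k) := by
  obtain ⟨β, hβ, hβ'⟩ := exists_min (a := fun j => 1 / a j) fun j => re_inv_pos (ha j)
  refine Summable.of_norm_bounded (g := fun k : Fin n → ℤ =>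
    Real.exp (-((Real.pi * β) * nq (dm M) (0 + ix k)))) (sum_nq (dm_det hM)
      (mul_pos Real.pi_pos hβ) 0) fun k => ?_
  rw [zero_add]
  exact norm_gq_le hβ' _

theorem ek_zero (k : Fin n → ℤ) : ek k (0 : Fin n → ℝ) = 1 := by
  simp [ek]

/-- **Gauss-Milgram in coordinates.** -/
theorem core {V : Type} (R : Finset V) {M : Matrix (Fin n) (Fin n) ℝ} (hM : M.det ≠ 0)
    {s : Fin n → ℝ} (hs : ∀ j, s j = 1 ∨ s j = -1) (X : V → Fin n → ℝ)
    (e : (Fin n → ℤ) ≃ {r // r ∈ R} × (Fin n → ℤ))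
    (he : ∀ k j, (dm M).mulVec (ix k) j = s j * M.mulVec (X (e k).1 + ix (e k).2) j)
    (hph : ∀ r ∈ R, ∀ z : Fin n → ℤ, ph (bq M s (X r + ix z)) = ph (bq M s (X r)))
    (hev : ∀ z : Fin n → ℤ, ph (-bq M s (ix z)) = 1) :
    ∑ r ∈ R, ph (bq M s (X r)) =
      (|M.det| : ℝ) * ∏ j, Complex.exp (-(Real.pi * Complex.I * (s j : ℂ) / 4)) := by
  have hA : ∀ ε : ℝ, 0 < ε → ((Th M ε 0 : ℝ) : ℂ) = ((|M.det|⁻¹ : ℝ) : ℂ) *
      (∏ j, (1 / ((ε : ℂ) - Complex.I * (s j : ℂ))) ^ (1 / 2 : ℂ)) * ∑ r ∈ R, Dc M s ε (X r) := by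
    intro ε hε
    have hre : ∀ j, 0 < ((ε : ℂ) - Complex.I * (s j : ℂ)).re := by
      intro j
      simpa using hε
    have h1 := gauss_poisson hM (a := fun j => (ε : ℂ) - Complex.I * (s j : ℂ)) hre 0
    have h2 : ∑' z : Fin n → ℤ, gq M (fun j => (ε : ℂ) - Complex.I * (s j : ℂ)) (0 + ix z) =
        ((Th M ε 0 : ℝ) : ℂ) := by
      rw [Th, Complex.ofReal_tsum]
      refine tsum_congr fun z => ?_
      rw [gq_first, zero_add, hev, mul_one]
    let H : {r // r ∈ R} × (Fin n → ℤ) → ℂ := fun p =>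
      ((Real.exp (-(Real.pi * (ε / (1 + ε ^ 2)) * nq M (X p.1 + ix p.2))) : ℝ) : ℂ) *
        ph (bq M s (X p.1 + ix p.2) / (1 + ε ^ 2))
    have h3 : ∀ k : Fin n → ℤ, gq (dm M) (fun j => 1 / ((ε : ℂ) - Complex.I * (s j : ℂ))) (ix k) =
        H (e k) := fun k => gq_dual M hs ε (he k)
    have h4 : Summable H := by
      rw [← e.summable_iff]
      exact (gq_dual_sum hM hre).congr fun k => h3 k
    have h5 : ∑' k : Fin n → ℤ, gq (dm M) (fun j => 1 / ((ε : ℂ) - Complex.I * (s j : ℂ))) (ix k) *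
        ek (-k) 0 = ∑ r ∈ R, Dc M s ε (X r) := by
      have h6 : ∀ k : Fin n → ℤ, gq (dm M) (fun j => 1 / ((ε : ℂ) - Complex.I * (s j : ℂ)))
          (ix k) * ek (-k) 0 = H (e k) := by
        intro k
        rw [ek_zero, mul_one, h3]
      rw [tsum_congr h6, e.tsum_eq H, h4.tsum_prod, tsum_fintype]
      exact Finset.sum_coe_sort R (fun r => Dc M s ε (X r))
    rw [h2, h5] at h1
    exact h1
  -- limits
  have hL : Tendsto (fun ε : ℝ => (((Real.sqrt ε) ^ n * Th M ε 0 : ℝ) : ℂ)) (𝓝[>] 0)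
      (𝓝 ((|M.det|⁻¹ : ℝ) : ℂ)) := (Complex.continuous_ofReal.tendsto _).comp (th_lim hM 0)
  have hR : Tendsto (fun ε : ℝ => ((|M.det|⁻¹ : ℝ) : ℂ) *
      (∏ j, (1 / ((ε : ℂ) - Complex.I * (s j : ℂ))) ^ (1 / 2 : ℂ)) *
      ∑ r ∈ R, (((Real.sqrt ε) ^ n : ℝ) : ℂ) * Dc M s ε (X r)) (𝓝[>] 0)
      (𝓝 (((|M.det|⁻¹ : ℝ) : ℂ) * (∏ j, Complex.exp (Real.pi * Complex.I * (s j : ℂ) / 4)) *
        ∑ r ∈ R, ph (bq M s (X r)) * ((|M.det|⁻¹ : ℝ) : ℂ))) := by
    refine Tendsto.mul (Tendsto.const_mul _ ?_) ?_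
    · exact tendsto_finsetProd _ fun j _ => root_lim (hs j)
    · exact tendsto_finsetSum _ fun r hr => class_lim hM hs (X r) (hph r hr)
  have hLR : (fun ε : ℝ => (((Real.sqrt ε) ^ n * Th M ε 0 : ℝ) : ℂ)) =ᶠ[𝓝[>] 0]
      (fun ε : ℝ => ((|M.det|⁻¹ : ℝ) : ℂ) *
      (∏ j, (1 / ((ε : ℂ) - Complex.I * (s j : ℂ))) ^ (1 / 2 : ℂ)) *
      ∑ r ∈ R, (((Real.sqrt ε) ^ n : ℝ) : ℂ) * Dc M s ε (X r)) := by
    filter_upwards [self_mem_nhdsWithin] with ε hε
    rw [Complex.ofReal_mul, hA ε hε, ← mul_sum]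
    ring
  have h1 := tendsto_nhds_unique (hL.congr' hLR) hR
  have hd : ((|M.det| : ℝ) : ℂ) ≠ 0 := Complex.ofReal_ne_zero.2 (abs_ne_zero.2 hM)
  have hpr : (∏ j, Complex.exp (Real.pi * Complex.I * (s j : ℂ) / 4)) *
      ∏ j, Complex.exp (-(Real.pi * Complex.I * (s j : ℂ) / 4)) = 1 := by
    rw [← prod_mul_distrib]
    refine prod_eq_one fun j _ => ?_
    rw [← Complex.exp_add, add_neg_cancel, Complex.exp_zero]
  rw [← sum_mul] at h1
  push_cast at h1 hd ⊢
  set S := ∑ r ∈ R, ph (bq M s (X r))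
  set P := ∏ j, Complex.exp (Real.pi * Complex.I * (s j : ℂ) / 4)
  set Q := ∏ j, Complex.exp (-(Real.pi * Complex.I * (s j : ℂ) / 4))
  have h2 : P * S = ((|M.det| : ℝ) : ℂ) := by
    field_simp at h1
    linear_combination -h1
  calc S = (P * Q) * S := by rw [hpr, one_mul]
    _ = (P * S) * Q := by ring
    _ = _ := by rw [h2]

end Pool.Agent.Lib.MPcb8a44.SX.MILM
end

section
/-!
# SX, module MIL: the Gauss-Milgram formula
-/
set_option autoImplicit false
set_option linter.unusedSectionVars false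

open Finset Module

namespace Pool.Agent.Lib.MPcb8a44.SX

namespace MILM

open Pool.Agent.Lib.MPcb8a44.RC.POIM

section

variable {V ι κ : Type} [AddCommGroup V] [Module ℚ V] [Fintype ι] [Fintype κ]
  (b : Basis ι ℚ V) (T : V →ₗ[ℚ] (κ → ℝ)) (s : κ → ℝ) {n : ℕ} (ei : Fin n ≃ ι) (ej : Fin n ≃ κ)

/-- the matrix of `T` -/
noncomputable def MM : Matrix (Fin n) (Fin n) ℝ := fun j i => T (b (ei i)) (ej j)

/-- the real coordinates -/
noncomputable def XX (w : V) : Fin n → ℝ := fun i => ((b.repr w (ei i) : ℚ) : ℝ)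

/-- the lattice vectors -/
noncomputable def ZZ (z : Fin n → ℤ) : V := ∑ i, z i • b (ei i)

/-- the form -/
noncomputable def BB (w w' : V) : ℝ := ∑ j, s j * T w j * T w' j

theorem MM_XX (w : V) (j : Fin n) : (MM b T ei ej).mulVec (XX b ei w) j = T w (ej j) := by
  have h1 : T w (ej j) = ∑ i, T (b i) (ej j) * ((b.repr w i : ℚ) : ℝ) := by
    conv_lhs => rw [← b.sum_repr w]
    rw [map_sum, Finset.sum_apply]
    refine sum_congr rfl fun i _ => ?_
    rw [map_smul, Pi.smul_apply, Rat.smul_def, mul_comm]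
  rw [h1, ← ei.sum_comp]
  rfl

theorem XX_add (w w' : V) : XX b ei (w + w') = XX b ei w + XX b ei w' := by
  funext i
  simp [XX]

theorem XX_inj {w w' : V} (h : XX b ei w = XX b ei w') : w = w' := by
  apply b.repr.injective
  ext i
  have h1 := congrFun h (ei.symm i)
  simp only [XX, Equiv.apply_symm_apply] at h1
  exact_mod_cast h1

theorem XX_ZZ (z : Fin n → ℤ) : XX b ei (ZZ b ei z) = ix z := by
  classical
  funext l
  rw [XX, ZZ, map_sum, Finsupp.finsetSum_apply]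
  have h1 : ∀ i, (b.repr (z i • b (ei i))) (ei l) = if i = l then (z i : ℚ) else 0 := by
    intro i
    rw [map_zsmul, b.repr_self, Finsupp.smul_apply, Finsupp.single_apply]
    by_cases h : i = l
    · rw [if_pos h, if_pos (by rw [h])]
      simp
    · rw [if_neg h, if_neg (fun h' => h (ei.injective h'))]
      simp
  rw [sum_congr rfl fun i _ => h1 i, sum_ite_eq' univ l (fun i => (z i : ℚ)), if_pos (mem_univ _)]
  simp [ix]

theorem ZZ_mem (z : Fin n → ℤ) : ZZ b ei z ∈ Submodule.span ℤ (Set.range b) :=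
  Submodule.sum_mem _ fun i _ => Submodule.smul_mem _ _ (Submodule.subset_span ⟨ei i, rfl⟩)

theorem mem_ZZ {v : V} (hv : v ∈ Submodule.span ℤ (Set.range b)) : ∃ z, v = ZZ b ei z := by
  rw [Submodule.mem_span_range_iff_exists_fun] at hv
  obtain ⟨c, hc⟩ := hv
  refine ⟨fun i => c (ei i), ?_⟩
  rw [← hc, ZZ, ← ei.sum_comp]

theorem BB_add_left (w w' v : V) : BB T s (w + w') v = BB T s w v + BB T s w' v := by
  rw [BB, BB, BB, ← sum_add_distrib]
  refine sum_congr rfl fun j _ => ?_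
  rw [map_add, Pi.add_apply]
  ring

theorem BB_symm (w w' : V) : BB T s w w' = BB T s w' w := by
  rw [BB, BB]
  exact sum_congr rfl fun j _ => by ring

theorem BB_add_right (w w' v : V) : BB T s v (w + w') = BB T s v w + BB T s v w' := by
  rw [BB_symm, BB_add_left, BB_symm T s w, BB_symm T s w']

theorem BB_ZZ (z : Fin n → ℤ) (v : V) :
    BB T s (ZZ b ei z) v = ∑ i, (z i : ℝ) * BB T s (b (ei i)) v := by
  simp only [BB, mul_sum]
  rw [sum_comm]
  refine sum_congr rfl fun j _ => ?_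
  rw [ZZ, map_sum, Finset.sum_apply, mul_sum, sum_mul]
  refine sum_congr rfl fun i _ => ?_
  rw [map_zsmul, Pi.smul_apply, zsmul_eq_mul]
  ring

theorem bq_XX (w : V) : bq (MM b T ei ej) (fun j => s (ej j)) (XX b ei w) =
    ∑ j, s j * T w j ^ 2 := by
  rw [bq, ← ej.sum_comp]
  refine sum_congr rfl fun j _ => ?_
  rw [MM_XX]

theorem BB_self (w : V) : BB T s w w = ∑ j, s j * T w j ^ 2 := by
  rw [BB]
  exact sum_congr rfl fun j _ => by ring

theorem MM_transpose (w : V) (i : Fin n) :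
    (MM b T ei ej).transpose.mulVec
      (fun j => s (ej j) * (MM b T ei ej).mulVec (XX b ei w) j) i = BB T s (b (ei i)) w := by
  rw [BB, ← ej.sum_comp, Matrix.mulVec, dotProduct]
  refine sum_congr rfl fun j _ => ?_
  rw [MM_XX]
  show T (b (ei i)) (ej j) * (s (ej j) * T w (ej j)) = _
  ring

theorem MM_det (hT : LinearIndependent ℝ (fun i => T (b i))) : (MM b T ei ej).det ≠ 0 := by
  have h1 : LinearIndependent ℝ (fun i : Fin n => (MM b T ei ej).transpose i) := by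
    have h2 : LinearIndependent ℝ (fun i : Fin n => T (b (ei i))) := hT.comp ei ei.injective
    have h3 := h2.map' (LinearEquiv.funCongrLeft ℝ ℝ ej : (κ → ℝ) ≃ₗ[ℝ] (Fin n → ℝ)).toLinearMap
      (LinearEquiv.ker _)
    exact h3
  have h2 : IsUnit (MM b T ei ej) := Matrix.linearIndependent_cols_iff_isUnit.1 h1
  exact ((Matrix.isUnit_iff_isUnit_det _).1 h2).ne_zero

end

theorem ph_add (x : ℝ) (m : ℤ) : ph (x + 2 * m) = ph x := by
  have h : ph (x + 2 * m) = ph x * ph (2 * m) := by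
    rw [ph, ph, ph, ← Complex.exp_add]
    congr 1
    push_cast
    ring
  rw [h, ph_even, mul_one]

end MILM

open MILM Pool.Agent.Lib.MPcb8a44.RC.POIM in
/-- **MIL.** -/
theorem specMIL : SpecMIL := by
  intro V ι κ _ _ _ _ b T s hs hcard hT heven R hR1 hR2
  classical
  obtain ⟨n, hn⟩ : ∃ n, n = Fintype.card ι := ⟨_, rfl⟩
  let ei : Fin n ≃ ι := (Fintype.equivFinOfCardEq hn.symm).symm
  let ej : Fin n ≃ κ := (Fintype.equivFinOfCardEq (hn.trans hcard).symm).symm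
  set M := MM b T ei ej with hMdef
  have hM : M.det ≠ 0 := MM_det b T ei ej hT
  have hMT : M.transpose.det ≠ 0 := by rwa [Matrix.det_transpose]
  -- evenness and integrality
  have hself : ∀ v ∈ Submodule.span ℤ (Set.range b), ∃ k : ℤ, BB T s v v = 2 * k := by
    intro v hv
    obtain ⟨k, hk⟩ := heven v hv
    exact ⟨k, by rw [BB_self, hk]⟩
  have hint : ∀ v ∈ Submodule.span ℤ (Set.range b), ∀ w ∈ Submodule.span ℤ (Set.range b),
      ∃ k : ℤ, BB T s v w = k := by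
    intro v hv w hw
    obtain ⟨k1, h1⟩ := hself v hv
    obtain ⟨k2, h2⟩ := hself w hw
    obtain ⟨k3, h3⟩ := hself (v + w) (Submodule.add_mem _ hv hw)
    refine ⟨k3 - k1 - k2, ?_⟩
    rw [BB_add_left, BB_add_right, BB_add_right, BB_symm T s w v, h1, h2] at h3
    push_cast
    linarith
  have hbm : ∀ i, b i ∈ Submodule.span ℤ (Set.range b) := fun i => Submodule.subset_span ⟨i, rfl⟩
  -- the pairing of the dual lattice with the lattice
  have hdu : ∀ w ∈ Du b T s, ∀ z : Fin n → ℤ, ∃ k : ℤ, BB T s (ZZ b ei z) w = k := by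
    intro w hw z
    have h1 : ∀ i, ∃ k : ℤ, BB T s (b (ei i)) w = k := fun i => hw (ei i)
    choose k hk using h1
    refine ⟨∑ i, z i * k i, ?_⟩
    rw [BB_ZZ]
    push_cast
    exact sum_congr rfl fun i _ => by rw [hk]
  have hadd : ∀ w ∈ Du b T s, ∀ z : Fin n → ℤ, w + ZZ b ei z ∈ Du b T s := by
    intro w hw z i
    obtain ⟨k1, h1⟩ := hw i
    obtain ⟨k2, h2⟩ := hint (b i) (hbm i) (ZZ b ei z) (ZZ_mem b ei z)
    refine ⟨k1 + k2, ?_⟩
    have h3 := BB_add_right T s w (ZZ b ei z) (b i)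
    have h4 : BB T s (b i) w = k1 := h1
    rw [h4, h2] at h3
    push_cast
    exact h3
  -- the integer coordinates of a dual vector
  have hcoord : ∀ w : {w // w ∈ Du b T s}, ∃ k : Fin n → ℤ, ∀ i, BB T s (b (ei i)) w.1 = k i := by
    intro w
    have h1 : ∀ i, ∃ k : ℤ, BB T s (b (ei i)) w.1 = k := fun i => w.2 (ei i)
    choose k hk using h1
    exact ⟨k, hk⟩
  choose kk hkk using hcoord
  have hrep : ∀ w : {w // w ∈ Du b T s}, ∀ j,
      (dm M).mulVec (ix (kk w)) j = s (ej j) * M.mulVec (XX b ei w.1) j := by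
    intro w j
    have h1 : ix (kk w) = M.transpose.mulVec
        (fun j => s (ej j) * M.mulVec (XX b ei w.1) j) := by
      funext i
      rw [hMdef, MM_transpose, hkk]
      rfl
    rw [h1, dm, Matrix.mulVec_mulVec, ← Matrix.transpose_mul,
      Matrix.mul_nonsing_inv _ (isUnit_iff_ne_zero.2 hM), Matrix.transpose_one, Matrix.one_mulVec]
  have hs' : ∀ j : Fin n, s (ej j) = 1 ∨ s (ej j) = -1 := fun j => hs (ej j)
  have hsne : ∀ j : Fin n, s (ej j) ≠ 0 := by
    intro j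
    rcases hs' j with h | h <;> rw [h] <;> norm_num
  have hkinj : ∀ w w' : {w // w ∈ Du b T s}, kk w = kk w' → w = w' := by
    intro w w' h
    apply Subtype.ext
    apply XX_inj b ei
    have h1 : M.mulVec (XX b ei w.1) = M.mulVec (XX b ei w'.1) := by
      funext j
      have h2 := hrep w j
      rw [h, hrep w' j] at h2
      exact (mul_left_cancel₀ (hsne j) h2).symm
    have h2 : M.mulVec (XX b ei w.1 - XX b ei w'.1) = 0 := by
      rw [Matrix.mulVec_sub, h1, sub_self]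
    exact sub_eq_zero.1 (Matrix.eq_zero_of_mulVec_eq_zero hM h2)
  -- the rational Gram matrix
  have hGram : ∀ i l : Fin n, ∃ g : ℤ, BB T s (b (ei i)) (b (ei l)) = g := fun i l =>
    hint _ (hbm _) _ (hbm _)
  choose g hg using hGram
  let G : Matrix (Fin n) (Fin n) ℚ := fun i l => (g i l : ℚ)
  have hGdet : G.det ≠ 0 := by
    intro h0
    obtain ⟨c, hc0, hc⟩ := Matrix.exists_mulVec_eq_zero_iff.2 h0
    apply hc0
    have h1 : ∀ i, BB T s (b (ei i)) (∑ l, c l • b (ei l)) = 0 := by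
      intro i
      have h2 : BB T s (b (ei i)) (∑ l, c l • b (ei l)) = ∑ l, ((g i l : ℚ) * c l : ℚ) := by
        push_cast
        simp only [← hg, BB]
        simp only [sum_mul]
        rw [sum_comm]
        refine sum_congr rfl fun j _ => ?_
        rw [map_sum, Finset.sum_apply, mul_sum]
        refine sum_congr rfl fun l _ => ?_
        rw [map_smul, Pi.smul_apply, Rat.smul_def]
        ring
      have h3 : (∑ l, ((g i l : ℚ) * c l : ℚ)) = 0 := congrFun hc i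
      rw [h2]
      exact_mod_cast h3
    have h2 : M.transpose.mulVec
        (fun j => s (ej j) * M.mulVec (XX b ei (∑ l, c l • b (ei l))) j) = 0 := by
      funext i
      rw [hMdef, MM_transpose, h1]
      rfl
    have h3 := Matrix.eq_zero_of_mulVec_eq_zero hMT h2
    have h4 : M.mulVec (XX b ei (∑ l, c l • b (ei l))) = 0 := by
      funext j
      exact (mul_eq_zero.1 (congrFun h3 j)).resolve_left (hsne j)
    have h5 := Matrix.eq_zero_of_mulVec_eq_zero hM h4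
    funext l
    have h6 := congrFun h5 l
    rw [XX, map_sum, Finsupp.finsetSum_apply] at h6
    have h7 : ∀ i, (b.repr (c i • b (ei i))) (ei l) = if i = l then c i else 0 := by
      intro i
      rw [map_smul, b.repr_self, Finsupp.smul_apply, Finsupp.single_apply]
      by_cases h : i = l
      · rw [if_pos h, if_pos (by rw [h])]
        simp
      · rw [if_neg h, if_neg (fun h' => h (ei.injective h'))]
        simp
    rw [sum_congr rfl fun i _ => h7 i, sum_ite_eq' univ l c, if_pos (mem_univ _)] at h6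
    simpa using h6
  have hksurj : ∀ k : Fin n → ℤ, ∃ w : {w // w ∈ Du b T s}, kk w = k := by
    intro k
    let c : Fin n → ℚ := G⁻¹.mulVec (fun i => (k i : ℚ))
    have hc : G.mulVec c = fun i => (k i : ℚ) := by
      rw [Matrix.mulVec_mulVec, Matrix.mul_nonsing_inv _ (isUnit_iff_ne_zero.2 hGdet),
        Matrix.one_mulVec]
    have h1 : ∀ i, BB T s (b (ei i)) (∑ l, c l • b (ei l)) = k i := by
      intro i
      have h2 : BB T s (b (ei i)) (∑ l, c l • b (ei l)) = ∑ l, ((g i l : ℚ) * c l : ℚ) := by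
        push_cast
        simp only [← hg, BB]
        simp only [sum_mul]
        rw [sum_comm]
        refine sum_congr rfl fun j _ => ?_
        rw [map_sum, Finset.sum_apply, mul_sum]
        refine sum_congr rfl fun l _ => ?_
        rw [map_smul, Pi.smul_apply, Rat.smul_def]
        ring
      have h3 : (∑ l, ((g i l : ℚ) * c l : ℚ)) = (k i : ℚ) := congrFun hc i
      rw [h2]
      exact_mod_cast h3
    have hw : (∑ l, c l • b (ei l)) ∈ Du b T s := by
      intro i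
      refine ⟨k (ei.symm i), ?_⟩
      have := h1 (ei.symm i)
      rw [Equiv.apply_symm_apply] at this
      exact this
    refine ⟨⟨_, hw⟩, ?_⟩
    funext i
    have h2 := hkk ⟨_, hw⟩ i
    rw [h1 i] at h2
    exact_mod_cast h2.symm
  -- the bijection
  let f : {r // r ∈ R} × (Fin n → ℤ) → (Fin n → ℤ) := fun p =>
    kk ⟨p.1.1 + ZZ b ei p.2, hadd _ (hR1 _ p.1.2) _⟩
  have hf : Function.Bijective f := by
    constructor
    · rintro ⟨⟨r, hr⟩, z⟩ ⟨⟨r', hr'⟩, z'⟩ h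
      have h1 : r + ZZ b ei z = r' + ZZ b ei z' := congrArg Subtype.val (hkinj _ _ h)
      have h2 : r = r' := by
        obtain ⟨r₀, -, h3⟩ := hR2 r (hR1 r hr)
        have e1 := h3 r ⟨hr, by rw [sub_self]; exact Submodule.zero_mem _⟩
        have e2 := h3 r' ⟨hr', by
          have : r - r' = ZZ b ei z' - ZZ b ei z := by
            rw [sub_eq_sub_iff_add_eq_add, h1, add_comm]
          rw [this]
          exact Submodule.sub_mem _ (ZZ_mem b ei z') (ZZ_mem b ei z)⟩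
        rw [e1, e2]
      subst h2
      have h3 : ZZ b ei z = ZZ b ei z' := add_left_cancel h1
      have h4 : z = z' := by
        funext i
        have h5 : ix z = ix z' := by rw [← XX_ZZ b ei z, h3, XX_ZZ]
        have := congrFun h5 i
        simp only [ix] at this
        exact_mod_cast this
      rw [h4]
    · intro k
      obtain ⟨⟨w, hw⟩, hwk⟩ := hksurj k
      obtain ⟨r, ⟨hr, hwr⟩, -⟩ := hR2 w hw
      obtain ⟨z, hz⟩ := mem_ZZ b ei hwr
      refine ⟨(⟨r, hr⟩, z), ?_⟩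
      rw [← hwk]
      show kk _ = kk _
      congr 1
      apply Subtype.ext
      show r + ZZ b ei z = w
      rw [← hz]
      abel
  let e := (Equiv.ofBijective f hf).symm
  have he : ∀ k j, (dm M).mulVec (ix k) j = s (ej j) *
      M.mulVec (XX b ei (e k).1.1 + ix (e k).2) j := by
    intro k j
    have h1 : f (e k) = k := (Equiv.ofBijective f hf).apply_symm_apply k
    rw [← XX_ZZ b ei (e k).2, ← XX_add]
    have h2 := hrep ⟨(e k).1.1 + ZZ b ei (e k).2, hadd _ (hR1 _ (e k).1.2) _⟩ j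
    have h3 : kk ⟨(e k).1.1 + ZZ b ei (e k).2, hadd _ (hR1 _ (e k).1.2) _⟩ = k := h1
    rw [h3] at h2
    exact h2
  have hfin := core (n := n) R hM (s := fun j => s (ej j)) hs' (XX b ei) e he ?_ ?_
  · refine ⟨|M.det|, abs_pos.2 hM, ?_⟩
    rw [← ej.prod_comp, ← hfin]
    refine sum_congr rfl fun w _ => ?_
    rw [← bq_XX b T s ei ej w]
    rfl
  · intro r hr z
    rw [← XX_ZZ b ei z, ← XX_add, hMdef, bq_XX, bq_XX, ← BB_self, ← BB_self]
    obtain ⟨k1, h1⟩ := hdu r (hR1 r hr) z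
    obtain ⟨k2, h2⟩ := hself _ (ZZ_mem b ei z)
    have h3 : BB T s (r + ZZ b ei z) (r + ZZ b ei z) = BB T s r r + 2 * ((k1 + k2 : ℤ) : ℝ) := by
      rw [BB_add_left, BB_add_right, BB_add_right, BB_symm T s r (ZZ b ei z), h1, h2]
      push_cast
      ring
    rw [h3, ph_add]
  · intro z
    obtain ⟨k, hk⟩ := hself _ (ZZ_mem b ei z)
    rw [← XX_ZZ b ei z, hMdef, bq_XX, ← BB_self, hk]
    have : -(2 * (k : ℝ)) = 2 * ((-k : ℤ) : ℝ) := by
      push_cast
      ring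
    rw [this, ph_even]

end Pool.Agent.Lib.MPcb8a44.SX
end
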