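import Pool.Agent.Lib.MP_cb8a44_nt.SX.Spec

section
/-!
# Theorem X (MP_cb8a44_nt), module LAT: smooth sums over ideals
-/
set_option autoImplicit false

open NumberField Module MeasureTheory
open scoped nonZeroDivisors

namespace Pool.Agent.Lib.MPcb8a44.SX

namespace LATM

variable {K : Type} [Field K] [NumberField K]

/-- The matrix of conjugates of a family. -/
noncomputable def mat {n : ℕ} (e : Fin n ≃ (K →+* ℂ)) (c : Fin n → 𝓞 K) :
    Matrix (Fin n) (Fin n) ℝ :=
  Matrix.of fun i k => cj (c k : K) (e i)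

omit [NumberField K] in
theorem ofReal_cj (h : TR K) (x : K) (φ : K →+* ℂ) : ((cj x φ : ℝ) : ℂ) = φ x := by
  apply Complex.ext
  · simp [cj]
  · simp [h φ x]

theorem det_ne {n : ℕ} (h : TR K) (e : Fin n ≃ (K →+* ℂ))
    (e' : Free.ChooseBasisIndex ℤ (𝓞 K) ≃ Fin n) :
    (mat e ((RingOfIntegers.basis K).reindex e')).det ≠ 0 := by
  intro h0
  have h1 : (Algebra.embeddingsMatrixReindex ℚ ℂ ((integralBasis K).reindex e')
      (e.trans (RingHom.equivRatAlgHom K ℂ))) =
      ((Complex.ofRealHom.mapMatrix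
        (mat e ((RingOfIntegers.basis K).reindex e'))).transpose) := by
    ext i k
    simp [Algebra.embeddingsMatrixReindex, mat, ofReal_cj h, Algebra.embeddingsMatrix,
      integralBasis_apply]
  have h2 := Algebra.discr_eq_det_embeddingsMatrixReindex_pow_two ℚ ℂ
    ((integralBasis K).reindex e') (e.trans (RingHom.equivRatAlgHom K ℂ))
  rw [h1, Matrix.det_transpose, ← RingHom.map_det, h0] at h2
  simp only [map_zero, ne_eq, OfNat.ofNat_ne_zero, not_false_eq_true, zero_pow] at h2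
  have h3 := Algebra.discr_not_zero_of_basis ℚ ((integralBasis K).reindex e')
  exact h3 ((map_eq_zero_iff _ (algebraMap ℚ ℂ).injective).mp h2)

theorem cj_sum {n : ℕ} (m : Fin n → ℤ) (c : Fin n → 𝓞 K) (φ : K →+* ℂ) :
    cj ((∑ l, m l • c l : 𝓞 K) : K) φ = ∑ l, cj (c l : K) φ * m l := by
  have h : ((∑ l, m l • c l : 𝓞 K) : K) = ∑ l, (c l : K) * (m l : K) := by
    rw [RingOfIntegers.coe_eq_algebraMap, map_sum]
    refine Finset.sum_congr rfl fun l _ => ?_
    rw [zsmul_eq_mul, map_mul, map_intCast, mul_comm]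
  unfold cj
  rw [h, map_sum, Complex.re_sum]
  refine Finset.sum_congr rfl fun l _ => ?_
  rw [map_mul, map_intCast, ← Complex.ofReal_intCast, Complex.re_mul_ofReal]

theorem mat_mul {n : ℕ} (e : Fin n ≃ (K →+* ℂ)) (b : Basis (Fin n) ℤ (𝓞 K))
    (c : Fin n → 𝓞 K) :
    mat e c = mat e b * (Int.castRingHom ℝ).mapMatrix (b.toMatrix c) := by
  ext i k
  rw [Matrix.mul_apply]
  have h := cj_sum (fun l => b.repr (c k) l) (fun l => b l) (e i)
  rw [b.sum_repr] at h
  simpa [mat, Basis.toMatrix_apply] using h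

theorem abs_det {n : ℕ} (e : Fin n ≃ (K →+* ℂ)) (b : Basis (Fin n) ℤ (𝓞 K))
    (j : Ideal (𝓞 K)) (bj : Basis (Fin n) ℤ j) :
    |(mat e (fun k => (bj k : 𝓞 K))).det| = Ideal.absNorm j * |(mat e b).det| := by
  rw [mat_mul e b, Matrix.det_mul, ← RingHom.map_det, abs_mul, mul_comm,
    ← Ideal.natAbs_det_basis_change b j bj, Basis.det_apply]
  congr 1
  rw [Nat.cast_natAbs, Int.cast_abs]
  rfl

theorem int_eq {n : ℕ} (e : Fin n ≃ (K →+* ℂ)) (M : Matrix (Fin n) (Fin n) ℝ) (hM : M.det ≠ 0)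
    (Φ : ((K →+* ℂ) → ℝ) → ℝ) (hΦ : Continuous Φ) :
    ∫ y : Fin n → ℝ, Φ (fun φ => M.mulVec y (e.symm φ)) = |M.det|⁻¹ * ∫ z, Φ z := by
  have h1 : ∫ w : Fin n → ℝ, Φ (fun φ => w (e.symm φ)) = ∫ z, Φ z := by
    have h2 := (volume_measurePreserving_piCongrLeft (fun _ : K →+* ℂ => ℝ) e).integral_comp' Φ
    rw [← h2]
    refine integral_congr_ae (Filter.Eventually.of_forall fun w => ?_)
    change Φ (fun φ => w (e.symm φ)) = Φ _
    congr 1
    funext φ
    obtain ⟨i, rfl⟩ := e.surjective φ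
    rw [MeasurableEquiv.coe_piCongrLeft, Equiv.piCongrLeft_apply_apply, e.symm_apply_apply]
  have hc : Continuous (fun w : Fin n → ℝ => Φ (fun φ => w (e.symm φ))) :=
    hΦ.comp (continuous_pi fun φ => continuous_apply _)
  have h3 := integral_map (μ := volume) (φ := Matrix.toLin' M)
    (Continuous.aemeasurable (LinearMap.continuous_on_pi _))
    (f := fun w : Fin n → ℝ => Φ (fun φ => w (e.symm φ)))
    hc.aestronglyMeasurable
  rw [Real.map_matrix_volume_pi_eq_smul_volume_pi hM, integral_smul_measure, h1,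
    ENNReal.toReal_ofReal (abs_nonneg _), abs_inv] at h3
  simpa [Matrix.toLin'_apply] using h3.symm

end LATM

open LATM in
theorem specLAT (h : SpecSMS) : SpecLAT := by
  intro K _ _ hK
  classical
  have hcard : Fintype.card (Fin (finrank ℚ K)) = Fintype.card (K →+* ℂ) := by
    rw [Fintype.card_fin, Embeddings.card]
  have hcard' : Fintype.card (Free.ChooseBasisIndex ℤ (𝓞 K)) =
      Fintype.card (Fin (finrank ℚ K)) := by
    rw [Fintype.card_fin, ← finrank_eq_card_chooseBasisIndex, RingOfIntegers.rank]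
  let e : Fin (finrank ℚ K) ≃ (K →+* ℂ) := Fintype.equivOfCardEq hcard
  let e' : Free.ChooseBasisIndex ℤ (𝓞 K) ≃ Fin (finrank ℚ K) := Fintype.equivOfCardEq hcard'
  let b : Basis (Fin (finrank ℚ K)) ℤ (𝓞 K) := (RingOfIntegers.basis K).reindex e'
  have hb : (mat e b).det ≠ 0 := det_ne hK e e'
  refine ⟨|(mat e b).det|, abs_pos.mpr hb, fun Φ hΦ hs j hj A => ?_⟩
  let bj : Basis (Fin (finrank ℚ K)) ℤ j := Ideal.selfBasis b j hj
  let M := mat e (fun k => (bj k : 𝓞 K))
  have hNj : (Ideal.absNorm j : ℝ) ≠ 0 := by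
    rw [Nat.cast_ne_zero]
    exact mt Ideal.absNorm_eq_zero_iff.mp hj
  have hdet : |M.det| = Ideal.absNorm j * |(mat e b).det| := abs_det e b j bj
  have hM : M.det ≠ 0 := by
    rw [← abs_pos, hdet]
    exact mul_pos (lt_of_le_of_ne (Nat.cast_nonneg _) hNj.symm) (abs_pos.mpr hb)
  -- the linear isomorphism
  let L1 : (Fin (finrank ℚ K) → ℝ) ≃L[ℝ] (Fin (finrank ℚ K) → ℝ) :=
    (M.toLin'.equivOfDetNeZero (by rwa [LinearMap.det_toLin'])).toContinuousLinearEquiv
  let L2 : (Fin (finrank ℚ K) → ℝ) ≃L[ℝ] ((K →+* ℂ) → ℝ) :=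
    (LinearEquiv.funCongrLeft ℝ ℝ e.symm).toContinuousLinearEquiv
  let L := L1.trans L2
  have hL : ∀ y, L y = fun φ => M.mulVec y (e.symm φ) := fun y => rfl
  obtain ⟨C, hC⟩ := h (finrank ℚ K) (fun y => Φ (L y)) (hΦ.comp L.contDiff)
    (hs.comp_homeomorph L.toHomeomorph) A
  refine ⟨C, fun T hT => ?_⟩
  have h1 := hC T hT
  have h2 : ∫ y, Φ (L y) = |M.det|⁻¹ * ∫ z, Φ z := int_eq e M hM Φ hΦ.continuous
  have h3 : ∑' x : j, Φ (fun φ => cj ((x : 𝓞 K) : K) φ / T) =
      ∑' m : Fin (finrank ℚ K) → ℤ, Φ (L fun i => (m i : ℝ) / T) := by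
    rw [← (bj.equivFun.symm.toEquiv).tsum_eq]
    refine tsum_congr fun m => ?_
    rw [hL]
    congr 1
    funext φ
    have h4 : (((bj.equivFun.symm.toEquiv) m : j) : 𝓞 K) = ∑ l, m l • (bj l : 𝓞 K) := by
      change ((bj.equivFun.symm m : j) : 𝓞 K) = _
      rw [Basis.equivFun_symm_apply]
      push_cast
      rfl
    rw [h4, cj_sum, Matrix.mulVec, dotProduct, Finset.sum_div]
    refine Finset.sum_congr rfl fun l _ => ?_
    simp only [M, mat, Matrix.of_apply, Equiv.apply_symm_apply]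
    ring
  rw [h3]
  rw [h2, hdet] at h1
  have h5 : T ^ finrank ℚ K / (Ideal.absNorm j * |(mat e b).det|) * ∫ z, Φ z =
      T ^ finrank ℚ K * ((Ideal.absNorm j * |(mat e b).det|)⁻¹ * ∫ z, Φ z) := by
    ring
  rw [h5]
  exact h1

end Pool.Agent.Lib.MPcb8a44.SX
end

section
set_option autoImplicit false

open NumberField Module
open scoped nonZeroDivisors

namespace Pool.Agent.Lib.MPcb8a44.SX.LDM

variable {K : Type} [Field K] [NumberField K]

theorem nn_pos (I : ID K) : 0 < nn I := Ideal.absNorm_pos_of_nonZeroDivisors I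

theorem nn_mul (I J : ID K) : nn (I * J) = nn I * nn J := by
  simp [nn]

theorem nn_pow (I : ID K) (k : ℕ) : nn (I ^ k) = nn I ^ k := by
  simp [nn]

theorem pr_prime (p : PR K) : Prime ((p.1 : ID K) : Ideal (𝓞 K)) :=
  Ideal.prime_of_isPrime (nonZeroDivisors.coe_ne_zero p.1) p.2

theorem pr_two_le (p : PR K) : 2 ≤ nn p.1 := by
  have h0 := nn_pos p.1
  have h1 : nn p.1 ≠ 1 := by
    intro h
    exact p.2.ne_top (Ideal.absNorm_eq_one_iff.mp h)
  omega

/-- the prime powers -/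
noncomputable def Q (x : PR K × ℕ) : ID K := (x.1.1) ^ (x.2 + 1)

theorem Q_inj : Function.Injective (Q : PR K × ℕ → ID K) := by
  rintro ⟨p, k⟩ ⟨q, l⟩ h
  have h' : ((p.1 : ID K) : Ideal (𝓞 K)) ^ (k + 1) = ((q.1 : ID K) : Ideal (𝓞 K)) ^ (l + 1) := by
    have := congrArg (fun I : ID K => (I : Ideal (𝓞 K))) h
    simpa [Q] using this
  have h1 : ((p.1 : ID K) : Ideal (𝓞 K)) ∣ ((q.1 : ID K) : Ideal (𝓞 K)) := by
    apply (pr_prime p).dvd_of_dvd_pow (n := l + 1)
    rw [← h']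
    exact dvd_pow_self _ (Nat.succ_ne_zero k)
  have h2 : ((p.1 : ID K) : Ideal (𝓞 K)) = ((q.1 : ID K) : Ideal (𝓞 K)) :=
    associated_iff_eq.mp (((pr_prime p).dvd_prime_iff_associated (pr_prime q)).mp h1)
  have h3 : p = q := Subtype.ext (Subtype.ext h2)
  subst h3
  have h4 : nn p.1 ^ (k + 1) = nn p.1 ^ (l + 1) := by
    rw [← nn_pow, ← nn_pow]
    exact congrArg nn h
  have h5 := Nat.pow_right_injective (pr_two_le p) h4
  have : k = l := by omega
  rw [this]

open Classical in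
/-- `∑_(p^k ∣ J, k ≥ 1) log N p = log N J`. -/
theorem sumlog (J : ID K) :
    HasSum (fun x : PR K × ℕ => if Q x ∣ J then Real.log (nn x.1.1) else 0)
      (Real.log (nn J)) := by
  classical
  set M : Multiset (Ideal (𝓞 K)) := UniqueFactorizationMonoid.normalizedFactors
    ((J : ID K) : Ideal (𝓞 K)) with hM
  have hJ0 : ((J : ID K) : Ideal (𝓞 K)) ≠ 0 := nonZeroDivisors.coe_ne_zero J
  have hprod : M.prod = ((J : ID K) : Ideal (𝓞 K)) := Ideal.prod_normalizedFactors_eq_self hJ0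
  have hMp : ∀ q ∈ M, Prime q := fun q hq =>
    UniqueFactorizationMonoid.prime_of_normalized_factor q hq
  have hinj : Function.Injective (fun p : PR K => ((p.1 : ID K) : Ideal (𝓞 K))) := by
    intro p q h
    exact Subtype.ext (Subtype.ext h)
  -- divisibility
  have hdvd : ∀ x : PR K × ℕ, Q x ∣ J ↔ x.2 < M.count ((x.1.1 : ID K) : Ideal (𝓞 K)) := by
    intro x
    have h1 : Q x ∣ J ↔ ((x.1.1 : ID K) : Ideal (𝓞 K)) ^ (x.2 + 1) ∣ ((J : ID K) : Ideal (𝓞 K)) := by
      constructor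
      · rintro ⟨c, hc⟩
        refine ⟨(c : Ideal (𝓞 K)), ?_⟩
        have := congrArg (fun I : ID K => (I : Ideal (𝓞 K))) hc
        simpa [Q] using this
      · rintro ⟨c, hc⟩
        have hc0 : c ≠ 0 := by
          rintro rfl
          rw [mul_zero] at hc
          exact hJ0 hc
        refine ⟨⟨c, mem_nonZeroDivisors_of_ne_zero hc0⟩, ?_⟩
        apply Subtype.ext
        simpa [Q] using hc
    rw [h1, pow_dvd_iff_le_emultiplicity,
      UniqueFactorizationMonoid.le_emultiplicity_iff_replicate_le_normalizedFactors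
        (pr_prime x.1).irreducible hJ0, normalize_eq, ← Multiset.le_count_iff_replicate_le]
    exact Nat.succ_le_iff
  -- the finite set
  set P : Finset (PR K) := M.toFinset.preimage (fun p : PR K => ((p.1 : ID K) : Ideal (𝓞 K)))
    hinj.injOn with hP
  set N := Multiset.card M + 1 with hN
  have hcount : ∀ q, M.count q < N := fun q => Nat.lt_succ_of_le (Multiset.count_le_card q M)
  have hs := hasSum_sum_of_ne_finset_zero (L := SummationFilter.unconditional _)
    (f := fun x : PR K × ℕ => if Q x ∣ J then Real.log (nn x.1.1) else 0)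
    (s := P ×ˢ Finset.range N) (by
      rintro ⟨p, k⟩ hx
      rw [if_neg]
      rw [hdvd]
      intro h
      apply hx
      rw [Finset.mem_product, hP, Finset.mem_preimage, Multiset.mem_toFinset, Finset.mem_range]
      exact ⟨Multiset.count_pos.mp (by simp only at h ⊢; omega), lt_trans h (hcount _)⟩)
  convert hs using 1
  rw [Finset.sum_product]
  have h1 : ∀ p ∈ P, ∑ k ∈ Finset.range N, (if Q (p, k) ∣ J then Real.log (nn (p, k).1.1) else 0) =
      (M.count ((p.1 : ID K) : Ideal (𝓞 K)) : ℝ) *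
        Real.log (Ideal.absNorm ((p.1 : ID K) : Ideal (𝓞 K))) := by
    intro p _
    have h2 : ∀ k ∈ Finset.range N, (if Q (p, k) ∣ J then Real.log (nn (p, k).1.1) else 0) =
        if k < M.count ((p.1 : ID K) : Ideal (𝓞 K)) then
          Real.log (Ideal.absNorm ((p.1 : ID K) : Ideal (𝓞 K))) else 0 := by
      intro k _
      by_cases h : Q (p, k) ∣ J
      · rw [if_pos h, if_pos ((hdvd (p, k)).mp h)]; rfl
      · rw [if_neg h, if_neg (fun h' => h ((hdvd (p, k)).mpr h'))]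
    rw [Finset.sum_congr rfl h2, ← Finset.sum_filter, Finset.sum_const, nsmul_eq_mul]
    congr 2
    have : Finset.filter (fun k => k < M.count ((p.1 : ID K) : Ideal (𝓞 K))) (Finset.range N) =
        Finset.range (M.count ((p.1 : ID K) : Ideal (𝓞 K))) := by
      ext k
      simp only [Finset.mem_filter, Finset.mem_range]
      have := hcount ((p.1 : ID K) : Ideal (𝓞 K))
      omega
    rw [this, Finset.card_range]
  rw [Finset.sum_congr rfl h1, hP,
    Finset.sum_preimage (fun p : PR K => ((p.1 : ID K) : Ideal (𝓞 K))) M.toFinset hinj.injOn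
      (fun q => (M.count q : ℝ) * Real.log (Ideal.absNorm q)) (by
        intro q hq hq'
        exfalso
        apply hq'
        rw [Multiset.mem_toFinset] at hq
        have hqp := hMp q hq
        exact ⟨⟨⟨q, mem_nonZeroDivisors_of_ne_zero hqp.ne_zero⟩, Ideal.isPrime_of_prime hqp⟩, rfl⟩)]
  have h3 : (nn J : ℝ) = (M.map (fun q => (Ideal.absNorm q : ℝ))).prod := by
    unfold nn
    rw [← hprod, map_multiset_prod, Nat.cast_multiset_prod, Multiset.map_map]
    rfl
  rw [h3]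
  have h4 : ∀ M' : Multiset (Ideal (𝓞 K)), (∀ q ∈ M', Prime q) →
      Real.log (M'.map (fun q => (Ideal.absNorm q : ℝ))).prod =
        (M'.map (fun q => Real.log (Ideal.absNorm q : ℝ))).sum := by
    intro M'
    induction M' using Multiset.induction_on with
    | empty => simp
    | cons q M' ih =>
      intro h
      rw [Multiset.map_cons, Multiset.prod_cons, Multiset.map_cons, Multiset.sum_cons, Real.log_mul,
        ih (fun r hr => h r (Multiset.mem_cons_of_mem hr))]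
      · have := (h q (Multiset.mem_cons_self q M')).ne_zero
        exact_mod_cast (fun h0 => this (Ideal.absNorm_eq_zero_iff.mp h0))
      · rw [Ne, Multiset.prod_eq_zero_iff, Multiset.mem_map]
        rintro ⟨r, hr, hr0⟩
        have := (h r (Multiset.mem_cons_of_mem hr)).ne_zero
        exact this (Ideal.absNorm_eq_zero_iff.mp (by exact_mod_cast hr0))
  rw [h4 M hMp, Finset.sum_multiset_map_count]
  simp [nsmul_eq_mul]


theorem g_pow (g : ID K → ℂ) (hm : ∀ I J, g (I * J) = g I * g J) (h1 : g 1 = 1) (I : ID K)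
    (k : ℕ) : g (I ^ k) = g I ^ k := by
  induction k with
  | zero => simpa using h1
  | succ k ih => rw [pow_succ, hm, ih, pow_succ]

/-- the summands of the `L`-series -/
noncomputable def H (g : ID K → ℂ) (s : ℂ) (J : ID K) : ℂ := g J * (nn J : ℂ) ^ (-s)

theorem H_mul (g : ID K → ℂ) (hm : ∀ I J, g (I * J) = g I * g J) (s : ℂ) (I J : ID K) :
    H g s (I * J) = H g s I * H g s J := by
  unfold H
  rw [hm, nn_mul, Nat.cast_mul, Complex.natCast_mul_natCast_cpow]
  ring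

theorem term_eq (g : ID K → ℂ) (hm : ∀ I J, g (I * J) = g I * g J) (h1 : g 1 = 1) (s : ℂ)
    (x : PR K × ℕ) :
    g x.1.1 ^ (x.2 + 1) * (Real.log (nn x.1.1) : ℂ) *
      (nn x.1.1 : ℂ) ^ (-(((x.2 + 1 : ℕ) : ℂ) * s)) = H g s (Q x) * (Real.log (nn x.1.1) : ℂ) := by
  unfold H Q
  rw [g_pow g hm h1, nn_pow, Nat.cast_pow, ← mul_neg, mul_comm ((x.2 + 1 : ℕ) : ℂ) (-s),
    mul_comm (-s), Complex.natCast_cpow_natCast_mul]
  ring

theorem norm_H_le (g : ID K → ℂ) (hg : ∀ I, ‖g I‖ ≤ 1) (s : ℂ) (J : ID K) :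
    ‖H g s J‖ ≤ (nn J : ℝ) ^ (-s.re) := by
  unfold H
  rw [norm_mul, Complex.norm_natCast_cpow_of_pos (nn_pos J), Complex.neg_re]
  exact mul_le_of_le_one_left (by positivity) (hg J)

theorem sumH (hds : ∀ σ : ℝ, 1 < σ → Summable fun I : ID K => (nn I : ℝ) ^ (-σ))
    (g : ID K → ℂ) (hg : ∀ I, ‖g I‖ ≤ 1) (s : ℂ) (hs : 1 < s.re) :
    Summable fun J : ID K => ‖H g s J‖ :=
  Summable.of_nonneg_of_le (fun _ => norm_nonneg _) (norm_H_le g hg s) (hds s.re hs)

theorem sumD (hds : ∀ σ : ℝ, 1 < σ → Summable fun I : ID K => (nn I : ℝ) ^ (-σ))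
    (g : ID K → ℂ) (hg : ∀ I, ‖g I‖ ≤ 1) (s : ℂ) (hs : 1 < s.re) :
    Summable fun x : PR K × ℕ => ‖H g s (Q x) * (Real.log (nn x.1.1) : ℂ)‖ := by
  set ε : ℝ := (s.re - 1) / 2 with hε
  have hε0 : 0 < ε := by rw [hε]; linarith
  have h1 : Summable fun x : PR K × ℕ => (1 / ε) * (nn (Q x) : ℝ) ^ (-(s.re - ε)) :=
    ((hds (s.re - ε) (by rw [hε]; linarith)).comp_injective Q_inj).mul_left (1 / ε)
  refine Summable.of_nonneg_of_le (fun _ => norm_nonneg _) (fun x => ?_) h1
  have hp0 : 0 < nn x.1.1 := nn_pos _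
  have hq0 : 0 < nn (Q x) := nn_pos _
  have hq0' : (0 : ℝ) < (nn (Q x) : ℝ) := by exact_mod_cast hq0
  rw [norm_mul, Complex.norm_real, Real.norm_eq_abs, abs_of_nonneg (Real.log_natCast_nonneg _)]
  have h2 : Real.log (nn x.1.1) ≤ (1 / ε) * (nn (Q x) : ℝ) ^ ε := by
    refine (Real.log_natCast_le_rpow_div (nn x.1.1) hε0).trans ?_
    rw [div_eq_inv_mul, one_div]
    apply mul_le_mul_of_nonneg_left _ (by positivity)
    apply Real.rpow_le_rpow (Nat.cast_nonneg _) _ hε0.le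
    have : nn x.1.1 ≤ nn (Q x) := by
      unfold Q
      rw [nn_pow]
      exact Nat.le_self_pow (Nat.succ_ne_zero _) _
    exact_mod_cast this
  calc ‖H g s (Q x)‖ * Real.log (nn x.1.1)
      ≤ (nn (Q x) : ℝ) ^ (-s.re) * ((1 / ε) * (nn (Q x) : ℝ) ^ ε) := by
        apply mul_le_mul (norm_H_le g hg s (Q x)) h2 (Real.log_natCast_nonneg _) (by positivity)
    _ = (1 / ε) * (nn (Q x) : ℝ) ^ (-(s.re - ε)) := by
        rw [show -(s.re - ε) = -s.re + ε by ring, Real.rpow_add hq0']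
        ring

open Classical in
theorem hasSum_logH (hds : ∀ σ : ℝ, 1 < σ → Summable fun I : ID K => (nn I : ℝ) ^ (-σ))
    (g : ID K → ℂ) (hm : ∀ I J, g (I * J) = g I * g J) (hg : ∀ I, ‖g I‖ ≤ 1)
    (s : ℂ) (hs : 1 < s.re) :
    HasSum (fun J : ID K => H g s J * (Real.log (nn J) : ℂ))
      ((∑' I : ID K, H g s I) * ∑' x : PR K × ℕ, H g s (Q x) * (Real.log (nn x.1.1) : ℂ)) := by
  set d : PR K × ℕ → ℂ := fun x => H g s (Q x) * (Real.log (nn x.1.1) : ℂ) with hd
  have hH := sumH hds g hg s hs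
  have hD : Summable fun x => ‖d x‖ := sumD hds g hg s hs
  have h1 : HasSum (fun z : ID K × (PR K × ℕ) => H g s z.1 * d z.2)
      ((∑' I : ID K, H g s I) * ∑' x, d x) := by
    rw [tsum_mul_tsum_of_summable_norm hH hD]
    exact (summable_mul_of_summable_norm hH hD).hasSum
  set e : ID K × (PR K × ℕ) → ID K × (PR K × ℕ) := fun z => (z.1 * Q z.2, z.2) with he
  have hinj : Function.Injective e := by
    rintro ⟨I, x⟩ ⟨J, y⟩ h
    have h2 : x = y := congrArg Prod.snd h
    subst h2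
    have h3 : I * Q x = J * Q x := congrArg Prod.fst h
    have h4 : (I : Ideal (𝓞 K)) * (Q x : ID K) = (J : Ideal (𝓞 K)) * (Q x : ID K) := by
      have := congrArg (fun I : ID K => (I : Ideal (𝓞 K))) h3
      simpa using this
    have h5 : (I : Ideal (𝓞 K)) = (J : Ideal (𝓞 K)) :=
      mul_right_cancel₀ (nonZeroDivisors.coe_ne_zero (Q x)) h4
    rw [Subtype.ext h5]
  set f : ID K × (PR K × ℕ) → ℂ := fun z =>
    if Q z.2 ∣ z.1 then H g s z.1 * (Real.log (nn z.2.1.1) : ℂ) else 0 with hf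
  have h2 : f ∘ e = fun z : ID K × (PR K × ℕ) => H g s z.1 * d z.2 := by
    funext z
    simp only [hf, he, hd, Function.comp]
    rw [if_pos (dvd_mul_left _ _), H_mul g hm]
    ring
  have h3 : HasSum f ((∑' I : ID K, H g s I) * ∑' x, d x) := by
    rw [← hinj.hasSum_iff (f := f), h2]
    · exact h1
    · rintro ⟨J, x⟩ hx
      simp only [hf]
      rw [if_neg]
      rintro ⟨c, hc⟩
      apply hx
      exact ⟨(c, x), by simp only [he]; rw [mul_comm, ← hc]⟩
  refine h3.prod_fiberwise (fun J => ?_)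
  have h4 := (Complex.hasSum_ofReal.mpr (sumlog J)).mul_left (H g s J)
  have h5 : (fun c : PR K × ℕ => f (J, c)) = fun x : PR K × ℕ =>
      H g s J * ((if Q x ∣ J then Real.log (nn x.1.1) else 0 : ℝ) : ℂ) := by
    funext x
    simp only [hf]
    split_ifs <;> simp
  rw [h5]
  exact h4

theorem logMul_eq (g : ID K → ℂ) (s : ℂ) (n : ℕ) :
    (∑' J : (nn : ID K → ℕ) ⁻¹' {n}, H g s J * (Real.log (nn (J : ID K)) : ℂ)) =
      LSeries.term (LSeries.logMul (cf g)) s n := by
  rcases Nat.eq_zero_or_pos n with rfl | hn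
  · rw [LSeries.term_zero]
    have : IsEmpty ((nn : ID K → ℕ) ⁻¹' {0}) := by
      constructor
      rintro ⟨J, hJ⟩
      have := nn_pos J
      rw [Set.mem_preimage, Set.mem_singleton_iff] at hJ
      omega
    exact tsum_empty
  · rw [LSeries.term_of_ne_zero hn.ne']
    have h1 : ∀ J : (nn : ID K → ℕ) ⁻¹' {n}, H g s J * (Real.log (nn (J : ID K)) : ℂ) =
        g J * ((n : ℂ) ^ (-s) * (Real.log n : ℂ)) := by
      rintro ⟨J, hJ⟩
      rw [Set.mem_preimage, Set.mem_singleton_iff] at hJ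
      simp only [H]
      rw [hJ]
      ring
    rw [tsum_congr h1, tsum_mul_right]
    unfold LSeries.logMul
    rw [← Complex.natCast_log, Complex.cpow_neg]
    change (cf g n) * _ = _
    ring

end Pool.Agent.Lib.MPcb8a44.SX.LDM

namespace Pool.Agent.Lib.MPcb8a44.SX

open LDM in
theorem specLD (h : SpecDS) : SpecLD := by
  intro K _ _ g hm h1 hg s hs
  obtain ⟨hds1, hds2, -⟩ := h K
  have hT : (fun x : PR K × ℕ => g x.1.1 ^ (x.2 + 1) * (Real.log (nn x.1.1) : ℂ) *
      (nn x.1.1 : ℂ) ^ (-(((x.2 + 1 : ℕ) : ℂ) * s))) =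
      fun x : PR K × ℕ => H g s (Q x) * (Real.log (nn x.1.1) : ℂ) :=
    funext (term_eq g hm h1 s)
  refine ⟨?_, ?_⟩
  · rw [hT]
    exact (sumD hds1 g hg s hs).of_norm
  · have hab : LSeries.abscissaOfAbsConv (cf g) < s.re := by
      have h3 := (hds2 g hg (((1 + s.re) / 2 : ℝ) : ℂ) (by
        rw [Complex.ofReal_re]; linarith)).1.abscissaOfAbsConv_le
      refine lt_of_le_of_lt h3 ?_
      rw [Complex.ofReal_re]
      exact_mod_cast (by linarith : (1 + s.re) / 2 < s.re)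
    have hd := LSeries_hasDerivAt hab
    convert hd using 2
    have h4 := (hasSum_logH hds1 g hm hg s hs).tsum_fiberwise (nn : ID K → ℕ)
    unfold LSeries
    rw [← tsum_congr (logMul_eq g s), h4.tsum_eq]
    have h5 : Dt g s = ∑' x : PR K × ℕ, H g s (Q x) * (Real.log (nn x.1.1) : ℂ) := by
      unfold Dt
      rw [hT]
    rw [h5]
    congr 1
    exact (hds2 g hg s hs).2

end Pool.Agent.Lib.MPcb8a44.SX
end

section
/-!
# Theorem X (MP_cb8a44_nt): module LOC (local parity)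
-/
set_option autoImplicit false

open NumberField Module
open scoped nonZeroDivisors

namespace Pool.Agent.Lib.MPcb8a44.SX

namespace LOCM

/-- Isotropy lemma. -/
theorem iso {k : Type} [Field k] (a b : Fin 3 → k) (c : k) (ha : dt a a = c) (hb : ∃ i, b i ≠ 0)
    (hbb : dt b b = 0) (hab : dt a b = 0) : ∃ l : k, l ^ 2 = -c := by
  subst ha
  simp only [dt] at *
  obtain ⟨i, hi⟩ := hb
  fin_cases i
  · refine ⟨(a 1 * b 2 - a 2 * b 1) / b 0, ?_⟩
    have h0 : b 0 ≠ 0 := hi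
    rw [div_pow, div_eq_iff (pow_ne_zero 2 h0)]
    linear_combination (a 1 ^ 2 + a 2 ^ 2) * hbb - (a 1 * b 1 + a 2 * b 2 - a 0 * b 0) * hab
  · refine ⟨(a 2 * b 0 - a 0 * b 2) / b 1, ?_⟩
    have h0 : b 1 ≠ 0 := hi
    rw [div_pow, div_eq_iff (pow_ne_zero 2 h0)]
    linear_combination (a 0 ^ 2 + a 2 ^ 2) * hbb - (a 0 * b 0 + a 2 * b 2 - a 1 * b 1) * hab
  · refine ⟨(a 0 * b 1 - a 1 * b 0) / b 2, ?_⟩
    have h0 : b 2 ≠ 0 := hi
    rw [div_pow, div_eq_iff (pow_ne_zero 2 h0)]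
    linear_combination (a 0 ^ 2 + a 1 ^ 2) * hbb - (a 0 * b 0 + a 1 * b 1 - a 2 * b 2) * hab

/-- The isotropy lemma modulo a maximal ideal. -/
theorem isoMod {R : Type} [CommRing R] (p : Ideal R) [p.IsMaximal] (a b : Fin 3 → R) (c : R)
    (ha : dt a a = c) (hb : ∃ i, b i ∉ p) (hbb : dt b b ∈ p) (hab : dt a b ∈ p) :
    ∃ l : R, l ^ 2 + c ∈ p := by
  let _ : Field (R ⧸ p) := Ideal.Quotient.field p
  have key := iso (k := R ⧸ p) (fun i => Ideal.Quotient.mk p (a i))
    (fun i => Ideal.Quotient.mk p (b i)) (Ideal.Quotient.mk p c)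
    (by rw [← ha]; simp [dt])
    (by
      obtain ⟨i, hi⟩ := hb
      exact ⟨i, fun h => hi (Ideal.Quotient.eq_zero_iff_mem.1 h)⟩)
    (by
      have := Ideal.Quotient.eq_zero_iff_mem.2 hbb
      simpa [dt] using this)
    (by
      have := Ideal.Quotient.eq_zero_iff_mem.2 hab
      simpa [dt] using this)
  obtain ⟨l, hl⟩ := key
  obtain ⟨l, rfl⟩ := Ideal.Quotient.mk_surjective l
  refine ⟨l, Ideal.Quotient.eq_zero_iff_mem.1 ?_⟩
  rw [map_add, map_pow, hl]
  ring

/-- Common power of `p` in finitely many elements, with a multiplier prime to `p`. -/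
theorem scale {R : Type} [CommRing R] [IsDedekindDomain R] (p : Ideal R) [hp : p.IsPrime]
    (hp0 : p ≠ ⊥) (u : Fin 3 → R) (hu : ∃ i, u i ≠ 0) :
    ∃ (k : ℕ) (d π : R) (u' : Fin 3 → R), d ∉ p ∧ π ^ (2 * k) ∈ p ^ (2 * k) ∧
      π ^ (2 * k) ∉ p ^ (2 * k + 1) ∧ (∀ i, d * u i = π ^ k * u' i) ∧ (∃ i, u' i ∉ p) ∧ π ≠ 0 := by
  have hpr : Prime p := Ideal.prime_of_isPrime hp0 hp
  -- the largest power
  set J : Ideal R := Ideal.span (Set.range u) with hJ
  have hJ0 : J ≠ ⊥ := by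
    obtain ⟨i, hi⟩ := hu
    intro h
    rw [hJ, Ideal.span_eq_bot] at h
    exact hi (h _ ⟨i, rfl⟩)
  obtain ⟨k, c', hc', hk⟩ := WfDvdMonoid.max_power_factor (a₀ := J) (x := p) hJ0 hpr.irreducible
  have huk : ∀ i, u i ∈ p ^ k := fun i => by
    have h1 : J ≤ p ^ k := by
      rw [← Ideal.dvd_iff_le, hk]; exact dvd_mul_right _ _
    exact h1 (Ideal.subset_span ⟨i, rfl⟩)
  have hnk : ¬ ∀ i, u i ∈ p ^ (k + 1) := by
    intro h
    have h1 : J ≤ p ^ (k + 1) := by
      rw [hJ, Ideal.span_le]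
      rintro _ ⟨i, rfl⟩
      exact h i
    rw [← Ideal.dvd_iff_le, hk, pow_succ] at h1
    exact hc' ((mul_dvd_mul_iff_left (pow_ne_zero k hpr.ne_zero)).1 h1)
  -- uniformizer
  obtain ⟨π, hπ, hπ2⟩ := Ideal.exists_mem_pow_notMem_pow_succ p hp0 hp.ne_top 1
  rw [pow_one] at hπ
  have hπ0 : π ≠ 0 := by
    rintro rfl
    exact hπ2 (zero_mem _)
  obtain ⟨c, hc⟩ := Ideal.dvd_iff_le.2 ((Ideal.span_singleton_le_iff_mem p).2 hπ)
  have hcp : ¬ c ≤ p := by
    intro h
    apply hπ2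
    rw [← Ideal.span_singleton_le_iff_mem, hc, pow_succ, pow_one]
    exact Ideal.mul_mono_right h
  have hck : ∀ m, ¬ c ^ m ≤ p := fun m h => hcp (hp.le_of_pow_le h)
  have hπm : ∀ m, π ^ m ∉ p ^ (m + 1) := by
    intro m h
    rw [← Ideal.span_singleton_le_iff_mem, ← Ideal.span_singleton_pow, hc, mul_pow,
      ← Ideal.dvd_iff_le, pow_succ] at h
    exact hck m (Ideal.dvd_iff_le.1 ((mul_dvd_mul_iff_left (pow_ne_zero m hpr.ne_zero)).1 h))
  obtain ⟨d, hd, hdp⟩ := SetLike.not_le_iff_exists.1 (hck k)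
  have h2 : ∀ i, ∃ x, d * u i = π ^ k * x := by
    intro i
    have h3 : d * u i ∈ c ^ k * p ^ k := Ideal.mul_mem_mul hd (huk i)
    rw [mul_comm, ← mul_pow, ← hc, Ideal.span_singleton_pow, Ideal.mem_span_singleton'] at h3
    obtain ⟨x, hx⟩ := h3
    exact ⟨x, by rw [← hx, mul_comm]⟩
  choose u' hu' using h2
  refine ⟨k, d, π, u', hdp, Ideal.pow_mem_pow hπ _, hπm _, hu', ?_, hπ0⟩
  by_contra hcon
  push Not at hcon
  apply hnk
  intro i
  have h4 : d * u i ∈ p ^ (k + 1) := by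
    rw [hu' i, pow_succ]
    exact Ideal.mul_mem_mul (Ideal.pow_mem_pow hπ _) (hcon i)
  exact (Ideal.IsPrime.mul_mem_pow p h4).resolve_left hdp

/-- The main computation. -/
theorem evn {K : Type} [Field K] [NumberField K] (p : Ideal (𝓞 K)) [hp : p.IsPrime] (hp0 : p ≠ ⊥)
    (h2 : (2 : 𝓞 K) ∉ p) (v w : Fin 3 → 𝓞 K) (n n' ε : 𝓞 K) (hv : dt v v = n) (hw : dt w w = n')
    (hε : ε ^ 2 = n * n') (hn : n ∉ p) (hn' : n' ∉ p) (hsq : ∀ b, b ^ 2 + n ∉ p)
    (hY : ε + dt v w ≠ 0) : Evn p (2 * (ε + dt v w)) := by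
  have hpm : p.IsMaximal := hp.isMaximal hp0
  by_cases hYp : ε + dt v w ∈ p
  swap
  · refine ⟨0, by simp, ?_⟩
    rw [mul_zero, zero_add, pow_one]
    intro h
    exact (hp.mem_or_mem h).elim h2 hYp
  have hεp : ε ∉ p := fun h => by
    have : n * n' ∈ p := by rw [← hε]; exact Ideal.pow_mem_of_mem p h 2 (by norm_num)
    exact (hp.mem_or_mem this).elim hn hn'
  have hmp : ε - dt v w ∉ p := fun h => by
    have : 2 * ε ∈ p := by
      have := p.add_mem hYp h
      convert this using 1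
      ring
    exact (hp.mem_or_mem this).elim h2 hεp
  have hm0 : ε - dt v w ≠ 0 := fun h => hmp (h ▸ p.zero_mem)
  -- the cross product
  let u : Fin 3 → 𝓞 K := ![v 1 * w 2 - v 2 * w 1, v 2 * w 0 - v 0 * w 2, v 0 * w 1 - v 1 * w 0]
  have huu : dt u u = (ε + dt v w) * (ε - dt v w) := by
    have : (ε + dt v w) * (ε - dt v w) = dt v v * dt w w - dt v w ^ 2 := by
      rw [hv, hw, ← hε]; ring
    rw [this]
    simp only [dt, u, Matrix.cons_val]
    ring
  have hvu : dt v u = 0 := by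
    simp only [dt, u, Matrix.cons_val]
    ring
  have hu0 : ∃ i, u i ≠ 0 := by
    by_contra h
    push Not at h
    have : dt u u = 0 := by simp [dt, h]
    rw [huu] at this
    exact (mul_ne_zero hY hm0) this
  obtain ⟨k, d, π, u', hd, hπ1, hπ2, hu', hu'p, hπ0⟩ := scale p hp0 u hu0
  have h1 : d ^ 2 * dt u u = π ^ (2 * k) * dt u' u' := by
    have e0 := hu' 0
    have e1 := hu' 1
    have e2 := hu' 2
    have : d ^ 2 * dt u u = (d * u 0) ^ 2 + (d * u 1) ^ 2 + (d * u 2) ^ 2 := by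
      simp only [dt]; ring
    rw [this, e0, e1, e2]
    simp only [dt]
    ring
  have hvu' : dt v u' = 0 := by
    have : π ^ k * dt v u' = d * dt v u := by
      have e0 := hu' 0
      have e1 := hu' 1
      have e2 := hu' 2
      simp only [dt]
      linear_combination (-v 0) * e0 - v 1 * e1 - v 2 * e2
    rw [hvu, mul_zero] at this
    exact (mul_eq_zero.1 this).resolve_left (pow_ne_zero _ hπ0)
  have hu'u' : dt u' u' ∉ p := by
    intro h
    obtain ⟨l, hl⟩ := isoMod p v u' n hv hu'p h (by rw [hvu']; exact p.zero_mem)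
    exact hsq l hl
  have hkey : (d ^ 2 * (ε - dt v w)) * (ε + dt v w) = π ^ (2 * k) * dt u' u' := by
    rw [← h1, huu]; ring
  have hdm : d ^ 2 * (ε - dt v w) ∉ p := fun h =>
    (hp.mem_or_mem h).elim (fun h => hd (hp.mem_of_pow_mem 2 h)) hmp
  refine ⟨k, ?_, ?_⟩
  · apply Ideal.mul_mem_left
    have : (d ^ 2 * (ε - dt v w)) * (ε + dt v w) ∈ p ^ (2 * k) := by
      rw [hkey]; exact Ideal.mul_mem_right _ _ hπ1
    exact (Ideal.IsPrime.mul_mem_pow p this).resolve_left hdm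
  · intro h
    have h3 : ε + dt v w ∈ p ^ (2 * k + 1) := (Ideal.IsPrime.mul_mem_pow p h).resolve_left h2
    have h4 : dt u' u' * π ^ (2 * k) ∈ p ^ (2 * k + 1) := by
      rw [mul_comm (dt u' u'), ← hkey]
      exact Ideal.mul_mem_left _ _ h3
    exact hπ2 ((Ideal.IsPrime.mul_mem_pow p h4).resolve_left hu'u')

/-- The case of the primes `q`. -/
theorem evnq {K : Type} [Field K] [NumberField K] (p : Ideal (𝓞 K)) [hp : p.IsPrime] (hp0 : p ≠ ⊥)
    (h2 : (2 : 𝓞 K) ∉ p) (v w : Fin 3 → 𝓞 K) (n n' ε : 𝓞 K) (hv : dt v v = n) (hw : dt w w = n')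
    (hε : ε ^ 2 = n * n') (hn : n ∈ p) (hvp : ∃ i, v i ∉ p) (hsq : ∀ b, b ^ 2 + n' ∉ p) :
    Evn p (2 * (ε + dt v w)) := by
  have hpm : p.IsMaximal := hp.isMaximal hp0
  have hεp : ε ∈ p := by
    apply hp.mem_of_pow_mem 2
    rw [hε]
    exact Ideal.mul_mem_right _ _ hn
  have hvw : dt v w ∉ p := by
    intro h
    have h' : dt w v ∈ p := by
      have : dt w v = dt v w := by simp only [dt]; ring
      rwa [this]
    obtain ⟨l, hl⟩ := isoMod p w v n' hw hvp (by rw [hv]; exact hn) h'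
    exact hsq l hl
  refine ⟨0, by simp, ?_⟩
  rw [mul_zero, zero_add, pow_one]
  intro h
  exact (hp.mem_or_mem h).elim h2 (fun h => hvw ((p.add_mem_iff_right hεp).1 h))

end LOCM

theorem specLOC : SpecLOC := by
  intro K _ _ p hp hp0 h2 v w n n' ε hv hw hε
  have := hp
  refine ⟨fun hn hn' hsq hY => LOCM.evn p hp0 h2 v w n n' ε hv hw hε hn hn' hsq hY, ?_⟩
  intro hn hvp _ hsq
  exact LOCM.evnq p hp0 h2 v w n n' ε hv hw hε hn hvp hsq

end Pool.Agent.Lib.MPcb8a44.SX
end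

section
/-!
# Theorem X (MP_cb8a44_nt): the Gauss sum of the ideal `B`

Module `MIE` of `SX/Spec.lean`: Gauss-Milgram (`SpecMIL`) for the lattice `B` with the form
`Tr (z σ(w) / Y)`. The coordinates of `z` are `√(2/|Y_φ|)` times the real and imaginary part of
`Φ z`, one extension `Φ` to `E` of each embedding `φ` of `K`.
-/
set_option autoImplicit false

open NumberField Module
open scoped nonZeroDivisors

namespace Pool.Agent.Lib.MPcb8a44.SX

namespace MIEM

variable {K E : Type} [Field K] [NumberField K] [Field E] [NumberField E] [Algebra K E]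

variable (E) in
theorem exists_ext (φ : K →+* ℂ) : ∃ Φ : E →+* ℂ, ∀ x : K, Φ (algebraMap K E x) = φ x := by
  let := φ.toAlgebra
  have : Module.Finite K E := Module.Finite.of_restrictScalars_finite ℚ K E
  let Φ : E →ₐ[K] ℂ := IsAlgClosed.lift
  exact ⟨Φ.toRingHom, fun x => Φ.commutes x⟩

variable (E) in
/-- An extension of `φ` to `E`. -/
noncomputable def ext (φ : K →+* ℂ) : E →+* ℂ := (exists_ext E φ).choose

theorem ext_algebraMap (φ : K →+* ℂ) (x : K) : ext E φ (algebraMap K E x) = φ x :=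
  (exists_ext E φ).choose_spec x

omit [NumberField K] in
theorem real_eq (hK : TR K) (φ : K →+* ℂ) (x : K) : φ x = ((cj x φ : ℝ) : ℂ) :=
  Complex.ext (by simp [cj]) (by simpa using hK φ x)

variable {t : K} (q : QE K E t)

include q in
theorem sq_ext (hK : TR K) (φ : K →+* ℂ) : ext E φ q.θ ^ 2 = -((cj t φ : ℝ) : ℂ) := by
  rw [← map_pow, q.hθ, map_neg, ext_algebraMap, real_eq hK]

theorem conj_theta (hK : TR K) (ht : TP t) (φ : K →+* ℂ) :
    (starRingEnd ℂ) (ext E φ q.θ) = -ext E φ q.θ := by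
  have h := sq_ext q hK φ
  have hr : 0 < cj t φ := ht φ
  set w := ext E φ q.θ with hw
  have h1 : w.re * w.re - w.im * w.im = -(cj t φ) := by
    have := congrArg Complex.re h
    simpa [sq, Complex.mul_re] using this
  have h2 : w.re * w.im + w.im * w.re = 0 := by
    have := congrArg Complex.im h
    simpa [sq, Complex.mul_im] using this
  have h3 : w.re = 0 := by
    have h4 : w.re * w.im = 0 := by linarith
    rcases mul_eq_zero.1 h4 with h5 | h5
    · exact h5
    · exfalso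
      rw [h5] at h1
      nlinarith [mul_self_nonneg w.re]
  refine Complex.ext ?_ ?_
  · simp [h3]
  · simp

theorem theta_ne_zero (ht : TP t) : q.θ ≠ 0 := by
  intro h0
  have h := q.hθ
  rw [h0] at h
  have h1 : algebraMap K E t = 0 := by
    have : (0 : E) ^ 2 = 0 := by ring
    rw [this] at h
    exact neg_eq_zero.1 h.symm
  have h2 : t = 0 := (map_eq_zero (algebraMap K E)).1 h1
  obtain ⟨φ⟩ : Nonempty (K →+* ℂ) := inferInstance
  have h3 := ht φ
  rw [h2, map_zero] at h3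
  simp at h3

/-- `Φ (σ z)` is the complex conjugate of `Φ z`. -/
theorem ext_sigma (hK : TR K) (ht : TP t) (φ : K →+* ℂ) (z : E) :
    ext E φ (q.σ z) = (starRingEnd ℂ) (ext E φ z) := by
  obtain ⟨a, b, rfl⟩ := q.rep z
  simp only [map_add, map_mul, AlgEquiv.commutes, q.hσ, ext_algebraMap, map_neg,
    conj_theta q hK ht φ]
  rw [real_eq hK φ a, real_eq hK φ b, Complex.conj_ofReal, Complex.conj_ofReal]

/-- The embeddings of `E`. -/
noncomputable def emb (p : (K →+* ℂ) × Bool) : E →+* ℂ :=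
  if p.2 then (ext E p.1).comp (q.σ : E →+* E) else ext E p.1

theorem emb_algebraMap (p : (K →+* ℂ) × Bool) (x : K) : emb q p (algebraMap K E x) = p.1 x := by
  unfold emb
  split
  · show ext E p.1 (q.σ (algebraMap K E x)) = _
    rw [AlgEquiv.commutes, ext_algebraMap]
  · exact ext_algebraMap _ _

theorem emb_bijective (ht : TP t) : Function.Bijective (emb q) := by
  have hne : ∀ φ : K →+* ℂ, ext E φ q.θ ≠ -ext E φ q.θ := by
    intro φ h
    have h1 : ext E φ q.θ = 0 := by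
      have h2 : (2 : ℂ) * ext E φ q.θ = 0 := by linear_combination h
      rcases mul_eq_zero.1 h2 with h3 | h3
      · norm_num at h3
      · exact h3
    exact theta_ne_zero q ht ((map_eq_zero _).1 h1)
  constructor
  · rintro ⟨φ, b⟩ ⟨φ', b'⟩ h
    have h1 : φ = φ' := by
      ext x
      have := emb_algebraMap q (φ, b) x
      rw [h, emb_algebraMap] at this
      exact this.symm
    subst h1
    have h2 : emb q (φ, b) q.θ = emb q (φ, b') q.θ := by rw [h]
    cases b <;> cases b'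
    · rfl
    · exfalso
      simp only [emb, RingHom.comp_apply, if_true, Bool.false_eq_true, if_false] at h2
      have h3 : ext E φ ((q.σ : E →+* E) q.θ) = -ext E φ q.θ := by
        show ext E φ (q.σ q.θ) = _
        rw [q.hσ, map_neg]
      rw [h3] at h2
      exact hne φ h2
    · exfalso
      simp only [emb, RingHom.comp_apply, if_true, Bool.false_eq_true, if_false] at h2
      have h3 : ext E φ ((q.σ : E →+* E) q.θ) = -ext E φ q.θ := by
        show ext E φ (q.σ q.θ) = _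
        rw [q.hσ, map_neg]
      rw [h3] at h2
      exact hne φ h2.symm
    · rfl
  · intro ψ
    set φ : K →+* ℂ := ψ.comp (algebraMap K E) with hφ
    have h1 : ψ q.θ ^ 2 = ext E φ q.θ ^ 2 := by
      rw [← map_pow, ← map_pow, q.hθ, map_neg, map_neg, ext_algebraMap]
      rfl
    rcases sq_eq_sq_iff_eq_or_eq_neg.1 h1 with h2 | h2
    · refine ⟨(φ, false), ?_⟩
      ext z
      obtain ⟨a, b, rfl⟩ := q.rep z
      simp only [map_add, map_mul, emb_algebraMap]
      have h3 : emb q (φ, false) q.θ = ψ q.θ := by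
        simp only [emb, Bool.false_eq_true, if_false]
        exact h2.symm
      rw [h3]
      rfl
    · refine ⟨(φ, true), ?_⟩
      ext z
      obtain ⟨a, b, rfl⟩ := q.rep z
      simp only [map_add, map_mul, emb_algebraMap]
      have h3 : emb q (φ, true) q.θ = ψ q.θ := by
        simp only [emb, if_true, RingHom.comp_apply]
        show ext E φ (q.σ q.θ) = _
        rw [q.hσ, map_neg]
        exact h2.symm
      rw [h3]
      rfl

/-- The embeddings of `E` in terms of those of `K`. -/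
noncomputable def embEquiv (ht : TP t) : (K →+* ℂ) × Bool ≃ (E →+* ℂ) :=
  Equiv.ofBijective (emb q) (emb_bijective q ht)

include q in
theorem trace_eq (hK : TR K) (ht : TP t) (x : E) :
    (((Algebra.trace ℚ E x : ℚ) : ℝ)) = ∑ φ : K →+* ℂ, 2 * (ext E φ x).re := by
  have h1 : (((Algebra.trace ℚ E x : ℚ) : ℂ)) = ∑ ψ : E →+* ℂ, ψ x := by
    have h := trace_eq_sum_embeddings (K := ℚ) (L := E) ℂ (x := x)
    rw [eq_ratCast] at h
    rw [h]
    exact (Fintype.sum_equiv (RingHom.equivRatAlgHom E ℂ) (fun f => f x) (fun f => f x)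
      fun _ => by simp [RingHom.equivRatAlgHom_apply]).symm
  have h2 : ∑ ψ : E →+* ℂ, ψ x = ∑ φ : K →+* ℂ, ((2 * (ext E φ x).re : ℝ) : ℂ) := by
    rw [← Fintype.sum_equiv (embEquiv q ht) (fun p => emb q p x) (fun ψ => ψ x)
      (fun p => rfl), Fintype.sum_prod_type]
    refine Finset.sum_congr rfl fun φ _ => ?_
    rw [Fintype.sum_bool]
    have h3 : emb q (φ, true) x = (starRingEnd ℂ) (ext E φ x) := by
      simp only [emb, if_true, RingHom.comp_apply]
      exact ext_sigma q hK ht φ x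
    have h4 : emb q (φ, false) x = ext E φ x := by
      simp only [emb, Bool.false_eq_true, if_false]
    rw [h3, h4]
    refine Complex.ext ?_ ?_
    · simp
      ring
    · simp
  have h5 : ((((Algebra.trace ℚ E x : ℚ) : ℝ)) : ℂ) =
      ((∑ φ : K →+* ℂ, 2 * (ext E φ x).re : ℝ) : ℂ) := by
    rw [Complex.ofReal_sum, ← h2, ← h1]
    push_cast
    rfl
  exact_mod_cast h5

/-! ### The coordinates -/

/-- The weight at `φ`. -/
noncomputable def wt (Y : K) (φ : K →+* ℂ) : ℝ := Real.sqrt (2 / |cj Y φ|)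

/-- The sign at `φ`. -/
noncomputable def sg (Y : K) (φ : K →+* ℂ) : ℝ := if 0 < cj Y φ then 1 else -1

theorem ratMul_ext (φ : K →+* ℂ) (r : ℚ) (z : E) :
    ext E φ ((r : E) * z) = ((r : ℝ) : ℂ) * ext E φ z := by
  rw [map_mul, map_ratCast]
  push_cast
  rfl

variable (E) in
/-- The coordinates of `z`. -/
noncomputable def crd (Y : K) : E →ₗ[ℚ] ((K →+* ℂ) × Bool → ℝ) where
  toFun z := fun p => wt Y p.1 * (if p.2 then (ext E p.1 z).im else (ext E p.1 z).re)
  map_add' z w := by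
    funext p
    simp only [map_add, Complex.add_re, Complex.add_im, Pi.add_apply]
    split <;> ring
  map_smul' r z := by
    funext p
    simp only [Pi.smul_apply, RingHom.id_apply, Rat.smul_def, ratMul_ext, Complex.re_ofReal_mul,
      Complex.im_ofReal_mul]
    split <;> ring

theorem crd_true (Y : K) (z : E) (φ : K →+* ℂ) :
    crd E Y z (φ, true) = wt Y φ * (ext E φ z).im := rfl

theorem crd_false (Y : K) (z : E) (φ : K →+* ℂ) :
    crd E Y z (φ, false) = wt Y φ * (ext E φ z).re := rfl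

omit [NumberField K] in
theorem cj_ne (hK : TR K) {Y : K} (hY : Y ≠ 0) (φ : K →+* ℂ) : cj Y φ ≠ 0 := by
  intro h
  have h1 : φ Y = 0 := by rw [real_eq hK φ Y, h, Complex.ofReal_zero]
  exact hY ((map_eq_zero φ).1 h1)

omit [NumberField K] in
theorem sg_wt (hK : TR K) {Y : K} (hY : Y ≠ 0) (φ : K →+* ℂ) :
    sg Y φ * (wt Y φ * wt Y φ) = 2 / cj Y φ := by
  have h0 := cj_ne hK hY φ
  have h1 : wt Y φ * wt Y φ = 2 / |cj Y φ| := Real.mul_self_sqrt (by positivity)
  rw [h1]
  unfold sg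
  split
  · rename_i h
    rw [abs_of_pos h, one_mul]
  · rename_i h
    have h2 : cj Y φ < 0 := lt_of_le_of_ne (not_lt.1 h) h0
    rw [abs_of_neg h2, div_neg]
    ring

include q in
/-- The form in coordinates. -/
theorem form_eq (hK : TR K) (ht : TP t) {Y : K} (hY : Y ≠ 0) (z w : E) :
    ∑ p : (K →+* ℂ) × Bool, sg Y p.1 * crd E Y z p * crd E Y w p =
      (((Algebra.trace ℚ E (z * q.σ w / algebraMap K E Y) : ℚ)) : ℝ) := by
  rw [trace_eq q hK ht, Fintype.sum_prod_type]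
  refine Finset.sum_congr rfl fun φ _ => ?_
  rw [Fintype.sum_bool, crd_true, crd_true, crd_false, crd_false]
  have h1 : ext E φ (z * q.σ w / algebraMap K E Y) =
      ext E φ z * (starRingEnd ℂ) (ext E φ w) / ((cj Y φ : ℝ) : ℂ) := by
    rw [map_div₀, map_mul, ext_sigma q hK ht, ext_algebraMap, real_eq hK φ Y]
  rw [h1, Complex.div_ofReal_re]
  have h2 := sg_wt hK hY φ
  have h0 := cj_ne hK hY φ
  simp only [Complex.mul_re, Complex.conj_re, Complex.conj_im]
  have h3 : 2 * (((ext E φ z).re * (ext E φ w).re - (ext E φ z).im * -(ext E φ w).im) / cj Y φ) =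
      (2 / cj Y φ) * ((ext E φ z).re * (ext E φ w).re + (ext E φ z).im * (ext E φ w).im) := by
    field_simp
    ring
  rw [h3, ← h2]
  ring

/-! ### Linear independence over the reals -/

include q in
theorem linInd {ι : Type} [Fintype ι] (hK : TR K) (ht : TP t) {Y : K} (hY : Y ≠ 0)
    (b : Basis ι ℚ E) : LinearIndependent ℝ (fun i => crd E Y (b i)) := by
  classical
  rw [Fintype.linearIndependent_iff]
  intro g hg
  have hw : ∀ φ : K →+* ℂ, wt Y φ ≠ 0 := fun φ =>
    (Real.sqrt_pos.2 (div_pos two_pos (abs_pos.2 (cj_ne hK hY φ)))).ne'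
  have hre : ∀ φ : K →+* ℂ, ∑ i, g i * (ext E φ (b i)).re = 0 := by
    intro φ
    have h := congrFun hg (φ, false)
    rw [Finset.sum_apply] at h
    simp only [Pi.smul_apply, smul_eq_mul, crd_false, Pi.zero_apply] at h
    have h2 : wt Y φ * ∑ i, g i * (ext E φ (b i)).re = 0 := by
      rw [Finset.mul_sum, ← h]
      exact Finset.sum_congr rfl fun i _ => by ring
    exact (mul_eq_zero.1 h2).resolve_left (hw φ)
  have him : ∀ φ : K →+* ℂ, ∑ i, g i * (ext E φ (b i)).im = 0 := by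
    intro φ
    have h := congrFun hg (φ, true)
    rw [Finset.sum_apply] at h
    simp only [Pi.smul_apply, smul_eq_mul, crd_true, Pi.zero_apply] at h
    have h2 : wt Y φ * ∑ i, g i * (ext E φ (b i)).im = 0 := by
      rw [Finset.mul_sum, ← h]
      exact Finset.sum_congr rfl fun i _ => by ring
    exact (mul_eq_zero.1 h2).resolve_left (hw φ)
  have hext : ∀ φ : K →+* ℂ, ∑ i, ((g i : ℝ) : ℂ) * ext E φ (b i) = 0 := by
    intro φ
    refine Complex.ext ?_ ?_
    · rw [Complex.re_sum, Complex.zero_re, ← hre φ]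
      exact Finset.sum_congr rfl fun i _ => Complex.re_ofReal_mul _ _
    · rw [Complex.im_sum, Complex.zero_im, ← him φ]
      exact Finset.sum_congr rfl fun i _ => Complex.im_ofReal_mul _ _
  have hconj : ∀ φ : K →+* ℂ, ∑ i, ((g i : ℝ) : ℂ) * ext E φ (q.σ (b i)) = 0 := by
    intro φ
    have h := congrArg (starRingEnd ℂ) (hext φ)
    rw [map_sum, map_zero] at h
    rw [← h]
    refine Finset.sum_congr rfl fun i _ => ?_
    rw [map_mul, Complex.conj_ofReal, ext_sigma q hK ht]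
  have hall : ∀ ψ : E →+* ℂ, ∑ i, ((g i : ℝ) : ℂ) * ψ (b i) = 0 := by
    intro ψ
    obtain ⟨⟨φ, c⟩, rfl⟩ := (emb_bijective q ht).2 ψ
    cases c
    · have h3 : ∀ x, emb q (φ, false) x = ext E φ x := fun x => by
        simp only [emb, Bool.false_eq_true, if_false]
      simp only [h3]
      exact hext φ
    · have h3 : ∀ x, emb q (φ, true) x = ext E φ (q.σ x) := fun x => by
        simp only [emb, if_true, RingHom.comp_apply]
        rfl
      simp only [h3]
      exact hconj φ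
  have hcard : Fintype.card ι = Fintype.card (E →ₐ[ℚ] ℂ) := by
    rw [AlgHom.card, finrank_eq_card_basis b]
  let e : ι ≃ (E →ₐ[ℚ] ℂ) := Fintype.equivOfCardEq hcard
  have hdet : (Algebra.embeddingsMatrixReindex ℚ ℂ b e).det ≠ 0 := by
    have h := Algebra.discr_eq_det_embeddingsMatrixReindex_pow_two ℚ ℂ b e
    intro h0
    rw [h0] at h
    have h1 : algebraMap ℚ ℂ (Algebra.discr ℚ b) = 0 := by rw [h]; ring
    exact Algebra.discr_not_zero_of_basis ℚ b ((map_eq_zero _).1 h1)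
  have hv : Matrix.vecMul (fun i => ((g i : ℝ) : ℂ))
      (Algebra.embeddingsMatrixReindex ℚ ℂ b e) = 0 := by
    funext j
    rw [Matrix.vecMul, dotProduct]
    exact hall (e j : E →+* ℂ)
  intro i
  have h : ((g i : ℝ) : ℂ) = 0 := congrFun (Matrix.eq_zero_of_vecMul_eq_zero hdet hv) i
  exact_mod_cast h

/-! ### Traces and norms -/

theorem sum_emb (x : K) : (((Algebra.trace ℚ K x : ℚ) : ℂ)) = ∑ φ : K →+* ℂ, φ x := by
  have h := trace_eq_sum_embeddings (K := ℚ) (L := K) ℂ (x := x)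
  rw [eq_ratCast] at h
  rw [h]
  exact (Fintype.sum_equiv (RingHom.equivRatAlgHom K ℂ) (fun f => f x) (fun f => f x)
    fun _ => by simp [RingHom.equivRatAlgHom_apply]).symm

theorem prod_emb (x : K) : (((Algebra.norm ℚ x : ℚ) : ℂ)) = ∏ φ : K →+* ℂ, φ x := by
  have h := Algebra.norm_eq_prod_embeddings ℚ ℂ x
  rw [eq_ratCast] at h
  rw [h]
  exact (Fintype.prod_equiv (RingHom.equivRatAlgHom K ℂ) (fun f => f x) (fun f => f x)
    fun _ => by simp [RingHom.equivRatAlgHom_apply]).symm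

theorem trace_cj (hK : TR K) (x : K) :
    (((Algebra.trace ℚ K x : ℚ) : ℝ)) = ∑ φ : K →+* ℂ, cj x φ := by
  have h : ((((Algebra.trace ℚ K x : ℚ) : ℝ)) : ℂ) = ((∑ φ : K →+* ℂ, cj x φ : ℝ) : ℂ) := by
    rw [Complex.ofReal_sum, ← Finset.sum_congr rfl fun φ _ => real_eq hK φ x, ← sum_emb]
    push_cast
    rfl
  exact_mod_cast h

theorem norm_cj (hK : TR K) (x : K) :
    (((Algebra.norm ℚ x : ℚ) : ℝ)) = ∏ φ : K →+* ℂ, cj x φ := by
  have h : ((((Algebra.norm ℚ x : ℚ) : ℝ)) : ℂ) = ((∏ φ : K →+* ℂ, cj x φ : ℝ) : ℂ) := by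
    rw [Complex.ofReal_prod, ← Finset.prod_congr rfl fun φ _ => real_eq hK φ x, ← prod_emb]
    push_cast
    rfl
  exact_mod_cast h

include q in
theorem trace_two (hK : TR K) (ht : TP t) (x : K) :
    Algebra.trace ℚ E (algebraMap K E x) = 2 * Algebra.trace ℚ K x := by
  have h : (((Algebra.trace ℚ E (algebraMap K E x) : ℚ)) : ℝ) =
      ((2 * Algebra.trace ℚ K x : ℚ) : ℝ) := by
    rw [trace_eq q hK ht, ← Finset.mul_sum]
    push_cast
    rw [trace_cj hK]
    congr 1
    refine Finset.sum_congr rfl fun φ _ => ?_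
    rw [ext_algebraMap]
    rfl
  exact_mod_cast h

/-- The lattice is even. -/
theorem even (hK : TR K) (ht : TP t) {Y : 𝓞 K} (hY : Y ≠ 0) {B : Ideal (𝓞 E)}
    (hB : B * B.map q.s = Ideal.span {algebraMap (𝓞 K) (𝓞 E) Y}) {b : 𝓞 E} (hb : b ∈ B) :
    ∃ k : ℤ, Algebra.trace ℚ E ((b : E) * q.σ b / algebraMap K E (Y : K)) = 2 * k := by
  have hYK : (Y : K) ≠ 0 := fun h => hY (RingOfIntegers.ext (by simpa using h))
  have hYE : algebraMap K E (Y : K) ≠ 0 := (map_ne_zero _).2 hYK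
  have h1 : b * q.s b ∈ Ideal.span {algebraMap (𝓞 K) (𝓞 E) Y} := by
    rw [← hB]
    exact Ideal.mul_mem_mul hb (Ideal.mem_map_of_mem q.s hb)
  obtain ⟨c, hc⟩ := Ideal.mem_span_singleton'.1 h1
  have h2 : (c : E) * algebraMap K E (Y : K) = (b : E) * q.σ b := by
    have h := congrArg (algebraMap (𝓞 E) E) hc
    rw [map_mul, map_mul] at h
    exact h
  obtain ⟨u, v, huv⟩ := q.rep (b : E)
  have h3 : (b : E) * q.σ b = algebraMap K E (u ^ 2 + v ^ 2 * t) := by
    rw [huv]
    simp only [map_add, map_mul, AlgEquiv.commutes, q.hσ, map_pow]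
    have := q.hθ
    linear_combination (-(algebraMap K E v) ^ 2) * this
  set x : K := (u ^ 2 + v ^ 2 * t) / (Y : K) with hx
  have h4 : (c : E) = algebraMap K E x := by
    rw [hx, map_div₀, ← h3, ← h2, mul_div_assoc, div_self hYE, mul_one]
  have h5 : IsIntegral ℤ x := by
    rw [← isIntegral_algebraMap_iff (algebraMap K E).injective, ← h4]
    exact RingOfIntegers.isIntegral_coe c
  refine ⟨Algebra.trace ℤ (𝓞 K) ⟨x, h5⟩, ?_⟩
  rw [← h2, mul_div_assoc, div_self hYE, mul_one, h4, trace_two q hK ht]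
  congr 1
  exact (Algebra.coe_trace_int (⟨x, h5⟩ : 𝓞 K)).symm

omit [NumberField K] in
theorem sg_cases (Y : K) (φ : K →+* ℂ) : sg Y φ = 1 ∨ sg Y φ = -1 := by
  unfold sg
  split
  · exact Or.inl rfl
  · exact Or.inr rfl

theorem prod_sg (hK : TR K) {Y : 𝓞 K} (hY : Y ≠ 0) :
    ∏ φ : K →+* ℂ, sg (Y : K) φ = (((Algebra.norm ℤ Y).sign : ℤ) : ℝ) := by
  have hYK : (Y : K) ≠ 0 := fun h => hY (RingOfIntegers.ext (by simpa using h))
  have h1 : ((Algebra.norm ℤ Y : ℤ) : ℝ) = ∏ φ : K →+* ℂ, cj (Y : K) φ := by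
    rw [← norm_cj hK, ← Algebra.coe_norm_int]
    push_cast
    rfl
  have h2 : ∏ φ : K →+* ℂ, cj (Y : K) φ =
      (∏ φ : K →+* ℂ, sg (Y : K) φ) * ∏ φ : K →+* ℂ, |cj (Y : K) φ| := by
    rw [← Finset.prod_mul_distrib]
    refine Finset.prod_congr rfl fun φ _ => ?_
    unfold sg
    split
    · rename_i h
      rw [abs_of_pos h, one_mul]
    · rename_i h
      rw [abs_of_nonpos (not_lt.1 h)]
      ring
  have h3 : 0 < ∏ φ : K →+* ℂ, |cj (Y : K) φ| :=
    Finset.prod_pos fun φ _ => abs_pos.2 (cj_ne hK hYK φ)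
  have h4 : ∏ φ : K →+* ℂ, sg (Y : K) φ = 1 ∨ ∏ φ : K →+* ℂ, sg (Y : K) φ = -1 := by
    refine Finset.prod_induction (fun φ => sg (Y : K) φ) (fun x => x = 1 ∨ x = -1) ?_
      (Or.inl rfl) fun φ _ => sg_cases _ _
    rintro a b (rfl | rfl) (rfl | rfl) <;> norm_num
  rcases h4 with h4 | h4
  · rw [h2, h4, one_mul] at h1
    have h5 : 0 < Algebra.norm ℤ Y := by
      have : (0 : ℝ) < ((Algebra.norm ℤ Y : ℤ) : ℝ) := by rw [h1]; exact h3
      exact_mod_cast this
    rw [h4, Int.sign_eq_one_of_pos h5]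
    norm_num
  · rw [h2, h4] at h1
    have h5 : Algebra.norm ℤ Y < 0 := by
      have : ((Algebra.norm ℤ Y : ℤ) : ℝ) < 0 := by rw [h1]; linarith
      exact_mod_cast this
    rw [h4, Int.sign_eq_neg_one_of_neg h5]
    norm_num

theorem exp_sq {s : ℝ} (hs : s = 1 ∨ s = -1) :
    Complex.exp (-(Real.pi * Complex.I * (s : ℂ) / 4)) *
      Complex.exp (-(Real.pi * Complex.I * (s : ℂ) / 4)) = -Complex.I * (s : ℂ) := by
  rw [← Complex.exp_add]
  rcases hs with rfl | rfl
  · have h1 : -(Real.pi * Complex.I * ((1 : ℝ) : ℂ) / 4) + -(Real.pi * Complex.I * ((1 : ℝ) : ℂ) / 4) =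
        -(Real.pi / 2 * Complex.I) := by
      push_cast
      ring
    rw [h1, Complex.exp_neg, Complex.exp_pi_div_two_mul_I, Complex.inv_I]
    push_cast
    ring
  · have h1 : -(Real.pi * Complex.I * ((-1 : ℝ) : ℂ) / 4) +
        -(Real.pi * Complex.I * ((-1 : ℝ) : ℂ) / 4) = Real.pi / 2 * Complex.I := by
      push_cast
      ring
    rw [h1, Complex.exp_pi_div_two_mul_I]
    push_cast
    ring

theorem prod_exp (hK : TR K) {Y : 𝓞 K} (hY : Y ≠ 0) :
    ∏ p : (K →+* ℂ) × Bool, Complex.exp (-(Real.pi * Complex.I * ((sg (Y : K) p.1 : ℝ) : ℂ) / 4)) =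
      (-Complex.I) ^ finrank ℚ K * (((Algebra.norm ℤ Y).sign : ℤ) : ℂ) := by
  rw [Fintype.prod_prod_type]
  have h1 : ∀ φ : K →+* ℂ, ∏ _c : Bool,
      Complex.exp (-(Real.pi * Complex.I * ((sg (Y : K) φ : ℝ) : ℂ) / 4)) =
        -Complex.I * ((sg (Y : K) φ : ℝ) : ℂ) := by
    intro φ
    rw [Fintype.prod_bool]
    exact exp_sq (sg_cases _ _)
  simp only [h1]
  rw [Finset.prod_mul_distrib, Finset.prod_const, Finset.card_univ, Embeddings.card,
    ← Complex.ofReal_prod, prod_sg hK hY]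
  push_cast
  rfl

end MIEM

open MIEM in
/-- Module `MIE`: Gauss-Milgram for the ideal `B`. -/
theorem specMIE (h : SpecMIL) : SpecMIE := by
  intro K E _ _ _ _ _ t q hK ht Y hY B hB R hR
  classical
  have hYK : (Y : K) ≠ 0 := fun h => hY (RingOfIntegers.ext (by simpa using h))
  have hYE : algebraMap (𝓞 K) (𝓞 E) Y ≠ 0 := fun h => hY (by
    have h1 : algebraMap K E (Y : K) = 0 := by
      have := congrArg (fun x : 𝓞 E => (x : E)) h
      simpa using this
    exact RingOfIntegers.ext (by simpa using h1))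
  have hB0 : B ≠ ⊥ := by
    rintro rfl
    rw [Ideal.bot_mul] at hB
    exact hYE (Ideal.span_singleton_eq_bot.1 hB.symm)
  let I : (FractionalIdeal (𝓞 E)⁰ E)ˣ :=
    Units.mk0 (B : FractionalIdeal (𝓞 E)⁰ E) (FractionalIdeal.coeIdeal_ne_zero.2 hB0)
  let b := NumberField.basisOfFractionalIdeal E I
  have hspan : ∀ x : E, x ∈ Submodule.span ℤ (Set.range b) ↔ ∃ y ∈ B, (y : E) = x := by
    intro x
    have h1 := NumberField.mem_span_basisOfFractionalIdeal E (I := I) (x := x)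
    refine h1.trans ?_
    exact FractionalIdeal.mem_coeIdeal _
  have hform : ∀ z w : E, ∑ p : (K →+* ℂ) × Bool, sg (Y : K) p.1 * crd E (Y : K) z p *
      crd E (Y : K) w p = (((Algebra.trace ℚ E (z * q.σ w / algebraMap K E (Y : K)) : ℚ)) : ℝ) :=
    fun z w => form_eq q hK ht hYK z w
  have hform2 : ∀ z : E, ∑ p : (K →+* ℂ) × Bool, sg (Y : K) p.1 * crd E (Y : K) z p ^ 2 =
      (((Algebra.trace ℚ E (z * q.σ z / algebraMap K E (Y : K)) : ℚ)) : ℝ) := by
    intro z
    rw [← hform]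
    exact Finset.sum_congr rfl fun p _ => by ring
  have hDu : ∀ w : E, w ∈ Du b (crd E (Y : K)) (fun p => sg (Y : K) p.1) ↔ w ∈ Dl q B Y := by
    intro w
    constructor
    · intro hw y hy
      have h1 : (y : E) ∈ Submodule.span ℤ (Set.range b) := (hspan _).2 ⟨y, hy, rfl⟩
      generalize (y : E) = z at h1 ⊢
      induction h1 using Submodule.span_induction with
      | mem x hx =>
        obtain ⟨i, rfl⟩ := hx
        obtain ⟨k, hk⟩ := hw i
        refine ⟨k, ?_⟩
        rw [hform] at hk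
        exact_mod_cast hk
      | zero => exact ⟨0, by simp⟩
      | add x y _ _ hx hy =>
        obtain ⟨k, hk⟩ := hx
        obtain ⟨l, hl⟩ := hy
        refine ⟨k + l, ?_⟩
        rw [add_mul, add_div, map_add, hk, hl]
        push_cast
        rfl
      | smul a x _ hx =>
        obtain ⟨k, hk⟩ := hx
        refine ⟨a * k, ?_⟩
        rw [smul_mul_assoc, smul_div_assoc, map_zsmul, hk]
        push_cast
        simp
    · intro hw i
      obtain ⟨y, hy, hyi⟩ := (hspan (b i)).1 (Submodule.subset_span ⟨i, rfl⟩)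
      obtain ⟨k, hk⟩ := hw y hy
      refine ⟨k, ?_⟩
      show ∑ p : (K →+* ℂ) × Bool, sg (Y : K) p.1 * crd E (Y : K) (b i) p * crd E (Y : K) w p = _
      rw [hform, ← hyi, hk]
      push_cast
      rfl
  have hcard : Fintype.card (Free.ChooseBasisIndex ℤ I) = Fintype.card ((K →+* ℂ) × Bool) := by
    rw [Fintype.card_congr (embEquiv q ht), Embeddings.card, finrank_eq_card_basis b]
  obtain ⟨c, hc, heq⟩ := h E _ ((K →+* ℂ) × Bool) b (crd E (Y : K)) (fun p => sg (Y : K) p.1)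
    (fun p => sg_cases _ _) hcard (linInd q hK ht hYK b)
    (by
      intro z hz
      obtain ⟨y, hy, rfl⟩ := (hspan z).1 hz
      obtain ⟨k, hk⟩ := even q hK ht hY hB hy
      refine ⟨k, ?_⟩
      show ∑ p : (K →+* ℂ) × Bool, sg (Y : K) p.1 * crd E (Y : K) (y : E) p ^ 2 = _
      rw [hform2, hk]
      push_cast
      rfl) R (fun w hw => (hDu w).2 (hR.1 w hw))
    (by
      intro w hw
      obtain ⟨r, ⟨hr1, y, hy, hr2⟩, hr3⟩ := hR.2 w ((hDu w).1 hw)
      refine ⟨r, ⟨hr1, (hspan _).2 ⟨y, hy, hr2.symm⟩⟩, ?_⟩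
      rintro r' ⟨hr', hr''⟩
      obtain ⟨y', hy', hy''⟩ := (hspan _).1 hr''
      exact hr3 r' ⟨hr', y', hy', hy''.symm⟩)
  refine ⟨c, hc, ?_⟩
  have h1 : Gs q Y R = ∑ w ∈ R, Complex.exp (-(Real.pi * Complex.I *
      ((∑ p : (K →+* ℂ) × Bool, sg (Y : K) p.1 * crd E (Y : K) w p ^ 2 : ℝ) : ℂ))) := by
    refine Finset.sum_congr rfl fun w _ => ?_
    rw [hform2]
    push_cast
    rfl
  rw [h1, mul_assoc, ← prod_exp hK hY]
  exact heq

end Pool.Agent.Lib.MPcb8a44.SX
end

section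
/-!
# Theorem X (MP_cb8a44_nt): an integer of negative norm
-/
set_option autoImplicit false
set_option linter.style.longLine false

open NumberField Module
open scoped nonZeroDivisors

namespace Pool.Agent.Lib.MPcb8a44.SX

namespace NEGM

set_option linter.unusedSectionVars false

variable {K : Type} [Field K] [NumberField K]

theorem cj_eq (hK : TR K) (x : K) (φ : K →+* ℂ) : φ x = (cj x φ : ℂ) := by
  apply Complex.ext
  · simp [cj]
  · simpa using hK φ x

theorem cj_mul (hK : TR K) (x y : K) (φ : K →+* ℂ) : cj (x * y) φ = cj x φ * cj y φ := by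
  have := cj_eq hK (x * y) φ
  rw [map_mul, cj_eq hK x, cj_eq hK y] at this
  exact_mod_cast this.symm

theorem norm_prod (hK : TR K) (x : 𝓞 K) : (Algebra.norm ℤ x : ℝ) = ∏ φ : K →+* ℂ, cj (x : K) φ := by
  have h1 : (Algebra.norm ℤ x : ℚ) = Algebra.norm ℚ (x : K) := by
    exact Algebra.coe_norm_int x
  have h2 : (algebraMap ℚ ℂ) (Algebra.norm ℚ (x : K)) = ∏ φ : K →+* ℂ, φ (x : K) := by
    rw [Algebra.norm_eq_prod_embeddings ℚ ℂ]
    exact (Fintype.prod_equiv (RingHom.equivRatAlgHom K ℂ) _ _ fun f => rfl).symm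
  have h3 : ((Algebra.norm ℤ x : ℝ) : ℂ) = ((∏ φ : K →+* ℂ, cj (x : K) φ : ℝ) : ℂ) := by
    push_cast
    rw [← Finset.prod_congr rfl fun φ _ => cj_eq hK (x : K) φ, ← h2, ← h1]
    simp
  exact_mod_cast h3

theorem cj_ne (hK : TR K) {x : K} (hx : x ≠ 0) (φ : K →+* ℂ) : cj x φ ≠ 0 := by
  intro h
  have := cj_eq hK x φ
  rw [h, Complex.ofReal_zero, map_eq_zero] at this
  exact hx this

end NEGM

open NEGM in
theorem specNEG : SpecNEG := by
  classical
  intro K _ _ hK
  obtain ⟨α, hα⟩ := Field.exists_primitive_element ℚ K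
  have hinj : ∀ φ ψ : K →+* ℂ, cj α φ = cj α ψ → φ = ψ := by
    intro φ ψ h
    have h1 : φ α = ψ α := by rw [cj_eq hK, cj_eq hK, h]
    have h2 : (RingHom.equivRatAlgHom K ℂ φ) = (RingHom.equivRatAlgHom K ℂ ψ) := by
      refine AlgHom.ext_of_adjoin_eq_top (s := {α}) ?_ ?_
      · have := IntermediateField.adjoin_simple_toSubalgebra_of_isAlgebraic
          (Algebra.IsAlgebraic.isAlgebraic (R := ℚ) α)
        rw [hα] at this
        rw [← this]
        rfl
      · intro x hx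
        rw [Set.mem_singleton_iff.1 hx]
        exact h1
    exact (RingHom.equivRatAlgHom K ℂ).injective h2
  obtain ⟨φ0, -, hφ0⟩ := Finset.exists_max_image (Finset.univ : Finset (K →+* ℂ)) (cj α)
    Finset.univ_nonempty
  have hlt : ∀ φ, φ ≠ φ0 → cj α φ < cj α φ0 := fun φ hφ =>
    lt_of_le_of_ne (hφ0 φ (Finset.mem_univ φ)) fun h => hφ (hinj _ _ h)
  obtain ⟨M, hM1, hM2⟩ : ∃ M : ℝ, M < cj α φ0 ∧ ∀ φ, φ ≠ φ0 → cj α φ ≤ M := by
    by_cases hne : (Finset.univ.erase φ0 : Finset (K →+* ℂ)).Nonempty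
    · obtain ⟨φ1, h1, h2⟩ := Finset.exists_max_image (Finset.univ.erase φ0 : Finset (K →+* ℂ))
        (cj α) hne
      exact ⟨cj α φ1, hlt φ1 (Finset.ne_of_mem_erase h1), fun φ hφ =>
        h2 φ (Finset.mem_erase.2 ⟨hφ, Finset.mem_univ φ⟩)⟩
    · refine ⟨cj α φ0 - 1, by linarith, fun φ hφ => ?_⟩
      exact absurd ⟨φ, Finset.mem_erase.2 ⟨hφ, Finset.mem_univ φ⟩⟩ hne
  obtain ⟨r, hr1, hr2⟩ := exists_rat_btwn hM1
  obtain ⟨a, b, hb, hab⟩ := IsFractionRing.div_surjective (A := 𝓞 K) ((r : K) - α)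
  have hb0 : b ≠ 0 := nonZeroDivisors.ne_zero hb
  have hbK : (algebraMap (𝓞 K) K) b ≠ 0 := by simpa using hb0
  have hx : ((a * b : 𝓞 K) : K) = ((r : K) - α) * ((b : K) * (b : K)) := by
    have h1 : ((a * b : 𝓞 K) : K) = (algebraMap (𝓞 K) K) a * (algebraMap (𝓞 K) K) b :=
      map_mul (algebraMap (𝓞 K) K) a b
    rw [h1, ← hab]
    field_simp
  have hcj : ∀ φ, cj ((a * b : 𝓞 K) : K) φ = ((r : ℝ) - cj α φ) * (cj (b : K) φ * cj (b : K) φ) := by
    intro φ
    rw [hx, cj_mul hK, cj_mul hK]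
    congr 1
    simp [cj]
  have hbp : ∀ φ, 0 < cj (b : K) φ * cj (b : K) φ := fun φ =>
    mul_self_pos.2 (cj_ne hK (by simpa using hb0) φ)
  refine ⟨a * b, ?_⟩
  have h1 : (Algebra.norm ℤ (a * b) : ℝ) < 0 := by
    rw [norm_prod hK, ← Finset.mul_prod_erase _ _ (Finset.mem_univ φ0)]
    refine mul_neg_of_neg_of_pos ?_ (Finset.prod_pos fun φ hφ => ?_)
    · rw [hcj]
      exact mul_neg_of_neg_of_pos (by linarith) (hbp _)
    · rw [hcj]
      have := hM2 φ (Finset.ne_of_mem_erase hφ)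
      exact mul_pos (by linarith) (hbp _)
  exact_mod_cast h1

end Pool.Agent.Lib.MPcb8a44.SX
end

section
/-!
# Theorem X, module NPL: sign of `Y = 2 (ε + v.w)` at the real places, and `Y ≠ 0`

Reusable: `NPLM.norm_int_prod` (the norm is the product of the real conjugates), `NPLM.sign_prod`.
-/
set_option autoImplicit false

open NumberField Module

namespace Pool.Agent.Lib.MPcb8a44.SX

namespace NPLM

variable {K : Type} [Field K] [NumberField K]

omit [NumberField K] in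
theorem cj_cast (hK : TR K) (x : K) (φ : K →+* ℂ) : ((cj x φ : ℝ) : ℂ) = φ x := by
  apply Complex.ext
  · simp [cj]
  · simp [cj, hK φ x]

omit [NumberField K] in
theorem cj_add (x y : K) (φ : K →+* ℂ) : cj (x + y) φ = cj x φ + cj y φ := by simp [cj]

omit [NumberField K] in
theorem cj_mul (hK : TR K) (x y : K) (φ : K →+* ℂ) : cj (x * y) φ = cj x φ * cj y φ := by
  simp [cj, Complex.mul_re, hK φ x]

omit [NumberField K] in
theorem cj_inj (hK : TR K) {x : K} {φ : K →+* ℂ} (h : cj x φ = 0) : x = 0 := by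
  have : φ x = 0 := by rw [← cj_cast hK, h]; simp
  exact (map_eq_zero φ).1 this

theorem norm_prod (hK : TR K) (x : K) : ((Algebra.norm ℚ x : ℚ) : ℝ) = ∏ φ : K →+* ℂ, cj x φ := by
  have h := Algebra.norm_eq_prod_embeddings ℚ ℂ x
  have h2 : (∏ σ : K →ₐ[ℚ] ℂ, σ x) = ∏ φ : K →+* ℂ, φ x :=
    (Fintype.prod_equiv (RingHom.equivRatAlgHom K ℂ) _ _ (fun φ => rfl)).symm
  rw [h2] at h
  have h3 : (((Algebra.norm ℚ x : ℚ) : ℝ) : ℂ) = ((∏ φ : K →+* ℂ, cj x φ : ℝ) : ℂ) := by
    push_cast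
    rw [Finset.prod_congr rfl fun φ _ => cj_cast hK x φ, ← h]
    simp
  exact_mod_cast h3

theorem norm_int_prod (hK : TR K) (x : 𝓞 K) :
    ((Algebra.norm ℤ x : ℤ) : ℝ) = ∏ φ : K →+* ℂ, cj (x : K) φ := by
  rw [← norm_prod hK, ← Algebra.coe_norm_int x]
  push_cast
  rfl

theorem cO_add (x y : 𝓞 K) (φ : K →+* ℂ) :
    cj ((x + y : 𝓞 K) : K) φ = cj (x : K) φ + cj (y : K) φ := by simp [cj]

omit [NumberField K] in
theorem cO_mul (hK : TR K) (x y : 𝓞 K) (φ : K →+* ℂ) :
    cj ((x * y : 𝓞 K) : K) φ = cj (x : K) φ * cj (y : K) φ := by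
  rw [← cj_mul hK]; rfl

theorem cO_sub (x y : 𝓞 K) (φ : K →+* ℂ) :
    cj ((x - y : 𝓞 K) : K) φ = cj (x : K) φ - cj (y : K) φ := by simp [cj]

/-- The sign of a product. -/
theorem sign_prod {ι : Type} (s : Finset ι) (f g : ι → ℝ) (h : ∀ i ∈ s, 0 < f i * g i) :
    0 < (∏ i ∈ s, f i) * ∏ i ∈ s, g i := by
  rw [← Finset.prod_mul_distrib]
  exact Finset.prod_pos h

theorem sign_eq_of_mul_pos {x y : ℤ} (h : 0 < (x : ℝ) * y) : x.sign = y.sign := by
  have h' : 0 < x * y := by exact_mod_cast h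
  rcases lt_trichotomy y 0 with hy | hy | hy
  · have hx : x < 0 := by nlinarith
    rw [Int.sign_eq_neg_one_of_neg hx, Int.sign_eq_neg_one_of_neg hy]
  · subst hy; simp at h'
  · have hx : 0 < x := by nlinarith
    rw [Int.sign_eq_one_of_pos hx, Int.sign_eq_one_of_pos hy]

end NPLM

open NPLM in
theorem specNPL : SpecNPL := by
  intro K _ _ hK v w n n' ε q q' hq hq' hq0 hq0' hne hqn hqn' hn hn' hv hw hε hex
  obtain ⟨i0, hi0⟩ := hex
  -- the vectors are not parallel
  have hpar : ¬ (v 0 * w 1 = v 1 * w 0 ∧ v 0 * w 2 = v 2 * w 0 ∧ v 1 * w 2 = v 2 * w 1) := by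
    rintro ⟨h1, h2, h3⟩
    have hD : dt v w ^ 2 = n * n' := by
      rw [← hv, ← hw]
      simp only [dt]
      linear_combination -(v 0 * w 1 - v 1 * w 0) * h1 - (v 0 * w 2 - v 2 * w 0) * h2
        - (v 1 * w 2 - v 2 * w 1) * h3
    have hDq : Ideal.span {dt v w} = q * q' := by
      have e1 : Ideal.span {dt v w} ^ 2 = (q * q') ^ 2 := by
        rw [Ideal.span_singleton_pow, hD, mul_pow, hqn, hqn', Ideal.span_singleton_mul_span_singleton]
      exact pow_left_injective two_ne_zero e1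
    have hj : ∀ j, n * w j = v j * dt v w := by
      intro j
      rw [← hv]
      simp only [dt]
      fin_cases j
      · simp; linear_combination -(v 1) * h1 - v 2 * h2
      · simp; linear_combination v 0 * h1 - v 2 * h3
      · simp; linear_combination v 0 * h2 + v 1 * h3
    have hj' := hj i0
    have e2 : q ^ 2 * Ideal.span {w i0} = Ideal.span {v i0} * (q * q') := by
      rw [hqn, ← hDq, Ideal.span_singleton_mul_span_singleton, Ideal.span_singleton_mul_span_singleton, hj']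
    have e3 : q * Ideal.span {w i0} = Ideal.span {v i0} * q' := by
      have : q * (q * Ideal.span {w i0}) = q * (Ideal.span {v i0} * q') := by
        calc q * (q * Ideal.span {w i0}) = q ^ 2 * Ideal.span {w i0} := by ring
          _ = Ideal.span {v i0} * (q * q') := e2
          _ = _ := by ring
      exact mul_left_cancel₀ hq0 this
    have e4 : Ideal.span {v i0} * q' ≤ q := by
      rw [← e3]; exact (Ideal.mul_le_left : q * Ideal.span {w i0} ≤ q)
    rcases hq.mul_le.1 e4 with h | h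
    · exact hi0 (h (Ideal.mem_span_singleton_self _))
    · have hmax : q'.IsMaximal := hq'.isMaximal hq0'
      exact hne (hmax.eq_of_le hq.ne_top h).symm
  -- the sign at a place
  have hpl : ∀ φ : K →+* ℂ, 0 < cj ((2 * (ε + dt v w) : 𝓞 K) : K) φ * cj (ε : K) φ := by
    intro φ
    set V : Fin 3 → ℝ := fun i => cj (v i : K) φ with hV
    set W : Fin 3 → ℝ := fun i => cj (w i : K) φ with hW
    set e : ℝ := cj (ε : K) φ with he
    have hcd : ∀ a b : Fin 3 → 𝓞 K, cj ((dt a b : 𝓞 K) : K) φ =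
        cj (a 0 : K) φ * cj (b 0 : K) φ + cj (a 1 : K) φ * cj (b 1 : K) φ +
        cj (a 2 : K) φ * cj (b 2 : K) φ := by
      intro a b
      simp only [dt]
      rw [cO_add, cO_add, cO_mul hK, cO_mul hK, cO_mul hK]
    have h2 : cj ((2 * (ε + dt v w) : 𝓞 K) : K) φ = 2 * (e + (V 0 * W 0 + V 1 * W 1 + V 2 * W 2)) := by
      rw [two_mul, cO_add, cO_add, hcd]
      ring
    have hee : e ^ 2 = (V 0 * V 0 + V 1 * V 1 + V 2 * V 2) * (W 0 * W 0 + W 1 * W 1 + W 2 * W 2) := by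
      have hεc : ε ^ 2 = dt v v * dt w w := by rw [hε, hv, hw]
      rw [pow_two] at hεc
      have := congrArg (fun x : 𝓞 K => cj (x : K) φ) hεc
      beta_reduce at this
      rw [cO_mul hK, cO_mul hK, hcd, hcd] at this
      rw [pow_two]; exact this
    rw [h2]
    have hcross : 0 < (V 0 * W 1 - V 1 * W 0) ^ 2 + (V 0 * W 2 - V 2 * W 0) ^ 2 +
        (V 1 * W 2 - V 2 * W 1) ^ 2 := by
      by_contra hcon
      rw [not_lt] at hcon
      apply hpar
      have key : ∀ i j k l : Fin 3, V i * W j - V k * W l = 0 → v i * w j = v k * w l := by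
        intro i j k l h
        have h0 : cj ((v i * w j - v k * w l : 𝓞 K) : K) φ = 0 := by
          rw [cO_sub, cO_mul hK, cO_mul hK]
          exact h
        have h1 := cj_inj hK h0
        have h2 : v i * w j - v k * w l = 0 := by exact_mod_cast h1
        exact sub_eq_zero.1 h2
      refine ⟨key 0 1 1 0 ?_, key 0 2 2 0 ?_, key 1 2 2 1 ?_⟩ <;>
        nlinarith [sq_nonneg (V 0 * W 1 - V 1 * W 0), sq_nonneg (V 0 * W 2 - V 2 * W 0),
          sq_nonneg (V 1 * W 2 - V 2 * W 1)]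
    set D := V 0 * W 0 + V 1 * W 1 + V 2 * W 2 with hDdef
    have hlt : D ^ 2 < e ^ 2 := by rw [hee, hDdef]; nlinarith [hcross]
    have habs := sq_lt_sq.1 hlt
    have : 0 < (e + D) * e := by
      rcases le_or_gt 0 e with h | h
      · rw [abs_of_nonneg h] at habs
        have := abs_lt.1 habs
        have he0 : 0 < e := lt_of_le_of_lt (abs_nonneg D) habs
        exact mul_pos (by linarith) he0
      · rw [abs_of_neg h] at habs
        have := abs_lt.1 habs
        exact mul_pos_of_neg_of_neg (by linarith) h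
    nlinarith
  have hprod : 0 < ((Algebra.norm ℤ (2 * (ε + dt v w)) : ℤ) : ℝ) * ((Algebra.norm ℤ ε : ℤ) : ℝ) := by
    rw [norm_int_prod hK, norm_int_prod hK]
    exact sign_prod _ _ _ fun φ _ => hpl φ
  refine ⟨?_, sign_eq_of_mul_pos hprod⟩
  intro h0
  rw [h0] at hprod
  simp at hprod

end Pool.Agent.Lib.MPcb8a44.SX
end

section
/-!
# NRP: primes which are norms (Theorem X, MP_cb8a44_nt)
-/
set_option autoImplicit false

open NumberField Module
open scoped nonZeroDivisors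

namespace Pool.Agent.Lib.MPcb8a44.SX

namespace NRPM

variable {K E : Type} [Field K] [NumberField K] [Field E] [NumberField E] [Algebra K E] {t : K}
  (q : QE K E t)

theorem s_coe (x : 𝓞 E) : algebraMap (𝓞 E) E (q.s x) = q.σ (algebraMap (𝓞 E) E x) := rfl

omit [NumberField K] [NumberField E] in
theorem coe_alg (x : 𝓞 K) :
    algebraMap (𝓞 E) E (algebraMap (𝓞 K) (𝓞 E) x) = algebraMap K E (x : K) := rfl

theorem s_alg (x : 𝓞 K) : q.s (algebraMap (𝓞 K) (𝓞 E) x) = algebraMap (𝓞 K) (𝓞 E) x := by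
  apply RingOfIntegers.coe_injective
  rw [s_coe, coe_alg]
  exact q.σ.commutes _

theorem map_map (p : Ideal (𝓞 K)) :
    (p.map (algebraMap (𝓞 K) (𝓞 E))).map q.s = p.map (algebraMap (𝓞 K) (𝓞 E)) := by
  rw [Ideal.map_map]
  congr 1
  ext x
  exact congrArg _ (s_alg q x)

theorem common (p : Ideal (𝓞 K)) (hp : p.IsMaximal) (ω : 𝓞 E) (x y : 𝓞 K)
    (h1 : ω + q.s ω = algebraMap (𝓞 K) (𝓞 E) x) (h2 : ω * q.s ω = algebraMap (𝓞 K) (𝓞 E) y)
    (hx : x ∉ p) (hy : y ∈ p) : NP q p := by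
  set I := p.map (algebraMap (𝓞 K) (𝓞 E)) with hI
  refine ⟨I ⊔ Ideal.span {ω}, ?_⟩
  have hm : (I ⊔ Ideal.span {ω}).map q.s = I ⊔ Ideal.span {q.s ω} := by
    rw [Ideal.map_sup, hI, map_map, Ideal.map_span, Set.image_singleton]
  rw [hm]
  apply le_antisymm
  · rw [Ideal.sup_mul, Ideal.mul_sup, Ideal.mul_sup]
    refine sup_le (sup_le Ideal.mul_le_left Ideal.mul_le_left) (sup_le Ideal.mul_le_right ?_)
    rw [Ideal.span_singleton_mul_span_singleton, h2, Ideal.span_singleton_le_iff_mem]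
    exact Ideal.mem_map_of_mem _ hy
  · rw [hI, Ideal.map_le_iff_le_comap]
    intro b hb
    rw [Ideal.mem_comap]
    obtain ⟨c, d, hd, hcd⟩ := hp.exists_inv hx
    have hbI : algebraMap (𝓞 K) (𝓞 E) b ∈ I := Ideal.mem_map_of_mem _ hb
    have hdI : algebraMap (𝓞 K) (𝓞 E) d ∈ I := Ideal.mem_map_of_mem _ hd
    have e1 : algebraMap (𝓞 K) (𝓞 E) b * q.s ω ∈ (I ⊔ Ideal.span {ω}) * (I ⊔ Ideal.span {q.s ω}) :=
      Ideal.mul_mem_mul (Ideal.mem_sup_left hbI)
        (Ideal.mem_sup_right (Ideal.mem_span_singleton_self _))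
    have e2 : ω * algebraMap (𝓞 K) (𝓞 E) b ∈ (I ⊔ Ideal.span {ω}) * (I ⊔ Ideal.span {q.s ω}) :=
      Ideal.mul_mem_mul (Ideal.mem_sup_right (Ideal.mem_span_singleton_self _))
        (Ideal.mem_sup_left hbI)
    have e3 : algebraMap (𝓞 K) (𝓞 E) b * algebraMap (𝓞 K) (𝓞 E) d ∈
        (I ⊔ Ideal.span {ω}) * (I ⊔ Ideal.span {q.s ω}) :=
      Ideal.mul_mem_mul (Ideal.mem_sup_left hbI) (Ideal.mem_sup_left hdI)
    have e4 : algebraMap (𝓞 K) (𝓞 E) b =
        algebraMap (𝓞 K) (𝓞 E) c * (algebraMap (𝓞 K) (𝓞 E) b * q.s ω +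
          ω * algebraMap (𝓞 K) (𝓞 E) b) +
        algebraMap (𝓞 K) (𝓞 E) b * algebraMap (𝓞 K) (𝓞 E) d := by
      have h3 : algebraMap (𝓞 K) (𝓞 E) c * (algebraMap (𝓞 K) (𝓞 E) b * q.s ω +
          ω * algebraMap (𝓞 K) (𝓞 E) b) =
          algebraMap (𝓞 K) (𝓞 E) c * algebraMap (𝓞 K) (𝓞 E) b * (ω + q.s ω) := by ring
      rw [h3, h1, ← map_mul, ← map_mul, ← map_mul, ← map_add]
      congr 1
      calc b = b * 1 := (mul_one b).symm
        _ = b * (c * x + d) := by rw [hcd]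
        _ = _ := by ring
    rw [e4]
    exact Ideal.add_mem _ (Ideal.mul_mem_left _ _ (Ideal.add_mem _ e1 e2)) e3

/-- From an element of `E` with integral trace and norm. -/
theorem common' (p : Ideal (𝓞 K)) (hp : p.IsMaximal) (ω : E) (x y : 𝓞 K)
    (h1 : ω + q.σ ω = algebraMap K E (x : K)) (h2 : ω * q.σ ω = algebraMap K E (y : K))
    (hx : x ∉ p) (hy : y ∈ p) : NP q p := by
  have hi : IsIntegral (𝓞 E) ω := by
    refine ⟨Polynomial.X ^ 2 - Polynomial.C (algebraMap (𝓞 K) (𝓞 E) x) * Polynomial.X +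
      Polynomial.C (algebraMap (𝓞 K) (𝓞 E) y), ?_, ?_⟩
    · monicity!
    · simp only [Polynomial.eval₂_add, Polynomial.eval₂_sub, Polynomial.eval₂_mul,
        Polynomial.eval₂_pow, Polynomial.eval₂_X, Polynomial.eval₂_C]
      have h3 : algebraMap (𝓞 E) E (algebraMap (𝓞 K) (𝓞 E) x) = algebraMap K E (x : K) := rfl
      have h4 : algebraMap (𝓞 E) E (algebraMap (𝓞 K) (𝓞 E) y) = algebraMap K E (y : K) := rfl
      rw [h3, h4, ← h1, ← h2]
      ring
  obtain ⟨w, hw⟩ := IsIntegrallyClosed.isIntegral_iff.mp hi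
  apply common q p hp w x y _ _ hx hy
  · apply RingOfIntegers.coe_injective
    rw [map_add, s_coe, coe_alg, ← h1]
    rw [hw]
  · apply RingOfIntegers.coe_injective
    rw [map_mul, s_coe, coe_alg, ← h2]
    rw [hw]

end NRPM

open NRPM

theorem specNRP : SpecNRP := by
  intro K E _ _ _ _ _ t s r a q hU p hp hp0
  have hmax : p.IsMaximal := hp.isMaximal hp0
  refine ⟨fun h2 => ?_, fun n b g h2 hn hnp hbn => ?_⟩
  · have ht := hU.ne
    have ha0 : a ≠ ⊥ := by
      rintro rfl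
      have := hU.sq
      rw [Ideal.bot_pow (by norm_num)] at this
      exact ht (Ideal.span_singleton_eq_bot.mp this.symm)
    have hap : ∃ α ∈ a, α ∉ a * p := by
      by_contra hcon
      push Not at hcon
      have h3 : a ≤ a * p := hcon
      have h4 : a * p = a * ⊤ := by
        rw [Ideal.mul_top]
        exact le_antisymm Ideal.mul_le_left h3
      exact hp.ne_top (mul_left_cancel₀ ha0 h4)
    obtain ⟨α, hα, hαp⟩ := hap
    have hα2 : ∃ β, α * α = t * β := by
      have : α * α ∈ a ^ 2 := by rw [pow_two]; exact Ideal.mul_mem_mul hα hα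
      rw [hU.sq, Ideal.mem_span_singleton] at this
      exact this
    obtain ⟨β, hβ⟩ := hα2
    have hs2 : s ∈ a := by
      have h5 : Ideal.span {s} ^ 2 ≤ a ^ 2 := by
        rw [Ideal.span_singleton_pow, Ideal.span_singleton_le_iff_mem, hU.sq,
          Ideal.mem_span_singleton]
        exact ⟨8 * r - 1, by linear_combination hU.eq⟩
      rw [← Ideal.dvd_iff_le] at h5
      have h6 : a ∣ Ideal.span {s} :=
        (UniqueFactorizationMonoid.pow_dvd_pow_iff_dvd two_ne_zero).mp h5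
      rw [Ideal.dvd_iff_le, Ideal.span_singleton_le_iff_mem] at h6
      exact h6
    have hγ : ∃ γ, α * s = t * γ := by
      have : α * s ∈ a ^ 2 := by rw [pow_two]; exact Ideal.mul_mem_mul hα hs2
      rw [hU.sq, Ideal.mem_span_singleton] at this
      exact this
    obtain ⟨γ, hγ⟩ := hγ
    have hβp : β ∉ p := by
      intro hβp
      apply hαp
      have h5 : Ideal.span {α} ≤ a := by rwa [Ideal.span_singleton_le_iff_mem]
      rw [← Ideal.dvd_iff_le] at h5
      obtain ⟨J, hJ⟩ := h5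
      have h6 : a ^ 2 * J ^ 2 ≤ a ^ 2 * p := by
        rw [← mul_pow, ← hJ, Ideal.span_singleton_pow, Ideal.span_singleton_le_iff_mem, pow_two α, hβ,
          hU.sq]
        exact Ideal.mul_mem_mul (Ideal.mem_span_singleton_self _) hβp
      rw [← Ideal.dvd_iff_le] at h6
      have h7 := (mul_dvd_mul_iff_left (pow_ne_zero 2 ha0)).mp h6
      rw [Ideal.dvd_iff_le] at h7
      have h8 : J ≤ p := by
        rw [pow_two] at h7
        exact (Ideal.IsPrime.mul_le hp |>.mp h7).elim id id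
      rw [← Ideal.span_singleton_le_iff_mem, hJ]
      exact Ideal.mul_mono_right h8
    have hg2 : γ ^ 2 = β * (8 * r - 1) := by
      have h9 : t ^ 2 * γ ^ 2 = t ^ 2 * (β * (8 * r - 1)) := by
        have h10 : (t * γ) * (t * γ) = (α * s) * (α * s) := by rw [hγ]
        linear_combination h10 + s ^ 2 * hβ + t * β * hU.eq
      exact mul_left_cancel₀ (pow_ne_zero 2 ht) h9
    have h8r : (8 * r - 1 : 𝓞 K) ∉ p := by
      intro h
      apply hp.ne_top
      rw [Ideal.eq_top_iff_one]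
      have h11 : (1 : 𝓞 K) = 2 * (4 * r) - (8 * r - 1) := by ring
      rw [h11]
      exact Ideal.sub_mem _ (Ideal.mul_mem_right _ _ h2) h
    have hγp : γ ∉ p := by
      intro h
      have h12 : γ ^ 2 ∈ p := by rw [pow_two]; exact Ideal.mul_mem_right _ _ h
      rw [hg2] at h12
      exact (hp.mem_or_mem h12).elim hβp h8r
    have htK : (t : K) ≠ 0 := by
      intro h
      exact ht (RingOfIntegers.coe_injective (by simpa using h))
    have htE : algebraMap K E (t : K) ≠ 0 := by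
      rw [Ne, map_eq_zero]; exact htK
    have hβE : algebraMap K E (α : K) ^ 2 = algebraMap K E (t : K) * algebraMap K E (β : K) := by
      rw [← map_pow, ← map_mul]
      congr 1
      have := congrArg (fun z : 𝓞 K => (z : K)) hβ
      simp only [map_mul] at this
      rw [pow_two]
      exact this
    have hg2E : algebraMap K E (γ : K) ^ 2 =
        algebraMap K E (β : K) * (8 * algebraMap K E (r : K) - 1) := by
      have h15 := congrArg (fun z : 𝓞 K => algebraMap K E (algebraMap (𝓞 K) K z)) hg2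
      have h16 : algebraMap (𝓞 K) K 8 = 8 := rfl
      have h17 : algebraMap K E 8 = 8 := map_ofNat _ 8
      simp only [map_mul, map_pow, map_sub, map_one, h16, h17] at h15
      exact h15
    apply common' q p hmax
      ((algebraMap K E (γ : K) + algebraMap K E (α : K) / algebraMap K E (t : K) * q.θ) / 2)
      γ (2 * (r * β)) _ _ hγp (Ideal.mul_mem_right _ _ h2)
    · simp only [map_div₀, map_add, map_mul, AlgEquiv.commutes, q.hσ, map_ofNat]
      ring
    · have h13 : algebraMap K E ((2 * (r * β) : 𝓞 K) : K) =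
          2 * (algebraMap K E (r : K) * algebraMap K E (β : K)) := by
        have h16 : algebraMap (𝓞 K) K 2 = 2 := rfl
        have h17 : algebraMap K E 2 = 2 := map_ofNat _ 2
        have h18 : algebraMap K E (algebraMap (𝓞 K) K (2 * (r * β))) =
            2 * (algebraMap K E (algebraMap (𝓞 K) K r) * algebraMap K E (algebraMap (𝓞 K) K β)) := by
          simp only [map_mul, h16, h17]
        exact h18
      rw [h13]
      simp only [map_div₀, map_add, map_mul, AlgEquiv.commutes, q.hσ, map_ofNat]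
      have h14 : (algebraMap K E (α : K) / algebraMap K E (t : K)) ^ 2 * q.θ ^ 2 =
          - algebraMap K E (β : K) := by
        rw [q.hθ, div_pow, hβE]
        field_simp
      linear_combination (1 / 4 : E) * hg2E - (1 / 4 : E) * h14
  · have hbp : b ∉ p := by
      intro h
      apply hnp
      have := Ideal.sub_mem p hbn (show b ^ 2 ∈ p by rw [pow_two]; exact Ideal.mul_mem_right _ _ h)
      simpa using this
    apply common' q p hmax (algebraMap K E (b : K) - algebraMap K E g * q.θ) (2 * b) (b ^ 2 + n) _ _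
      (fun h => (hp.mem_or_mem h).elim h2 hbp) hbn
    · simp only [map_sub, map_mul, AlgEquiv.commutes, q.hσ, map_ofNat]
      ring
    · have h13 : algebraMap K E ((b ^ 2 + n : 𝓞 K) : K) =
          algebraMap K E (b : K) ^ 2 + algebraMap K E (t : K) * algebraMap K E g ^ 2 := by
        have h18 : algebraMap K E (algebraMap (𝓞 K) K (b ^ 2 + n)) =
            algebraMap K E (algebraMap (𝓞 K) K b) ^ 2 + algebraMap K E (algebraMap (𝓞 K) K n) := by
          simp only [map_add, map_pow]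
        have h19 : algebraMap (𝓞 K) K n = (t : K) * g ^ 2 := hn
        rw [h19, map_mul, map_pow] at h18
        exact h18
      rw [h13]
      simp only [map_sub, map_mul, AlgEquiv.commutes, q.hσ]
      linear_combination -(algebraMap K E g) ^ 2 * q.hθ

end Pool.Agent.Lib.MPcb8a44.SX
end

section
/-!
# NS: norms modulo an ideal (Theorem X, MP_cb8a44_nt)
-/
set_option autoImplicit false

open NumberField Module
open scoped nonZeroDivisors

namespace Pool.Agent.Lib.MPcb8a44.SX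

namespace NSHM

variable {K E : Type} [Field K] [NumberField K] [Field E] [NumberField E] [Algebra K E] {t : K}
  (q : QE K E t)

theorem s_coe (x : 𝓞 E) : algebraMap (𝓞 E) E (q.s x) = q.σ (algebraMap (𝓞 E) E x) := rfl

omit [NumberField K] [NumberField E] in
theorem coe_alg (x : 𝓞 K) :
    algebraMap (𝓞 E) E (algebraMap (𝓞 K) (𝓞 E) x) = algebraMap K E (x : K) := rfl

theorem s_alg (x : 𝓞 K) : q.s (algebraMap (𝓞 K) (𝓞 E) x) = algebraMap (𝓞 K) (𝓞 E) x := by
  apply RingOfIntegers.coe_injective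
  rw [s_coe, coe_alg]
  exact q.σ.commutes _

theorem sig_sig (z : E) : q.σ (q.σ z) = z := by
  obtain ⟨a, b, rfl⟩ := q.rep z
  simp only [map_add, map_mul, AlgEquiv.commutes, q.hσ, map_neg]
  ring

/-- The fixed elements. -/
theorem fixed (z : 𝓞 E) (hz : q.s z = z) : ∃ y : 𝓞 K, z = algebraMap (𝓞 K) (𝓞 E) y := by
  obtain ⟨a, b, hab⟩ := q.rep (z : E)
  have h1 : q.σ (z : E) = (z : E) := by
    rw [← s_coe, hz]
  have h2 : (z : E) = algebraMap K E a := by
    have h3 : q.σ (z : E) = algebraMap K E a - algebraMap K E b * q.θ := by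
      rw [hab]
      simp only [map_add, map_mul, AlgEquiv.commutes, q.hσ]
      ring
    have h4 : (2 : E) * z = 2 * algebraMap K E a := by
      have : (z : E) + q.σ (z : E) = 2 * algebraMap K E a := by
        rw [h3, hab]; ring
      rw [h1] at this
      rw [← this]; ring
    exact mul_left_cancel₀ two_ne_zero h4
  have h5 : IsIntegral ℤ (algebraMap K E a) := by
    rw [← h2]; exact z.isIntegral_coe
  have h6 : IsIntegral ℤ a := (isIntegral_algebraMap_iff (algebraMap K E).injective).mp h5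
  refine ⟨⟨a, h6⟩, ?_⟩
  apply RingOfIntegers.coe_injective
  rw [coe_alg]
  exact h2

/-- The property. -/
def PN (m : Ideal (𝓞 K)) : Prop := ∀ x : 𝓞 K, Ideal.span {x} ⊔ m = ⊤ →
  ∃ (u : 𝓞 E) (y : 𝓞 K), u * q.s u = algebraMap (𝓞 K) (𝓞 E) y ∧ y - x ∈ m

theorem pn_mul (m₁ m₂ : Ideal (𝓞 K)) (h : m₁ ⊔ m₂ = ⊤) (h₁ : PN q m₁) (h₂ : PN q m₂) :
    PN q (m₁ * m₂) := by
  intro x hx
  have hx1 : Ideal.span {x} ⊔ m₁ = ⊤ :=
    eq_top_iff.mpr (hx ▸ sup_le_sup_left Ideal.mul_le_left _)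
  have hx2 : Ideal.span {x} ⊔ m₂ = ⊤ :=
    eq_top_iff.mpr (hx ▸ sup_le_sup_left Ideal.mul_le_right _)
  obtain ⟨u1, y1, hu1, hy1⟩ := h₁ x hx1
  obtain ⟨u2, y2, hu2, hy2⟩ := h₂ x hx2
  have hone : (1 : 𝓞 K) ∈ m₁ ⊔ m₂ := by rw [h]; trivial
  obtain ⟨e1, he1, e2, he2, he⟩ := Submodule.mem_sup.mp hone
  obtain ⟨T, hT⟩ := fixed q (u1 * q.s u2 + u2 * q.s u1) (by
    apply RingOfIntegers.coe_injective
    have hs : ∀ z : 𝓞 E, algebraMap (𝓞 E) E (q.s (q.s z)) = algebraMap (𝓞 E) E z := by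
      intro z; rw [s_coe, s_coe, sig_sig]
    rw [map_add, map_mul, map_mul, map_add, map_mul, map_mul, hs, hs]
    rw [map_add, map_mul, map_mul]
    ring)
  refine ⟨u1 * algebraMap (𝓞 K) (𝓞 E) e2 + u2 * algebraMap (𝓞 K) (𝓞 E) e1,
    y1 * e2 ^ 2 + y2 * e1 ^ 2 + e1 * e2 * T, ?_, ?_⟩
  · rw [map_add, map_mul, map_mul, s_alg, s_alg, map_add, map_add, map_mul, map_mul, map_mul,
      map_mul, map_pow, map_pow, ← hu1, ← hu2, ← hT]
    ring
  · have hc : m₁ * m₂ = m₁ ⊓ m₂ := Ideal.mul_eq_inf_of_coprime h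
    rw [hc]
    refine ⟨?_, ?_⟩
    · have : y1 * e2 ^ 2 + y2 * e1 ^ 2 + e1 * e2 * T - x =
          (y1 - x) + e1 * (y2 * e1 + e2 * T - y1 * (1 + e2)) := by
        have h1 : e2 = 1 - e1 := by rw [← he]; ring
        rw [h1]; ring
      rw [this]
      exact Ideal.add_mem _ hy1 (Ideal.mul_mem_right _ _ he1)
    · have : y1 * e2 ^ 2 + y2 * e1 ^ 2 + e1 * e2 * T - x =
          (y2 - x) + e2 * (y1 * e2 + e1 * T - y2 * (1 + e1)) := by
        have h1 : e1 = 1 - e2 := by rw [← he]; ring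
        rw [h1]; ring
      rw [this]
      exact Ideal.add_mem _ hy2 (Ideal.mul_mem_right _ _ he2)

/-- Integrality from the trace and the norm. -/
theorem integral (ω : E) (x y : 𝓞 K) (h1 : ω + q.σ ω = algebraMap K E (x : K))
    (h2 : ω * q.σ ω = algebraMap K E (y : K)) : ∃ w : 𝓞 E, (w : E) = ω ∧
      w + q.s w = algebraMap (𝓞 K) (𝓞 E) x ∧ w * q.s w = algebraMap (𝓞 K) (𝓞 E) y := by
  have hi : IsIntegral (𝓞 E) ω := by
    refine ⟨Polynomial.X ^ 2 - Polynomial.C (algebraMap (𝓞 K) (𝓞 E) x) * Polynomial.X +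
      Polynomial.C (algebraMap (𝓞 K) (𝓞 E) y), ?_, ?_⟩
    · monicity!
    · simp only [Polynomial.eval₂_add, Polynomial.eval₂_sub, Polynomial.eval₂_mul,
        Polynomial.eval₂_pow, Polynomial.eval₂_X, Polynomial.eval₂_C]
      have h3 : algebraMap (𝓞 E) E (algebraMap (𝓞 K) (𝓞 E) x) = algebraMap K E (x : K) := rfl
      have h4 : algebraMap (𝓞 E) E (algebraMap (𝓞 K) (𝓞 E) y) = algebraMap K E (y : K) := rfl
      rw [h3, h4, ← h1, ← h2]
      ring
  obtain ⟨w, hw⟩ := IsIntegrallyClosed.isIntegral_iff.mp hi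
  refine ⟨w, hw, ?_, ?_⟩
  · apply RingOfIntegers.coe_injective
    rw [map_add, s_coe, coe_alg, ← h1, hw]
  · apply RingOfIntegers.coe_injective
    rw [map_mul, s_coe, coe_alg, ← h2, hw]

end NSHM

namespace NSHM

variable {K E : Type} [Field K] [NumberField K] [Field E] [NumberField E] [Algebra K E]
  {t s r : 𝓞 K} {a : Ideal (𝓞 K)} (q : QE K E (t : K))

/-- An element `e` with trace `1` and norm `2 r`. -/
theorem exists_e (hU : UR t s r a) : ∃ e : 𝓞 E, e + q.s e = algebraMap (𝓞 K) (𝓞 E) 1 ∧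
    e * q.s e = algebraMap (𝓞 K) (𝓞 E) (2 * r) := by
  have htK : (t : K) ≠ 0 := by
    intro h
    exact hU.ne (RingOfIntegers.coe_injective (by simpa using h))
  have htE : algebraMap K E (t : K) ≠ 0 := by
    rw [Ne, map_eq_zero]; exact htK
  have heqE : algebraMap K E (s : K) ^ 2 + algebraMap K E (t : K) =
      8 * algebraMap K E (t : K) * algebraMap K E (r : K) := by
    have h15 := congrArg (fun z : 𝓞 K => algebraMap K E (algebraMap (𝓞 K) K z)) hU.eq
    have h16 : algebraMap (𝓞 K) K 8 = 8 := rfl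
    have h17 : algebraMap K E 8 = 8 := map_ofNat _ 8
    simp only [map_mul, map_pow, map_add, h16, h17] at h15
    exact h15
  obtain ⟨w, -, h1, h2⟩ := integral q
    ((1 - algebraMap K E (s : K) / algebraMap K E (t : K) * q.θ) / 2) 1 (2 * r) (by
      simp only [map_div₀, map_sub, map_mul, AlgEquiv.commutes, q.hσ, map_ofNat, map_one]
      ring) (by
      have h13 : algebraMap K E ((2 * r : 𝓞 K) : K) = 2 * algebraMap K E (r : K) := by
        have h16 : algebraMap (𝓞 K) K 2 = 2 := rfl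
        have h17 : algebraMap K E 2 = 2 := map_ofNat _ 2
        have h18 : algebraMap K E (algebraMap (𝓞 K) K (2 * r)) =
            2 * algebraMap K E (algebraMap (𝓞 K) K r) := by
          simp only [map_mul, h16, h17]
        exact h18
      rw [h13]
      simp only [map_div₀, map_sub, map_mul, AlgEquiv.commutes, q.hσ, map_ofNat, map_one]
      have h14 : (algebraMap K E (s : K) / algebraMap K E (t : K)) ^ 2 * q.θ ^ 2 =
          1 - 8 * algebraMap K E (r : K) := by
        rw [q.hθ, div_pow]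
        have h5 : algebraMap K E (s : K) ^ 2 =
            algebraMap K E (t : K) * (8 * algebraMap K E (r : K) - 1) := by
          linear_combination heqE
        rw [h5]
        field_simp
        ring
      linear_combination -(1 / 4 : E) * h14)
  exact ⟨w, h1, h2⟩

/-- Lifting. -/
theorem pn_pow (hU : UR t s r a) (p : Ideal (𝓞 K)) (hp : PN q p) (n : ℕ) :
    PN q (p ^ (n + 1)) := by
  induction n with
  | zero => simpa using hp
  | succ n ih =>
    intro x hx
    have hx1 : Ideal.span {x} ⊔ p ^ (n + 1) = ⊤ :=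
      eq_top_iff.mpr (hx ▸ sup_le_sup_left (Ideal.pow_le_pow_right (by omega)) _)
    obtain ⟨u, y, hu, hy⟩ := ih x hx1
    obtain ⟨e, he1, he2⟩ := exists_e q hU
    have hxp : Ideal.span {x} ⊔ p = ⊤ := eq_top_iff.mpr
      (hx ▸ sup_le_sup_left (by simpa using Ideal.pow_le_pow_right (I := p) (show 1 ≤ n + 1 + 1 by omega)) _)
    have hyp : Ideal.span {y} ⊔ p = ⊤ := by
      rw [Ideal.eq_top_iff_one] at hxp ⊢
      obtain ⟨z, hz, w, hw, hzw⟩ := Submodule.mem_sup.mp hxp
      obtain ⟨c, rfl⟩ := Ideal.mem_span_singleton'.mp hz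
      have hyx : y - x ∈ p := Ideal.pow_le_self (by omega) hy
      rw [Submodule.mem_sup]
      refine ⟨c * y, Ideal.mul_mem_left _ _ (Ideal.mem_span_singleton_self _),
        w - c * (y - x), Ideal.sub_mem _ hw (Ideal.mul_mem_left _ _ hyx), ?_⟩
      rw [← hzw]; ring
    have hyp2 : Ideal.span {y} ⊔ p ^ (n + 1 + 1) = ⊤ := by
      have : IsCoprime (Ideal.span {y}) p := Ideal.isCoprime_iff_sup_eq.mpr hyp
      exact Ideal.isCoprime_iff_sup_eq.mp this.pow_right
    rw [Ideal.eq_top_iff_one] at hyp2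
    obtain ⟨z, hz, w, hw, hzw⟩ := Submodule.mem_sup.mp hyp2
    obtain ⟨c, rfl⟩ := Ideal.mem_span_singleton'.mp hz
    -- `c y ≡ 1` modulo `p^(n+2)`
    set k := c * (x - y) with hk
    have hkp : k ∈ p ^ (n + 1) := by
      rw [hk]
      apply Ideal.mul_mem_left
      have : x - y = -(y - x) := by ring
      rw [this]
      exact (Ideal.neg_mem_iff _).mpr hy
    refine ⟨u * (1 + algebraMap (𝓞 K) (𝓞 E) k * e), y * (1 + k + k ^ 2 * (2 * r)), ?_, ?_⟩
    · rw [map_mul q.s, map_add q.s, map_mul q.s, s_alg, map_one]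
      have h3 : u * (1 + algebraMap (𝓞 K) (𝓞 E) k * e) *
          (q.s u * (1 + algebraMap (𝓞 K) (𝓞 E) k * q.s e)) = (u * q.s u) *
          (1 + algebraMap (𝓞 K) (𝓞 E) k * (e + q.s e) +
            algebraMap (𝓞 K) (𝓞 E) k ^ 2 * (e * q.s e)) := by ring
      rw [h3, hu, he1, he2]
      simp only [map_mul, map_add, map_one, map_pow]
      ring
    · have hk2 : k ^ 2 ∈ p ^ (n + 1 + 1) := by
        have : k ^ 2 ∈ (p ^ (n + 1)) ^ 2 := Ideal.pow_mem_pow hkp 2
        rw [← pow_mul] at this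
        exact Ideal.pow_le_pow_right (by omega) this
      have h4 : y * (1 + k + k ^ 2 * (2 * r)) - x =
          w * (y - x) + k ^ 2 * (y * (2 * r)) := by
        have h5 : c * y = 1 - w := by rw [← hzw]; ring
        rw [hk]
        linear_combination (x - y) * h5
      rw [h4]
      exact Ideal.add_mem _ (Ideal.mul_mem_right _ _ hw) (Ideal.mul_mem_right _ _ hk2)

/-- The primes above `2`. -/
theorem pn_two (p : Ideal (𝓞 K)) (hp : p.IsPrime) (hp0 : p ≠ ⊥) (h2 : (2 : 𝓞 K) ∈ p) :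
    PN q p := by
  intro x hx
  have hmax : p.IsMaximal := hp.isMaximal hp0
  let _ : Field (𝓞 K ⧸ p) := Ideal.Quotient.field p
  have _ : Finite (𝓞 K ⧸ p) := Ring.HasFiniteQuotients.finiteQuotient hp0
  have hchar : CharP (𝓞 K ⧸ p) 2 := by
    rw [CharP.charP_iff_prime_eq_zero Nat.prime_two]
    have : ((2 : ℕ) : 𝓞 K ⧸ p) = Ideal.Quotient.mk p 2 := rfl
    rw [this]
    exact Ideal.Quotient.eq_zero_iff_mem.mpr h2
  have hring : ringChar (𝓞 K ⧸ p) = 2 := ringChar.eq_iff.mpr hchar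
  obtain ⟨z, hz⟩ := FiniteField.isSquare_of_char_two hring (Ideal.Quotient.mk p x)
  obtain ⟨w, rfl⟩ := Ideal.Quotient.mk_surjective z
  refine ⟨algebraMap (𝓞 K) (𝓞 E) w, w * w, ?_, ?_⟩
  · rw [s_alg, map_mul]
  · rw [← Ideal.Quotient.eq, hz, map_mul]

theorem beta (hU : UR t s r a) (p : Ideal (𝓞 K)) (hp : p.IsPrime) :
    ∃ α β : 𝓞 K, α * α = t * β ∧ β ∉ p := by
  have ht := hU.ne
  have ha0 : a ≠ ⊥ := by
    rintro rfl
    have := hU.sq
    rw [Ideal.bot_pow (by norm_num)] at this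
    exact ht (Ideal.span_singleton_eq_bot.mp this.symm)
  have hap : ∃ α ∈ a, α ∉ a * p := by
    by_contra hcon
    push Not at hcon
    have h3 : a ≤ a * p := hcon
    have h4 : a * p = a * ⊤ := by
      rw [Ideal.mul_top]
      exact le_antisymm Ideal.mul_le_left h3
    exact hp.ne_top (mul_left_cancel₀ ha0 h4)
  obtain ⟨α, hα, hαp⟩ := hap
  have hα2 : ∃ β, α * α = t * β := by
    have : α * α ∈ a ^ 2 := by rw [pow_two]; exact Ideal.mul_mem_mul hα hα
    rw [hU.sq, Ideal.mem_span_singleton] at this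
    exact this
  obtain ⟨β, hβ⟩ := hα2
  refine ⟨α, β, hβ, ?_⟩
  intro hβp
  apply hαp
  have h5 : Ideal.span {α} ≤ a := by rwa [Ideal.span_singleton_le_iff_mem]
  rw [← Ideal.dvd_iff_le] at h5
  obtain ⟨J, hJ⟩ := h5
  have h6 : a ^ 2 * J ^ 2 ≤ a ^ 2 * p := by
    rw [← mul_pow, ← hJ, Ideal.span_singleton_pow, Ideal.span_singleton_le_iff_mem, pow_two α, hβ,
      hU.sq]
    exact Ideal.mul_mem_mul (Ideal.mem_span_singleton_self _) hβp
  rw [← Ideal.dvd_iff_le] at h6
  have h7 := (mul_dvd_mul_iff_left (pow_ne_zero 2 ha0)).mp h6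
  rw [Ideal.dvd_iff_le] at h7
  have h8 : J ≤ p := by
    rw [pow_two] at h7
    exact (Ideal.IsPrime.mul_le hp |>.mp h7).elim id id
  rw [← Ideal.span_singleton_le_iff_mem, hJ]
  exact Ideal.mul_mono_right h8

/-- The odd primes. -/
theorem pn_odd (hU : UR t s r a) (p : Ideal (𝓞 K)) (hp : p.IsPrime) (hp0 : p ≠ ⊥)
    (h2 : (2 : 𝓞 K) ∉ p) : PN q p := by
  intro x hx
  have hmax : p.IsMaximal := hp.isMaximal hp0
  let _ : Field (𝓞 K ⧸ p) := Ideal.Quotient.field p
  have _ : Finite (𝓞 K ⧸ p) := Ring.HasFiniteQuotients.finiteQuotient hp0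
  let _ : Fintype (𝓞 K ⧸ p) := Fintype.ofFinite _
  obtain ⟨α, β, hαβ, hβ⟩ := beta hU p hp
  have hβ0 : Ideal.Quotient.mk p β ≠ 0 := by
    rw [Ne, Ideal.Quotient.eq_zero_iff_mem]; exact hβ
  have hrc : ringChar (𝓞 K ⧸ p) ≠ 2 := by
    intro h
    have hch : CharP (𝓞 K ⧸ p) 2 := ringChar.eq_iff.mp h
    apply h2
    have : ((2 : ℕ) : 𝓞 K ⧸ p) = 0 := CharP.cast_eq_zero _ 2
    rw [← Ideal.Quotient.eq_zero_iff_mem]
    exact this
  have hodd : Fintype.card (𝓞 K ⧸ p) % 2 = 1 := FiniteField.odd_card_of_char_ne_two hrc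
  obtain ⟨A, B, hAB⟩ := FiniteField.exists_root_sum_quadratic
    (R := 𝓞 K ⧸ p) (f := Polynomial.X ^ 2 - Polynomial.C (Ideal.Quotient.mk p x))
    (g := Polynomial.C (Ideal.Quotient.mk p β) * Polynomial.X ^ 2)
    (by compute_degree!) (by rw [Polynomial.degree_C_mul_X_pow _ hβ0]; rfl) hodd
  obtain ⟨b1, rfl⟩ := Ideal.Quotient.mk_surjective A
  obtain ⟨b2, rfl⟩ := Ideal.Quotient.mk_surjective B
  simp only [Polynomial.eval_sub, Polynomial.eval_pow, Polynomial.eval_X, Polynomial.eval_C,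
    Polynomial.eval_mul] at hAB
  have htK : (t : K) ≠ 0 := by
    intro h
    exact hU.ne (RingOfIntegers.coe_injective (by simpa using h))
  have htE : algebraMap K E (t : K) ≠ 0 := by
    rw [Ne, map_eq_zero]; exact htK
  have hβE : algebraMap K E (α : K) ^ 2 = algebraMap K E (t : K) * algebraMap K E (β : K) := by
    rw [← map_pow, ← map_mul]
    congr 1
    have := congrArg (fun z : 𝓞 K => (z : K)) hαβ
    simp only [map_mul] at this
    rw [pow_two]
    exact this
  obtain ⟨w, -, -, hw⟩ := integral q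
    (algebraMap K E (b1 : K) + algebraMap K E (b2 : K) *
      (algebraMap K E (α : K) / algebraMap K E (t : K)) * q.θ) (2 * b1)
      (b1 ^ 2 + β * b2 ^ 2) (by
      have h13 : algebraMap K E ((2 * b1 : 𝓞 K) : K) = 2 * algebraMap K E (b1 : K) := by
        have h16 : algebraMap (𝓞 K) K 2 = 2 := rfl
        have h17 : algebraMap K E 2 = 2 := map_ofNat _ 2
        have h18 : algebraMap K E (algebraMap (𝓞 K) K (2 * b1)) =
            2 * algebraMap K E (algebraMap (𝓞 K) K b1) := by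
          simp only [map_mul, h16, h17]
        exact h18
      rw [h13]
      simp only [map_div₀, map_add, map_mul, AlgEquiv.commutes, q.hσ]
      ring) (by
      have h13 : algebraMap K E ((b1 ^ 2 + β * b2 ^ 2 : 𝓞 K) : K) =
          algebraMap K E (b1 : K) ^ 2 + algebraMap K E (β : K) * algebraMap K E (b2 : K) ^ 2 := by
        have h18 : algebraMap K E (algebraMap (𝓞 K) K (b1 ^ 2 + β * b2 ^ 2)) =
            algebraMap K E (algebraMap (𝓞 K) K b1) ^ 2 + algebraMap K E (algebraMap (𝓞 K) K β) *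
              algebraMap K E (algebraMap (𝓞 K) K b2) ^ 2 := by
          simp only [map_add, map_mul, map_pow]
        exact h18
      rw [h13]
      simp only [map_div₀, map_add, map_mul, AlgEquiv.commutes, q.hσ]
      have h14 : (algebraMap K E (α : K) / algebraMap K E (t : K)) ^ 2 * q.θ ^ 2 =
          - algebraMap K E (β : K) := by
        rw [q.hθ, div_pow, hβE]
        field_simp
      linear_combination -(algebraMap K E (b2 : K)) ^ 2 * h14)
  refine ⟨w, _, hw, ?_⟩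
  rw [← Ideal.Quotient.eq]
  simp only [map_add, map_mul, map_pow]
  linear_combination hAB

theorem pn_all (hU : UR t s r a) (m : Ideal (𝓞 K)) (hm : m ≠ ⊥) : PN q m := by
  classical
  induction m using UniqueFactorizationMonoid.induction_on_coprime with
  | h0 => exact absurd rfl hm
  | @h1 m hm1 =>
    intro x _
    refine ⟨1, 1, by simp, ?_⟩
    rw [Ideal.isUnit_iff.mp hm1]
    trivial
  | @hpr m i hpm =>
    rcases i with _ | n
    · intro x _
      refine ⟨1, 1, by simp, ?_⟩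
      rw [pow_zero, Ideal.one_eq_top]
      trivial
    · have hp0 : m ≠ ⊥ := hpm.ne_zero
      have hp : m.IsPrime := Ideal.isPrime_of_prime hpm
      apply pn_pow q hU
      by_cases h2 : (2 : 𝓞 K) ∈ m
      · exact pn_two q m hp hp0 h2
      · exact pn_odd q hU m hp hp0 h2
  | @hcp m n hc ih1 ih2 =>
    have h1 : m ≠ ⊥ := by rintro rfl; exact hm (Ideal.bot_mul _)
    have h2 : n ≠ ⊥ := by rintro rfl; exact hm (Ideal.mul_bot _)
    apply pn_mul q m n _ (ih1 h1) (ih2 h2)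
    have h3 : IsUnit (m ⊔ n) := hc (Ideal.dvd_iff_le.mpr le_sup_left)
      (Ideal.dvd_iff_le.mpr le_sup_right)
    exact Ideal.isUnit_iff.mp h3

end NSHM

theorem specNS : SpecNS := by
  intro K E _ _ _ _ _ t s r a q hU m hm x hx
  exact NSHM.pn_all q hU m hm x hx

end Pool.Agent.Lib.MPcb8a44.SX
end

section
/-!
# Theorem X (MP_cb8a44_nt), module NVC (helper25): complex characters

`P = L(s, 1)^3 L(s, ψ)^4 L(s, ψ²)`: `P' = - P (3 D_1 + 4 D_ψ + D_(ψ²))`, so `|P|²` is not increasing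
for real `s > 1`; if `L(1, ψ) = 0` it tends to `0` at `1`, so it is `0`; but it tends to `1` at `∞`.
-/
set_option autoImplicit false

open NumberField Module Filter Topology
open scoped nonZeroDivisors ComplexConjugate

namespace Pool.Agent.Lib.MPcb8a44.SX

namespace NVCM

variable {K : Type} [Field K] [NumberField K] {G : Type} [CommGroup G]

theorem norm_char [Finite G] (ψ : G →* ℂˣ) (x : G) : ‖(ψ x : ℂ)‖ = 1 := by
  have h1 : (ψ x) ^ Nat.card G = 1 := by rw [← map_pow, pow_card_eq_one', map_one]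
  have h2 : ((ψ x : ℂ)) ^ Nat.card G = 1 := by
    rw [← Units.val_pow_eq_pow_val, h1, Units.val_one]
  exact Complex.norm_eq_one_of_pow_eq_one h2 Nat.card_pos.ne'

theorem chf_mul (c : ID K →* G) (ψ : G →* ℂˣ) (I J : ID K) :
    chf c ψ (I * J) = chf c ψ I * chf c ψ J := by
  unfold chf
  rw [map_mul, map_mul, Units.val_mul]

theorem chf_one (c : ID K →* G) (ψ : G →* ℂˣ) : chf c ψ 1 = 1 := by
  unfold chf
  rw [map_one, map_one, Units.val_one]

theorem norm_chf [Finite G] (c : ID K →* G) (ψ : G →* ℂˣ) (I : ID K) : ‖chf c ψ I‖ = 1 :=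
  norm_char ψ _

theorem cf_one {g : ID K → ℂ} (hg : g 1 = 1) : cf g 1 = 1 := by
  have h1 : nn (1 : ID K) = 1 := by
    unfold nn
    rw [OneMemClass.coe_one, Ideal.one_eq_top, Ideal.absNorm_top]
  have h2 : ∀ I : {I : ID K // nn I = 1}, I = ⟨1, h1⟩ := by
    rintro ⟨I, hI⟩
    unfold nn at hI
    rw [Ideal.absNorm_eq_one_iff] at hI
    refine Subtype.ext (Subtype.ext ?_)
    simp only [OneMemClass.coe_one, Ideal.one_eq_top]
    exact hI
  unfold cf
  rw [tsum_eq_single ⟨1, h1⟩ fun I hI => absurd (h2 I) hI]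
  exact hg

/-- the terms of `Dt` -/
noncomputable def tm (g : ID K → ℂ) (s : ℂ) (x : PR K × ℕ) : ℂ :=
  g x.1.1 ^ (x.2 + 1) * (Real.log (nn x.1.1) : ℂ) * (nn x.1.1 : ℂ) ^ (-(((x.2 + 1 : ℕ) : ℂ) * s))

theorem tm_real (σ : ℝ) (x : PR K × ℕ) :
    ∃ r : ℝ, 0 ≤ r ∧ ∀ g : ID K → ℂ, tm g (σ : ℂ) x = g x.1.1 ^ (x.2 + 1) * (r : ℂ) := by
  refine ⟨Real.log (nn x.1.1) * (nn x.1.1 : ℝ) ^ (-(((x.2 + 1 : ℕ) : ℝ) * σ)),
    mul_nonneg (Real.log_natCast_nonneg _) (Real.rpow_nonneg (Nat.cast_nonneg _) _), fun g => ?_⟩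
  unfold tm
  rw [Complex.ofReal_mul, Complex.ofReal_cpow (Nat.cast_nonneg _), mul_assoc]
  push_cast
  rfl

theorem re_ineq {z : ℂ} (hz : ‖z‖ = 1) : 0 ≤ (3 + 4 * z + z ^ 2).re := by
  have h1 : z.re ^ 2 + z.im ^ 2 = 1 := by
    have := Complex.sq_norm z
    rw [hz, Complex.normSq_apply] at this
    nlinarith
  have h2 : (3 + 4 * z + z ^ 2).re = 3 + 4 * z.re + (z.re ^ 2 - z.im ^ 2) := by
    simp [sq]
  rw [h2]
  nlinarith [sq_nonneg (1 + z.re)]

end NVCM

open NVCM in
theorem specNVC (h1 : SpecLD) (h2 : SpecDS) (h3 : SpecENT) : SpecNVC := by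
  intro K _ _ hK G _ _ c hc ψ hψ F hF hFL hF1
  obtain ⟨⟨F₁, hF₁, hF₁L⟩, -⟩ := h3 K hK G c hc 1
  obtain ⟨F₂, hF₂, hF₂L⟩ := (h3 K hK G c hc (ψ ^ 2)).2 hψ
  have hsum := fun χ : G →* ℂˣ => (h2 K).2.1 (chf c χ) (fun I => (norm_chf c χ I).le)
  have hLD := fun χ : G →* ℂˣ => h1 K (chf c χ) (chf_mul c χ) (chf_one c χ)
    (fun I => (norm_chf c χ I).le)
  -- the inequality
  have hre : ∀ σ : ℝ, 1 < σ →
      0 ≤ (3 * Dt (chf c 1) σ + 4 * Dt (chf c ψ) σ + Dt (chf c (ψ ^ 2)) σ).re := by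
    intro σ hσ
    have hσ' : 1 < (σ : ℂ).re := by rwa [Complex.ofReal_re]
    have s1 : Summable (tm (chf c 1) σ) := (hLD 1 σ hσ').1
    have s2 : Summable (tm (chf c ψ) σ) := (hLD ψ σ hσ').1
    have s3 : Summable (tm (chf c (ψ ^ 2)) σ) := (hLD (ψ ^ 2) σ hσ').1
    have e1 : 3 * Dt (chf c 1) σ + 4 * Dt (chf c ψ) σ + Dt (chf c (ψ ^ 2)) σ =
        ∑' x, (3 * tm (chf c 1) σ x + 4 * tm (chf c ψ) σ x + tm (chf c (ψ ^ 2)) σ x) := by
      rw [((s1.mul_left 3).add (s2.mul_left 4)).tsum_add s3, (s1.mul_left 3).tsum_add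
        (s2.mul_left 4), tsum_mul_left, tsum_mul_left]
      rfl
    rw [e1, Complex.re_tsum (((s1.mul_left 3).add (s2.mul_left 4)).add s3)]
    refine tsum_nonneg fun x => ?_
    obtain ⟨r, hr, hx⟩ := tm_real σ x
    rw [hx, hx, hx]
    obtain ⟨z, hz⟩ : ∃ z, z = chf c ψ x.1.1 ^ (x.2 + 1) := ⟨_, rfl⟩
    have e2 : chf c (ψ ^ 2) x.1.1 ^ (x.2 + 1) = z ^ 2 := by
      rw [hz]
      unfold chf
      rw [MonoidHom.pow_apply, Units.val_pow_eq_pow_val, ← pow_mul, ← pow_mul, mul_comm]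
    have e3 : chf c 1 x.1.1 ^ (x.2 + 1) = 1 := by
      unfold chf
      rw [MonoidHom.one_apply, Units.val_one, one_pow]
    rw [e2, e3, ← hz]
    have hz1 : ‖z‖ = 1 := by rw [hz, norm_pow, norm_chf, one_pow]
    have e4 : 3 * (1 * (r : ℂ)) + 4 * (z * r) + z ^ 2 * r = (r : ℂ) * (3 + 4 * z + z ^ 2) := by
      ring
    rw [e4, Complex.re_ofReal_mul]
    exact mul_nonneg hr (re_ineq hz1)
  -- the product
  set L : (G →* ℂˣ) → ℝ → ℂ := fun χ σ => LSeries (cf (chf c χ)) (σ : ℂ) with hL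
  set P : ℝ → ℂ := fun σ => L 1 σ ^ 3 * L ψ σ ^ 4 * L (ψ ^ 2) σ with hP
  have hLder : ∀ (χ : G →* ℂˣ) (σ : ℝ), 1 < σ →
      HasDerivAt (L χ) (-(L χ σ * Dt (chf c χ) σ)) σ := by
    intro χ σ hσ
    exact ((hLD χ σ (by rwa [Complex.ofReal_re])).2).comp_ofReal
  have hPder : ∀ σ : ℝ, 1 < σ → HasDerivAt P
      (-(P σ * (3 * Dt (chf c 1) σ + 4 * Dt (chf c ψ) σ + Dt (chf c (ψ ^ 2)) σ))) σ := by
    intro σ hσ
    have h := (((hLder 1 σ hσ).pow 3).mul ((hLder ψ σ hσ).pow 4)).mul (hLder (ψ ^ 2) σ hσ)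
    refine h.congr_deriv ?_
    simp only [hP, Pi.mul_apply, Pi.pow_apply]
    push_cast
    ring
  have hanti : AntitoneOn (fun σ => ‖P σ‖ ^ 2) (Set.Ioi (1 : ℝ)) := by
    have hd : ∀ σ ∈ Set.Ioi (1 : ℝ), HasDerivAt (fun σ => ‖P σ‖ ^ 2)
        (2 * inner ℝ (P σ)
          (-(P σ * (3 * Dt (chf c 1) σ + 4 * Dt (chf c ψ) σ + Dt (chf c (ψ ^ 2)) σ)))) σ :=
      fun σ hσ => (hPder σ hσ).norm_sq
    refine antitoneOn_of_deriv_nonpos (convex_Ioi 1)
      (fun σ hσ => (hd σ hσ).continuousAt.continuousWithinAt)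
      (fun σ hσ => (hd σ (interior_subset hσ)).differentiableAt.differentiableWithinAt) ?_
    intro σ hσ
    rw [interior_Ioi] at hσ
    rw [(hd σ hσ).deriv, Complex.inner]
    have e1 : ∀ a b : ℂ, (-(a * b) * conj a).re = -(Complex.normSq a * b.re) := by
      intro a b
      rw [Complex.normSq_apply]
      simp only [Complex.mul_re, Complex.neg_re, Complex.neg_im, Complex.mul_im, Complex.conj_re,
        Complex.conj_im]
      ring
    rw [e1]
    have h4 := mul_nonneg (Complex.normSq_nonneg (P σ)) (hre σ hσ)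
    linarith
  -- near `1`
  have hlim1 : Tendsto (fun σ : ℝ => ‖P σ‖ ^ 2) (𝓝[>] 1) (𝓝 0) := by
    set Q : ℂ → ℂ := fun z => F₁ z ^ 3 * dslope F 1 z ^ 3 * F z * F₂ z with hQ
    have hQc : ContinuousAt Q 1 := by
      have h4 : ContinuousAt (dslope F 1) 1 := continuousAt_dslope_same.2 (hF 1)
      exact ((((hF₁ 1).continuousAt.pow 3).mul (h4.pow 3)).mul (hF 1).continuousAt).mul
        (hF₂ 1).continuousAt
    have hQ1 : Q 1 = 0 := by
      simp only [hQ, hF1, mul_zero, zero_mul]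
    have h5 : Tendsto (fun σ : ℝ => Q (σ : ℂ)) (𝓝[>] 1) (𝓝 0) := by
      have h6 : Tendsto (fun σ : ℝ => (σ : ℂ)) (𝓝[>] 1) (𝓝 1) := by
        have := (Complex.continuous_ofReal.tendsto (1 : ℝ))
        rw [Complex.ofReal_one] at this
        exact this.mono_left nhdsWithin_le_nhds
      have h7 := hQc.tendsto.comp h6
      rwa [hQ1] at h7
    have h8 : Tendsto (fun σ : ℝ => ‖Q (σ : ℂ)‖ ^ 2) (𝓝[>] 1) (𝓝 0) := by
      have := h5.norm.pow 2
      rwa [norm_zero, zero_pow two_ne_zero] at this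
    refine h8.congr' ?_
    filter_upwards [self_mem_nhdsWithin] with σ hσ
    have hσ' : 1 < (σ : ℂ).re := by rwa [Complex.ofReal_re]
    congr 2
    simp only [hQ, hP, hL]
    have e1 : ((σ : ℂ) - 1) * dslope F 1 (σ : ℂ) = F (σ : ℂ) := by
      have := sub_smul_dslope F 1 (σ : ℂ)
      rwa [hF1, sub_zero, smul_eq_mul] at this
    rw [hF₁L _ hσ', ← hFL _ hσ', ← hF₂L _ hσ']
    have e2 : F (σ : ℂ) ^ 4 = (((σ : ℂ) - 1) * dslope F 1 (σ : ℂ)) ^ 3 * F (σ : ℂ) := by
      rw [e1]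
      ring
    rw [e2]
    ring
  have hzero : ∀ σ : ℝ, 1 < σ → P σ = 0 := by
    intro σ hσ
    have h4 : ‖P σ‖ ^ 2 ≤ 0 := by
      refine ge_of_tendsto hlim1 ?_
      filter_upwards [Ioc_mem_nhdsGT hσ] with τ hτ
      exact hanti hτ.1 hσ hτ.2
    have h5 : ‖P σ‖ = 0 := by
      have := sq_nonneg ‖P σ‖
      nlinarith [norm_nonneg (P σ)]
    exact norm_eq_zero.1 h5
  -- at infinity
  have hinf : Tendsto P atTop (𝓝 1) := by
    have h4 : ∀ χ : G →* ℂˣ, Tendsto (L χ) atTop (𝓝 1) := by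
      intro χ
      have h5 : LSeries.abscissaOfAbsConv (cf (chf c χ)) < ⊤ := by
        refine lt_of_le_of_lt ((hsum χ 2 (by norm_num)).1.abscissaOfAbsConv_le) ?_
        exact EReal.coe_lt_top _
      have h6 := LSeries.tendsto_atTop h5
      rwa [cf_one (chf_one c χ)] at h6
    have h7 := (((h4 1).pow 3).mul ((h4 ψ).pow 4)).mul (h4 (ψ ^ 2))
    simpa using h7
  have h4 : Tendsto P atTop (𝓝 0) := by
    refine tendsto_const_nhds.congr' ?_
    filter_upwards [eventually_gt_atTop 1] with σ hσ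
    exact (hzero σ hσ).symm
  exact zero_ne_one (tendsto_nhds_unique h4 hinf)

end Pool.Agent.Lib.MPcb8a44.SX
end

section
/-!
# Theorem X, module REC: reciprocity (positivity of the norm)
-/
set_option autoImplicit false

open NumberField Module

namespace Pool.Agent.Lib.MPcb8a44.SX

open NPLM in
theorem specREC (h1 : SpecMIE) (h2 : SpecHH) (h3 : SpecBID) (h4 : SpecGSM) : SpecREC := by
  intro K E _ _ _ _ _ t s r a q hK ht hU Y hY hp
  obtain ⟨B, hB⟩ := h3 K E (t : K) q Y hY hp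
  have htK : (t : K) ≠ 0 := by
    intro h
    exact hU.ne (by exact_mod_cast h)
  obtain ⟨m, hm, hG⟩ := h4 K E (t : K) q htK
  obtain ⟨h, B1, y, hh, hcop, hB1, hy, hy1⟩ := h2 K E t s r a q hU Y hY B hB m hm
  -- `h σ(h)` is the image of a totally positive element
  obtain ⟨α, β, hαβ⟩ := q.rep h
  have hσh : q.σ h = algebraMap K E α - algebraMap K E β * q.θ := by
    rw [hαβ, map_add, map_mul, q.σ.commutes, q.σ.commutes, q.hσ]; ring
  have hN : h * q.σ h = algebraMap K E (α ^ 2 + (t : K) * β ^ 2) := by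
    rw [hσh, hαβ, map_add, map_mul, map_pow, map_pow]
    linear_combination -(algebraMap K E β) ^ 2 * q.hθ
  have hyK : (y : K) = (Y : K) * (α ^ 2 + (t : K) * β ^ 2) := by
    apply FaithfulSMul.algebraMap_injective K E
    rw [hy, hN, map_mul]
  have hpos : ∀ φ : K →+* ℂ, 0 < cj (α ^ 2 + (t : K) * β ^ 2) φ := by
    intro φ
    have e : cj (α ^ 2 + (t : K) * β ^ 2) φ = cj α φ ^ 2 + cj (t : K) φ * cj β φ ^ 2 := by
      rw [cj_add, pow_two, pow_two, cj_mul hK, cj_mul hK, cj_mul hK]; ring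
    rw [e]
    have htφ : 0 < cj (t : K) φ := ht φ
    by_cases hα : α = 0
    · have hβ : β ≠ 0 := by
        rintro rfl
        apply hh
        rw [hαβ, hα]; simp
      have : cj β φ ≠ 0 := fun h0 => hβ (cj_inj hK h0)
      have := pow_pos (abs_pos.2 this) 2
      rw [sq_abs] at this
      positivity
    · have : cj α φ ≠ 0 := fun h0 => hα (cj_inj hK h0)
      have := pow_pos (abs_pos.2 this) 2
      rw [sq_abs] at this
      positivity
  have hy0 : y ≠ 0 := by
    intro h0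
    have hyK0 : (y : K) = 0 := by rw [h0]; rfl
    rw [hyK0] at hyK
    rcases mul_eq_zero.1 hyK.symm with h' | h'
    · exact hY (by exact_mod_cast h')
    · obtain ⟨φ⟩ : Nonempty (K →+* ℂ) := inferInstance
      have := hpos φ
      rw [h'] at this
      simp [cj] at this
  obtain ⟨R, R1, hR, hR1, hGs⟩ := hG B1 y hy0 hB1 hcop hy1
  obtain ⟨c, hc, hGc⟩ := h1 K E (t : K) q hK ht y hy0 B1 hB1 R hR
  have htop : (⊤ : Ideal (𝓞 E)) * (⊤ : Ideal (𝓞 E)).map q.s =
      Ideal.span {algebraMap (𝓞 K) (𝓞 E) 1} := by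
    rw [Ideal.map_top, map_one, Ideal.span_singleton_one, Ideal.top_mul]
  obtain ⟨c1, hc1, hGc1⟩ := h1 K E (t : K) q hK ht 1 one_ne_zero ⊤ htop R1 hR1
  have hI : ((-Complex.I) ^ finrank ℚ K : ℂ) ≠ 0 := pow_ne_zero _ (neg_ne_zero.2 Complex.I_ne_zero)
  have hsign : (c : ℂ) * (((Algebra.norm ℤ y).sign : ℤ) : ℂ) = (c1 : ℂ) := by
    have e1 := hGc.symm.trans (hGs.trans hGc1)
    rw [map_one, Int.sign_one, Int.cast_one, mul_one] at e1
    apply mul_left_cancel₀ hI
    linear_combination e1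
  have hsy : 0 < Algebra.norm ℤ y := by
    have e2 : c * (((Algebra.norm ℤ y).sign : ℤ) : ℝ) = c1 := by exact_mod_cast hsign
    have e3 : 0 < (((Algebra.norm ℤ y).sign : ℤ) : ℝ) := by
      by_contra hcon
      rw [not_lt] at hcon
      nlinarith
    have e4 : 0 < (Algebra.norm ℤ y).sign := by exact_mod_cast e3
    exact Int.sign_pos_iff.1 e4
  have hprod : 0 < ((Algebra.norm ℤ Y : ℤ) : ℝ) * ((Algebra.norm ℤ y : ℤ) : ℝ) := by
    rw [norm_int_prod hK, norm_int_prod hK]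
    refine sign_prod _ _ _ fun φ _ => ?_
    rw [hyK, cj_mul hK]
    have hYφ : cj (Y : K) φ ≠ 0 := by
      intro h0
      exact hY (by exact_mod_cast cj_inj hK h0)
    have h5 := pow_pos (abs_pos.2 hYφ) 2
    rw [sq_abs] at h5
    have h6 := hpos φ
    have : cj (Y : K) φ * (cj (Y : K) φ * cj (α ^ 2 + (t : K) * β ^ 2) φ) =
        cj (Y : K) φ ^ 2 * cj (α ^ 2 + (t : K) * β ^ 2) φ := by ring
    rw [this]
    positivity
  have h7 := sign_eq_of_mul_pos hprod
  rw [Int.sign_eq_one_of_pos hsy] at h7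
  exact Int.sign_eq_one_iff_pos.1 h7

end Pool.Agent.Lib.MPcb8a44.SX
end
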