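import Pool.Agent.Lib.MP_cb8a44_nt.SX.Spec

section
/-!
# Theorem X (MP_cb8a44_nt), module NVR: real characters do not vanish at 1
-/
set_option autoImplicit false
set_option linter.style.longLine false

open NumberField Module
open scoped nonZeroDivisors

namespace Pool.Agent.Lib.MPcb8a44.SX
namespace NVRM

variable {K : Type} [Field K] [NumberField K]

theorem ne_zero (I : ID K) : (I : Ideal (𝓞 K)) ≠ 0 := nonZeroDivisors.coe_ne_zero I

theorem nn_mul (I J : ID K) : nn (I * J) = nn I * nn J := by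
  unfold nn
  rw [Submonoid.coe_mul, map_mul]

theorem nn_one : nn (1 : ID K) = 1 := by
  unfold nn
  rw [Submonoid.coe_one, map_one]

theorem nn_pow (I : ID K) (k : ℕ) : nn (I ^ k) = nn I ^ k := by
  unfold nn
  rw [SubmonoidClass.coe_pow, map_pow]

theorem nn_pos (I : ID K) : 0 < nn I := by
  unfold nn
  rw [Nat.pos_iff_ne_zero]
  intro h
  exact ne_zero I (Ideal.absNorm_eq_zero_iff.1 h)

theorem fin_nn (n : ℕ) : {I : ID K | nn I = n}.Finite := by
  have h := Ideal.finite_setOfPred_absNorm_eq (S := 𝓞 K) n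
  exact h.preimage Subtype.val_injective.injOn

noncomputable def FN (n : ℕ) : Finset (ID K) := (fin_nn (K := K) n).toFinset

theorem mem_FN {I : ID K} {n : ℕ} : I ∈ FN n ↔ nn I = n := by
  simp [FN]

theorem cf_eq (g : ID K → ℂ) (n : ℕ) : cf g n = ∑ I ∈ FN n, g I := by
  unfold cf
  rw [← Finset.tsum_subtype]
  refine (Equiv.tsum_eq (Equiv.subtypeEquivRight (fun I : ID K => ?_)) (fun I : {I : ID K // I ∈ FN n} => g I)).symm ▸ ?_
  · exact mem_FN.symm
  · rfl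

theorem dvd_iff (J A : ID K) : (J : Ideal (𝓞 K)) ∣ (A : Ideal (𝓞 K)) ↔ J ∣ A := by
  constructor
  · rintro ⟨C, hC⟩
    have hC0 : C ≠ 0 := by
      rintro rfl
      exact ne_zero A (by rw [hC, mul_zero])
    exact ⟨⟨C, mem_nonZeroDivisors_of_ne_zero hC0⟩, Subtype.ext hC⟩
  · rintro ⟨C, rfl⟩
    exact ⟨C, rfl⟩

theorem fin_dvd (A : ID K) : {J : ID K | J ∣ A}.Finite := by
  refine (Set.Finite.biUnion (Finset.finite_toSet (nn A).divisors) (fun n _ => fin_nn (K := K) n)).subset ?_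
  rintro J ⟨C, rfl⟩
  simp only [Set.mem_iUnion]
  refine ⟨nn J, ?_, rfl⟩
  rw [Finset.mem_coe, Nat.mem_divisors]
  exact ⟨⟨nn C, nn_mul J C⟩, (nn_pos _).ne'⟩

noncomputable def dv (A : ID K) : Finset (ID K) := (fin_dvd A).toFinset

theorem mem_dv {J A : ID K} : J ∈ dv A ↔ J ∣ A := by
  simp [dv]

/-- The convolution of `1` and `g`. -/
theorem conv (g : ID K → ℂ) (n : ℕ) (hn : n ≠ 0) :
    LSeries.convolution (cf fun _ : ID K => (1 : ℂ)) (cf g) n = ∑ A ∈ FN n, ∑ J ∈ dv A, g J := by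
  rw [LSeries.convolution_def]
  simp only [cf_eq, Finset.sum_mul_sum, one_mul]
  have h1 : ∀ p ∈ n.divisorsAntidiagonal,
      ∑ i ∈ (FN p.1 : Finset (ID K)), ∑ j ∈ FN p.2, g j =
        ∑ x ∈ (FN p.1 ×ˢ FN p.2 : Finset (ID K × ID K)), g x.2 := by
    intro p _
    rw [Finset.sum_product]
  rw [Finset.sum_congr rfl h1, Finset.sum_sigma', Finset.sum_sigma']
  refine Finset.sum_bij (fun x _ => ⟨x.2.1 * x.2.2, x.2.2⟩) ?_ ?_ ?_ ?_
  · rintro ⟨⟨k, m⟩, ⟨I, J⟩⟩ hx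
    simp only [Finset.mem_sigma, Nat.mem_divisorsAntidiagonal, Finset.mem_product, mem_FN, mem_dv] at hx ⊢
    obtain ⟨⟨h1, h2⟩, h3, h4⟩ := hx
    exact ⟨by rw [nn_mul, h3, h4, h1], Dvd.intro_left I rfl⟩
  · rintro ⟨⟨k, m⟩, ⟨I, J⟩⟩ hx ⟨⟨k', m'⟩, ⟨I', J'⟩⟩ hx' he
    simp only [Finset.mem_sigma, Nat.mem_divisorsAntidiagonal, Finset.mem_product, mem_FN] at hx hx'
    simp only [Sigma.mk.injEq, heq_eq_eq] at he
    obtain ⟨h1, h2⟩ := he
    subst h2
    have h3 : I = I' := by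
      have := congrArg (Subtype.val) h1
      simp only [Submonoid.coe_mul] at this
      exact Subtype.ext (mul_right_cancel₀ (ne_zero J) this)
    subst h3
    obtain ⟨_, h5, h6⟩ := hx
    obtain ⟨_, h7, h8⟩ := hx'
    subst h5 h6 h7 h8
    rfl
  · rintro ⟨A, J⟩ hx
    simp only [Finset.mem_sigma, mem_FN, mem_dv] at hx
    obtain ⟨h1, C, rfl⟩ := hx
    refine ⟨⟨(nn C, nn J), (C, J)⟩, ?_, ?_⟩
    · simp only [Finset.mem_sigma, Nat.mem_divisorsAntidiagonal, Finset.mem_product, mem_FN, and_true]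
      refine ⟨?_, hn⟩
      rw [← nn_mul, mul_comm, h1]
    · simp only [Sigma.mk.injEq, heq_eq_eq, and_true]
      exact mul_comm _ _
  · rintro ⟨⟨k, m⟩, ⟨I, J⟩⟩ hx
    rfl

noncomputable def D (r : ID K → ℝ) (A : ID K) : ℝ := ∑ J ∈ dv A, r J

theorem D_mul (r : ID K → ℝ) (hr : ∀ I J, r (I * J) = r I * r J) (x y : ID K)
    (h : IsRelPrime (x : Ideal (𝓞 K)) (y : Ideal (𝓞 K))) : D r (x * y) = D r x * D r y := by
  unfold D
  rw [Finset.sum_mul_sum, ← Finset.sum_product']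
  symm
  refine Finset.sum_bij (fun p _ => p.1 * p.2) ?_ ?_ ?_ ?_
  · rintro ⟨I, J⟩ hx
    simp only [Finset.mem_product, mem_dv] at hx ⊢
    exact mul_dvd_mul hx.1 hx.2
  · rintro ⟨I, J⟩ hx ⟨I', J'⟩ hx' he
    simp only [Finset.mem_product, mem_dv] at hx hx' he
    rw [← dvd_iff, ← dvd_iff] at hx hx'
    have he' : (I : Ideal (𝓞 K)) * J = I' * J' := congrArg Subtype.val he
    have hrel : ∀ a b : Ideal (𝓞 K), a ∣ x → b ∣ y → IsRelPrime a b := fun a b ha hb =>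
      fun d hd1 hd2 => h (hd1.trans ha) (hd2.trans hb)
    have h1 : (I : Ideal (𝓞 K)) ∣ I' :=
      (hrel _ _ hx.1 hx'.2).dvd_of_dvd_mul_right (he' ▸ Dvd.intro _ rfl)
    have h2 : (I' : Ideal (𝓞 K)) ∣ I :=
      (hrel _ _ hx'.1 hx.2).dvd_of_dvd_mul_right (he'.symm ▸ Dvd.intro _ rfl)
    have h3 : I = I' := Subtype.ext (dvd_antisymm h1 h2)
    subst h3
    have h4 : J = J' := Subtype.ext (mul_left_cancel₀ (ne_zero I) he')
    rw [h4]
  · intro A hA
    rw [mem_dv, ← dvd_iff, Submonoid.coe_mul] at hA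
    obtain ⟨a, b, ha, hb, hab⟩ := exists_dvd_and_dvd_of_dvd_mul hA
    have ha0 : a ≠ 0 := by
      rintro rfl
      exact ne_zero A (by rw [hab, zero_mul])
    have hb0 : b ≠ 0 := by
      rintro rfl
      exact ne_zero A (by rw [hab, mul_zero])
    refine ⟨(⟨a, mem_nonZeroDivisors_of_ne_zero ha0⟩, ⟨b, mem_nonZeroDivisors_of_ne_zero hb0⟩), ?_, ?_⟩
    · simp only [Finset.mem_product, mem_dv, ← dvd_iff]
      exact ⟨ha, hb⟩
    · exact Subtype.ext hab.symm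
  · rintro ⟨I, J⟩ _
    exact (hr I J).symm

theorem r_one (r : ID K → ℝ) (hr : ∀ I J, r (I * J) = r I * r J) (hs : ∀ I, r I = 1 ∨ r I = -1) :
    r 1 = 1 := by
  have h := hr 1 1
  rw [mul_one] at h
  rcases hs 1 with h1 | h1
  · exact h1
  · rw [h1] at h
    norm_num at h

theorem r_pow (r : ID K → ℝ) (hr : ∀ I J, r (I * J) = r I * r J) (hs : ∀ I, r I = 1 ∨ r I = -1)
    (I : ID K) (k : ℕ) : r (I ^ k) = r I ^ k := by
  induction k with
  | zero => rw [pow_zero, pow_zero, r_one r hr hs]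
  | succ k ih => rw [pow_succ, hr, ih, pow_succ]

theorem D_one (r : ID K → ℝ) (hr : ∀ I J, r (I * J) = r I * r J) (hs : ∀ I, r I = 1 ∨ r I = -1) :
    D r 1 = 1 := by
  have h : (dv 1 : Finset (ID K)) = {1} := by
    ext J
    rw [mem_dv, Finset.mem_singleton, ← dvd_iff, Submonoid.coe_one]
    constructor
    · intro h
      exact Subtype.ext (by simpa using dvd_antisymm h (one_dvd _))
    · rintro rfl
      exact dvd_refl _
  unfold D
  rw [h, Finset.sum_singleton, r_one r hr hs]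

theorem D_pp (r : ID K → ℝ) (hr : ∀ I J, r (I * J) = r I * r J) (hs : ∀ I, r I = 1 ∨ r I = -1)
    (p : ID K) (hp : Prime (p : Ideal (𝓞 K))) (k : ℕ) :
    D r (p ^ k) = ∑ i ∈ Finset.range (k + 1), r p ^ i := by
  have h2 : 2 ≤ nn p := by
    have h0 := nn_pos p
    have h1 : nn p ≠ 1 := by
      intro h
      unfold nn at h
      rw [Ideal.absNorm_eq_one_iff] at h
      exact hp.not_unit (Ideal.isUnit_iff.2 h)
    omega
  have h : dv (p ^ k) = (Finset.range (k + 1)).image (fun i => p ^ i) := by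
    ext J
    rw [mem_dv, ← dvd_iff, SubmonoidClass.coe_pow, dvd_prime_pow hp, Finset.mem_image]
    constructor
    · rintro ⟨i, hi, h⟩
      refine ⟨i, Finset.mem_range.2 (by omega), Subtype.ext ?_⟩
      rw [SubmonoidClass.coe_pow]
      exact (associated_iff_eq.1 h).symm
    · rintro ⟨i, hi, rfl⟩
      refine ⟨i, by have := Finset.mem_range.1 hi; omega, ?_⟩
      rw [SubmonoidClass.coe_pow]
      exact Associated.refl _
  unfold D
  rw [h, Finset.sum_image]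
  · exact Finset.sum_congr rfl fun i _ => r_pow r hr hs p i
  · intro i _ j _ hij
    have := congrArg nn hij
    simp only [nn_pow] at this
    exact Nat.pow_right_injective h2 this

theorem geo (x : ℝ) (hx : x = 1 ∨ x = -1) (k : ℕ) : 0 ≤ ∑ i ∈ Finset.range (k + 1), x ^ i ∧
    1 ≤ ∑ i ∈ Finset.range (2 * k + 1), x ^ i := by
  rcases hx with rfl | rfl
  · simp only [one_pow, Finset.sum_const, Finset.card_range, nsmul_eq_mul, mul_one]
    push_cast
    constructor <;> linarith [Nat.cast_nonneg (α := ℝ) k]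
  · rw [neg_one_geom_sum, neg_one_geom_sum]
    constructor
    · split_ifs <;> norm_num
    · rw [if_neg (by rw [Nat.not_even_iff_odd]; exact ⟨k, rfl⟩)]

theorem D_all (r : ID K → ℝ) (hr : ∀ I J, r (I * J) = r I * r J) (hs : ∀ I, r I = 1 ∨ r I = -1)
    (A : ID K) : 0 ≤ D r A ∧ 1 ≤ D r (A ^ 2) := by
  have main : ∀ B : Ideal (𝓞 K), ∀ h : B ∈ (Ideal (𝓞 K))⁰, 0 ≤ D r ⟨B, h⟩ ∧ 1 ≤ D r (⟨B, h⟩ ^ 2) := by
    intro B
    induction B using UniqueFactorizationMonoid.induction_on_coprime with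
    | h0 =>
      intro h
      exact absurd rfl (nonZeroDivisors.ne_zero h)
    | h1 hx =>
      intro h
      rename_i x
      have e : (⟨x, h⟩ : ID K) = 1 := Subtype.ext (by
        rw [Submonoid.coe_one]; exact isUnit_iff_eq_one.1 hx)
      rw [e, one_pow, D_one r hr hs]
      norm_num
    | hpr i hp =>
      intro h
      rename_i p
      have hp0 : p ∈ (Ideal (𝓞 K))⁰ := mem_nonZeroDivisors_of_ne_zero hp.ne_zero
      have e : (⟨p ^ i, h⟩ : ID K) = ⟨p, hp0⟩ ^ i := Subtype.ext (by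
        rw [SubmonoidClass.coe_pow])
      rw [e, ← pow_mul, D_pp r hr hs _ hp, D_pp r hr hs _ hp, mul_comm i 2]
      exact geo _ (hs _) i
    | hcp hxy hx hy =>
      intro h
      rename_i x y
      have h0 := nonZeroDivisors.ne_zero h
      have hx0 : x ∈ (Ideal (𝓞 K))⁰ := mem_nonZeroDivisors_of_ne_zero (left_ne_zero_of_mul h0)
      have hy0 : y ∈ (Ideal (𝓞 K))⁰ := mem_nonZeroDivisors_of_ne_zero (right_ne_zero_of_mul h0)
      have e : (⟨x * y, h⟩ : ID K) = ⟨x, hx0⟩ * ⟨y, hy0⟩ := Subtype.ext rfl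
      rw [e, mul_pow, D_mul r hr _ _ hxy, D_mul r hr (⟨x, hx0⟩ ^ 2) (⟨y, hy0⟩ ^ 2) (by
        rw [SubmonoidClass.coe_pow, SubmonoidClass.coe_pow]
        exact hxy.pow)]
      obtain ⟨a1, a2⟩ := hx hx0
      obtain ⟨b1, b2⟩ := hy hy0
      exact ⟨mul_nonneg a1 b1, by nlinarith⟩
  exact main A A.2

/-- The square of the ideal generated by `m + 1`. -/
noncomputable def sq (m : ℕ) : ID K :=
  ⟨Ideal.span {((m + 1 : ℕ) : 𝓞 K)}, mem_nonZeroDivisors_of_ne_zero (by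
    rw [Ne, Ideal.zero_eq_bot, Ideal.span_singleton_eq_bot]
    exact_mod_cast Nat.succ_ne_zero m)⟩ ^ 2

theorem nn_sq (m : ℕ) : nn (sq (K := K) m) = (m + 1) ^ (2 * finrank ℚ K) := by
  unfold sq
  rw [nn_pow]
  unfold nn
  rw [Ideal.absNorm_span_singleton]
  have h : Algebra.norm ℤ ((m + 1 : ℕ) : 𝓞 K) = ((m + 1 : ℕ) : ℤ) ^ finrank ℚ K := by
    have := Algebra.norm_algebraMap (S := 𝓞 K) (((m + 1 : ℕ) : ℤ))
    rw [RingOfIntegers.rank] at this
    rw [← this]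
    simp
  rw [h, Int.natAbs_pow, Int.natAbs_natCast, ← pow_mul, mul_comm]

end NVRM

open NVRM in
theorem specNVR (h1 : SpecLAND) (h2 : SpecDS) (h3 : SpecENT) : SpecNVR := by
  intro K _ _ hK G _ _ c hc ψ hψ hψ2 F hF hFL hF1
  obtain ⟨F0, hF0, hF0L⟩ := (h3 K hK G c hc 1).1
  obtain ⟨d1, d2, d3, d4⟩ := h2 K
  -- the real function
  set r : ID K → ℝ := fun I => ((ψ (c I) : ℂ)).re with hrdef
  have hval : ∀ I, (ψ (c I) : ℂ) = 1 ∨ (ψ (c I) : ℂ) = -1 := by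
    intro I
    have h := congrArg (fun χ : G →* ℂˣ => (χ (c I) : ℂ)) hψ2
    simp only [MonoidHom.pow_apply, Units.val_pow_eq_pow_val, MonoidHom.one_apply, Units.val_one] at h
    exact sq_eq_one_iff.1 h
  have hs : ∀ I, r I = 1 ∨ r I = -1 := by
    intro I
    rcases hval I with h | h <;> simp [hrdef, h]
  have hrC : ∀ I, ((r I : ℝ) : ℂ) = ψ (c I) := by
    intro I
    rcases hval I with h | h <;> simp [hrdef, h]
  have hr : ∀ I J, r (I * J) = r I * r J := by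
    intro I J
    have : ((r (I * J) : ℝ) : ℂ) = ((r I * r J : ℝ) : ℂ) := by
      rw [hrC, Complex.ofReal_mul, hrC, hrC, map_mul, map_mul, Units.val_mul]
    exact_mod_cast this
  -- the coefficients
  set a : ℕ → ℝ := fun n => ∑ A ∈ (FN n : Finset (ID K)), D r A with hadef
  have ha0 : ∀ n, 0 ≤ a n := fun n => Finset.sum_nonneg fun A _ => (D_all r hr hs A).1
  have haC : ∀ {n : ℕ}, n ≠ 0 →
      ((a n : ℝ) : ℂ) = LSeries.convolution (cf fun _ : ID K => (1 : ℂ)) (cf (chf c ψ)) n := by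
    intro n hn
    rw [conv _ n hn, hadef, Complex.ofReal_sum]
    refine Finset.sum_congr rfl fun A _ => ?_
    unfold D
    rw [Complex.ofReal_sum]
    exact Finset.sum_congr rfl fun J _ => hrC J
  have hn1 : ∀ I : ID K, ‖((fun _ : ID K => (1 : ℂ)) I)‖ ≤ 1 := fun I => by simp
  have hn2 : ∀ I : ID K, ‖chf c ψ I‖ ≤ 1 := fun I => by
    unfold chf
    rcases hval I with h | h <;> rw [h] <;> simp
  have hchf1 : chf c (1 : G →* ℂˣ) = fun _ : ID K => (1 : ℂ) := by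
    funext I
    simp [chf]
  rw [hchf1] at hF0L
  have hsum : ∀ s : ℂ, 1 < s.re → LSeriesSummable (fun n => ((a n : ℝ) : ℂ)) s := fun s hs1 =>
    (LSeriesSummable_congr s haC).2 ((d2 _ hn1 s hs1).1.convolution (d2 _ hn2 s hs1).1)
  have hds : Differentiable ℂ (dslope F 1) :=
    differentiableOn_univ.1 ((Complex.differentiableOn_dslope Filter.univ_mem).2 hF.differentiableOn)
  have heq : ∀ s : ℂ, 1 < s.re → F0 s * dslope F 1 s = LSeries (fun n => ((a n : ℝ) : ℂ)) s := by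
    intro s hs1
    have hne : s ≠ 1 := by
      rintro rfl
      simp at hs1
    rw [LSeries_congr haC s, LSeries_convolution' (d2 _ hn1 s hs1).1 (d2 _ hn2 s hs1).1,
      hF0L s hs1, dslope_of_ne _ hne, slope_def_field, hF1, sub_zero, hFL s hs1]
    field_simp [sub_ne_zero.2 hne]
  have hd : 0 < finrank ℚ K := finrank_pos
  have hL := h1 a ha0 hsum (fun s => F0 s * dslope F 1 s) (hF0.mul hds) heq
    (1 / (2 * finrank ℚ K : ℕ))
  -- the subsequence
  have hinj : Function.Injective fun m : ℕ => (m + 1) ^ (2 * finrank ℚ K) - 1 := by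
    intro m m' h
    have e1 : 1 ≤ (m + 1) ^ (2 * finrank ℚ K) := Nat.one_le_pow _ _ (Nat.succ_pos m)
    have e2 : 1 ≤ (m' + 1) ^ (2 * finrank ℚ K) := Nat.one_le_pow _ _ (Nat.succ_pos m')
    have e3 : (m + 1) ^ (2 * finrank ℚ K) = (m' + 1) ^ (2 * finrank ℚ K) := by
      simp only at h
      omega
    have e4 := Nat.pow_left_injective (by omega : 2 * finrank ℚ K ≠ 0) e3
    omega
  have hL2 := hL.comp_injective hinj
  have hbad : Summable fun m : ℕ => 1 / ((m + 1 : ℕ) : ℝ) := by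
    refine Summable.of_nonneg_of_le (fun m => by positivity) (fun m => ?_) hL2
    simp only [Function.comp]
    have e1 : 1 ≤ (m + 1) ^ (2 * finrank ℚ K) := Nat.one_le_pow _ _ (Nat.succ_pos m)
    rw [Nat.sub_add_cancel e1]
    have e2 : 1 ≤ a ((m + 1) ^ (2 * finrank ℚ K)) := by
      have h5 : sq (K := K) m ∈ FN ((m + 1) ^ (2 * finrank ℚ K)) := mem_FN.2 (nn_sq m)
      refine le_trans ?_ (Finset.single_le_sum (f := fun A => D r A)
        (fun A _ => (D_all r hr hs A).1) h5)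
      exact (D_all r hr hs _).2
    have e3 : (((m + 1) ^ (2 * finrank ℚ K) : ℕ) : ℝ) ^ (-(1 / ((2 * finrank ℚ K : ℕ) : ℝ))) =
        1 / ((m + 1 : ℕ) : ℝ) := by
      rw [Real.rpow_neg (by positivity), one_div, Nat.cast_pow,
        Real.pow_rpow_inv_natCast (by positivity) (by omega), one_div]
    rw [e3]
    have e4 : (0 : ℝ) < 1 / ((m + 1 : ℕ) : ℝ) := by positivity
    nlinarith
  exact Real.not_summable_one_div_natCast ((summable_nat_add_iff 1).1 hbad)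

end Pool.Agent.Lib.MPcb8a44.SX
end

section
/-!
# Theorem X (MP_cb8a44_nt): module PART (smooth partition of unity for the units of norm 1)
-/
set_option autoImplicit false
set_option linter.style.longLine false

open NumberField Module MeasureTheory
open scoped nonZeroDivisors Topology

namespace Pool.Agent.Lib.MPcb8a44.SX

namespace PARTM

set_option linter.unusedSectionVars false

variable {K : Type} [Field K] [NumberField K]

/-- The action of a unit on the vectors. -/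
noncomputable def act (u : (𝓞 K)ˣ) (z : (K →+* ℂ) → ℝ) : (K →+* ℂ) → ℝ :=
  fun φ => cj ((u : 𝓞 K) : K) φ * z φ

lemma cj_mul (hK : TR K) (x y : K) (φ : K →+* ℂ) : cj (x * y) φ = cj x φ * cj y φ := by
  simp only [cj, map_mul, Complex.mul_re, hK φ x, hK φ y]
  ring

lemma act_mul (hK : TR K) (u v : (𝓞 K)ˣ) (z : (K →+* ℂ) → ℝ) :
    act u (act v z) = act (u * v) z := by
  funext φ
  have : (((u * v : (𝓞 K)ˣ) : 𝓞 K) : K) = ((u : 𝓞 K) : K) * ((v : 𝓞 K) : K) := by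
    push_cast
    rfl
  simp only [act, this, cj_mul hK]
  ring

lemma cj_ofReal (hK : TR K) (x : K) (φ : K →+* ℂ) : ((cj x φ : ℝ) : ℂ) = φ x := by
  apply Complex.ext
  · simp [cj]
  · simp [cj, hK φ x]

lemma prod_cj (hK : TR K) (x : 𝓞 K) : ∏ φ, cj (x : K) φ = (Algebra.norm ℤ x : ℝ) := by
  have h1 := Algebra.norm_eq_prod_embeddings ℚ ℂ (x : K)
  have h2 : ∏ σ : K →ₐ[ℚ] ℂ, σ (x : K) = ∏ φ : K →+* ℂ, φ (x : K) := by
    refine (Fintype.prod_equiv (RingHom.equivRatAlgHom K ℂ) (fun φ : K →+* ℂ => φ (x : K))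
      (fun σ : K →ₐ[ℚ] ℂ => σ (x : K)) ?_).symm
    intro φ
    rfl
  rw [h2] at h1
  have h3 : (Algebra.norm ℚ (x : K) : ℚ) = ((Algebra.norm ℤ x : ℤ) : ℚ) :=
    (Algebra.coe_norm_int x).symm
  rw [h3] at h1
  have h4 : ((∏ φ, cj (x : K) φ : ℝ) : ℂ) = ((Algebra.norm ℤ x : ℝ) : ℂ) := by
    rw [Complex.ofReal_prod]
    simp_rw [cj_ofReal hK]
    rw [← h1]
    simp
  exact_mod_cast h4

lemma prod_act (hK : TR K) {u : (𝓞 K)ˣ} (hu : u ∈ U1 K) (z : (K →+* ℂ) → ℝ) :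
    ∏ φ, act u z φ = ∏ φ, z φ := by
  simp only [act, Finset.prod_mul_distrib]
  rw [prod_cj hK]
  have : Algebra.norm ℤ (u : 𝓞 K) = 1 := hu
  rw [this]
  simp

lemma U1_mul {u v : (𝓞 K)ˣ} (hu : u ∈ U1 K) (hv : v ∈ U1 K) : u * v ∈ U1 K := by
  have h1 : Algebra.norm ℤ (u : 𝓞 K) = 1 := hu
  have h2 : Algebra.norm ℤ (v : 𝓞 K) = 1 := hv
  show Algebra.norm ℤ ((u * v : (𝓞 K)ˣ) : 𝓞 K) = 1
  rw [Units.val_mul, map_mul, h1, h2, one_mul]

lemma U1_inv {u : (𝓞 K)ˣ} (hu : u ∈ U1 K) : u⁻¹ ∈ U1 K := by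
  have h1 : Algebra.norm ℤ (u : 𝓞 K) = 1 := hu
  show Algebra.norm ℤ ((u⁻¹ : (𝓞 K)ˣ) : 𝓞 K) = 1
  have h2 : Algebra.norm ℤ ((u : 𝓞 K) * ((u⁻¹ : (𝓞 K)ˣ) : 𝓞 K)) = 1 := by
    rw [Units.mul_inv, map_one]
  rw [map_mul, h1, one_mul] at h2
  exact h2

lemma U1_sq (u : (𝓞 K)ˣ) : u * u ∈ U1 K := by
  show Algebra.norm ℤ ((u * u : (𝓞 K)ˣ) : 𝓞 K) = 1
  rw [Units.val_mul, map_mul]
  have h1 : IsUnit (Algebra.norm ℤ (u : 𝓞 K)) := u.isUnit.map _
  rcases Int.isUnit_iff.mp h1 with h | h <;> rw [h] <;> norm_num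

/-- Right multiplication by a unit of norm 1. -/
noncomputable def mulU1 (v : (𝓞 K)ˣ) (hv : v ∈ U1 K) : U1 K ≃ U1 K where
  toFun u := ⟨u.1 * v, U1_mul u.2 hv⟩
  invFun u := ⟨u.1 * v⁻¹, U1_mul u.2 (U1_inv hv)⟩
  left_inv u := by simp
  right_inv u := by simp

lemma north (hK : TR K) (M : ℝ) :
    {u : (𝓞 K)ˣ | ∀ φ, |cj ((u : 𝓞 K) : K) φ| ≤ M}.Finite := by
  have h1 := NumberField.Embeddings.finite_of_norm_le K ℂ M
  have h2 : Function.Injective (fun u : (𝓞 K)ˣ => ((u : 𝓞 K) : K)) := by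
    intro u v h
    apply Units.ext
    exact RingOfIntegers.ext h
  refine (h1.preimage (h2.injOn)).subset ?_
  intro u hu
  refine ⟨RingOfIntegers.isIntegral_coe _, fun φ => ?_⟩
  have : ‖φ ((u : 𝓞 K) : K)‖ = |cj ((u : 𝓞 K) : K) φ| := by
    rw [← cj_ofReal hK, Complex.norm_real, Real.norm_eq_abs]
  rw [this]
  exact hu φ

/-- Local finiteness. -/
lemma locfin (hK : TR K) {η : ((K →+* ℂ) → ℝ) → ℝ} (hη : HasCompactSupport η)
    {z₀ : (K →+* ℂ) → ℝ} (hz₀ : ∀ φ, z₀ φ ≠ 0) :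
    ∃ F : Set (𝓞 K)ˣ, F.Finite ∧ ∀ᶠ z in 𝓝 z₀, ∀ u : (𝓞 K)ˣ, η (act u z) ≠ 0 → u ∈ F := by
  obtain ⟨R, hR⟩ := (hη.isCompact.isBounded).exists_norm_le
  have hR' : ∀ z, η z ≠ 0 → ∀ φ, |z φ| ≤ R := by
    intro z hz φ
    have h1 : ‖z‖ ≤ R := hR z (subset_tsupport _ hz)
    exact (norm_le_pi_norm z φ).trans h1
  have hpos : ∀ φ, 0 < |z₀ φ| / 2 := fun φ => by have := abs_pos.mpr (hz₀ φ); linarith
  obtain ⟨c, hc, hcz⟩ : ∃ c : ℝ, 0 < c ∧ ∀ φ, c ≤ |z₀ φ| / 2 := by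
    have hne : (Finset.univ : Finset (K →+* ℂ)).Nonempty := Finset.univ_nonempty
    obtain ⟨φ₀, -, h⟩ := Finset.exists_min_image Finset.univ (fun φ => |z₀ φ| / 2) hne
    exact ⟨_, hpos φ₀, fun φ => h φ (Finset.mem_univ _)⟩
  refine ⟨_, north hK (R / c), ?_⟩
  have hev : ∀ᶠ z in 𝓝 z₀, ∀ φ, c < |z φ| := by
    rw [Filter.eventually_all]
    intro φ
    have h1 : c < |z₀ φ| := by have := hpos φ; have := hcz φ; linarith
    have h2 : Continuous fun z : (K →+* ℂ) → ℝ => |z φ| := (continuous_apply φ).abs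
    exact h2.continuousAt.eventually (lt_mem_nhds h1)
  filter_upwards [hev] with z hz u hu φ
  have h1 := hR' _ hu φ
  simp only [act, abs_mul] at h1
  rw [le_div_iff₀ hc]
  calc |cj ((u : 𝓞 K) : K) φ| * c ≤ |cj ((u : 𝓞 K) : K) φ| * |z φ| :=
        mul_le_mul_of_nonneg_left (hz φ).le (abs_nonneg _)
    _ ≤ R := h1

/-- The sum over the units of norm 1. -/
noncomputable def Hs (η : ((K →+* ℂ) → ℝ) → ℝ) (z : (K →+* ℂ) → ℝ) : ℝ :=
  ∑' u : U1 K, η (act (u : (𝓞 K)ˣ) z)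

lemma Hs_inv (hK : TR K) (η : ((K →+* ℂ) → ℝ) → ℝ) (z : (K →+* ℂ) → ℝ) {v : (𝓞 K)ˣ}
    (hv : v ∈ U1 K) : Hs η (act v z) = Hs η z := by
  have h1 := (mulU1 v hv).tsum_eq (fun u : U1 K => η (act (u : (𝓞 K)ˣ) z))
  unfold Hs
  rw [← h1]
  refine tsum_congr fun u => ?_
  rw [act_mul hK]
  rfl

lemma act_contDiff (u : (𝓞 K)ˣ) : ContDiff ℝ (⊤ : ℕ∞) (fun z : (K →+* ℂ) → ℝ => act u z) := by
  rw [contDiff_pi]
  intro φ
  exact contDiff_const.mul (contDiff_apply ℝ ℝ φ)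

lemma Hs_smooth (hK : TR K) {η : ((K →+* ℂ) → ℝ) → ℝ} (hη : HasCompactSupport η)
    (hs : ContDiff ℝ (⊤ : ℕ∞) η) {z₀ : (K →+* ℂ) → ℝ} (hz₀ : ∀ φ, z₀ φ ≠ 0) :
    ContDiffAt ℝ (⊤ : ℕ∞) (Hs η) z₀ := by
  obtain ⟨F, hF, hev⟩ := locfin hK hη hz₀
  have hF' : ((Subtype.val : U1 K → (𝓞 K)ˣ) ⁻¹' F).Finite :=
    hF.preimage Subtype.val_injective.injOn
  have h1 : Hs η =ᶠ[𝓝 z₀] fun z => ∑ u ∈ hF'.toFinset, η (act (u : (𝓞 K)ˣ) z) := by
    filter_upwards [hev] with z hz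
    unfold Hs
    refine tsum_eq_sum fun u hu => ?_
    by_contra h
    exact hu (hF'.mem_toFinset.mpr (hz u h))
  refine ContDiffAt.congr_of_eventuallyEq ?_ h1
  refine ContDiff.contDiffAt ?_
  exact ContDiff.sum fun u _ => hs.comp (act_contDiff _)

lemma finz (hK : TR K) {η : ((K →+* ℂ) → ℝ) → ℝ} (hη : HasCompactSupport η)
    {z : (K →+* ℂ) → ℝ} (hz : ∀ φ, z φ ≠ 0) : {u : (𝓞 K)ˣ | η (act u z) ≠ 0}.Finite := by
  obtain ⟨F, hF, hev⟩ := locfin hK hη hz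
  exact hF.subset fun u hu => hev.self_of_nhds u hu

lemma Hs_pos (hK : TR K) {η : ((K →+* ℂ) → ℝ) → ℝ} (hη : HasCompactSupport η)
    (h0 : ∀ z, 0 ≤ η z) {z : (K →+* ℂ) → ℝ} (hz : ∀ φ, z φ ≠ 0) {v : (𝓞 K)ˣ} (hv : v ∈ U1 K)
    (hp : 0 < η (act v z)) : 0 < Hs η z := by
  have hs : Summable fun u : U1 K => η (act (u : (𝓞 K)ˣ) z) := by
    refine summable_of_hasFiniteSupport ?_
    exact ((finz hK hη hz).preimage Subtype.val_injective.injOn)
  exact hs.tsum_pos (fun u => h0 _) ⟨v, hv⟩ hp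

end PARTM

open PARTM in
theorem specPART (h : SpecBAL) : SpecPART := by
  intro K _ _ hK f hf
  obtain ⟨B, hB1, hB⟩ := h K hK
  have hprodc : Continuous fun z : (K →+* ℂ) → ℝ => ∏ φ, z φ := by fun_prop
  have hprods : ContDiff ℝ (⊤ : ℕ∞) fun z : (K →+* ℂ) → ℝ => ∏ φ, z φ :=
    contDiff_prod fun φ _ => contDiff_apply ℝ ℝ φ
  -- the compact set
  set S : Set ((K →+* ℂ) → ℝ) := {z | ∏ φ, z φ ∈ tsupport f ∧ ∀ φ ψ, |z φ| ≤ B * |z ψ|} with hS
  have hScl : IsClosed S := by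
    refine IsClosed.inter ((isClosed_tsupport f).preimage hprodc) ?_
    have : {z : (K →+* ℂ) → ℝ | ∀ φ ψ, |z φ| ≤ B * |z ψ|} = ⋂ φ, ⋂ ψ, {z | |z φ| ≤ B * |z ψ|} := by
      ext z; simp
    show IsClosed {z : (K →+* ℂ) → ℝ | ∀ φ ψ, |z φ| ≤ B * |z ψ|}
    rw [this]
    refine isClosed_iInter fun φ => isClosed_iInter fun ψ => isClosed_le (by fun_prop) (by fun_prop)
  obtain ⟨β, hβ⟩ := (hf.cpt.isCompact.isBounded).exists_norm_le
  have hSb : ∀ z ∈ S, ‖z‖ ≤ max 1 (B ^ Fintype.card (K →+* ℂ) * β) := by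
    rintro z ⟨h1, h2⟩
    rw [pi_norm_le_iff_of_nonneg (le_trans zero_le_one (le_max_left _ _))]
    intro φ
    have h3 : |z φ| ^ Fintype.card (K →+* ℂ) ≤ B ^ Fintype.card (K →+* ℂ) * β := by
      calc |z φ| ^ Fintype.card (K →+* ℂ) = ∏ ψ : K →+* ℂ, |z φ| := by
            rw [Finset.prod_const, Finset.card_univ]
        _ ≤ ∏ ψ : K →+* ℂ, (B * |z ψ|) :=
            Finset.prod_le_prod (fun _ _ => abs_nonneg _) (fun ψ _ => h2 φ ψ)
        _ = B ^ Fintype.card (K →+* ℂ) * |∏ ψ, z ψ| := by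
            rw [Finset.prod_mul_distrib, Finset.prod_const, Finset.card_univ, Finset.abs_prod]
        _ ≤ _ := by
            refine mul_le_mul_of_nonneg_left (hβ _ h1) (by positivity)
    rw [Real.norm_eq_abs]
    rcases le_total (|z φ|) 1 with h4 | h4
    · exact h4.trans (le_max_left _ _)
    · refine le_trans (le_trans ?_ h3) (le_max_right _ _)
      exact le_self_pow₀ h4 (Fintype.card_ne_zero)
  have hSc : IsCompact S :=
    Metric.isCompact_of_isClosed_isBounded hScl (isBounded_iff_forall_norm_le.mpr ⟨_, hSb⟩)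
  have hDo : IsOpen {z : (K →+* ℂ) → ℝ | 0 < ∏ φ, z φ} := isOpen_lt continuous_const hprodc
  obtain ⟨V, hVo, hSV, hVD, hVc⟩ := exists_open_between_and_isCompact_closure hSc hDo
    (fun z hz => hf.pos hz.1)
  obtain ⟨η, hηs, hηc, hηr⟩ := hVo.exists_contDiff_support_eq (n := ⊤)
  have h0 : ∀ z, 0 ≤ η z := fun z => (hηr ⟨z, rfl⟩).1
  have hηk : HasCompactSupport η := by
    unfold HasCompactSupport tsupport
    rw [hηs]
    exact hVc
  have hf0 : ∀ x, x ≤ 0 → f x = 0 := by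
    intro x hx
    by_contra h1
    have : x ∈ Set.Ioi (0 : ℝ) := hf.pos (subset_tsupport f h1)
    exact absurd hx (not_le.mpr this)
  have hnz : ∀ z : (K →+* ℂ) → ℝ, 0 < ∏ φ, z φ → ∀ φ, z φ ≠ 0 := by
    intro z hz φ h1
    rw [Finset.prod_eq_zero (Finset.mem_univ φ) h1] at hz
    exact lt_irrefl _ hz
  have hHpos : ∀ z : (K →+* ℂ) → ℝ, ∏ φ, z φ ∈ tsupport f → 0 < Hs η z := by
    intro z hz
    have hz0 := hnz z (hf.pos hz)
    obtain ⟨u, hu⟩ := hB z hz0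
    refine Hs_pos hK hηk h0 hz0 (U1_sq u) ?_
    have hmem : act (u * u) z ∈ V := by
      apply hSV
      refine ⟨?_, ?_⟩
      · rw [prod_act hK (U1_sq u)]
        exact hz
      · intro φ ψ
        have : ∀ φ, act (u * u) z φ = cj ((u : 𝓞 K) : K) φ ^ 2 * z φ := by
          intro φ
          rw [← act_mul hK]
          simp only [act]
          ring
        rw [this φ, this ψ]
        exact hu φ ψ
    have hne : η (act (u * u) z) ≠ 0 := by
      have : act (u * u) z ∈ Function.support η := hηs ▸ hmem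
      exact this
    exact lt_of_le_of_ne (h0 _) (Ne.symm hne)
  refine ⟨fun z => f (∏ φ, z φ) * η z / Hs η z, ?_, ?_, ?_, ?_⟩
  · rw [contDiff_iff_contDiffAt]
    intro z₀
    by_cases hz : ∏ φ, z₀ φ ∈ tsupport f
    · have h1 := Hs_smooth hK hηk hηc (hnz z₀ (hf.pos hz))
      exact ((hf.smooth.comp hprods).mul hηc).contDiffAt.div h1 (hHpos z₀ hz).ne'
    · have h1 : ∀ᶠ z in 𝓝 z₀, ∏ φ, z φ ∉ tsupport f :=
        hprodc.continuousAt.eventually ((isClosed_tsupport f).isOpen_compl.mem_nhds hz)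
      have h2 : (fun z : (K →+* ℂ) → ℝ => f (∏ φ, z φ) * η z / Hs η z) =ᶠ[𝓝 z₀] fun _ => 0 := by
        filter_upwards [h1] with z hz'
        rw [image_eq_zero_of_notMem_tsupport hz']
        simp
      exact ContDiffAt.congr_of_eventuallyEq contDiffAt_const h2
  · refine hηk.mono fun z hz => ?_
    intro h1
    apply hz
    simp [h1]
  · rintro z ⟨φ, hφ⟩
    have : ∏ φ, z φ = 0 := Finset.prod_eq_zero (Finset.mem_univ φ) hφ
    simp only [this, hf0 0 le_rfl]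
    simp
  · intro z hz
    constructor
    · refine (finz hK hηk hz).subset ?_
      rintro u ⟨-, hu⟩ h1
      apply hu
      show f _ * η (act u z) / _ = 0
      rw [h1]
      simp
    · have h1 : ∀ u : U1 K, f (∏ φ, act (u : (𝓞 K)ˣ) z φ) * η (act (u : (𝓞 K)ˣ) z) /
          Hs η (act (u : (𝓞 K)ˣ) z) = f (∏ φ, z φ) / Hs η z * η (act (u : (𝓞 K)ˣ) z) := by
        intro u
        rw [prod_act hK u.2, Hs_inv hK η z u.2]
        ring
      have h2 : ∑' u : U1 K, f (∏ φ, act (u : (𝓞 K)ˣ) z φ) * η (act (u : (𝓞 K)ˣ) z) /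
          Hs η (act (u : (𝓞 K)ˣ) z) = f (∏ φ, z φ) / Hs η z * Hs η z := by
        rw [tsum_congr h1, tsum_mul_left]
        rfl
      have h3 : f (∏ φ, z φ) / Hs η z * Hs η z = f (∏ φ, z φ) := by
        by_cases h4 : ∏ φ, z φ ∈ tsupport f
        · exact div_mul_cancel₀ _ (hHpos z h4).ne'
        · rw [image_eq_zero_of_notMem_tsupport h4]
          simp
      have h5 : (if 0 < ∏ φ, z φ then f (∏ φ, z φ) else 0) = f (∏ φ, z φ) := by
        split_ifs with h6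
        · rfl
        · exact (hf0 _ (not_lt.mp h6)).symm
      rw [h5]
      exact h2.trans h3

end Pool.Agent.Lib.MPcb8a44.SX
end

section
/-!
# Theorem X (MP_cb8a44_nt), module PET: primes in classes with prescribed sign

Text: /team-store/MP_cb8a44_nt_X_h58.md.
-/
set_option autoImplicit false
set_option linter.style.longLine false

open NumberField Module MeasureTheory
open scoped nonZeroDivisors

namespace Pool.Agent.Lib.MPcb8a44.SX

namespace PETM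

/-! ### Characters of a finite commutative group -/

section Char

variable {G : Type} [CommGroup G] [Finite G]

lemma finite_char : Finite (G →* ℂˣ) := by
  obtain ⟨e⟩ := CommGroup.monoidHom_mulEquiv_of_hasEnoughRootsOfUnity G ℂ
  exact Finite.of_equiv G e.symm.toEquiv

lemma norm_char (ψ : G →* ℂˣ) (a : G) : ‖((ψ a : ℂˣ) : ℂ)‖ = 1 := by
  have h : ((ψ a : ℂˣ) : ℂ) ^ Nat.card G = 1 := by
    rw [← Units.val_pow_eq_pow_val, ← map_pow, pow_card_eq_one', map_one, Units.val_one]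
  exact Complex.norm_eq_one_of_pow_eq_one h Nat.card_pos.ne'

lemma sum_char [Fintype (G →* ℂˣ)] (a : G) (ha : a ≠ 1) :
    ∑ ψ : G →* ℂˣ, ((ψ a : ℂˣ) : ℂ) = 0 := by
  obtain ⟨φ, hφ⟩ := CommGroup.exists_apply_ne_one_of_hasEnoughRootsOfUnity G ℂ ha
  have h1 : ∑ ψ : G →* ℂˣ, ((ψ a : ℂˣ) : ℂ) =
      ((φ a : ℂˣ) : ℂ) * ∑ ψ : G →* ℂˣ, ((ψ a : ℂˣ) : ℂ) := by
    rw [Finset.mul_sum]
    refine (Fintype.sum_equiv (Equiv.mulLeft φ) _ _ fun ψ => ?_).symm
    simp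
  have h2 : ((φ a : ℂˣ) : ℂ) - 1 ≠ 0 := by
    intro h
    apply hφ
    ext
    simpa using sub_eq_zero.mp h
  have h3 : (((φ a : ℂˣ) : ℂ) - 1) * ∑ ψ : G →* ℂˣ, ((ψ a : ℂˣ) : ℂ) = 0 := by
    rw [sub_mul, one_mul, ← h1, sub_self]
  exact (mul_eq_zero.mp h3).resolve_left h2

end Char

/-! ### Ideals -/

section Ideals

variable {K : Type} [Field K] [NumberField K]

lemma two_le_nn (p : PR K) : 2 ≤ nn p.1 := by
  have h0 : nn p.1 ≠ 0 := by
    unfold nn
    rw [Ne, Ideal.absNorm_eq_zero_iff]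
    exact nonZeroDivisors.ne_zero p.1.2
  have h1 : nn p.1 ≠ 1 := by
    unfold nn
    rw [Ne, Ideal.absNorm_eq_one_iff]
    exact p.2.ne_top
  omega

lemma fin_nn (B : ℕ) : {p : PR K | nn p.1 ≤ B}.Finite := by
  have h := Ideal.finite_setOfPred_absNorm_le₀ (S := 𝓞 K) B
  exact h.preimage (f := fun p : PR K => p.1) (fun p _ q _ h => Subtype.ext h)

/-- Primes in the class inverse to `j`, in terms of the class map. -/
lemma cls_elt {G : Type} [CommGroup G] (c : ID K →* G) (hc : IsCl c) (j : Ideal (𝓞 K)) (hj : j ≠ ⊥)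
    (B : ℕ) (h : ∀ γ : G, ∃ p : PR K, B < nn p.1 ∧ c p.1 = γ) :
    ∃ (q : Ideal (𝓞 K)) (x : 𝓞 K), q.IsPrime ∧ q ≠ ⊥ ∧
      B < Ideal.absNorm q ∧ q * j = Ideal.span {x} ∧ 0 < Algebra.norm ℤ x := by
  set J : ID K := ⟨j, mem_nonZeroDivisors_of_ne_zero hj⟩ with hJ
  obtain ⟨p, hpB, hp⟩ := h (c J)⁻¹
  have h1 : c (p.1 * J) = c 1 := by
    rw [map_mul, hp, map_one, inv_mul_cancel]
  obtain ⟨x, y, hx, hy, hxy⟩ := (hc.2 _ _).mp h1
  have hxy' : Ideal.span {x} * ((p.1 : Ideal (𝓞 K)) * j) = Ideal.span {y} := by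
    simpa [hJ] using hxy
  have hx0 : x ≠ 0 := by
    rintro rfl
    simp at hx
  have hyx : y ∈ Ideal.span ({x} : Set (𝓞 K)) := by
    have h2 : y ∈ Ideal.span ({x} : Set (𝓞 K)) * ((p.1 : Ideal (𝓞 K)) * j) := by
      rw [hxy']
      exact Ideal.mem_span_singleton_self y
    have h4 : Ideal.span ({x} : Set (𝓞 K)) * ((p.1 : Ideal (𝓞 K)) * j) ≤ Ideal.span {x} :=
      Ideal.mul_le_left
    exact h4 h2
  obtain ⟨z, rfl⟩ := Ideal.mem_span_singleton'.mp hyx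
  refine ⟨p.1, z, p.2, nonZeroDivisors.ne_zero p.1.2, hpB, ?_, ?_⟩
  · have h3 : Ideal.span ({x} : Set (𝓞 K)) * ((p.1 : Ideal (𝓞 K)) * j) =
        Ideal.span {x} * Ideal.span {z} := by
      rw [hxy', Ideal.span_singleton_mul_span_singleton, mul_comm]
    exact mul_left_cancel₀ (by simpa [Ideal.span_singleton_eq_bot] using hx0) h3
  · rw [map_mul] at hy
    exact (mul_pos_iff_of_pos_right hx).mp hy

end Ideals

/-! ### The series -/

section Series

variable {K : Type} [Field K] [NumberField K]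

/-- The weight. -/
noncomputable def wt (σ : ℝ) (x : PR K × ℕ) : ℝ :=
  Real.log (nn x.1.1) * (nn x.1.1 : ℝ) ^ (-(((x.2 + 1 : ℕ) : ℝ) * σ))

lemma wt_nonneg (σ : ℝ) (x : PR K × ℕ) : 0 ≤ wt σ x :=
  mul_nonneg (Real.log_natCast_nonneg _) (Real.rpow_nonneg (Nat.cast_nonneg _) _)

lemma cpow_wt (σ : ℝ) (x : PR K × ℕ) : (Real.log (nn x.1.1) : ℂ) *
    (nn x.1.1 : ℂ) ^ (-(((x.2 + 1 : ℕ) : ℂ) * (σ : ℂ))) = (wt σ x : ℂ) := by
  unfold wt
  rw [Complex.ofReal_mul, Complex.ofReal_cpow (Nat.cast_nonneg _)]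
  push_cast
  rfl

lemma summable_wt (h5 : SpecLD) (σ : ℝ) (hσ : 1 < σ) : Summable (wt (K := K) σ) := by
  have h := (h5 K (fun _ => 1) (by simp) rfl (by simp) (σ : ℂ) (by simpa using hσ)).1
  have h2 := h.norm
  refine h2.congr fun x => ?_
  rw [one_pow, one_mul, cpow_wt, Complex.norm_real, Real.norm_of_nonneg (wt_nonneg _ _)]

/-- The majorant. -/
noncomputable def mj (B : ℕ) (x : PR K × ℕ) : ℝ :=
  (if nn x.1.1 ≤ B ∧ x.2 = 0 then Real.log (nn x.1.1) else 0) +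
    Real.log (nn x.1.1) * (nn x.1.1 : ℝ) ^ (-(2 : ℝ)) * (2 * (1 / 2 : ℝ) ^ x.2)

lemma summable_mj (h5 : SpecLD) (B : ℕ) : Summable (mj (K := K) B) := by
  unfold mj
  refine Summable.add ?_ ?_
  · refine summable_of_hasFiniteSupport ?_
    refine ((fin_nn (K := K) B).prod (Set.finite_singleton (0 : ℕ))).subset ?_
    intro x hx
    rw [Function.mem_support] at hx
    by_contra hcon
    apply hx
    rw [if_neg]
    intro h
    exact hcon ⟨h.1, h.2⟩
  · have h1 : Summable fun p : PR K => Real.log (nn p.1) * (nn p.1 : ℝ) ^ (-(2 : ℝ)) := by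
      have h := (summable_wt (K := K) h5 2 (by norm_num)).comp_injective
        (i := fun p : PR K => ((p, 0) : PR K × ℕ)) (fun p q h => (Prod.ext_iff.mp h).1)
      refine h.congr fun p => ?_
      simp [wt]
    have h2 : Summable fun k : ℕ => 2 * (1 / 2 : ℝ) ^ k :=
      (summable_geometric_of_lt_one (by norm_num) (by norm_num)).mul_left 2
    exact h1.mul_of_nonneg h2
      (fun p => mul_nonneg (Real.log_natCast_nonneg _) (Real.rpow_nonneg (Nat.cast_nonneg _) _))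
      (fun k => by positivity)

lemma mj_nonneg (B : ℕ) (x : PR K × ℕ) : 0 ≤ mj B x := by
  unfold mj
  have h1 : 0 ≤ Real.log (nn x.1.1) := Real.log_natCast_nonneg _
  have h2 : (0 : ℝ) ≤ (nn x.1.1 : ℝ) ^ (-(2 : ℝ)) := Real.rpow_nonneg (Nat.cast_nonneg _) _
  split_ifs <;> positivity

lemma wt_le_mj (B : ℕ) (σ : ℝ) (hσ : 1 < σ) (x : PR K × ℕ) (hx : x.2 = 0 → nn x.1.1 ≤ B) :
    wt σ x ≤ mj B x := by
  have h2 : (2 : ℝ) ≤ (nn x.1.1 : ℝ) := by exact_mod_cast two_le_nn x.1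
  have h1 : 0 ≤ Real.log (nn x.1.1) := Real.log_natCast_nonneg _
  have hp : (0 : ℝ) < (nn x.1.1 : ℝ) := by linarith
  unfold wt mj
  rcases Nat.eq_zero_or_pos x.2 with h | h
  · rw [if_pos ⟨hx h, h⟩]
    have h3 : (nn x.1.1 : ℝ) ^ (-(((x.2 + 1 : ℕ) : ℝ) * σ)) ≤ 1 := by
      apply Real.rpow_le_one_of_one_le_of_nonpos (by linarith)
      have : 0 ≤ ((x.2 + 1 : ℕ) : ℝ) * σ := by positivity
      linarith
    have h4 : 0 ≤ Real.log (nn x.1.1) * (nn x.1.1 : ℝ) ^ (-(2 : ℝ)) * (2 * (1 / 2 : ℝ) ^ x.2) := by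
      have h2 : (0 : ℝ) ≤ (nn x.1.1 : ℝ) ^ (-(2 : ℝ)) := Real.rpow_nonneg (Nat.cast_nonneg _) _
      positivity
    nlinarith [mul_le_mul_of_nonneg_left h3 h1]
  · rw [if_neg (by omega), zero_add, mul_assoc]
    apply mul_le_mul_of_nonneg_left _ h1
    obtain ⟨k, hk⟩ : ∃ k : ℕ, x.2 = k + 1 := ⟨x.2 - 1, by omega⟩
    rw [hk]
    have h3 : (nn x.1.1 : ℝ) ^ (-(((k + 1 + 1 : ℕ) : ℝ) * σ)) ≤
        (nn x.1.1 : ℝ) ^ (-((k : ℝ) + 2)) := by
      apply Real.rpow_le_rpow_of_exponent_le (by linarith)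
      push_cast
      nlinarith [(Nat.cast_nonneg k : (0 : ℝ) ≤ k)]
    refine h3.trans ?_
    rw [neg_add, Real.rpow_add hp, mul_comm]
    have h5 : (nn x.1.1 : ℝ) ^ (-(k : ℝ)) ≤ 2 * (1 / 2 : ℝ) ^ (k + 1) := by
      rw [Real.rpow_neg hp.le, Real.rpow_natCast, pow_succ]
      have h6 : (2 : ℝ) ^ k ≤ (nn x.1.1 : ℝ) ^ k := pow_le_pow_left₀ (by norm_num) h2 k
      have h7 : ((nn x.1.1 : ℝ) ^ k)⁻¹ ≤ ((2 : ℝ) ^ k)⁻¹ := inv_anti₀ (by positivity) h6
      calc ((nn x.1.1 : ℝ) ^ k)⁻¹ ≤ ((2 : ℝ) ^ k)⁻¹ := h7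
        _ = 2 * ((1 / 2 : ℝ) ^ k * (1 / 2)) := by
          rw [one_div, inv_pow]
          ring
    exact mul_le_mul_of_nonneg_left h5 (Real.rpow_nonneg hp.le _)

variable {G : Type} [CommGroup G] [Finite G]

omit [Finite G] in
lemma Dt_eq (c : ID K →* G) (ψ : G →* ℂˣ) (σ : ℝ) : Dt (chf c ψ) (σ : ℂ) =
    ∑' x : PR K × ℕ, ((ψ (c x.1.1 ^ (x.2 + 1)) : ℂˣ) : ℂ) * (wt σ x : ℂ) := by
  unfold Dt chf
  refine tsum_congr fun x => ?_
  rw [mul_assoc, cpow_wt, map_pow, Units.val_pow_eq_pow_val]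

lemma summable_Dt (h5 : SpecLD) (c : ID K →* G) (ψ : G →* ℂˣ) (σ : ℝ) (hσ : 1 < σ) :
    Summable fun x : PR K × ℕ => ((ψ (c x.1.1 ^ (x.2 + 1)) : ℂˣ) : ℂ) * (wt σ x : ℂ) := by
  refine Summable.of_norm ?_
  refine (summable_wt (K := K) h5 σ hσ).congr fun x => ?_
  rw [norm_mul, norm_char, one_mul, Complex.norm_real, Real.norm_of_nonneg (wt_nonneg _ _)]

lemma bound (h5 : SpecLD) [Fintype (G →* ℂˣ)] (c : ID K →* G) (γ : G) (B : ℕ)
    (hB : ∀ p : PR K, c p.1 = γ → nn p.1 ≤ B) (σ : ℝ) (hσ : 1 < σ) :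
    ‖∑ ψ : G →* ℂˣ, ((ψ γ⁻¹ : ℂˣ) : ℂ) * Dt (chf c ψ) (σ : ℂ)‖ ≤
      Fintype.card (G →* ℂˣ) * ∑' x : PR K × ℕ, mj B x := by
  have h1 : ∑ ψ : G →* ℂˣ, ((ψ γ⁻¹ : ℂˣ) : ℂ) * Dt (chf c ψ) (σ : ℂ) =
      ∑' x : PR K × ℕ, (∑ ψ : G →* ℂˣ, ((ψ (γ⁻¹ * c x.1.1 ^ (x.2 + 1)) : ℂˣ) : ℂ)) *
        (wt σ x : ℂ) := by
    simp_rw [Dt_eq, ← tsum_mul_left]
    rw [← Summable.tsum_finsetSum fun ψ _ => (summable_Dt h5 c ψ σ hσ).mul_left _]
    refine tsum_congr fun x => ?_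
    rw [Finset.sum_mul]
    refine Finset.sum_congr rfl fun ψ _ => ?_
    rw [map_mul ψ, Units.val_mul, mul_assoc]
  rw [h1]
  refine tsum_of_norm_bounded ((summable_mj h5 B).hasSum.mul_left _) fun x => ?_
  by_cases h : γ⁻¹ * c x.1.1 ^ (x.2 + 1) = 1
  · rw [h]
    simp only [map_one, Units.val_one, Finset.sum_const, Finset.card_univ, nsmul_eq_mul, mul_one]
    rw [norm_mul, Complex.norm_natCast, Complex.norm_real, Real.norm_of_nonneg (wt_nonneg _ _)]
    apply mul_le_mul_of_nonneg_left _ (Nat.cast_nonneg _)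
    apply wt_le_mj B σ hσ x
    intro hx
    rw [hx, zero_add, pow_one] at h
    exact hB _ (inv_mul_eq_one.mp h).symm
  · rw [sum_char _ h, zero_mul, norm_zero]
    exact mul_nonneg (Nat.cast_nonneg _) (mj_nonneg _ _)

lemma lim_Dt (h5 : SpecLD) (g : ID K → ℂ) (hm : ∀ I J, g (I * J) = g I * g J) (h1 : g 1 = 1)
    (hle : ∀ I, ‖g I‖ ≤ 1) (F : ℂ → ℂ) (hF : Differentiable ℂ F) (hF1 : F 1 ≠ 0) (δ : ℕ)
    (hFs : ∀ s : ℂ, 1 < s.re → F s = (s - 1) ^ δ * LSeries (cf g) s) :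
    Filter.Tendsto (fun σ : ℝ => ((σ : ℂ) - 1) * Dt g (σ : ℂ)) (nhdsWithin 1 (Set.Ioi 1))
      (nhds (δ : ℂ)) := by
  have key : ∀ s : ℂ, 1 < s.re → (s - 1) * deriv F s = F s * (δ - (s - 1) * Dt g s) := by
    intro s hs
    have hL := (h5 K g hm h1 hle s hs).2
    have hs1 : s - 1 ≠ 0 := by
      intro h
      have : s = 1 := sub_eq_zero.mp h
      rw [this] at hs
      simp at hs
    have hP : HasDerivAt (fun z : ℂ => (z - 1) ^ δ) (δ * (s - 1) ^ (δ - 1) * 1) s :=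
      ((hasDerivAt_id s).sub_const 1).pow δ
    have hFd : HasDerivAt F (δ * (s - 1) ^ (δ - 1) * 1 * LSeries (cf g) s +
        (s - 1) ^ δ * (-(LSeries (cf g) s * Dt g s))) s := by
      refine (hP.mul hL).congr_of_eventuallyEq ?_
      filter_upwards [(isOpen_lt continuous_const Complex.continuous_re).mem_nhds hs] with z hz
      exact hFs z hz
    rw [hFd.deriv, hFs s hs]
    rcases Nat.eq_zero_or_pos δ with h | h
    · subst h
      simp
      ring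
    · obtain ⟨k, rfl⟩ : ∃ k, δ = k + 1 := ⟨δ - 1, by omega⟩
      simp only [Nat.add_sub_cancel]
      push_cast
      ring
  have hc : Filter.Tendsto (fun σ : ℝ => (σ : ℂ)) (nhdsWithin 1 (Set.Ioi 1)) (nhds 1) := by
    have h2 : Filter.Tendsto (fun σ : ℝ => (σ : ℂ)) (nhds 1) (nhds ((1 : ℝ) : ℂ)) :=
      Complex.continuous_ofReal.tendsto 1
    rw [Complex.ofReal_one] at h2
    exact h2.mono_left nhdsWithin_le_nhds
  have hFc : Filter.Tendsto (fun σ : ℝ => F σ) (nhdsWithin 1 (Set.Ioi 1)) (nhds (F 1)) :=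
    (hF.continuous.tendsto 1).comp hc
  have hFd : Filter.Tendsto (fun σ : ℝ => deriv F σ) (nhdsWithin 1 (Set.Ioi 1))
      (nhds (deriv F 1)) :=
    ((hF.analyticAt 1).deriv.continuousAt.tendsto).comp hc
  have hlim : Filter.Tendsto (fun σ : ℝ => (δ : ℂ) - ((σ : ℂ) - 1) * deriv F σ / F σ)
      (nhdsWithin 1 (Set.Ioi 1)) (nhds ((δ : ℂ) - (1 - 1) * deriv F 1 / F 1)) :=
    tendsto_const_nhds.sub (((hc.sub_const 1).mul hFd).div hFc hF1)
  rw [sub_self, zero_mul, zero_div, sub_zero] at hlim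
  refine hlim.congr' ?_
  filter_upwards [hFc.eventually_ne hF1, self_mem_nhdsWithin] with σ h2 h3
  have h4 := key (σ : ℂ) (by simpa using h3)
  rw [h4]
  field_simp
  ring

/-- Each class contains primes of large norm. -/
lemma main (hK : TR K) (h2 : SpecENT) (h3 : SpecNVR) (h4 : SpecNVC) (h5 : SpecLD) (h7 : SpecDS)
    (c : ID K →* G) (hc : IsCl c) (B : ℕ) (γ : G) : ∃ p : PR K, B < nn p.1 ∧ c p.1 = γ := by
  classical
  by_contra hcon
  push Not at hcon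
  have hB : ∀ p : PR K, c p.1 = γ → nn p.1 ≤ B := by
    intro p hp
    by_contra h
    exact hcon p (not_le.mp h) hp
  have := finite_char (G := G)
  let _ : Fintype (G →* ℂˣ) := Fintype.ofFinite _
  -- each `(σ - 1) Dt ψ σ` has a limit
  have hlim : ∀ ψ : G →* ℂˣ, Filter.Tendsto (fun σ : ℝ => ((σ : ℂ) - 1) * Dt (chf c ψ) (σ : ℂ))
      (nhdsWithin 1 (Set.Ioi 1)) (nhds (((if ψ = 1 then 1 else 0 : ℕ)) : ℂ)) := by
    intro ψ
    have hm : ∀ I J, chf c ψ (I * J) = chf c ψ I * chf c ψ J := by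
      intro I J
      simp [chf]
    have hone : chf c ψ 1 = 1 := by simp [chf]
    have hle : ∀ I, ‖chf c ψ I‖ ≤ 1 := fun I => (norm_char ψ (c I)).le
    obtain ⟨⟨F, hF, hFs⟩, hE⟩ := h2 K hK G c hc ψ
    by_cases hψ : ψ = 1
    · rw [if_pos hψ]
      refine lim_Dt h5 _ hm hone hle F hF ?_ 1 (fun s hs => by rw [hFs s hs, pow_one])
      obtain ⟨κ, hκ, hκt⟩ := (h7 K).2.2.2
      have hch : (chf c ψ) = fun _ : ID K => (1 : ℂ) := by
        funext I
        simp [chf, hψ]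
      have hc1 : Filter.Tendsto (fun σ : ℝ => F σ) (nhdsWithin 1 (Set.Ioi 1)) (nhds (F 1)) := by
        have h2 : Filter.Tendsto (fun σ : ℝ => (σ : ℂ)) (nhds 1) (nhds ((1 : ℝ) : ℂ)) :=
          Complex.continuous_ofReal.tendsto 1
        rw [Complex.ofReal_one] at h2
        exact (hF.continuous.tendsto 1).comp (h2.mono_left nhdsWithin_le_nhds)
      have hc2 : Filter.Tendsto (fun σ : ℝ => F σ) (nhdsWithin 1 (Set.Ioi 1)) (nhds (κ : ℂ)) := by
        refine hκt.congr' ?_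
        filter_upwards [self_mem_nhdsWithin] with σ hσ
        rw [hFs (σ : ℂ) (by simpa using hσ), hch]
      rw [tendsto_nhds_unique hc1 hc2]
      exact_mod_cast hκ.ne'
    · rw [if_neg hψ]
      obtain ⟨F0, hF0, hF0s⟩ := hE hψ
      refine lim_Dt h5 _ hm hone hle F0 hF0 ?_ 0
        (fun s hs => by rw [hF0s s hs, pow_zero, one_mul])
      by_cases hsq : ψ ^ 2 = 1
      · exact h3 K hK G c hc ψ hψ hsq F0 hF0 hF0s
      · exact h4 K hK G c hc ψ hsq F0 hF0 hF0s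
  have hsum : Filter.Tendsto (fun σ : ℝ => ∑ ψ : G →* ℂˣ, ((ψ γ⁻¹ : ℂˣ) : ℂ) *
      (((σ : ℂ) - 1) * Dt (chf c ψ) (σ : ℂ))) (nhdsWithin 1 (Set.Ioi 1))
      (nhds (∑ ψ : G →* ℂˣ, ((ψ γ⁻¹ : ℂˣ) : ℂ) * (((if ψ = 1 then 1 else 0 : ℕ)) : ℂ))) :=
    tendsto_finsetSum _ fun ψ _ => (hlim ψ).const_mul _
  have hval : ∑ ψ : G →* ℂˣ, ((ψ γ⁻¹ : ℂˣ) : ℂ) * (((if ψ = 1 then 1 else 0 : ℕ)) : ℂ) = 1 := by
    rw [Finset.sum_eq_single (1 : G →* ℂˣ)]
    · simp
    · intro ψ _ hψ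
      rw [if_neg hψ]
      simp
    · intro h
      exact absurd (Finset.mem_univ _) h
  rw [hval] at hsum
  set M : ℝ := Fintype.card (G →* ℂˣ) * ∑' x : PR K × ℕ, mj B x with hM
  have hzero : Filter.Tendsto (fun σ : ℝ => ∑ ψ : G →* ℂˣ, ((ψ γ⁻¹ : ℂˣ) : ℂ) *
      (((σ : ℂ) - 1) * Dt (chf c ψ) (σ : ℂ))) (nhdsWithin 1 (Set.Ioi 1)) (nhds 0) := by
    have hs : Filter.Tendsto (fun σ : ℝ => (σ - 1) * M) (nhdsWithin 1 (Set.Ioi 1)) (nhds 0) := by
      have h2 : Filter.Tendsto (fun σ : ℝ => (σ - 1) * M) (nhds 1) (nhds ((1 - 1) * M)) :=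
        ((continuous_id.sub continuous_const).mul continuous_const).tendsto 1
      rw [sub_self, zero_mul] at h2
      exact h2.mono_left nhdsWithin_le_nhds
    refine squeeze_zero_norm' ?_ hs
    filter_upwards [self_mem_nhdsWithin] with σ hσ
    have hσ' : 1 < σ := hσ
    have h1 : ∑ ψ : G →* ℂˣ, ((ψ γ⁻¹ : ℂˣ) : ℂ) * (((σ : ℂ) - 1) * Dt (chf c ψ) (σ : ℂ)) =
        ((σ - 1 : ℝ) : ℂ) * ∑ ψ : G →* ℂˣ, ((ψ γ⁻¹ : ℂˣ) : ℂ) * Dt (chf c ψ) (σ : ℂ) := by
      rw [Finset.mul_sum]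
      refine Finset.sum_congr rfl fun ψ _ => ?_
      push_cast
      ring
    rw [h1, norm_mul, Complex.norm_real, Real.norm_of_nonneg (by linarith)]
    exact mul_le_mul_of_nonneg_left (bound h5 c γ B hB σ hσ') (by linarith)
  exact one_ne_zero (tendsto_nhds_unique hsum hzero)

end Series

end PETM

theorem specPET (h1 : SpecGRP) (h2 : SpecENT) (h3 : SpecNVR) (h4 : SpecNVC) (h5 : SpecLD)
    (h6 : SpecNEG) (h7 : SpecDS) : SpecPET := by
  intro K _ _ hK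
  have hpos : ∀ j : Ideal (𝓞 K), j ≠ ⊥ → ∀ B : ℕ, ∃ (q : Ideal (𝓞 K)) (x : 𝓞 K), q.IsPrime ∧
      q ≠ ⊥ ∧ B < Ideal.absNorm q ∧ q * j = Ideal.span {x} ∧ 0 < Algebra.norm ℤ x := by
    intro j hj B
    obtain ⟨G, _, _, c, hc⟩ := h1 K
    exact PETM.cls_elt c hc j hj B fun γ => PETM.main hK h2 h3 h4 h5 h7 c hc B γ
  intro j hj e he B
  rcases he with rfl | rfl
  · obtain ⟨q, x, hq, hq0, hqB, hx, hpx⟩ := hpos j hj B
    exact ⟨q, x, hq, hq0, hqB, hx, by rwa [one_mul]⟩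
  · obtain ⟨n, hn⟩ := h6 K hK
    have hn0 : n ≠ 0 := by
      rintro rfl
      simp at hn
    have hn0' : Ideal.span ({n} : Set (𝓞 K)) ≠ ⊥ := by
      simpa [Ideal.span_singleton_eq_bot] using hn0
    obtain ⟨q, x, hq, hq0, hqB, hx, hpx⟩ := hpos (j * Ideal.span {n}) (mul_ne_zero hj hn0') B
    have hxn : x ∈ Ideal.span ({n} : Set (𝓞 K)) := by
      have h8 : x ∈ q * (j * Ideal.span ({n} : Set (𝓞 K))) := by
        rw [hx]
        exact Ideal.mem_span_singleton_self x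
      have h9 : q * (j * Ideal.span ({n} : Set (𝓞 K))) ≤ Ideal.span {n} := by
        rw [← mul_assoc]
        exact Ideal.mul_le_right
      exact h9 h8
    obtain ⟨z, rfl⟩ := Ideal.mem_span_singleton'.mp hxn
    refine ⟨q, z, hq, hq0, hqB, ?_, ?_⟩
    · have h10 : q * j * Ideal.span ({n} : Set (𝓞 K)) = Ideal.span {z} * Ideal.span {n} := by
        rw [mul_assoc, hx, Ideal.span_singleton_mul_span_singleton]
      exact mul_right_cancel₀ hn0' h10
    · rw [map_mul] at hpx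
      have := neg_of_mul_pos_left hpx hn.le
      linarith

end Pool.Agent.Lib.MPcb8a44.SX
end

section
/-!
# Theorem X (MP_cb8a44_nt): module SSQ (sums of squares)
-/
set_option autoImplicit false

open NumberField Module
open scoped nonZeroDivisors Classical

namespace Pool.Agent.Lib.MPcb8a44.SX

namespace SSQM

/-- From `IsSumSq` to a finite sum. -/
theorem toFin {R : Type} [CommRing R] (x : R) (h : IsSumSq x) :
    ∃ (m : ℕ) (f : Fin m → R), x = ∑ i, f i ^ 2 := by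
  induction h with
  | zero => exact ⟨0, Fin.elim0, by simp⟩
  | sq_add a s =>
    rename_i ih
    obtain ⟨m, f, hf⟩ := ih
    refine ⟨m + 1, Fin.cons a f, ?_⟩
    rw [Fin.sum_univ_succ]
    simp [hf, pow_two]

variable {K : Type} [Field K] [NumberField K]

/-- The index set of the integral basis. -/
abbrev Ix (K : Type) [Field K] [NumberField K] : Type := Free.ChooseBasisIndex ℤ (𝓞 K)

omit [NumberField K] in
theorem cj_eq (hK : TR K) (x : K) (φ : K →+* ℂ) : φ x = (cj x φ : ℂ) := by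
  apply Complex.ext
  · simp [cj]
  · simp [hK φ x]

theorem cj_add (x y : K) (φ : K →+* ℂ) : cj (x + y) φ = cj x φ + cj y φ := by simp [cj]

theorem cj_sub (x y : K) (φ : K →+* ℂ) : cj (x - y) φ = cj x φ - cj y φ := by simp [cj]

omit [NumberField K] in
theorem cj_mul (hK : TR K) (x y : K) (φ : K →+* ℂ) : cj (x * y) φ = cj x φ * cj y φ := by
  simp [cj, hK φ x, Complex.mul_re]

omit [NumberField K] in
theorem cj_sq (hK : TR K) (x : K) (φ : K →+* ℂ) : cj (x ^ 2) φ = cj x φ ^ 2 := by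
  rw [pow_two, cj_mul hK, pow_two]

omit [NumberField K] in
theorem cj_int (c : ℤ) (φ : K →+* ℂ) : cj (c : K) φ = c := by
  simp [cj]

omit [NumberField K] in
theorem cj_nat (c : ℕ) (φ : K →+* ℂ) : cj (c : K) φ = c := by
  simp [cj]

theorem cj_sum {ι : Type} (s : Finset ι) (f : ι → K) (φ : K →+* ℂ) :
    cj (∑ i ∈ s, f i) φ = ∑ i ∈ s, cj (f i) φ := by
  simp [cj, map_sum, Complex.re_sum]

/-- A real vector is a real combination of the conjugate vectors of the basis. -/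
theorem span_real (hK : TR K) (r : (K →+* ℂ) → ℝ) : ∃ a : Ix K → ℝ, ∀ φ,
    r φ = ∑ j, a j * cj ((RingOfIntegers.basis K j : 𝓞 K) : K) φ := by
  set B := canonicalEmbedding.latticeBasis K
  refine ⟨fun j => (B.repr (fun φ => (r φ : ℂ)) j).re, fun φ => ?_⟩
  have h1 := congrFun (B.sum_repr (fun φ => (r φ : ℂ))) φ
  rw [Finset.sum_apply] at h1
  have h2 : ∀ j, (B.repr (fun φ => (r φ : ℂ)) j • B j) φ =
      B.repr (fun φ => (r φ : ℂ)) j * (cj ((RingOfIntegers.basis K j : 𝓞 K) : K) φ : ℂ) := by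
    intro j
    rw [Pi.smul_apply, smul_eq_mul]
    congr 1
    simp only [B]
    rw [canonicalEmbedding.latticeBasis_apply, canonicalEmbedding.apply_at, integralBasis_apply]
    exact cj_eq hK _ _
  simp only [h2] at h1
  have h3 := congrArg Complex.re h1
  simp only [Complex.re_sum, Complex.mul_re, Complex.ofReal_re, Complex.ofReal_im, mul_zero,
    sub_zero] at h3
  rw [← h3]

/-- The lattice is cocompact, in a class modulo `2`. -/
theorem round2 (hK : TR K) : ∃ C0 : ℝ, 0 ≤ C0 ∧ ∀ (x : 𝓞 K) (r : (K →+* ℂ) → ℝ),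
    ∃ e y : 𝓞 K, e = x + 2 * y ∧ ∀ φ, |cj (e : K) φ - r φ| ≤ C0 := by
  refine ⟨∑ φ : K →+* ℂ, ∑ j : Ix K, |cj ((RingOfIntegers.basis K j : 𝓞 K) : K) φ|,
    Finset.sum_nonneg fun _ _ => Finset.sum_nonneg fun _ _ => abs_nonneg _, fun x r => ?_⟩
  obtain ⟨a, ha⟩ := span_real hK (fun φ => r φ - cj (x : K) φ)
  refine ⟨x + 2 * ∑ j, (round (a j / 2) : 𝓞 K) * RingOfIntegers.basis K j,
    ∑ j, (round (a j / 2) : 𝓞 K) * RingOfIntegers.basis K j, rfl, fun φ => ?_⟩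
  have h1 : cj ((x + 2 * ∑ j, (round (a j / 2) : 𝓞 K) * RingOfIntegers.basis K j : 𝓞 K) : K) φ -
      r φ = ∑ j, (2 * (round (a j / 2) : ℝ) - a j) *
        cj ((RingOfIntegers.basis K j : 𝓞 K) : K) φ := by
    have h2 := ha φ
    have h3 : ((x + 2 * ∑ j, (round (a j / 2) : 𝓞 K) * RingOfIntegers.basis K j : 𝓞 K) : K) =
        (x : K) + ((2 : ℤ) : K) *
          ∑ j, ((round (a j / 2) : ℤ) : K) * ((RingOfIntegers.basis K j : 𝓞 K) : K) := by
      have h20 : ((2 : 𝓞 K) : K) = 2 := rfl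
      push_cast
      simp [h20]
    rw [h3, cj_add, cj_mul hK, cj_sum, cj_int]
    simp only [cj_mul hK, cj_int]
    have h4 : cj (x : K) φ - r φ = -∑ j, a j * cj ((RingOfIntegers.basis K j : 𝓞 K) : K) φ := by
      rw [← h2]; ring
    rw [show ∀ A B C : ℝ, A + B - C = (A - C) + B by intros; ring, h4, Finset.mul_sum,
      ← Finset.sum_neg_distrib, ← Finset.sum_add_distrib]
    refine Finset.sum_congr rfl fun j _ => ?_
    push_cast
    ring
  rw [h1]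
  calc |∑ j, (2 * (round (a j / 2) : ℝ) - a j) * cj ((RingOfIntegers.basis K j : 𝓞 K) : K) φ|
      ≤ ∑ j, |(2 * (round (a j / 2) : ℝ) - a j) * cj ((RingOfIntegers.basis K j : 𝓞 K) : K) φ| :=
        Finset.abs_sum_le_sum_abs _ _
    _ ≤ ∑ j, |cj ((RingOfIntegers.basis K j : 𝓞 K) : K) φ| := by
        refine Finset.sum_le_sum fun j _ => ?_
        rw [abs_mul]
        have : |2 * (round (a j / 2) : ℝ) - a j| ≤ 1 := by
          have h := abs_sub_round (a j / 2)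
          rw [abs_le] at h ⊢
          constructor <;> linarith [h.1, h.2]
        calc _ ≤ 1 * |cj ((RingOfIntegers.basis K j : 𝓞 K) : K) φ| :=
              mul_le_mul_of_nonneg_right this (abs_nonneg _)
          _ = _ := one_mul _
    _ ≤ _ := Finset.single_le_sum
        (f := fun φ : K →+* ℂ => ∑ j : Ix K, |cj ((RingOfIntegers.basis K j : 𝓞 K) : K) φ|)
        (fun _ _ => Finset.sum_nonneg fun _ _ => abs_nonneg _) (Finset.mem_univ φ)

/-- The coordinates are bounded by the conjugates. -/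
theorem coord (hK : TR K) : ∃ C3 : ℝ, 0 ≤ C3 ∧ ∀ (z : 𝓞 K) (M : ℝ), 0 ≤ M →
    (∀ φ, |cj (z : K) φ| ≤ M) → ∀ j, |(((RingOfIntegers.basis K).repr z j : ℤ) : ℝ)| ≤ C3 * M := by
  set B := canonicalEmbedding.latticeBasis K with hB
  refine ⟨∑ j : Ix K, ∑ φ : K →+* ℂ, ‖B.repr (Pi.single φ (1 : ℂ)) j‖,
    Finset.sum_nonneg fun _ _ => Finset.sum_nonneg fun _ _ => norm_nonneg _, ?_⟩
  intro z M hM hz j
  have h1 : B.repr (canonicalEmbedding K (z : K)) j =
      (((RingOfIntegers.basis K).repr z j : ℤ) : ℂ) := by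
    rw [hB, canonicalEmbedding.integralBasis_repr_apply]
    have := integralBasis_repr_apply K z j
    rw [show ((z : K)) = algebraMap (𝓞 K) K z from rfl, this]
    simp
  have h2 : canonicalEmbedding K (z : K) =
      ∑ φ : K →+* ℂ, (cj (z : K) φ : ℂ) • (Pi.single φ (1 : ℂ) : (K →+* ℂ) → ℂ) := by
    ext ψ
    rw [Finset.sum_apply, canonicalEmbedding.apply_at, cj_eq hK]
    simp [Pi.single_apply]
  have h3 : |(((RingOfIntegers.basis K).repr z j : ℤ) : ℝ)| =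
      ‖B.repr (canonicalEmbedding K (z : K)) j‖ := by
    rw [h1]
    simp
  rw [h3, h2, map_sum, Finsupp.finsetSum_apply]
  calc ‖∑ φ : K →+* ℂ, (B.repr ((cj (z : K) φ : ℂ) •
        (Pi.single φ (1 : ℂ) : (K →+* ℂ) → ℂ))) j‖
      ≤ ∑ φ : K →+* ℂ, ‖(B.repr ((cj (z : K) φ : ℂ) •
        (Pi.single φ (1 : ℂ) : (K →+* ℂ) → ℂ))) j‖ := norm_sum_le _ _
    _ ≤ ∑ φ : K →+* ℂ, M * ‖B.repr (Pi.single φ (1 : ℂ)) j‖ := by
        refine Finset.sum_le_sum fun φ _ => ?_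
        rw [map_smul, Finsupp.smul_apply, smul_eq_mul, norm_mul]
        refine mul_le_mul_of_nonneg_right ?_ (norm_nonneg _)
        simpa using hz φ
    _ = (∑ φ : K →+* ℂ, ‖B.repr (Pi.single φ (1 : ℂ)) j‖) * M := by
        rw [← Finset.mul_sum, mul_comm]
    _ ≤ _ := by
        refine mul_le_mul_of_nonneg_right ?_ hM
        exact Finset.single_le_sum
          (f := fun j : Ix K => ∑ φ : K →+* ℂ, ‖B.repr (Pi.single φ (1 : ℂ)) j‖)
          (fun _ _ => Finset.sum_nonneg fun _ _ => norm_nonneg _) (Finset.mem_univ j)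

/-- `β`. -/
noncomputable def bet (K : Type) [Field K] [NumberField K] : 𝓞 K :=
  ∑ j : Ix K, (1 + RingOfIntegers.basis K j ^ 2)

/-- The algebraic identity. -/
theorem alg (z : 𝓞 K) (k : ℕ) (h : ∀ j, |(RingOfIntegers.basis K).repr z j| ≤ (k : ℤ)) :
    IsSumSq (2 * z + k * bet K) := by
  have h1 : 2 * z + k * bet K = ∑ j : Ix K, (2 * ((RingOfIntegers.basis K).repr z j : 𝓞 K) *
      RingOfIntegers.basis K j + k * (1 + RingOfIntegers.basis K j ^ 2)) := by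
    rw [Finset.sum_add_distrib, bet, Finset.mul_sum]
    congr 1
    conv_lhs => rw [← (RingOfIntegers.basis K).sum_repr z]
    rw [Finset.mul_sum]
    refine Finset.sum_congr rfl fun j _ => ?_
    rw [zsmul_eq_mul]
    ring
  rw [h1]
  have h0 : ∀ (m : ℕ) (x : 𝓞 K), IsSumSq x → IsSumSq ((m : 𝓞 K) * x) := by
    intro m x hx
    rw [← nsmul_eq_mul]
    exact AddSubmonoid.nsmul_mem (AddSubmonoid.sumSq (𝓞 K)) hx m
  have hsq : ∀ x : 𝓞 K, IsSumSq (x ^ 2) := fun x => by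
    rw [pow_two]; exact IsSumSq.mul_self x
  refine AddSubmonoid.sum_mem (AddSubmonoid.sumSq (𝓞 K)) fun j _ => ?_
  set c := (RingOfIntegers.basis K).repr z j with hc
  set b := RingOfIntegers.basis K j
  have hk := h j
  rw [← hc] at hk
  change IsSumSq (2 * (c : 𝓞 K) * b + k * (1 + b ^ 2))
  have h2 : IsSumSq (1 + b ^ 2) := by
    have := (hsq (1 : 𝓞 K)).add (hsq b)
    simpa using this
  rcases le_total 0 c with hc0 | hc0
  · obtain ⟨m, hm⟩ := Int.eq_ofNat_of_zero_le hc0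
    have hmk : m ≤ k := by
      rw [hm] at hk
      have : |(m : ℤ)| = m := abs_of_nonneg (by positivity)
      rw [this] at hk
      exact_mod_cast hk
    obtain ⟨l, rfl⟩ := Nat.exists_eq_add_of_le hmk
    have h3 : 2 * (c : 𝓞 K) * b + ((m + l : ℕ) : 𝓞 K) * (1 + b ^ 2) =
        (m : 𝓞 K) * (1 + b) ^ 2 + (l : 𝓞 K) * (1 + b ^ 2) := by
      rw [hm]; push_cast; ring
    rw [h3]
    exact (h0 _ _ (hsq _)).add (h0 _ _ h2)
  · obtain ⟨m, hm⟩ := Int.eq_ofNat_of_zero_le (neg_nonneg.2 hc0)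
    have hcm : c = -(m : ℤ) := by rw [← hm]; ring
    have hmk : m ≤ k := by
      rw [hcm] at hk
      have : |(-(m : ℤ))| = m := by rw [abs_neg]; exact abs_of_nonneg (by positivity)
      rw [this] at hk
      exact_mod_cast hk
    obtain ⟨l, rfl⟩ := Nat.exists_eq_add_of_le hmk
    have h3 : 2 * (c : 𝓞 K) * b + ((m + l : ℕ) : 𝓞 K) * (1 + b ^ 2) =
        (m : 𝓞 K) * (1 - b) ^ 2 + (l : 𝓞 K) * (1 + b ^ 2) := by
      rw [hcm]; push_cast; ring
    rw [h3]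
    exact (h0 _ _ (hsq _)).add (h0 _ _ h2)

end SSQM

open SSQM in
theorem specSSQ : SpecSSQ := by
  intro K _ _ hK
  obtain ⟨C0, hC0, hround⟩ := round2 hK
  obtain ⟨C3, hC3, hcoord⟩ := coord hK
  -- bound for `β`
  obtain ⟨βM, hβM0, hβM⟩ : ∃ βM : ℝ, 0 ≤ βM ∧ ∀ φ, |cj (bet K : K) φ| ≤ βM :=
    ⟨∑ φ : K →+* ℂ, |cj (bet K : K) φ|, Finset.sum_nonneg fun _ _ => abs_nonneg _,
      fun φ => Finset.single_le_sum (f := fun φ : K →+* ℂ => |cj (bet K : K) φ|)
        (fun _ _ => abs_nonneg _) (Finset.mem_univ φ)⟩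
  set A : ℝ := C3 * (C0 + C0 ^ 2) with hA
  have hA0 : 0 ≤ A := by positivity
  refine ⟨(2 * A + 2) * βM + 1, by positivity, ?_⟩
  intro n x hx hn hC
  -- the largest conjugate
  obtain ⟨φ0, hφ0⟩ := Finite.exists_max (fun φ : K →+* ℂ => cj (n : K) φ)
  set N : ℝ := cj (n : K) φ0 with hN
  have hNpos : 0 < N := hn φ0
  set S : ℝ := Real.sqrt N with hS
  have hSpos : 0 < S := Real.sqrt_pos.2 hNpos
  have hSS : S * S = N := Real.mul_self_sqrt hNpos.le
  have hCS : ∀ ψ, ((2 * A + 2) * βM + 1) * S ≤ cj (n : K) ψ := fun ψ => hC φ0 ψ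
  have hS1 : 1 ≤ S := by
    have h1 := hCS φ0
    rw [← hN, ← hSS] at h1
    have h2 := le_of_mul_le_mul_right h1 hSpos
    have : 0 ≤ (2 * A + 2) * βM := by positivity
    linarith
  set k : ℕ := 2 * ⌈A * S⌉₊ with hk
  have hkA : A * S ≤ k := by
    have := Nat.le_ceil (A * S)
    rw [hk]; push_cast
    have h0 : 0 ≤ A * S := by positivity
    linarith
  have hkle : (k : ℝ) ≤ (2 * A + 2) * S := by
    have := Nat.ceil_lt_add_one (show 0 ≤ A * S by positivity)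
    rw [hk]; push_cast
    nlinarith
  -- the numbers under the root
  have hpos : ∀ φ, 0 ≤ cj (n : K) φ - k * cj (bet K : K) φ := by
    intro φ
    have h1 : (k : ℝ) * cj (bet K : K) φ ≤ (2 * A + 2) * S * βM :=
      calc (k : ℝ) * cj (bet K : K) φ ≤ k * βM :=
            mul_le_mul_of_nonneg_left ((le_abs_self _).trans (hβM φ)) (Nat.cast_nonneg _)
        _ ≤ _ := mul_le_mul_of_nonneg_right hkle hβM0
    have h2 := hCS φ
    nlinarith
  have hβ0 : ∀ φ, 0 ≤ cj (bet K : K) φ := by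
    intro φ
    have : ((bet K : 𝓞 K) : K) = ∑ j : Ix K, (((1 : ℤ) : K) +
        ((RingOfIntegers.basis K j : 𝓞 K) : K) ^ 2) := by
      simp [bet]
    rw [this, cj_sum]
    refine Finset.sum_nonneg fun j _ => ?_
    rw [cj_add, cj_int, cj_sq hK]
    positivity
  obtain ⟨e, y, hey, he⟩ := hround x (fun φ => Real.sqrt (cj (n : K) φ - k * cj (bet K : K) φ))
  -- divisibility by two
  rw [Ideal.mem_span_singleton'] at hx
  obtain ⟨g, hg⟩ := hx
  have hz : n - k * bet K - e ^ 2 = 2 * (-g - (⌈A * S⌉₊ : 𝓞 K) * bet K - 2 * x * y - 2 * y ^ 2) := by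
    rw [hey, hk]
    push_cast
    linear_combination hg
  set z : 𝓞 K := -g - (⌈A * S⌉₊ : 𝓞 K) * bet K - 2 * x * y - 2 * y ^ 2
  have hzb : ∀ φ, |cj (z : K) φ| ≤ (C0 + C0 ^ 2) * S := by
    intro φ
    set R : ℝ := Real.sqrt (cj (n : K) φ - k * cj (bet K : K) φ) with hR
    have hRR : R * R = cj (n : K) φ - k * cj (bet K : K) φ := Real.mul_self_sqrt (hpos φ)
    have hR0 : 0 ≤ R := Real.sqrt_nonneg _
    have hRS : R ≤ S := by
      apply Real.sqrt_le_sqrt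
      have := hφ0 φ
      have h2 : 0 ≤ (k : ℝ) * cj (bet K : K) φ := mul_nonneg (Nat.cast_nonneg _) (hβ0 φ)
      rw [hN]
      linarith
    have h1 : 2 * cj (z : K) φ = R * R - cj (e : K) φ ^ 2 := by
      have h3 : ((n - k * bet K - e ^ 2 : 𝓞 K) : K) = ((2 * z : 𝓞 K) : K) := by rw [hz]
      have h4 : cj ((n - k * bet K - e ^ 2 : 𝓞 K) : K) φ = cj ((2 * z : 𝓞 K) : K) φ := by rw [h3]
      have h5 : ((2 * z : 𝓞 K) : K) = ((2 : ℤ) : K) * (z : K) := by
        have h20 : ((2 * z : 𝓞 K) : K) = 2 * (z : K) := rfl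
        rw [h20]; norm_num
      have h6 : ((n - k * bet K - e ^ 2 : 𝓞 K) : K) =
          (n : K) - ((k : ℕ) : K) * (bet K : K) - (e : K) ^ 2 := rfl
      rw [h5, h6, cj_sub, cj_sub, cj_mul hK, cj_sq hK, cj_mul hK, cj_int, cj_nat] at h4
      push_cast at h4
      rw [hRR]
      linarith
    have h2 : |cj (e : K) φ - R| ≤ C0 := he φ
    set δ : ℝ := cj (e : K) φ - R with hδ
    have h3 : cj (e : K) φ = R + δ := by rw [hδ]; ring
    rw [h3] at h1
    have h4 : 2 * cj (z : K) φ = -(δ * (2 * R + δ)) := by rw [h1]; ring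
    have h5 : |2 * cj (z : K) φ| ≤ C0 * (2 * S + C0) := by
      rw [h4, abs_neg, abs_mul]
      refine mul_le_mul h2 ?_ (abs_nonneg _) hC0
      calc |2 * R + δ| ≤ |2 * R| + |δ| := abs_add_le _ _
        _ ≤ 2 * S + C0 := by
          rw [abs_of_nonneg (by positivity)]
          linarith
    rw [abs_mul, abs_of_pos (by norm_num : (0 : ℝ) < 2)] at h5
    nlinarith [sq_nonneg C0]
  have hfin : IsSumSq (2 * z + k * bet K) := by
    apply alg
    intro j
    have h1 := hcoord z ((C0 + C0 ^ 2) * S) (by positivity) hzb j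
    have h2 : C3 * ((C0 + C0 ^ 2) * S) = A * S := by rw [hA]; ring
    rw [h2] at h1
    have h3 := h1.trans hkA
    exact_mod_cast h3
  have hnn : n = e ^ 2 + (2 * z + k * bet K) := by
    linear_combination hz
  apply toFin
  rw [hnn, pow_two]
  exact (IsSumSq.mul_self e).add hfin

end Pool.Agent.Lib.MPcb8a44.SX
end
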