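import Pool.Agent.Lib.MP_cb8a44_nt.SX.Spec
import Pool.Agent.Lib.MP_a8dae7_an.CV.PS
import Pool.Agent.Lib.MP_cb8a44_nt.SX.REC
import Pool.Agent.Lib.MP_cb8a44_nt.SX.LAND
import Pool.Agent.Lib.MP_cb8a44_nt.SX.SSQ
import Pool.Agent.Lib.MP_cb8a44_nt.SX.MIL
import Pool.Agent.Lib.MP_cb8a44_nt.SX.GSM

section
set_option autoImplicit false

open MeasureTheory

namespace Pool.Agent.Lib.MPcb8a44.SX

namespace SMSM

open Pool.Agent.Lib.MP_a8dae7_an.CV.POIM

/-- The exponent of the exponential with real frequency, as a continuous linear map. -/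
noncomputable def lx {n : ℕ} (ξ : Fin n → ℝ) : (Fin n → ℝ) →L[ℝ] ℂ :=
  ∑ i, (-(2 * Real.pi * Complex.I * (ξ i : ℂ))) • (Complex.ofRealCLM.comp
    (ContinuousLinearMap.proj (R := ℝ) (φ := fun _ : Fin n => ℝ) i))

lemma lx_apply {n : ℕ} (ξ t : Fin n → ℝ) :
    lx ξ t = -(2 * Real.pi * Complex.I * ∑ i, (ξ i : ℂ) * (t i : ℂ)) := by
  unfold lx
  rw [sum_apply, Finset.mul_sum, ← Finset.sum_neg_distrib]
  refine Finset.sum_congr rfl fun i _ => ?_
  simp only [smul_apply, ContinuousLinearMap.comp_apply,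
    ContinuousLinearMap.proj_apply, Complex.ofRealCLM_apply, smul_eq_mul]
  ring

/-- The exponential with real frequency. -/
noncomputable def er {n : ℕ} (ξ t : Fin n → ℝ) : ℂ := Complex.exp (lx ξ t)

lemma er_norm {n : ℕ} (ξ t : Fin n → ℝ) : ‖er ξ t‖ = 1 := by
  have h : -(2 * (Real.pi : ℂ) * Complex.I * ∑ i, (ξ i : ℂ) * (t i : ℂ)) =
      ((-(2 * Real.pi * ∑ i, ξ i * t i) : ℝ) : ℂ) * Complex.I := by
    push_cast
    ring
  unfold er
  rw [lx_apply, h, Complex.norm_exp_ofReal_mul_I]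

lemma er_cont {n : ℕ} (ξ : Fin n → ℝ) : Continuous (er ξ) :=
  Complex.continuous_exp.comp (lx ξ).continuous

lemma er_deriv {n : ℕ} (ξ x : Fin n → ℝ) : HasFDerivAt (er ξ) (er ξ x • lx ξ) x :=
  ((lx ξ).hasFDerivAt (x := x)).cexp

lemma er_fderiv {n : ℕ} (ξ x : Fin n → ℝ) (i : Fin n) :
    fderiv ℝ (er ξ) x (Pi.single i 1) = -(2 * Real.pi * Complex.I * (ξ i : ℂ)) * er ξ x := by
  rw [(er_deriv ξ x).fderiv, smul_apply, lx_apply, smul_eq_mul]
  have h : ∑ j, (ξ j : ℂ) * ((Pi.single i (1 : ℝ) : Fin n → ℝ) j : ℂ) = (ξ i : ℂ) := by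
    rw [Finset.sum_eq_single i]
    · simp
    · intro j _ hj
      simp [Pi.single_eq_of_ne hj]
    · intro h
      exact absurd (Finset.mem_univ i) h
  rw [h]
  ring

/-- The Fourier integral. -/
noncomputable def F {n : ℕ} (Φ : (Fin n → ℝ) → ℂ) (ξ : Fin n → ℝ) : ℂ := ∫ x, Φ x * er ξ x

lemma F_bound {n : ℕ} (Φ : (Fin n → ℝ) → ℂ) (ξ : Fin n → ℝ) : ‖F Φ ξ‖ ≤ ∫ x, ‖Φ x‖ := by
  unfold F
  refine (norm_integral_le_integral_norm _).trans (le_of_eq ?_)
  refine integral_congr_ae (Filter.Eventually.of_forall fun x => ?_)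
  show ‖Φ x * er ξ x‖ = ‖Φ x‖
  rw [norm_mul, er_norm, mul_one]

/-- The partial derivative. -/
noncomputable def pd {n : ℕ} (i : Fin n) (Φ : (Fin n → ℝ) → ℂ) : (Fin n → ℝ) → ℂ :=
  fun x => fderiv ℝ Φ x (Pi.single i 1)

lemma pd_smooth {n : ℕ} (i : Fin n) {Φ : (Fin n → ℝ) → ℂ} (h : ContDiff ℝ (⊤ : ℕ∞) Φ) :
    ContDiff ℝ (⊤ : ℕ∞) (pd i Φ) := by
  have h1 : ContDiff ℝ (⊤ : ℕ∞) (fderiv ℝ Φ) := h.fderiv_right (by simp)
  exact h1.clm_apply contDiff_const

lemma pd_cpt {n : ℕ} (i : Fin n) {Φ : (Fin n → ℝ) → ℂ} (h : HasCompactSupport Φ) :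
    HasCompactSupport (pd i Φ) := by
  have h1 := h.fderiv (𝕜 := ℝ)
  exact h1.comp_left (g := fun L : (Fin n → ℝ) →L[ℝ] ℂ => L (Pi.single i 1)) (by simp)

lemma int_mul {n : ℕ} (ξ : Fin n → ℝ) {Φ : (Fin n → ℝ) → ℂ} (hc : Continuous Φ)
    (h : HasCompactSupport Φ) : Integrable fun x => Φ x * er ξ x :=
  (hc.mul (er_cont ξ)).integrable_of_hasCompactSupport h.mul_right

lemma parts {n : ℕ} (i : Fin n) {Φ : (Fin n → ℝ) → ℂ} (h : ContDiff ℝ (⊤ : ℕ∞) Φ)
    (hs : HasCompactSupport Φ) (ξ : Fin n → ℝ) :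
    2 * Real.pi * Complex.I * (ξ i : ℂ) * F Φ ξ = F (pd i Φ) ξ := by
  have hc := h.continuous
  have h1 := integral_mul_fderiv_eq_neg_fderiv_mul_of_integrable (μ := volume) (f := Φ)
    (g := er ξ) (v := Pi.single i (1 : ℝ))
    (int_mul ξ (pd_smooth i h).continuous (pd_cpt i hs))
    (by
      have h2 : (fun x => Φ x * fderiv ℝ (er ξ) x (Pi.single i 1)) =
          fun x => Φ x * er ξ x * (-(2 * Real.pi * Complex.I * (ξ i : ℂ))) := by
        funext x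
        rw [er_fderiv]
        ring
      rw [h2]
      exact (int_mul ξ hc hs).mul_const _)
    (int_mul ξ hc hs)
    (fun x _ => (h.differentiable (by simp)).differentiableAt)
    (fun x _ => (er_deriv ξ x).differentiableAt)
  have h3 : ∫ x, Φ x * fderiv ℝ (er ξ) x (Pi.single i 1) =
      -(2 * Real.pi * Complex.I * (ξ i : ℂ) * F Φ ξ) := by
    have h2 : (fun x => Φ x * fderiv ℝ (er ξ) x (Pi.single i 1)) =
        fun x => Φ x * er ξ x * (-(2 * Real.pi * Complex.I * (ξ i : ℂ))) := by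
      funext x
      rw [er_fderiv]
      ring
    rw [h2, integral_mul_const]
    unfold F
    ring
  rw [h3] at h1
  have h4 := neg_inj.1 h1
  rw [h4]
  rfl

lemma decay {n : ℕ} (N : ℕ) : ∀ Φ : (Fin n → ℝ) → ℂ, ContDiff ℝ (⊤ : ℕ∞) Φ →
    HasCompactSupport Φ → ∃ C : ℝ, 0 ≤ C ∧ ∀ ξ, ‖ξ‖ ^ N * ‖F Φ ξ‖ ≤ C := by
  induction N with
  | zero =>
    intro Φ _ _
    refine ⟨∫ x, ‖Φ x‖, integral_nonneg fun x => norm_nonneg _, fun ξ => ?_⟩
    rw [pow_zero, one_mul]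
    exact F_bound Φ ξ
  | succ N ih =>
    intro Φ h hs
    choose C hC0 hC using fun i : Fin n => ih (pd i Φ) (pd_smooth i h) (pd_cpt i hs)
    refine ⟨∑ i, C i, Finset.sum_nonneg fun i _ => hC0 i, fun ξ => ?_⟩
    have h1 : ‖ξ‖ ≤ ∑ i, |ξ i| := by
      rw [pi_norm_le_iff_of_nonneg (Finset.sum_nonneg fun i _ => abs_nonneg _)]
      intro i
      rw [Real.norm_eq_abs]
      exact Finset.single_le_sum (f := fun i => |ξ i|) (fun j _ => abs_nonneg _)
        (Finset.mem_univ i)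
    have h2 : ∀ i, |ξ i| * ‖F Φ ξ‖ ≤ ‖F (pd i Φ) ξ‖ := by
      intro i
      rw [← parts i h hs ξ]
      simp only [norm_mul, Complex.norm_ofNat, Complex.norm_real, Complex.norm_I, mul_one,
        Real.norm_eq_abs, abs_of_pos Real.pi_pos]
      have h3 : 1 ≤ 2 * Real.pi := by linarith [Real.pi_gt_three]
      have h4 : 0 ≤ |ξ i| * ‖F Φ ξ‖ := by positivity
      nlinarith
    calc ‖ξ‖ ^ (N + 1) * ‖F Φ ξ‖ = ‖ξ‖ ^ N * (‖ξ‖ * ‖F Φ ξ‖) := by ring
      _ ≤ ‖ξ‖ ^ N * ((∑ i, |ξ i|) * ‖F Φ ξ‖) := by gcongr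
      _ = ∑ i, ‖ξ‖ ^ N * (|ξ i| * ‖F Φ ξ‖) := by
        rw [Finset.sum_mul, Finset.mul_sum]
      _ ≤ ∑ i, ‖ξ‖ ^ N * ‖F (pd i Φ) ξ‖ := by
        refine Finset.sum_le_sum fun i _ => ?_
        exact mul_le_mul_of_nonneg_left (h2 i) (by positivity)
      _ ≤ ∑ i, C i := Finset.sum_le_sum fun i _ => hC i ξ

theorem summable_pi {f : ℤ → ℝ} (hf : Summable f) (h0 : ∀ x, 0 ≤ f x) (n : ℕ) :
    Summable fun x : Fin n → ℤ => ∏ i, f (x i) := by
  induction n with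
  | zero => exact (hasSum_fintype _).summable
  | succ n ih =>
    have h1 := hf.mul_of_nonneg ih h0 (fun x => Finset.prod_nonneg fun i _ => h0 _)
    rw [← (Fin.consEquiv (fun _ => ℤ)).summable_iff]
    refine h1.congr (fun x => ?_)
    simp [Fin.prod_univ_succ, Fin.consEquiv]

/-- The weight. -/
noncomputable def w {n : ℕ} (k : Fin n → ℤ) : ℝ := ∏ i, (1 + |(k i : ℝ)|)⁻¹ ^ 2

lemma w_summable {n : ℕ} : Summable (w (n := n)) := by
  refine summable_pi (f := fun k : ℤ => (1 + |(k : ℝ)|)⁻¹ ^ 2) ?_ (fun x => by positivity) n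
  have h1 : Summable fun k : ℕ => (1 + (k : ℝ))⁻¹ ^ 2 := by
    have h2 : Summable fun k : ℕ => 1 / ((k : ℝ)) ^ 2 := Real.summable_one_div_nat_pow.2 (by norm_num)
    have h3 := (summable_nat_add_iff 1).2 h2
    refine h3.congr fun k => ?_
    push_cast
    rw [one_div, inv_pow, add_comm]
  apply Summable.of_nat_of_neg
  · refine h1.congr (fun x => ?_)
    simp
  · refine h1.congr (fun x => ?_)
    simp

lemma w_nonneg {n : ℕ} (k : Fin n → ℤ) : 0 ≤ w k := Finset.prod_nonneg fun i _ => by positivity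

lemma ix_norm_ge {n : ℕ} {k : Fin n → ℤ} (hk : k ≠ 0) : 1 ≤ ‖ix k‖ := by
  obtain ⟨i, hi⟩ : ∃ i, k i ≠ 0 := by
    by_contra hcon
    push Not at hcon
    exact hk (funext hcon)
  have h1 : |(k i : ℝ)| ≤ ‖ix k‖ := by
    have := norm_le_pi_norm (ix k) i
    rwa [Real.norm_eq_abs] at this
  have h2 : (1 : ℝ) ≤ |(k i : ℝ)| := by
    have := Int.one_le_abs hi
    exact_mod_cast this
  linarith

lemma w_lower {n : ℕ} {k : Fin n → ℤ} (hk : k ≠ 0) : 1 ≤ 4 ^ n * ‖ix k‖ ^ (2 * n) * w k := by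
  have h1 := ix_norm_ge hk
  have h2 : ∀ i, 1 ≤ 4 * ‖ix k‖ ^ 2 * (1 + |(k i : ℝ)|)⁻¹ ^ 2 := by
    intro i
    have h3 : |(k i : ℝ)| ≤ ‖ix k‖ := by
      have := norm_le_pi_norm (ix k) i
      rwa [Real.norm_eq_abs] at this
    have h4 : 0 ≤ |(k i : ℝ)| := abs_nonneg _
    rw [inv_pow, ← div_eq_mul_inv, one_le_div (by positivity)]
    nlinarith
  have h5 : 4 ^ n * ‖ix k‖ ^ (2 * n) * w k =
      ∏ i : Fin n, (4 * ‖ix k‖ ^ 2 * (1 + |(k i : ℝ)|)⁻¹ ^ 2) := by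
    rw [Finset.prod_mul_distrib, Finset.prod_const, Finset.card_univ, Fintype.card_fin, mul_pow,
      ← pow_mul]
    rfl
  rw [h5]
  calc (1 : ℝ) = ∏ _i : Fin n, (1 : ℝ) := by simp
    _ ≤ _ := Finset.prod_le_prod (fun i _ => zero_le_one) fun i _ => h2 i

/-- Scaling. -/
lemma scale {n : ℕ} (Φ : (Fin n → ℝ) → ℂ) {T : ℝ} (hT : 0 < T) (k : Fin n → ℤ) :
    ∫ x, Φ (T⁻¹ • x) * ek k x = T ^ n * F Φ (T • ix k) := by
  have h1 : ∀ x : Fin n → ℝ, ek k x = er (T • ix k) (T⁻¹ • x) := by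
    intro x
    unfold ek er
    rw [lx_apply]
    congr 3
    refine Finset.sum_congr rfl fun i _ => ?_
    simp only [Pi.smul_apply, smul_eq_mul, ix, Complex.ofReal_mul, Complex.ofReal_inv,
      Complex.ofReal_intCast]
    have : (T : ℂ) ≠ 0 := by exact_mod_cast hT.ne'
    field_simp
  have h2 : ∫ x, Φ (T⁻¹ • x) * ek k x = ∫ x, (fun y => Φ y * er (T • ix k) y) (T⁻¹ • x) := by
    refine integral_congr_ae (Filter.Eventually.of_forall fun x => ?_)
    show Φ (T⁻¹ • x) * ek k x = Φ (T⁻¹ • x) * er (T • ix k) (T⁻¹ • x)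
    rw [h1]
  have h3 := Measure.integral_comp_smul (volume : Measure (Fin n → ℝ))
    (fun y => Φ y * er (T • ix k) y) T⁻¹
  rw [h2]
  refine h3.trans ?_
  unfold F
  rw [Module.finrank_fin_fun, inv_pow, inv_inv, abs_of_pos (by positivity), Complex.real_smul]
  push_cast
  rfl

lemma main (n : ℕ) (Φ : (Fin n → ℝ) → ℂ) (h : ContDiff ℝ (⊤ : ℕ∞) Φ) (hs : HasCompactSupport Φ)
    (A : ℕ) : ∃ C : ℝ, ∀ T : ℝ, 1 ≤ T →
      ‖∑' m : Fin n → ℤ, Φ (T⁻¹ • ix m) - T ^ n * ∫ x, Φ x‖ ≤ C / T ^ A := by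
  obtain ⟨C0, hC0, hC0'⟩ := decay 0 Φ h hs
  obtain ⟨C, hC, hC'⟩ := decay (2 * n + A) Φ h hs
  obtain ⟨B, hB⟩ : ∃ B : ℝ, ∀ x, ‖Φ x‖ ≤ B :=
    h.continuous.bounded_above_of_compact_support hs
  refine ⟨C * 4 ^ n * ∑' k : Fin n → ℤ, w k, fun T hT => ?_⟩
  have hT0 : 0 < T := by linarith
  obtain ⟨g, hg⟩ : ∃ g : (Fin n → ℝ) → ℂ, g = fun x => Φ (T⁻¹ • x) := ⟨_, rfl⟩
  have hgc : Continuous g := by
    rw [hg]
    exact h.continuous.comp (continuous_const_smul _)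
  have hgs : HasCompactSupport g := by
    rw [hg]
    exact hs.comp_smul (inv_ne_zero hT0.ne')
  have hgi : Integrable g := hgc.integrable_of_hasCompactSupport hgs
  have hcoef : ∀ k : Fin n → ℤ, ∫ s, g s * ek k s = T ^ n * F Φ (T • ix k) := by
    intro k
    rw [hg]
    exact scale Φ hT0 k
  have hbd : ∀ k : Fin n → ℤ, k ≠ 0 →
      ‖(T : ℂ) ^ n * F Φ (T • ix k)‖ ≤ C * 4 ^ n / T ^ A * w k := by
    intro k hk
    have h1 := hC' (T • ix k)
    rw [norm_smul, Real.norm_eq_abs, abs_of_pos hT0, mul_pow] at h1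
    have h2 := ix_norm_ge hk
    have h3 := w_lower hk
    have h4 : 0 ≤ ‖F Φ (T • ix k)‖ := norm_nonneg _
    have h5 := w_nonneg k
    rw [norm_mul, norm_pow, Complex.norm_real, Real.norm_eq_abs, abs_of_pos hT0]
    rw [div_mul_eq_mul_div, le_div_iff₀ (by positivity)]
    have h6 : ‖ix k‖ ^ (2 * n) ≤ ‖ix k‖ ^ (2 * n + A) := pow_le_pow_right₀ h2 (by omega)
    have h7 : T ^ n * T ^ A ≤ T ^ (2 * n + A) := by
      rw [← pow_add]
      exact pow_le_pow_right₀ hT (by omega)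
    calc T ^ n * ‖F Φ (T • ix k)‖ * T ^ A = T ^ n * T ^ A * ‖F Φ (T • ix k)‖ * 1 := by ring
      _ ≤ T ^ n * T ^ A * ‖F Φ (T • ix k)‖ * (4 ^ n * ‖ix k‖ ^ (2 * n) * w k) := by gcongr
      _ ≤ T ^ (2 * n + A) * ‖F Φ (T • ix k)‖ * (4 ^ n * ‖ix k‖ ^ (2 * n + A) * w k) := by gcongr
      _ = T ^ (2 * n + A) * ‖ix k‖ ^ (2 * n + A) * ‖F Φ (T • ix k)‖ * (4 ^ n * w k) := by ring
      _ ≤ C * (4 ^ n * w k) := by gcongr
      _ = C * 4 ^ n * w k := by ring
  have hw := w_summable (n := n)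
  have hsum : Summable fun k : Fin n → ℤ => ∫ s, g s * ek k s := by
    have h1 : Summable fun k : Fin n → ℤ => (T ^ n * C0 + C * 4 ^ n / T ^ A) * w k :=
      hw.mul_left _
    refine Summable.of_norm_bounded h1 fun k => ?_
    rw [hcoef]
    have h5 := w_nonneg k
    by_cases hk : k = 0
    · subst hk
      have h2 := hC0' (T • ix (0 : Fin n → ℤ))
      rw [pow_zero, one_mul] at h2
      have h3 : w (0 : Fin n → ℤ) = 1 := by simp [w]
      rw [h3, norm_mul, norm_pow, Complex.norm_real, Real.norm_eq_abs, abs_of_pos hT0]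
      have h4 : 0 ≤ C * 4 ^ n / T ^ A := by positivity
      have h6 : T ^ n * ‖F Φ (T • ix (0 : Fin n → ℤ))‖ ≤ T ^ n * C0 := by gcongr
      linarith
    · refine (hbd k hk).trans ?_
      have h6 : 0 ≤ T ^ n * C0 := by positivity
      nlinarith
  have hloc : ∀ R : ℝ, ∃ u : (Fin n → ℤ) → ℝ, Summable u ∧
      ∀ x t, ‖t‖ ≤ R → ‖g (t + ix x)‖ ≤ u x := by
    intro R
    obtain ⟨R0, hR0⟩ := hgs.isCompact.isBounded.subset_closedBall (0 : Fin n → ℝ)
    obtain ⟨Z, hZ⟩ : ∃ Z : ℕ, R + R0 ≤ Z := exists_nat_ge _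
    have hfin : {x : Fin n → ℤ | ‖ix x‖ ≤ R + R0}.Finite := by
      refine (Set.Finite.pi (t := fun _ : Fin n => Set.Icc (-(Z : ℤ)) Z)
        (fun i => Set.finite_Icc _ _)).subset ?_
      intro x hx
      rw [Set.mem_pi]
      intro i _
      have h1 : |(x i : ℝ)| ≤ ‖ix x‖ := by
        have := norm_le_pi_norm (ix x) i
        rwa [Real.norm_eq_abs] at this
      have h2 : |(x i : ℝ)| ≤ Z := h1.trans (le_trans hx hZ)
      have h3 : |x i| ≤ (Z : ℤ) := by exact_mod_cast h2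
      exact abs_le.1 h3
    refine ⟨fun x => Set.indicator {x : Fin n → ℤ | ‖ix x‖ ≤ R + R0} (fun _ => B) x, ?_, ?_⟩
    · exact summable_of_hasFiniteSupport (hfin.subset Set.support_indicator_subset)
    · intro x t ht
      by_cases hx : ‖ix x‖ ≤ R + R0
      · show _ ≤ Set.indicator {x : Fin n → ℤ | ‖ix x‖ ≤ R + R0} (fun _ => B) x
        rw [Set.indicator_of_mem (by exact hx), hg]
        exact hB _
      · show _ ≤ Set.indicator {x : Fin n → ℤ | ‖ix x‖ ≤ R + R0} (fun _ => B) x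
        rw [Set.indicator_of_notMem (by exact hx)]
        have h1 : t + ix x ∉ tsupport g := by
          intro h2
          have h3 := hR0 h2
          rw [mem_closedBall_zero_iff] at h3
          have h4 : ‖ix x‖ ≤ ‖t + ix x‖ + ‖t‖ := by
            have h5 := norm_sub_le (t + ix x) t
            rwa [add_sub_cancel_left] at h5
          linarith
        rw [image_eq_zero_of_notMem_tsupport h1, norm_zero]
  have hP := poisson g hgc hgi hloc hsum 0
  have h1 : per g 0 = ∑' m : Fin n → ℤ, Φ (T⁻¹ • ix m) := by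
    unfold per
    refine tsum_congr fun m => ?_
    rw [zero_add, hg]
  have h2 : ∀ k : Fin n → ℤ, ek (-k) (0 : Fin n → ℝ) = 1 := by
    intro k
    simp [ek]
  simp only [h2, mul_one, h1] at hP
  have h3 : ∫ s, g s * ek (0 : Fin n → ℤ) s = T ^ n * ∫ x, Φ x := by
    rw [hcoef]
    unfold F
    congr 1
    refine integral_congr_ae (Filter.Eventually.of_forall fun x => ?_)
    have h4 : ix (0 : Fin n → ℤ) = 0 := by
      funext i
      simp [ix]
    show Φ x * er (T • ix (0 : Fin n → ℤ)) x = Φ x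
    rw [h4, smul_zero]
    simp [er, lx_apply]
  have h4 := hP.tsum_eq
  rw [hsum.tsum_eq_add_tsum_ite 0, h3] at h4
  rw [← h4, add_sub_cancel_left]
  have h5 : HasSum (fun k : Fin n → ℤ => C * 4 ^ n / T ^ A * w k)
      (C * 4 ^ n / T ^ A * ∑' k : Fin n → ℤ, w k) := hw.hasSum.mul_left _
  have h6 : C * 4 ^ n * (∑' k : Fin n → ℤ, w k) / T ^ A =
      C * 4 ^ n / T ^ A * ∑' k : Fin n → ℤ, w k := by ring
  rw [h6]
  refine tsum_of_norm_bounded h5 fun k => ?_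
  by_cases hk : k = 0
  · rw [if_pos hk, norm_zero]
    have := w_nonneg k
    positivity
  · rw [if_neg hk, hcoef]
    exact hbd k hk

end SMSM

theorem specSMS : SpecSMS := by
  intro n Φ h hs A
  obtain ⟨C, hC⟩ := SMSM.main n (fun x => (Φ x : ℂ)) (Complex.ofRealCLM.contDiff.comp h)
    (hs.comp_left (g := fun x : ℝ => (x : ℂ)) Complex.ofReal_zero) A
  refine ⟨C, fun T hT => ?_⟩
  have h1 := hC T hT
  have h2 : ∀ m : Fin n → ℤ, T⁻¹ • Pool.Agent.Lib.MP_a8dae7_an.CV.POIM.ix m =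
      fun i => (m i : ℝ) / T := by
    intro m
    funext i
    show T⁻¹ * (m i : ℝ) = (m i : ℝ) / T
    rw [div_eq_inv_mul]
  simp only [h2] at h1
  rw [← Complex.ofReal_tsum, integral_complex_ofReal, ← Complex.ofReal_pow, ← Complex.ofReal_mul,
    ← Complex.ofReal_sub, Complex.norm_real, Real.norm_eq_abs] at h1
  exact h1

end Pool.Agent.Lib.MPcb8a44.SX
end

section
/-!
# Theorem X (MP_cb8a44_nt): all modules together
-/
set_option autoImplicit false

namespace Pool.Agent.Lib.MPcb8a44.SX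

theorem kl : SpecKL := specKL (specPART specBAL) (specLAT specSMS)

theorem ent : SpecENT := specENT kl specCONT specDS

theorem nvr : SpecNVR := specNVR specLAND specDS ent

theorem ld : SpecLD := specLD specDS

theorem nvc : SpecNVC := specNVC ld specDS ent

theorem pet : SpecPET := specPET specGRP ent nvr nvc ld specNEG specDS

theorem rec : SpecREC := specREC (specMIE specMIL) (specHH specNS) specBID specGSM

theorem final : SpecFIN :=
  specFIN pet specBAL specSSQ specEIC specLOC specNPL specNRP rec specEXT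

end Pool.Agent.Lib.MPcb8a44.SX
end
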