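import Mathlib

/-!
# Theorem X (MP_cb8a44_nt): definitions

Text: /team-store/MP_cb8a44_nt_X_h58.md.
-/

set_option autoImplicit false

open NumberField Module
open scoped nonZeroDivisors

namespace Pool.Agent.Lib.MPcb8a44.SX

/-- `K` is totally real. -/
def TR (K : Type) [Field K] : Prop := ∀ φ : K →+* ℂ, ∀ x : K, (φ x).im = 0

/-- `x` is totally positive. -/
def TP {K : Type} [Field K] (x : K) : Prop := ∀ φ : K →+* ℂ, 0 < (φ x).re

/-- The vector of the (real) conjugates of `x`. -/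
noncomputable def cj {K : Type} [Field K] (x : K) : (K →+* ℂ) → ℝ := fun φ => (φ x).re

/-- The integral ideals `a` such that `a * j` is generated by an element of positive norm. -/
def Cls {K : Type} [Field K] [NumberField K] (j : Ideal (𝓞 K)) : Set (Ideal (𝓞 K)) :=
  {a | ∃ x : 𝓞 K, 0 < Algebra.norm ℤ x ∧ a * j = Ideal.span {x}}

/-- Smooth functions with compact support in `(0, ∞)`. -/
structure Tst (f : ℝ → ℝ) : Prop where
  smooth : ContDiff ℝ (⊤ : ℕ∞) f
  cpt : HasCompactSupport f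
  pos : tsupport f ⊆ Set.Ioi 0

/-- The units of norm `1`. -/
def U1 (K : Type) [Field K] [NumberField K] : Set (𝓞 K)ˣ := {u | Algebra.norm ℤ (u : 𝓞 K) = 1}

/-- The nonzero ideals. -/
abbrev ID (K : Type) [Field K] [NumberField K] : Type := (Ideal (𝓞 K))⁰

/-- The norm of a nonzero ideal. -/
noncomputable def nn {K : Type} [Field K] [NumberField K] (I : ID K) : ℕ :=
  Ideal.absNorm (I : Ideal (𝓞 K))

/-- The nonzero prime ideals. -/
def PR (K : Type) [Field K] [NumberField K] : Type := {p : ID K // (p : Ideal (𝓞 K)).IsPrime}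

/-- The `n`-th coefficient of the Dirichlet series `∑ g(I) N(I)^(-s)`. -/
noncomputable def cf {K : Type} [Field K] [NumberField K] (g : ID K → ℂ) (n : ℕ) : ℂ :=
  ∑' I : {I : ID K // nn I = n}, g I

/-- The function `∑_p ∑_(k ≥ 1) g(p)^k log N(p) N(p)^(-ks)`. -/
noncomputable def Dt {K : Type} [Field K] [NumberField K] (g : ID K → ℂ) (s : ℂ) : ℂ :=
  ∑' x : PR K × ℕ, g x.1.1 ^ (x.2 + 1) * (Real.log (nn x.1.1) : ℂ) *
    (nn x.1.1 : ℂ) ^ (-(((x.2 + 1 : ℕ) : ℂ) * s))

/-- `c` is the class map onto the group of ideals modulo the `(x)` with `Norm x > 0`. -/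
def IsCl {K : Type} [Field K] [NumberField K] {G : Type} [CommGroup G] (c : ID K →* G) : Prop :=
  Function.Surjective c ∧ ∀ I J : ID K, c I = c J ↔ ∃ x y : 𝓞 K, 0 < Algebra.norm ℤ x ∧
    0 < Algebra.norm ℤ y ∧ Ideal.span {x} * (I : Ideal (𝓞 K)) = Ideal.span {y} * (J : Ideal (𝓞 K))

/-- The function on ideals of a character of the class group. -/
noncomputable def chf {K : Type} [Field K] [NumberField K] {G : Type} [CommGroup G] (c : ID K →* G)
    (ψ : G →* ℂˣ) : ID K → ℂ := fun I => (ψ (c I) : ℂ)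

/-- `E = K(θ)`, `θ² = -t`, with its automorphism `σ` over `K`. -/
structure QE (K E : Type) [Field K] [NumberField K] [Field E] [NumberField E] [Algebra K E]
    (t : K) where
  θ : E
  σ : E ≃ₐ[K] E
  hθ : θ ^ 2 = -algebraMap K E t
  hσ : σ θ = -θ
  rep : ∀ z : E, ∃ a b : K, z = algebraMap K E a + algebraMap K E b * θ

/-- The automorphism `σ` on the integers of `E`. -/
noncomputable def QE.s {K E : Type} [Field K] [NumberField K] [Field E] [NumberField E]
    [Algebra K E] {t : K} (q : QE K E t) : 𝓞 E →+* 𝓞 E :=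
  RingOfIntegers.mapRingHom (q.σ : E →+* E)

/-- The prime `p` of `K` is the norm of an ideal of `E`. -/
def NP {K E : Type} [Field K] [NumberField K] [Field E] [NumberField E] [Algebra K E] {t : K}
    (q : QE K E t) (p : Ideal (𝓞 K)) : Prop :=
  ∃ P : Ideal (𝓞 E), P * P.map q.s = p.map (algebraMap (𝓞 K) (𝓞 E))

/-- The data which make `K(√-t)` unramified at the finite primes and split above `2`. -/
structure UR {K : Type} [Field K] [NumberField K] (t s r : 𝓞 K) (a : Ideal (𝓞 K)) : Prop where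
  ne : t ≠ 0
  sq : a ^ 2 = Ideal.span {t}
  eq : s ^ 2 + t = 8 * t * r

/-- The dual of `B` for the form `Tr (z σ(w) / Y)`. -/
def Dl {K E : Type} [Field K] [NumberField K] [Field E] [NumberField E] [Algebra K E] {t : K}
    (q : QE K E t) (B : Ideal (𝓞 E)) (Y : 𝓞 K) : Set E :=
  {w | ∀ b ∈ B, ∃ k : ℤ, Algebra.trace ℚ E ((b : E) * q.σ w / algebraMap K E (Y : K)) = k}

/-- `R` is a set of representatives of `S` modulo `B`. -/
def Rps {E : Type} [Field E] [NumberField E] (S : Set E) (B : Ideal (𝓞 E)) (R : Finset E) : Prop :=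
  (∀ w ∈ R, w ∈ S) ∧ ∀ w ∈ S, ∃! r : E, r ∈ R ∧ ∃ b ∈ B, w - r = (b : E)

/-- The Gauss sum `∑_(w ∈ R) exp(-π i Tr(w σ(w) / Y))`. -/
noncomputable def Gs {K E : Type} [Field K] [NumberField K] [Field E] [NumberField E] [Algebra K E]
    {t : K} (q : QE K E t) (Y : 𝓞 K) (R : Finset E) : ℂ :=
  ∑ w ∈ R, Complex.exp (-(Real.pi * Complex.I *
    ((Algebra.trace ℚ E (w * q.σ w / algebraMap K E (Y : K)) : ℚ) : ℂ)))

/-- The order of `Y` at `p` is even. -/
def Evn {K : Type} [Field K] [NumberField K] (p : Ideal (𝓞 K)) (Y : 𝓞 K) : Prop :=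
  ∃ k : ℕ, Y ∈ p ^ (2 * k) ∧ Y ∉ p ^ (2 * k + 1)

/-- The scalar product in `O^3`. -/
def dt {R : Type} [CommRing R] (v w : Fin 3 → R) : R := v 0 * w 0 + v 1 * w 1 + v 2 * w 2

end Pool.Agent.Lib.MPcb8a44.SX
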